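import Mathlib

/-!
# Counting chains: the generating function of weakly increasing sequences with prescribed strict steps
-/

set_option autoImplicit false

open Finset

namespace Pool.Agent.Helper43.Chain

/-- Sequences `f 0 ≤ f 1 ≤ ...` with values `< n` where `f i = f j` (`i < j`) forces `g j < g i`. -/
def VS (d : ℕ) (g : Fin d → ℕ) (n : ℕ) : Finset (Fin d → ℕ) :=
  (Fintype.piFinset fun _ => range n).filter
    (fun f => ∀ i j, i < j → f i ≤ f j ∧ (f i = f j → g j < g i))

lemma mem_VS {d : ℕ} {g : Fin d → ℕ} {n : ℕ} {f : Fin d → ℕ} :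
    f ∈ VS d g n ↔ (∀ i, f i < n) ∧ ∀ i j, i < j → f i ≤ f j ∧ (f i = f j → g j < g i) := by
  simp [VS]

lemma card_VS_zero_bound (d : ℕ) (g : Fin (d + 1) → ℕ) : (VS (d + 1) g 0).card = 0 := by
  rw [card_eq_zero, eq_empty_iff_forall_notMem]
  intro f hf
  have := (mem_VS.mp hf).1 0
  omega

lemma card_VS_one (g : Fin 1 → ℕ) (n : ℕ) : (VS 1 g n).card = n := by
  have : (VS 1 g n).card = (range n).card := by
    apply card_bij (fun f _ => f 0)
    · intro f hf
      exact mem_range.mpr ((mem_VS.mp hf).1 0)
    · intro f _ f' _ h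
      funext i
      rw [Fin.fin_one_eq_zero i]
      exact h
    · intro m hm
      refine ⟨fun _ => m, ?_, rfl⟩
      rw [mem_VS]
      refine ⟨fun _ => mem_range.mp hm, ?_⟩
      intro i j hij
      rw [Fin.fin_one_eq_zero i, Fin.fin_one_eq_zero j] at hij
      exact absurd hij (lt_irrefl _)
  rw [this, card_range]

/-- The bound on the initial segment, once the last value is `m`. -/
def bnd (d : ℕ) (g : Fin (d + 2) → ℕ) (m : ℕ) : ℕ :=
  if g (Fin.last (d + 1)) < g (Fin.last d).castSucc then m + 1 else m

lemma card_fiber (d : ℕ) (g : Fin (d + 2) → ℕ) (n m : ℕ) (hm : m < n) :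
    ((VS (d + 2) g n).filter (fun f => f (Fin.last (d + 1)) = m)).card =
      (VS (d + 1) (fun i => g i.castSucc) (bnd d g m)).card := by
  apply card_bij (fun f _ => fun i : Fin (d + 1) => f i.castSucc)
  · intro f hf
    rw [mem_filter, mem_VS] at hf
    obtain ⟨⟨h1, h2⟩, h3⟩ := hf
    rw [mem_VS]
    constructor
    · intro i
      have h4 : f i.castSucc ≤ f (Fin.last d).castSucc := by
        rcases (Fin.le_last i).lt_or_eq with h | h
        · exact (h2 _ _ (Fin.castSucc_lt_castSucc_iff.mpr h)).1
        · rw [h]
      have h5 := h2 (Fin.last d).castSucc (Fin.last (d + 1)) (Fin.castSucc_lt_last _)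
      rw [h3] at h5
      unfold bnd
      split_ifs with hg
      · omega
      · rcases h5.1.lt_or_eq with h6 | h6
        · omega
        · exact absurd (h5.2 h6) hg
    · intro i j hij
      exact h2 _ _ (Fin.castSucc_lt_castSucc_iff.mpr hij)
  · intro f hf f' hf' h
    rw [mem_filter] at hf hf'
    funext i
    induction i using Fin.lastCases with
    | last => rw [hf.2, hf'.2]
    | cast i => exact congrFun h i
  · intro f hf
    rw [mem_VS] at hf
    obtain ⟨h1, h2⟩ := hf
    refine ⟨Fin.snoc (α := fun _ => ℕ) f m, ?_, ?_⟩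
    · rw [mem_filter, mem_VS]
      have hb : bnd d g m ≤ m + 1 := by
        unfold bnd
        split_ifs <;> omega
      refine ⟨⟨?_, ?_⟩, by simp⟩
      · intro i
        induction i using Fin.lastCases with
        | last => simpa using hm
        | cast i =>
          rw [Fin.snoc_castSucc]
          have := h1 i
          omega
      · intro i j hij
        induction j using Fin.lastCases with
        | last =>
          induction i using Fin.lastCases with
          | last => exact absurd hij (lt_irrefl _)
          | cast i =>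
            rw [Fin.snoc_castSucc, Fin.snoc_last]
            have h3 := h1 i
            refine ⟨by omega, ?_⟩
            intro h4
            have h5 : g (Fin.last (d + 1)) < g (Fin.last d).castSucc := by
              by_contra hg
              unfold bnd at h3
              rw [if_neg hg] at h3
              omega
            rcases (Fin.le_last i).lt_or_eq with h6 | h6
            · have h7 := h2 i (Fin.last d) h6
              have h8 := h1 (Fin.last d)
              have h9 : f i = f (Fin.last d) := by omega
              exact h5.trans (h7.2 h9)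
            · rw [h6]
              exact h5
        | cast j =>
          induction i using Fin.lastCases with
          | last =>
            exact absurd (hij.trans (Fin.castSucc_lt_last j)) (lt_irrefl _)
          | cast i =>
            rw [Fin.snoc_castSucc, Fin.snoc_castSucc]
            exact h2 i j (Fin.castSucc_lt_castSucc_iff.mp hij)
    · funext i
      rw [Fin.snoc_castSucc]

lemma card_VS_succ (d : ℕ) (g : Fin (d + 2) → ℕ) (n : ℕ) :
    (VS (d + 2) g n).card =
      ∑ m ∈ range n, (VS (d + 1) (fun i => g i.castSucc) (bnd d g m)).card := by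
  rw [card_eq_sum_card_fiberwise (f := fun f : Fin (d + 2) → ℕ => f (Fin.last (d + 1)))
    (t := range n)]
  · apply sum_congr rfl
    intro m hm
    exact card_fiber d g n m (mem_range.mp hm)
  · intro f hf
    simp only [coe_range, Set.mem_Iio]
    exact (mem_VS.mp hf).1 _

/-- The generating function `∑ₙ |VS d g n| zⁿ`. -/
noncomputable def P (d : ℕ) (g : Fin d → ℕ) : PowerSeries ℤ :=
  PowerSeries.mk fun n => ((VS d g n).card : ℤ)

lemma one_sub_X_mul (u : ℕ → ℤ) (n : ℕ) :
    PowerSeries.coeff n ((1 - PowerSeries.X) * PowerSeries.mk u) =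
      u n - (if n = 0 then 0 else u (n - 1)) := by
  rw [sub_mul, one_mul, map_sub, PowerSeries.coeff_mk]
  congr 1
  cases n with
  | zero => simp
  | succ n => simp [PowerSeries.coeff_succ_X_mul]

lemma P_succ (d : ℕ) (g : Fin (d + 2) → ℕ) :
    (1 - PowerSeries.X) * P (d + 2) g =
      (if g (Fin.last (d + 1)) < g (Fin.last d).castSucc then 1 else PowerSeries.X) *
        P (d + 1) (fun i => g i.castSucc) := by
  ext n
  unfold P
  rw [one_sub_X_mul]
  cases n with
  | zero =>
    rw [card_VS_zero_bound, if_pos rfl]
    by_cases hg : g (Fin.last (d + 1)) < g (Fin.last d).castSucc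
    · rw [if_pos hg, one_mul, PowerSeries.coeff_mk, card_VS_zero_bound]
      simp
    · rw [if_neg hg]
      simp
  | succ n =>
    rw [card_VS_succ, card_VS_succ, sum_range_succ]
    simp only [Nat.add_eq_zero_iff, one_ne_zero, and_false, if_false, Nat.add_sub_cancel,
      Nat.cast_add, Nat.cast_sum, add_sub_cancel_left]
    unfold bnd
    split_ifs with hg
    · rw [one_mul, PowerSeries.coeff_mk]
    · rw [PowerSeries.coeff_succ_X_mul, PowerSeries.coeff_mk]

lemma P_one (g : Fin 1 → ℕ) : (1 - PowerSeries.X) ^ 2 * P 1 g = PowerSeries.X := by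
  have h1 : (1 - PowerSeries.X) * P 1 g =
      PowerSeries.mk (fun n => if n = 0 then (0 : ℤ) else 1) := by
    ext n
    unfold P
    rw [one_sub_X_mul, PowerSeries.coeff_mk, card_VS_one]
    cases n with
    | zero => simp
    | succ n => simp [card_VS_one]
  rw [pow_two, mul_assoc, h1]
  ext n
  rw [one_sub_X_mul]
  rcases n with _ | _ | n
  · simp
  · simp
  · simp [PowerSeries.coeff_X]

/-- Main lemma: `(1 - z)^(d+1) ∑ₙ |VS d g n| zⁿ = z^a` for some `1 ≤ a ≤ d`. -/
theorem P_eq (d : ℕ) : ∀ g : Fin (d + 1) → ℕ, ∃ a, 1 ≤ a ∧ a ≤ d + 1 ∧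
    (1 - PowerSeries.X) ^ (d + 2) * P (d + 1) g = PowerSeries.X ^ a := by
  induction d with
  | zero =>
    intro g
    exact ⟨1, le_refl _, le_refl _, by rw [pow_one]; exact P_one g⟩
  | succ d ih =>
    intro g
    obtain ⟨a, h1, h2, h3⟩ := ih (fun i => g i.castSucc)
    have h4 : (1 - PowerSeries.X) ^ (d + 1 + 2) * P (d + 1 + 1) g =
        (if g (Fin.last (d + 1)) < g (Fin.last d).castSucc then 1 else PowerSeries.X) *
          PowerSeries.X ^ a := by
      rw [pow_succ, mul_assoc, P_succ, ← h3]
      ring
    rw [h4]
    split_ifs with hg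
    · exact ⟨a, h1, by omega, by rw [one_mul]⟩
    · exact ⟨a + 1, by omega, by omega, by rw [pow_succ']⟩

end Pool.Agent.Helper43.Chain
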