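import Mathlib
import Pool.Agent.Helper43.Chain

/-!
# Nonnegativity of the numerator of the chromatic generating function
-/

set_option autoImplicit false

open Finset

namespace Pool.Agent.Helper43.Coloring

open Pool.Agent.Helper43.Chain

universe u

variable {V : Type u} [Fintype V]

/-- The number of proper colourings of `G` with `n` colours. -/
noncomputable def chi {V : Type u} (G : SimpleGraph V) (n : ℕ) : ℕ := Nat.card (G.Coloring (Fin n))

/-- `∑ₙ χ_G(n) zⁿ`. -/
noncomputable def gen {V : Type u} (G : SimpleGraph V) : PowerSeries ℤ :=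
  PowerSeries.mk fun n => (chi G n : ℤ)

open Classical in
/-- Proper colourings as functions to `ℕ` with values `< n`. -/
noncomputable def PC (G : SimpleGraph V) (n : ℕ) : Finset (V → ℕ) :=
  (Fintype.piFinset fun _ => range n).filter (fun φ => ∀ u v, G.Adj u v → φ u ≠ φ v)

lemma mem_PC {G : SimpleGraph V} {n : ℕ} {φ : V → ℕ} :
    φ ∈ PC G n ↔ (∀ v, φ v < n) ∧ ∀ u v, G.Adj u v → φ u ≠ φ v := by
  simp [PC]

lemma chi_eq (G : SimpleGraph V) (n : ℕ) : chi G n = (PC G n).card := by
  classical
  unfold chi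
  rw [← Nat.card_eq_finsetCard]
  refine Nat.card_congr ⟨fun c => ⟨fun v => (c v : ℕ), ?_⟩, fun φ =>
    ⟨fun v => ⟨φ.1 v, (mem_PC.mp φ.2).1 v⟩, ?_⟩, ?_, ?_⟩
  · rw [mem_PC]
    refine ⟨fun v => (c v).2, fun u v h he => ?_⟩
    exact c.valid h (Fin.ext he)
  · intro u v h
    simp only [SimpleGraph.top_adj, ne_eq, Fin.mk.injEq]
    exact (mem_PC.mp φ.2).2 u v h
  · intro c
    rfl
  · intro φ
    rfl

open Classical in
/-- A natural labelling of the relation `r`, if there is one. -/
noncomputable def natLab (r : V → V → Prop) : V → ℕ :=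
  if h : ∃ ω : V → ℕ, Function.Injective ω ∧ ∀ u v, r u v → ω u < ω v then h.choose else fun _ => 0

omit [Fintype V] in
lemma natLab_spec {r : V → V → Prop}
    (h : ∃ ω : V → ℕ, Function.Injective ω ∧ ∀ u v, r u v → ω u < ω v) :
    Function.Injective (natLab r) ∧ ∀ u v, r u v → natLab r u < natLab r v := by
  unfold natLab
  rw [dif_pos h]
  exact h.choose_spec

/-- The orientation of `G` induced by a linear order of the vertices. -/
def rho {d : ℕ} (G : SimpleGraph V) (pos : V ≃ Fin d) : V → V → Prop :=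
  fun u v => G.Adj u v ∧ pos u < pos v

lemma rho_nat {d : ℕ} (G : SimpleGraph V) (pos : V ≃ Fin d) :
    Function.Injective (natLab (rho G pos)) ∧
      ∀ u v, rho G pos u v → natLab (rho G pos) u < natLab (rho G pos) v := by
  apply natLab_spec
  exact ⟨fun v => (pos v : ℕ), fun u v h => pos.injective (Fin.ext h), fun u v h => h.2⟩

open Classical in
/-- The colourings sorted by `pos`. -/
noncomputable def CP {d : ℕ} (G : SimpleGraph V) (n : ℕ) (pos : V ≃ Fin d) : Finset (V → ℕ) :=
  (Fintype.piFinset fun _ => range n).filter (fun φ => ∀ u v, pos u < pos v →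
    φ u ≤ φ v ∧ (φ u = φ v → natLab (rho G pos) v < natLab (rho G pos) u))

lemma mem_CP {d : ℕ} {G : SimpleGraph V} {n : ℕ} {pos : V ≃ Fin d} {φ : V → ℕ} :
    φ ∈ CP G n pos ↔ (∀ v, φ v < n) ∧ ∀ u v, pos u < pos v →
      φ u ≤ φ v ∧ (φ u = φ v → natLab (rho G pos) v < natLab (rho G pos) u) := by
  simp [CP]

lemma card_CP {d : ℕ} (G : SimpleGraph V) (n : ℕ) (pos : V ≃ Fin d) :
    (CP G n pos).card = (VS d (fun i => natLab (rho G pos) (pos.symm i)) n).card := by
  apply card_bij (fun φ _ => fun i => φ (pos.symm i))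
  · intro φ hφ
    rw [mem_CP] at hφ
    rw [mem_VS]
    refine ⟨fun i => hφ.1 _, fun i j hij => ?_⟩
    exact hφ.2 _ _ (by simpa using hij)
  · intro φ _ φ' _ h
    funext v
    have := congrFun h (pos v)
    simpa using this
  · intro f hf
    rw [mem_VS] at hf
    refine ⟨fun v => f (pos v), ?_, by simp⟩
    rw [mem_CP]
    refine ⟨fun v => hf.1 _, fun u v huv => ?_⟩
    have := hf.2 _ _ huv
    simpa using this

/-- In a colouring sorted by `pos`, adjacent vertices get different colours. -/
lemma CP_lt {d : ℕ} {G : SimpleGraph V} {n : ℕ} {pos : V ≃ Fin d} {φ : V → ℕ}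
    (h : φ ∈ CP G n pos) {u v : V} (huv : G.Adj u v) (hp : pos u < pos v) : φ u < φ v := by
  rw [mem_CP] at h
  have h1 := h.2 u v hp
  rcases h1.1.lt_or_eq with h2 | h2
  · exact h2
  · exact absurd ((rho_nat G pos).2 u v ⟨huv, hp⟩) (h1.2 h2).not_gt

lemma CP_subset_PC {d : ℕ} {G : SimpleGraph V} {n : ℕ} {pos : V ≃ Fin d} :
    CP G n pos ⊆ PC G n := by
  intro φ h
  rw [mem_PC]
  refine ⟨(mem_CP.mp h).1, fun u v huv => ?_⟩
  rcases lt_trichotomy (pos u) (pos v) with hp | hp | hp
  · exact (CP_lt h huv hp).ne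
  · exact absurd (pos.injective hp) huv.ne
  · exact (CP_lt h huv.symm hp).ne'

lemma CP_rho {d : ℕ} {G : SimpleGraph V} {n : ℕ} {pos : V ≃ Fin d} {φ : V → ℕ}
    (h : φ ∈ CP G n pos) : rho G pos = fun u v => G.Adj u v ∧ φ u < φ v := by
  funext u v
  unfold rho
  apply propext
  constructor
  · rintro ⟨h1, h2⟩
    exact ⟨h1, CP_lt h h1 h2⟩
  · rintro ⟨h1, h2⟩
    refine ⟨h1, ?_⟩
    rcases lt_trichotomy (pos u) (pos v) with hp | hp | hp
    · exact hp
    · exact absurd (pos.injective hp) h1.ne
    · exact absurd (CP_lt h h1.symm hp) h2.not_gt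

lemma CP_iff {d : ℕ} {G : SimpleGraph V} {n : ℕ} {pos : V ≃ Fin d} {φ : V → ℕ}
    (h : φ ∈ CP G n pos) (u v : V) : pos u < pos v ↔
      (φ u < φ v ∨ (φ u = φ v ∧ natLab (rho G pos) v < natLab (rho G pos) u)) := by
  have key : ∀ u v, pos u < pos v →
      (φ u < φ v ∨ (φ u = φ v ∧ natLab (rho G pos) v < natLab (rho G pos) u)) := by
    intro u v huv
    have h1 := (mem_CP.mp h).2 u v huv
    rcases h1.1.lt_or_eq with h2 | h2
    · exact Or.inl h2
    · exact Or.inr ⟨h2, h1.2 h2⟩
  constructor
  · exact key u v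
  · intro h2
    rcases lt_trichotomy (pos u) (pos v) with hp | hp | hp
    · exact hp
    · have := pos.injective hp
      subst this
      rcases h2 with h3 | h3
      · exact absurd h3 (lt_irrefl _)
      · exact absurd h3.2 (lt_irrefl _)
    · rcases key v u hp with h3 | h3 <;> rcases h2 with h4 | h4 <;> omega

lemma CP_unique {d : ℕ} {G : SimpleGraph V} {n : ℕ} {pos pos' : V ≃ Fin d} {φ : V → ℕ}
    (h : φ ∈ CP G n pos) (h' : φ ∈ CP G n pos') : pos = pos' := by
  have h1 : rho G pos = rho G pos' := by rw [CP_rho h, CP_rho h']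
  have h2 : ∀ u v, pos u < pos v ↔ pos' u < pos' v := by
    intro u v
    rw [CP_iff h, CP_iff h', h1]
  have h3 : ∀ i j : Fin d, (pos.symm.trans pos') i ≤ (pos.symm.trans pos') j ↔ i ≤ j := by
    intro i j
    rw [← not_lt, ← not_lt]
    simp only [Equiv.trans_apply]
    rw [← h2]
    simp
  have h4 : (⟨pos.symm.trans pos', fun {a b} => h3 a b⟩ : Fin d ≃o Fin d) = OrderIso.refl _ :=
    Subsingleton.elim _ _
  ext v
  have h5 := DFunLike.congr_fun h4 (pos v)
  have h6 : pos' v = pos v := by simpa using h5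
  rw [h6]

/-- Sorting by an injective key. -/
lemma exists_sort {L : Type*} [LinearOrder L] {d : ℕ} (hd : Fintype.card V = d) (k : V → L)
    (hk : Function.Injective k) : ∃ pos : V ≃ Fin d, ∀ u v, pos u < pos v ↔ k u < k v := by
  classical
  have hs : (univ.image k).card = d := by
    rw [card_image_of_injective _ hk, card_univ, hd]
  let iso := (univ.image k).orderIsoOfFin hs
  have hb : Function.Bijective
      (fun v => (⟨k v, mem_image_of_mem k (mem_univ v)⟩ : (univ.image k : Finset L))) := by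
    constructor
    · intro u v h
      exact hk (Subtype.ext_iff.mp h)
    · rintro ⟨l, hl⟩
      obtain ⟨v, _, hv⟩ := mem_image.mp hl
      exact ⟨v, Subtype.ext hv⟩
  refine ⟨(Equiv.ofBijective _ hb).trans iso.symm.toEquiv, fun u v => ?_⟩
  simp only [Equiv.trans_apply, Equiv.ofBijective_apply, RelIso.coe_fn_toEquiv]
  rw [iso.symm.lt_iff_lt]
  exact Subtype.mk_lt_mk

lemma exists_CP {d : ℕ} (hd : Fintype.card V = d) {G : SimpleGraph V} {n : ℕ} {φ : V → ℕ}
    (h : φ ∈ PC G n) : ∃ pos : V ≃ Fin d, φ ∈ CP G n pos := by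
  classical
  rw [mem_PC] at h
  -- a natural labelling for the orientation induced by `φ`
  let r : V → V → Prop := fun u v => G.Adj u v ∧ φ u < φ v
  have hr : ∃ ω : V → ℕ, Function.Injective ω ∧ ∀ u v, r u v → ω u < ω v := by
    let e : V ≃ Fin d := (Fintype.equivFinOfCardEq hd)
    obtain ⟨pos, hpos⟩ := exists_sort hd (fun v => toLex (φ v, e v)) (by
      intro u v h
      have h1 : (φ u, e u) = (φ v, e v) := toLex.injective h
      exact e.injective (Prod.ext_iff.mp h1).2)
    refine ⟨fun v => (pos v : ℕ), fun u v h => pos.injective (Fin.ext h), fun u v huv => ?_⟩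
    have : pos u < pos v := (hpos u v).mpr (by
      rw [Prod.Lex.toLex_lt_toLex]
      exact Or.inl huv.2)
    exact this
  obtain ⟨ho1, ho2⟩ := natLab_spec hr
  obtain ⟨pos, hpos⟩ := exists_sort hd (fun v => toLex (φ v, -(natLab r v : ℤ))) (by
    intro u v h
    have h1 : (φ u, -(natLab r u : ℤ)) = (φ v, -(natLab r v : ℤ)) := toLex.injective h
    have h2 := (Prod.ext_iff.mp h1).2
    simp only [neg_inj, Nat.cast_inj] at h2
    exact ho1 h2)
  have hpos' : ∀ u v, pos u < pos v ↔ (φ u < φ v ∨ (φ u = φ v ∧ natLab r v < natLab r u)) := by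
    intro u v
    rw [hpos, Prod.Lex.toLex_lt_toLex]
    simp only [neg_lt_neg_iff, Nat.cast_lt]
  have hrho : rho G pos = r := by
    funext u v
    apply propext
    unfold rho
    constructor
    · rintro ⟨h1, h2⟩
      refine ⟨h1, ?_⟩
      rcases (hpos' u v).mp h2 with h3 | h3
      · exact h3
      · exact absurd h3.1 (h.2 u v h1)
    · rintro ⟨h1, h2⟩
      exact ⟨h1, (hpos' u v).mpr (Or.inl h2)⟩
  refine ⟨pos, ?_⟩
  rw [mem_CP, hrho]
  refine ⟨h.1, fun u v huv => ?_⟩
  rcases (hpos' u v).mp huv with h3 | h3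
  · exact ⟨h3.le, fun h4 => absurd h4 h3.ne⟩
  · exact ⟨h3.1.le, fun _ => h3.2⟩

open Classical in
lemma chi_eq_sum {d : ℕ} (hd : Fintype.card V = d) (G : SimpleGraph V) (n : ℕ) :
    chi G n = ∑ pos : V ≃ Fin d, (VS d (fun i => natLab (rho G pos) (pos.symm i)) n).card := by
  classical
  rw [chi_eq]
  have h1 : PC G n = (univ : Finset (V ≃ Fin d)).biUnion (fun pos => CP G n pos) := by
    ext φ
    rw [mem_biUnion]
    constructor
    · intro h
      obtain ⟨pos, hpos⟩ := exists_CP hd h
      exact ⟨pos, mem_univ _, hpos⟩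
    · rintro ⟨pos, _, h⟩
      exact CP_subset_PC h
  rw [h1, card_biUnion]
  · apply sum_congr rfl
    intro pos _
    exact card_CP G n pos
  · intro pos _ pos' _ hne
    rw [Function.onFun, disjoint_left]
    intro φ h h'
    exact hne (CP_unique h h')

/-- `(1 - z)^(k+1) F` is a polynomial of degree at most `k` with nonnegative coefficients and zero
constant coefficient. -/
def Good (k : ℕ) (F : PowerSeries ℤ) : Prop :=
  ∃ p : Polynomial ℤ, (p : PowerSeries ℤ) = (1 - PowerSeries.X) ^ (k + 1) * F ∧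
    (∀ i, 0 ≤ p.coeff i) ∧ p.coeff 0 = 0 ∧ p.natDegree ≤ k

lemma Good.zero (k : ℕ) : Good k 0 := ⟨0, by simp, by simp, by simp, by simp⟩

lemma Good.add {k : ℕ} {F F' : PowerSeries ℤ} (h : Good k F) (h' : Good k F') :
    Good k (F + F') := by
  obtain ⟨p, h1, h2, h3, h4⟩ := h
  obtain ⟨p', h1', h2', h3', h4'⟩ := h'
  refine ⟨p + p', ?_, ?_, ?_, ?_⟩
  · rw [Polynomial.coe_add, h1, h1']
    ring
  · intro i
    rw [Polynomial.coeff_add]
    exact add_nonneg (h2 i) (h2' i)
  · rw [Polynomial.coeff_add, h3, h3', add_zero]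
  · exact (Polynomial.natDegree_add_le _ _).trans (max_le h4 h4')

lemma Good.sum {ι : Type*} (s : Finset ι) {k : ℕ} (F : ι → PowerSeries ℤ)
    (h : ∀ i ∈ s, Good k (F i)) : Good k (∑ i ∈ s, F i) := by
  classical
  induction s using Finset.induction_on with
  | empty => simpa using Good.zero k
  | insert a s ha ih =>
    rw [sum_insert ha]
    exact (h a (mem_insert_self _ _)).add (ih fun i hi => h i (mem_insert_of_mem hi))

lemma good_P (d : ℕ) (g : Fin (d + 1) → ℕ) : Good (d + 1) (P (d + 1) g) := by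
  obtain ⟨a, h1, h2, h3⟩ := P_eq d g
  refine ⟨Polynomial.X ^ a, ?_, ?_, ?_, ?_⟩
  · rw [h3]
    simp
  · intro i
    rw [Polynomial.coeff_X_pow]
    split_ifs <;> simp
  · rw [Polynomial.coeff_X_pow, if_neg (by omega)]
  · rw [Polynomial.natDegree_X_pow]
    exact h2

/-- The numerator of the chromatic generating function has nonnegative coefficients. -/
theorem good_gen {d : ℕ} (hd : Fintype.card V = d + 1) (G : SimpleGraph V) :
    Good (d + 1) (gen G) := by
  classical
  have h1 : gen G = ∑ pos : V ≃ Fin (d + 1),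
      P (d + 1) (fun i => natLab (rho G pos) (pos.symm i)) := by
    ext n
    unfold gen
    rw [map_sum, PowerSeries.coeff_mk, chi_eq_sum hd]
    unfold P
    simp only [PowerSeries.coeff_mk, Nat.cast_sum]
  rw [h1]
  exact Good.sum _ _ fun pos _ => good_P d _

/-! ### Deletion and contraction -/

/-- The contraction of the edge `uv`, with `v` removed. -/
def contract {V : Type u} (G : SimpleGraph V) (u v : V) : SimpleGraph {x : V // x ≠ v} where
  Adj x y := x ≠ y ∧ (G.Adj x y ∨ ((x : V) = u ∧ G.Adj v y) ∨ ((y : V) = u ∧ G.Adj v x))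
  symm := ⟨by
    rintro x y ⟨h1, h2⟩
    refine ⟨h1.symm, ?_⟩
    rcases h2 with h2 | h2 | h2
    · exact Or.inl h2.symm
    · exact Or.inr (Or.inr h2)
    · exact Or.inr (Or.inl h2)⟩
  loopless := ⟨fun x h => h.1 rfl⟩

/-- Deletion of the edge `uv`. -/
abbrev del {V : Type u} (G : SimpleGraph V) (u v : V) : SimpleGraph V := G.deleteEdges {s(u, v)}

lemma card_del_eq (G : SimpleGraph V) {u v : V} (huv : G.Adj u v) (n : ℕ) :
    chi (del G u v) n = chi G n + chi (contract G u v) n := by
  classical
  rw [chi_eq, chi_eq, chi_eq]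
  have h1 : (PC (del G u v) n).filter (fun φ => φ u ≠ φ v) = PC G n := by
    ext φ
    rw [mem_filter, mem_PC, mem_PC]
    constructor
    · rintro ⟨⟨h1, h2⟩, h3⟩
      refine ⟨h1, fun x y hxy => ?_⟩
      by_cases he : s(x, y) = s(u, v)
      · rw [Sym2.eq_iff] at he
        rcases he with ⟨rfl, rfl⟩ | ⟨rfl, rfl⟩
        · exact h3
        · exact h3.symm
      · exact h2 x y (by rw [SimpleGraph.deleteEdges_adj]; exact ⟨hxy, he⟩)
    · rintro ⟨h1, h2⟩
      refine ⟨⟨h1, fun x y hxy => ?_⟩, h2 u v huv⟩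
      rw [SimpleGraph.deleteEdges_adj] at hxy
      exact h2 x y hxy.1
  have h2 : ((PC (del G u v) n).filter (fun φ => ¬ (φ u ≠ φ v))).card =
      (PC (contract G u v) n).card := by
    apply card_bij (fun φ _ => fun x : {x : V // x ≠ v} => φ x)
    · intro φ hφ
      rw [mem_filter, mem_PC, not_not] at hφ
      obtain ⟨⟨h3, h4⟩, h5⟩ := hφ
      rw [mem_PC]
      refine ⟨fun x => h3 x, ?_⟩
      rintro ⟨x, hx⟩ ⟨y, hy⟩ ⟨hne, hxy⟩
      simp only [ne_eq, Subtype.mk.injEq] at hne
      simp only at hxy ⊢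
      have hA : ∀ a b, G.Adj a b → s(a, b) ≠ s(u, v) → φ a ≠ φ b := fun a b hab he =>
        h4 a b (by rw [SimpleGraph.deleteEdges_adj]; exact ⟨hab, he⟩)
      rcases hxy with h6 | ⟨h6, h7⟩ | ⟨h6, h7⟩
      · apply hA x y h6
        intro he
        rw [Sym2.eq_iff] at he
        rcases he with ⟨_, h8⟩ | ⟨h8, _⟩
        · exact hy h8
        · exact hx h8
      · subst h6
        rw [h5]
        apply hA v y h7
        intro he
        rw [Sym2.eq_iff] at he
        rcases he with ⟨h8, _⟩ | ⟨_, h8⟩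
        · exact hx h8.symm
        · exact hne h8.symm
      · subst h6
        rw [h5]
        apply Ne.symm
        apply hA v x h7
        intro he
        rw [Sym2.eq_iff] at he
        rcases he with ⟨h8, _⟩ | ⟨_, h8⟩
        · exact hy h8.symm
        · exact hne h8
    · intro φ hφ φ' hφ' h
      rw [mem_filter, not_not] at hφ hφ'
      funext x
      by_cases hx : x = v
      · rw [hx, ← hφ.2, ← hφ'.2]
        exact congrFun h ⟨u, huv.ne⟩
      · exact congrFun h ⟨x, hx⟩
    · intro ψ hψ
      rw [mem_PC] at hψ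
      obtain ⟨h3, h4⟩ := hψ
      let φ : V → ℕ := fun x => if hx : x = v then ψ ⟨u, huv.ne⟩ else ψ ⟨x, hx⟩
      have hφv : φ v = ψ ⟨u, huv.ne⟩ := dif_pos rfl
      have hφx : ∀ x (hx : x ≠ v), φ x = ψ ⟨x, hx⟩ := fun x hx => dif_neg hx
      refine ⟨φ, ?_, ?_⟩
      · rw [mem_filter, mem_PC, not_not]
        refine ⟨⟨?_, ?_⟩, ?_⟩
        · intro x
          by_cases hx : x = v
          · rw [hx, hφv]
            exact h3 _
          · rw [hφx x hx]
            exact h3 _
        · intro x y hxy
          rw [SimpleGraph.deleteEdges_adj] at hxy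
          obtain ⟨hxy, he⟩ := hxy
          simp only [Set.mem_singleton_iff, Sym2.eq_iff, not_or, not_and] at he
          by_cases hx : x = v
          · subst hx
            have hy : y ≠ x := hxy.ne'
            have hyu : y ≠ u := fun h => he.2 rfl h
            rw [hφv, hφx y hy]
            apply h4
            exact ⟨fun h => hyu (Subtype.ext_iff.mp h).symm, Or.inr (Or.inl ⟨rfl, hxy⟩)⟩
          · by_cases hy : y = v
            · subst hy
              have hxu : x ≠ u := fun h => he.1 h rfl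
              rw [hφv, hφx x hx]
              apply h4
              exact ⟨fun h => hxu (Subtype.ext_iff.mp h), Or.inr (Or.inr ⟨rfl, hxy.symm⟩)⟩
            · rw [hφx x hx, hφx y hy]
              apply h4
              exact ⟨fun h => hxy.ne (Subtype.ext_iff.mp h), Or.inl hxy⟩
        · rw [hφv, hφx u huv.ne]
      · funext x
        exact hφx x x.2
  rw [← card_filter_add_card_filter_not (s := PC (del G u v) n) (fun φ => φ u ≠ φ v), h1, h2]

lemma gen_del (G : SimpleGraph V) {u v : V} (huv : G.Adj u v) :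
    gen (del G u v) = gen G + gen (contract G u v) := by
  ext n
  unfold gen
  rw [map_add, PowerSeries.coeff_mk, PowerSeries.coeff_mk, PowerSeries.coeff_mk,
    card_del_eq G huv]
  push_cast
  ring

/-- The difference of the generating functions of the empty graph and of `G`. -/
theorem good_diff {d : ℕ} (hd : Fintype.card V = d + 1) (G : SimpleGraph V) :
    Good d (gen (⊥ : SimpleGraph V) - gen G) := by
  classical
  have key : ∀ m : ℕ, ∀ G : SimpleGraph V, G.edgeSet.ncard = m →
      Good d (gen (⊥ : SimpleGraph V) - gen G) := by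
    intro m
    induction m with
    | zero =>
      intro G hG
      have h1 : G.edgeSet = ∅ := (Set.ncard_eq_zero (Set.toFinite _)).mp hG
      rw [SimpleGraph.edgeSet_eq_empty] at h1
      rw [h1, sub_self]
      exact Good.zero d
    | succ m ih =>
      intro G hG
      have h1 : G.edgeSet.Nonempty := by
        rw [← Set.ncard_pos (Set.toFinite _)]
        omega
      obtain ⟨e, he⟩ := h1
      induction e using Sym2.ind with
      | _ u v =>
        rw [SimpleGraph.mem_edgeSet] at he
        have h2 : (del G u v).edgeSet.ncard = m := by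
          rw [SimpleGraph.edgeSet_deleteEdges,
            Set.ncard_sdiff_singleton_of_mem (by rwa [SimpleGraph.mem_edgeSet]), hG]
          rfl
        have h3 := ih (del G u v) h2
        have hcard : Fintype.card {x : V // x ≠ v} = d := by
          rw [Fintype.card_subtype_compl, hd, Fintype.card_subtype_eq]
          rfl
        have hd1 : 1 ≤ d := by
          rw [← hcard]
          exact Fintype.card_pos_iff.mpr ⟨⟨u, he.ne⟩⟩
        obtain ⟨d', rfl⟩ : ∃ d', d = d' + 1 := ⟨d - 1, by omega⟩
        have h4 := good_gen hcard (contract G u v)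
        have h5 := h3.add h4
        rw [gen_del G he] at h5
        have h6 : gen (⊥ : SimpleGraph V) - (gen G + gen (contract G u v)) +
            gen (contract G u v) = gen (⊥ : SimpleGraph V) - gen G := by ring
        rwa [h6] at h5
  exact key _ G rfl

end Pool.Agent.Helper43.Coloring
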