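import Mathlib
import Pool.Agent.Helper43.Coloring

/-!
# Symmetry of the numerator for the empty graph (Eulerian polynomial)
-/

set_option autoImplicit false

open Finset

namespace Pool.Agent.Helper43.Coloring

universe u

variable {V : Type u} [Fintype V]

lemma coeff_one_sub_X_pow_mul (m : ℕ) (u : ℕ → ℤ) (j : ℕ) :
    PowerSeries.coeff j ((1 - PowerSeries.X) ^ m * PowerSeries.mk u) =
      ∑ k ∈ range (m + 1), (-1 : ℤ) ^ k * (m.choose k : ℤ) * (if k ≤ j then u (j - k) else 0) := by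
  have h1 : (1 - PowerSeries.X : PowerSeries ℤ) ^ m =
      ∑ k ∈ range (m + 1), PowerSeries.C ((-1 : ℤ) ^ k * (m.choose k : ℤ)) * PowerSeries.X ^ k := by
    rw [sub_eq_add_neg, add_comm, add_pow]
    apply sum_congr rfl
    intro k _
    rw [one_pow, mul_one, neg_pow, map_mul, map_pow, map_neg, map_one]
    simp only [map_natCast]
    ring
  rw [h1, sum_mul, map_sum]
  apply sum_congr rfl
  intro k _
  rw [mul_assoc, PowerSeries.coeff_C_mul, PowerSeries.coeff_X_pow_mul']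
  simp only [PowerSeries.coeff_mk]

lemma alt_sum_zero (D : ℕ) (j : ℤ) :
    ∑ k ∈ range (D + 1 + 1), (-1 : ℤ) ^ k * ((D + 1).choose k : ℤ) * (j - k) ^ D = 0 := by
  have h1 : (fwdDiff (1 : ℤ))^[D + 1] (fun r : ℤ => r ^ D) (j - (D + 1 : ℕ)) = 0 := by
    rw [fwdDiff_iter_pow_eq_zero_of_lt (Nat.lt_succ_self D)]
    rfl
  rw [fwdDiff_iter_eq_sum_shift] at h1
  rw [← h1, ← sum_range_reflect]
  apply sum_congr rfl
  intro k hk
  have hk' : k ≤ D + 1 := by
    have := mem_range.mp hk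
    omega
  have e1 : D + 1 + 1 - 1 - k = D + 1 - k := by omega
  rw [e1, Nat.choose_symm hk', smul_eq_mul, nsmul_one]
  push_cast [Nat.cast_sub hk']
  congr 2
  ring

/-- The truncated power. -/
def T (D : ℕ) (t : ℤ) : ℤ := if 0 ≤ t then t ^ D else 0

lemma T_eq (D : ℕ) (t : ℤ) : T (D + 1) t = t ^ (D + 1) - (-1) ^ (D + 1) * T (D + 1) (-t) := by
  unfold T
  rcases lt_trichotomy t 0 with h | h | h
  · rw [if_neg (by omega), if_pos (by omega), ← mul_pow]
    norm_num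
  · subst h
    simp
  · rw [if_pos (by omega), if_neg (by omega)]
    ring

/-- The numbers `∑ₖ (-1)^k C(D+1,k) T(j-k)`. -/
def E (D : ℕ) (j : ℤ) : ℤ :=
  ∑ k ∈ range (D + 1 + 1), (-1 : ℤ) ^ k * ((D + 1).choose k : ℤ) * T D (j - k)

lemma E_symm (D : ℕ) (j : ℤ) : E (D + 1) j = E (D + 1) (D + 2 - j) := by
  have h1 : E (D + 1) j = - ((-1) ^ (D + 1) *
      ∑ k ∈ range (D + 1 + 1 + 1), (-1 : ℤ) ^ k * ((D + 1 + 1).choose k : ℤ) *
        T (D + 1) (k - j)) := by
    have h2 := alt_sum_zero (D + 1) j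
    unfold E
    rw [mul_sum, ← sum_neg_distrib]
    rw [← sub_eq_zero, ← sum_sub_distrib, ← h2]
    apply sum_congr rfl
    intro k _
    rw [T_eq D (j - k), neg_sub]
    ring
  rw [h1]
  unfold E
  rw [← sum_range_reflect, mul_sum, ← sum_neg_distrib]
  apply sum_congr rfl
  intro k hk
  have hk' : k ≤ D + 1 + 1 := by
    have := mem_range.mp hk
    omega
  have e1 : D + 1 + 1 + 1 - 1 - k = D + 1 + 1 - k := by omega
  rw [e1, Nat.choose_symm hk']
  have e2 : ((D + 1 + 1 - k : ℕ) : ℤ) - j = (D : ℤ) + 2 - j - k := by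
    push_cast [Nat.cast_sub hk']
    ring
  rw [e2]
  have e3 : (-1 : ℤ) ^ (D + 1) * (-1) ^ (D + 1 + 1 - k) = - (-1) ^ k := by
    have e4 : (-1 : ℤ) ^ k * (-1) ^ k = 1 := by
      rw [← mul_pow]
      norm_num
    have e5 : (-1 : ℤ) ^ (D + 1 + 1 - k) * (-1) ^ k = (-1) ^ (D + 1 + 1) := by
      rw [← pow_add]
      congr 1
      omega
    have e6 : (-1 : ℤ) ^ (D + 1) * (-1) ^ (D + 1 + 1) = -1 := by
      rw [← pow_add]
      exact Odd.neg_one_pow ⟨D + 1, by ring⟩
    calc (-1 : ℤ) ^ (D + 1) * (-1) ^ (D + 1 + 1 - k)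
        = (-1 : ℤ) ^ (D + 1) * ((-1) ^ (D + 1 + 1 - k) * ((-1) ^ k * (-1) ^ k)) := by
          rw [e4, mul_one]
      _ = ((-1 : ℤ) ^ (D + 1) * ((-1) ^ (D + 1 + 1 - k) * (-1) ^ k)) * (-1) ^ k := by ring
      _ = - (-1) ^ k := by
          rw [e5, e6]
          ring
  rw [← mul_assoc, ← mul_assoc, e3]
  ring

lemma chi_bot (n : ℕ) : chi (⊥ : SimpleGraph V) n = n ^ Fintype.card V := by
  classical
  rw [chi_eq]
  have : PC (⊥ : SimpleGraph V) n = Fintype.piFinset fun _ => range n := by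
    ext φ
    rw [mem_PC, Fintype.mem_piFinset]
    simp
  rw [this, Fintype.card_piFinset]
  simp

lemma coeff_bot {D : ℕ} (hD : Fintype.card V = D + 1) (j : ℕ) :
    PowerSeries.coeff j ((1 - PowerSeries.X) ^ (D + 1 + 1) * gen (⊥ : SimpleGraph V)) =
      E (D + 1) j := by
  unfold gen
  rw [coeff_one_sub_X_pow_mul]
  unfold E
  apply sum_congr rfl
  intro k _
  congr 1
  unfold T
  rw [chi_bot, hD]
  by_cases h : k ≤ j
  · rw [if_pos h, if_pos (by omega)]
    push_cast [Nat.cast_sub h]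
    ring
  · rw [if_neg h, if_neg (by omega)]

lemma coeff_bot_symm {D : ℕ} (hD : Fintype.card V = D + 1) {i j : ℕ} (hij : i + j = D + 2) :
    PowerSeries.coeff i ((1 - PowerSeries.X) ^ (D + 1 + 1) * gen (⊥ : SimpleGraph V)) =
      PowerSeries.coeff j ((1 - PowerSeries.X) ^ (D + 1 + 1) * gen (⊥ : SimpleGraph V)) := by
  rw [coeff_bot hD, coeff_bot hD, E_symm]
  congr 1
  have : (i : ℤ) + j = D + 2 := by exact_mod_cast hij
  linarith

end Pool.Agent.Helper43.Coloring
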