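import Mathlib

/-!
# Orientable genus of a finite connected graph via rotation systems
-/

set_option autoImplicit false

namespace Pool.Agent.Helper43.Genus

universe u

/-- A rotation system on a simple graph `G`: for every vertex `v` a cyclic ordering of the
neighbours of `v`, given as a permutation `rot v` of the neighbour set with only one cycle. -/
structure RotationSystem {V : Type u} (G : SimpleGraph V) where
  /-- the successor map of the cyclic ordering at each vertex -/
  rot : ∀ v : V, Equiv.Perm (G.neighborSet v)
  /-- the permutation at each vertex consists of a single cycle -/
  cyclic : ∀ (v : V) (a b : G.neighborSet v), (rot v).SameCycle a b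

/-- Face tracing: the dart `u → v` is followed by the dart `v → w`, where `w` is the successor of
`u` in the cyclic ordering at `v`. -/
def RotationSystem.faceMap {V : Type u} {G : SimpleGraph V} (R : RotationSystem G)
    (d : G.Dart) : G.Dart :=
  ⟨(d.snd, (R.rot d.snd ⟨d.fst, d.adj.symm⟩ : V)), (R.rot d.snd ⟨d.fst, d.adj.symm⟩).2⟩

/-- The number of faces of a rotation system: the number of orbits of darts under face tracing. -/
noncomputable def RotationSystem.numFaces {V : Type u} {G : SimpleGraph V}
    (R : RotationSystem G) : ℕ :=
  Nat.card (Quot fun d d' : G.Dart => d' = R.faceMap d)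

/-- The connected graph `G` has a cellular embedding in the closed orientable surface of genus
`g`: some rotation system of `G` satisfies Euler's formula `V - E + F = 2 - 2g`. -/
def HasEmbedding {V : Type u} (G : SimpleGraph V) (g : ℕ) : Prop :=
  ∃ R : RotationSystem G,
    (Nat.card V : ℤ) - (Nat.card G.edgeSet : ℤ) + (R.numFaces : ℤ) = 2 - 2 * (g : ℤ)

/-- The orientable genus of a finite connected graph (with at least one edge): the least genus of
a rotation system. -/
noncomputable def genus {V : Type u} (G : SimpleGraph V) : ℕ :=
  sInf {g : ℕ | HasEmbedding G g}

/-- The complete graph on `V` with the edge `xy` deleted. -/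
def completeMinusEdge {V : Type u} (x y : V) : SimpleGraph V :=
  (⊤ : SimpleGraph V).deleteEdges {s(x, y)}

end Pool.Agent.Helper43.Genus
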