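import Mathlib
import Pool.Agent.Helper43.GenusDef

/-!
# Counting faces of rotation systems
-/

set_option autoImplicit false

namespace Pool.Agent.Helper43.Genus

universe u

variable {V : Type u} {G : SimpleGraph V}

lemma faceMap_injective (R : RotationSystem G) : Function.Injective R.faceMap := by
  intro d d' h
  have h1 : d.snd = d'.snd := congrArg (fun e : G.Dart => e.fst) h
  have h2 : (R.faceMap d).snd = (R.faceMap d').snd := by rw [h]
  obtain ⟨⟨u, v⟩, huv⟩ := d
  obtain ⟨⟨u', v'⟩, huv'⟩ := d'
  simp only at h1
  subst h1
  have h3 : R.rot v ⟨u, huv.symm⟩ = R.rot v ⟨u', huv'.symm⟩ := Subtype.ext h2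
  have h4 := (R.rot v).injective h3
  have h5 : u = u' := congrArg Subtype.val h4
  subst h5
  rfl

lemma rot_ne (R : RotationSystem G) {v : V} (a b : G.neighborSet v) (hab : a ≠ b) :
    R.rot v a ≠ a := by
  intro h
  obtain ⟨i, hi⟩ := R.cyclic v a b
  rw [Equiv.Perm.zpow_apply_eq_self_of_apply_eq_self h] at hi
  exact hab hi

/-- If all degrees are at least two, every face has length at least three. -/
lemma three_mul_numFaces_le [Finite V] (R : RotationSystem G)
    (hdeg : ∀ (v : V) (a : G.neighborSet v), ∃ b : G.neighborSet v, a ≠ b) :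
    3 * R.numFaces ≤ Nat.card G.Dart := by
  classical
  have hfin : Finite G.Dart := by
    have : Fintype V := Fintype.ofFinite V
    infer_instance
  have hfin2 : Finite (Quot fun d d' : G.Dart => d' = R.faceMap d) := inferInstance
  -- three distinct darts in each class
  have h01 : ∀ d : G.Dart, R.faceMap d ≠ d := by
    intro d h
    have h1 : (R.faceMap d).fst = d.fst := by rw [h]
    exact d.adj.ne h1.symm
  have h02 : ∀ d : G.Dart, R.faceMap (R.faceMap d) ≠ d := by
    intro d h
    have h1 : (R.faceMap (R.faceMap d)).fst = d.fst := by rw [h]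
    have h2 : (R.rot d.snd ⟨d.fst, d.adj.symm⟩ : V) = d.fst := h1
    obtain ⟨b, hb⟩ := hdeg d.snd ⟨d.fst, d.adj.symm⟩
    exact rot_ne R _ b hb (Subtype.ext h2)
  let f : (Quot fun d d' : G.Dart => d' = R.faceMap d) × Fin 3 → G.Dart :=
    fun p => (R.faceMap)^[(p.2 : ℕ)] p.1.out
  have hclass : ∀ (d : G.Dart) (k : ℕ),
      (Quot.mk _ ((R.faceMap)^[k] d) : Quot fun d d' : G.Dart => d' = R.faceMap d) =
        Quot.mk _ d := by
    intro d k
    induction k with
    | zero => rfl
    | succ k ih =>
      rw [Function.iterate_succ_apply', ← ih]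
      exact (Quot.sound (r := fun d d' : G.Dart => d' = R.faceMap d) rfl).symm
  have hf : Function.Injective f := by
    rintro ⟨q, k⟩ ⟨q', k'⟩ h
    have hq : q = q' := by
      have h1 := hclass q.out k
      have h2 := hclass q'.out k'
      rw [Quot.out_eq] at h1 h2
      rw [← h1, ← h2]
      exact congrArg _ h
    subst hq
    have hk : k = k' := by
      simp only [f] at h
      have hd := q.out
      generalize q.out = d at h
      fin_cases k <;> fin_cases k' <;>
        simp only [Function.iterate_zero, Function.iterate_succ, Function.comp_apply, id_eq] at h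
      · rfl
      · exact absurd h.symm (h01 d)
      · exact absurd h.symm (h02 d)
      · exact absurd h (h01 d)
      · rfl
      · exact absurd (faceMap_injective R h).symm (h01 d)
      · exact absurd h (h02 d)
      · exact absurd (faceMap_injective R h) (h01 d)
      · rfl
    rw [hk]
  have := Nat.card_le_card_of_injective f hf
  rw [Nat.card_prod, Nat.card_fin] at this
  unfold RotationSystem.numFaces
  omega

/-- If all faces are triangles then `3F` is at least the number of darts. -/
lemma card_dart_le [Finite V] (R : RotationSystem G)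
    (h3 : ∀ d, R.faceMap (R.faceMap (R.faceMap d)) = d) :
    Nat.card G.Dart ≤ 3 * R.numFaces := by
  classical
  have hfin : Finite G.Dart := by
    have : Fintype V := Fintype.ofFinite V
    infer_instance
  have hfin2 : Finite (Quot fun d d' : G.Dart => d' = R.faceMap d) := inferInstance
  let f : (Quot fun d d' : G.Dart => d' = R.faceMap d) × Fin 3 → G.Dart :=
    fun p => (R.faceMap)^[(p.2 : ℕ)] p.1.out
  have hrel : ∀ d d' : G.Dart, Relation.EqvGen (fun d d' : G.Dart => d' = R.faceMap d) d d' →
      d' = d ∨ d' = R.faceMap d ∨ d' = R.faceMap (R.faceMap d) := by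
    intro d d' h
    induction h with
    | rel x y h => exact Or.inr (Or.inl h)
    | refl x => exact Or.inl rfl
    | symm x y _ ih =>
      rcases ih with h | h | h
      · exact Or.inl h.symm
      · exact Or.inr (Or.inr (by rw [h, h3]))
      · exact Or.inr (Or.inl (by rw [h, h3]))
    | trans x y z _ _ ih1 ih2 =>
      rcases ih1 with h | h | h <;> rcases ih2 with h' | h' | h' <;> rw [h', h]
      · exact Or.inl rfl
      · exact Or.inr (Or.inl rfl)
      · exact Or.inr (Or.inr rfl)
      · exact Or.inr (Or.inl rfl)
      · exact Or.inr (Or.inr rfl)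
      · exact Or.inl (h3 x)
      · exact Or.inr (Or.inr rfl)
      · exact Or.inl (h3 x)
      · exact Or.inr (Or.inl (by rw [h3]))
  have hf : Function.Surjective f := by
    intro d
    have h1 : (Quot.mk _ ((Quot.mk _ d : Quot fun d d' : G.Dart => d' = R.faceMap d).out) :
        Quot fun d d' : G.Dart => d' = R.faceMap d) = Quot.mk _ d := Quot.out_eq _
    have h2 := hrel _ _ (Quot.eqvGen_exact h1)
    rcases h2 with h | h | h
    · exact ⟨(Quot.mk _ d, 0), h.symm⟩
    · exact ⟨(Quot.mk _ d, 1), h.symm⟩
    · exact ⟨(Quot.mk _ d, 2), h.symm⟩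
  have := Nat.card_le_card_of_surjective f hf
  rw [Nat.card_prod, Nat.card_fin] at this
  unfold RotationSystem.numFaces
  omega

/-- A rotation system from a successor function `next v u` (the neighbour of `v` following `u`)
all of whose faces are triangles. -/
theorem exists_triangular [Finite V] (next : V → V → V)
    (hadj : ∀ u v, G.Adj u v → G.Adj v (next v u))
    (hT : ∀ u v, G.Adj u v → next (next v u) v = u)
    (hcyc : ∀ (v : V) (S : V → V → Prop), Equivalence S →
      (∀ u, G.Adj u v → S u (next v u)) → ∀ u u', G.Adj v u → G.Adj v u' → S u u') :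
    ∃ R : RotationSystem G, ∀ d, R.faceMap (R.faceMap (R.faceMap d)) = d := by
  classical
  let nx : ∀ v : V, G.neighborSet v → G.neighborSet v := fun v a =>
    ⟨next v a, hadj a v (G.adj_symm a.2)⟩
  have hinj : ∀ v, Function.Injective (nx v) := by
    intro v a b hab
    have h1 : next v a = next v b := congrArg Subtype.val hab
    have h2 := hT a v (G.adj_symm a.2)
    have h3 := hT b v (G.adj_symm b.2)
    rw [h1] at h2
    exact Subtype.ext (h2.symm.trans h3)
  have hbij : ∀ v, Function.Bijective (nx v) := fun v =>
    Finite.injective_iff_bijective.mp (hinj v)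
  let R : RotationSystem G :=
    { rot := fun v => Equiv.ofBijective (nx v) (hbij v)
      cyclic := by
        intro v a b
        let S : V → V → Prop := fun u u' => u = u' ∨
          ∃ (hu : G.Adj v u) (hu' : G.Adj v u'),
            Equiv.Perm.SameCycle (Equiv.ofBijective (nx v) (hbij v)) ⟨u, hu⟩ ⟨u', hu'⟩
        have hS : Equivalence S := by
          refine ⟨fun u => Or.inl rfl, ?_, ?_⟩
          · rintro u u' (h | ⟨hu, hu', h⟩)
            · exact Or.inl h.symm
            · exact Or.inr ⟨hu', hu, h.symm⟩
          · rintro u u' u'' (h | ⟨hu, hu', h⟩) (h' | ⟨hu2, hu2', h'⟩)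
            · exact Or.inl (h.trans h')
            · subst h
              exact Or.inr ⟨hu2, hu2', h'⟩
            · subst h'
              exact Or.inr ⟨hu, hu', h⟩
            · exact Or.inr ⟨hu, hu2', h.trans h'⟩
        have h1 := hcyc v S hS (by
          intro u hu
          refine Or.inr ⟨G.adj_symm hu, hadj u v hu, 1, ?_⟩
          rw [zpow_one]
          rfl) a b a.2 b.2
        rcases h1 with h | ⟨_, _, h⟩
        · rw [Subtype.ext h]
        · exact h }
  refine ⟨R, ?_⟩
  rintro ⟨⟨u, v⟩, huv⟩
  have h1 : next (next v u) v = u := hT u v huv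
  have h2 : next (next (next v u) v) (next v u) = v := hT v (next v u) (hadj u v huv)
  apply SimpleGraph.Dart.ext
  apply Prod.ext
  · exact h1
  · exact h2

end Pool.Agent.Helper43.Genus
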