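import Mathlib
import Pool.Agent.Helper43.GenusBasic

/-!
# The genus of a complete graph minus an edge, given a triangular embedding
-/

set_option autoImplicit false

namespace Pool.Agent.Helper43.Genus

universe u

variable {V : Type u}

lemma cme_adj {x y u v : V} : (completeMinusEdge x y).Adj u v ↔ u ≠ v ∧ s(u, v) ≠ s(x, y) := by
  unfold completeMinusEdge
  rw [SimpleGraph.deleteEdges_adj, SimpleGraph.top_adj]
  simp

lemma card_edgeSet_cme [Fintype V] {x y : V} (hxy : x ≠ y) :
    Nat.card (completeMinusEdge x y).edgeSet + 1 = (Fintype.card V).choose 2 := by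
  classical
  have h1 : (completeMinusEdge x y).edgeSet = (⊤ : SimpleGraph V).edgeSet \ {s(x, y)} := by
    unfold completeMinusEdge
    rw [SimpleGraph.edgeSet_deleteEdges]
  have hmem : s(x, y) ∈ (⊤ : SimpleGraph V).edgeSet := by
    rw [SimpleGraph.mem_edgeSet]
    exact hxy
  have h2 : (⊤ : SimpleGraph V).edgeSet.ncard = (Fintype.card V).choose 2 := by
    rw [← SimpleGraph.card_edgeFinset_top_eq_card_choose_two, ← Set.ncard_coe_finset,
      SimpleGraph.coe_edgeFinset]
  rw [Nat.card_coe_set_eq, h1, ← h2]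
  exact Set.ncard_sdiff_singleton_add_one hmem (Set.toFinite _)

lemma card_dart_cme [Fintype V] {x y : V} :
    Nat.card (completeMinusEdge x y).Dart = 2 * Nat.card (completeMinusEdge x y).edgeSet := by
  classical
  rw [Nat.card_eq_fintype_card, SimpleGraph.dart_card_eq_twice_card_edges]
  congr 1
  rw [Nat.card_eq_fintype_card, ← SimpleGraph.edgeFinset_card]

lemma cme_deg [Fintype V] {x y : V} (hn : 4 ≤ Fintype.card V) (v : V)
    (a : (completeMinusEdge x y).neighborSet v) :
    ∃ b : (completeMinusEdge x y).neighborSet v, a ≠ b := by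
  classical
  -- there is a vertex outside `{v, a, x', y'}` where the excluded partner of `v` is one vertex
  let p : V := if v = x then y else x
  have hcard : ({v, (a : V), p} : Finset V).card < (Finset.univ : Finset V).card := by
    rw [Finset.card_univ]
    exact lt_of_le_of_lt Finset.card_le_three (by omega)
  obtain ⟨b, _, hb⟩ := Finset.exists_mem_notMem_of_card_lt_card hcard
  simp only [Finset.mem_insert, Finset.mem_singleton, not_or] at hb
  obtain ⟨h1, h2, h3⟩ := hb
  refine ⟨⟨b, ?_⟩, ?_⟩
  · rw [SimpleGraph.mem_neighborSet, cme_adj]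
    refine ⟨Ne.symm h1, ?_⟩
    intro he
    rw [Sym2.eq_iff] at he
    simp only [p] at h3
    rcases he with ⟨h4, h5⟩ | ⟨h4, h5⟩
    · rw [if_pos h4] at h3
      exact h3 h5
    · split_ifs at h3 with h6
      · exact h1 (by rw [h5, h6])
      · exact h3 h5
  · intro h
    exact h2 (by rw [h])

/-- If `K_n - K_2` has a triangular rotation system and `12 g = (n-3)(n-4) - 2`, then `g` is its
genus. -/
theorem genus_eq [Fintype V] {x y : V} (hxy : x ≠ y) (hn : 4 ≤ Fintype.card V)
    (R : RotationSystem (completeMinusEdge x y))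
    (h3 : ∀ d, R.faceMap (R.faceMap (R.faceMap d)) = d) (g : ℕ)
    (hg : (12 * g : ℤ) = ((Fintype.card V : ℤ) - 3) * ((Fintype.card V : ℤ) - 4) - 2) :
    genus (completeMinusEdge x y) = g := by
  classical
  set n := Fintype.card V with hnn
  set E := Nat.card (completeMinusEdge x y).edgeSet with hE
  have hE1 : E + 1 = n.choose 2 := card_edgeSet_cme hxy
  have hE2 : (2 : ℤ) * (E + 1) = n * (n - 1) := by
    have h4 : n * (n - 1) = 2 * n.choose 2 := by
      rw [Nat.choose_two_right, Nat.mul_div_cancel' (Nat.even_mul_pred_self n).two_dvd]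
    have h5 : ((n * (n - 1) : ℕ) : ℤ) = (n : ℤ) * (n - 1) := by
      rw [Nat.cast_mul, Nat.cast_sub (by omega), Nat.cast_one]
    rw [← h5, h4, ← hE1]
    push_cast
    ring
  have hD : Nat.card (completeMinusEdge x y).Dart = 2 * E := card_dart_cme
  have hup : ∀ R' : RotationSystem (completeMinusEdge x y), 3 * R'.numFaces ≤ 2 * E := by
    intro R'
    have := three_mul_numFaces_le R' (cme_deg hn)
    omega
  have hlow : 2 * E ≤ 3 * R.numFaces := by
    have := card_dart_le R h3
    omega
  have hF : 3 * R.numFaces = 2 * E := le_antisymm (hup R) hlow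
  have hFz : (3 : ℤ) * R.numFaces = 2 * E := by exact_mod_cast hF
  have hemb : HasEmbedding (completeMinusEdge x y) g := by
    refine ⟨R, ?_⟩
    rw [Nat.card_eq_fintype_card, ← hnn, ← hE]
    linarith [hFz, hE2, hg]
  have hmin : ∀ g', HasEmbedding (completeMinusEdge x y) g' → g ≤ g' := by
    rintro g' ⟨R', hR'⟩
    rw [Nat.card_eq_fintype_card, ← hnn, ← hE] at hR'
    have h6 : (3 : ℤ) * R'.numFaces ≤ 2 * E := by exact_mod_cast hup R'
    have h7 : (g : ℤ) ≤ g' := by
      nlinarith [hFz, hE2, hg, h6, hR']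
    exact_mod_cast h7
  unfold genus
  apply le_antisymm
  · exact Nat.sInf_le hemb
  · exact le_csInf ⟨g, hemb⟩ hmin

end Pool.Agent.Helper43.Genus
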