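import Mathlib
import Pool.Agent.Helper43.GenusCount

/-!
# Index-two schemes

A scheme on `ZMod M` lists representatives of the triangles of a triangulation of
`K_{M+2} - K_2` on the vertex set `ZMod M ∪ {x, y}` which is invariant under even translations.
-/

set_option autoImplicit false

namespace Pool.Agent.Helper43.Genus

/-- An index-two scheme. -/
structure Scheme (M : ℕ) [NeZero M] where
  /-- the class (parity) of a residue -/
  cl : ZMod M →+ ZMod 2
  /-- index set of the triangles without `x`, `y` -/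
  ι : Type
  /-- it is finite -/
  fin : Fintype ι
  /-- class of the first vertex -/
  A : ι → ZMod 2
  /-- first difference -/
  p : ι → ZMod M
  /-- second difference -/
  q : ι → ZMod M
  /-- third difference -/
  r : ι → ZMod M
  sum : ∀ i, p i + q i + r i = 0
  /-- differences of the triangles containing `x` or `y` -/
  d : Bool → ZMod 2 → ZMod M
  cl_d : ∀ w a, cl (d w a) = 1
  card : 3 * Fintype.card ι + 4 ≤ 2 * (M - 1)
  cover : ∀ (a : ZMod 2) (δ : ZMod M), δ ≠ 0 →
    (∃ i, (A i = a ∧ p i = δ) ∨ (A i + cl (p i) = a ∧ q i = δ) ∨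
      (A i + cl (p i) + cl (q i) = a ∧ r i = δ)) ∨ ∃ w, d w a = δ
  gen : ∀ w z, cl z = 0 → ∃ n : ℤ, z = n • (d w 0 + d w 1)
  conn : ∀ (a : ZMod 2) (S : ZMod M ⊕ Bool → ZMod M ⊕ Bool → Prop), Equivalence S →
    (∀ i, A i = a → S (Sum.inl (-r i)) (Sum.inl (p i))) →
    (∀ i, A i + cl (p i) = a → S (Sum.inl (-p i)) (Sum.inl (q i))) →
    (∀ i, A i + cl (p i) + cl (q i) = a → S (Sum.inl (-q i)) (Sum.inl (r i))) →
    (∀ w, S (Sum.inl (-d w (a + 1))) (Sum.inr w)) → (∀ w, S (Sum.inr w) (Sum.inl (d w a))) →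
    ∀ l, l ≠ Sum.inl 0 → S (Sum.inr false) l

namespace Scheme

variable {M : ℕ} [NeZero M] (s : Scheme M)

instance : Fintype s.ι := s.fin

/-- The three differences of a triangle. -/
def corner (i : s.ι) : Fin 3 → ZMod M := ![s.p i, s.q i, s.r i]

/-- The classes of the three vertices of a triangle. -/
def cls (i : s.ι) : Fin 3 → ZMod 2 :=
  ![s.A i, s.A i + s.cl (s.p i), s.A i + s.cl (s.p i) + s.cl (s.q i)]

lemma two_eq_zero (a : ZMod 2) : a + a = 0 := by
  fin_cases a <;> rfl

lemma add_one_add_one (a : ZMod 2) : a + 1 + 1 = a := by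
  rw [add_assoc, two_eq_zero, add_zero]

lemma corner_sum (i : s.ι) (k : Fin 3) :
    s.corner i k + s.corner i (k + 1) + s.corner i (k + 1 + 1) = 0 := by
  have h := s.sum i
  fin_cases k
  · exact h
  · show s.q i + s.r i + s.p i = 0
    rw [← h]
    ring
  · show s.r i + s.p i + s.q i = 0
    rw [← h]
    ring

lemma cls_succ (i : s.ι) (k : Fin 3) :
    s.cls i (k + 1) = s.cls i k + s.cl (s.corner i k) := by
  fin_cases k
  · rfl
  · rfl
  · show s.A i = s.A i + s.cl (s.p i) + s.cl (s.q i) + s.cl (s.r i)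
    rw [add_assoc, add_assoc, ← map_add, ← map_add, ← add_assoc, s.sum i, map_zero, add_zero]

/-- The map from corners to pairs (class, difference). -/
def Phi : (s.ι × Fin 3) ⊕ (Bool × ZMod 2) → ZMod 2 × ZMod M
  | Sum.inl (i, k) => (s.cls i k, s.corner i k)
  | Sum.inr (w, a) => (a, s.d w a)

lemma exists_corner (a : ZMod 2) (δ : ZMod M) (h : δ ≠ 0) : ∃ t, s.Phi t = (a, δ) := by
  rcases s.cover a δ h with ⟨i, ⟨h1, h2⟩ | ⟨h1, h2⟩ | ⟨h1, h2⟩⟩ | ⟨w, h1⟩
  · exact ⟨Sum.inl (i, 0), Prod.ext h1 h2⟩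
  · exact ⟨Sum.inl (i, 1), Prod.ext h1 h2⟩
  · exact ⟨Sum.inl (i, 2), Prod.ext h1 h2⟩
  · exact ⟨Sum.inr (w, a), Prod.ext rfl h1⟩

/-- nonzero differences with a class -/
abbrev Tt (M : ℕ) : Type := {t : ZMod 2 × ZMod M // t.2 ≠ 0}

lemma card_Tt : Nat.card (Tt M) = 2 * (M - 1) := by
  have e : Tt M ≃ ZMod 2 × {δ : ZMod M // δ ≠ 0} :=
    { toFun := fun t => (t.1.1, ⟨t.1.2, t.2⟩)
      invFun := fun t => ⟨(t.1, t.2.1), t.2.2⟩
      left_inv := fun _ => rfl
      right_inv := fun _ => rfl }
  rw [Nat.card_congr e, Nat.card_prod, Nat.card_zmod]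
  congr 1
  rw [Nat.card_eq_fintype_card, Fintype.card_subtype_compl, ZMod.card, Fintype.card_subtype_eq]

/-- A section of `Phi`. -/
noncomputable def g (t : Tt M) : (s.ι × Fin 3) ⊕ (Bool × ZMod 2) :=
  (s.exists_corner t.1.1 t.1.2 t.2).choose

lemma Phi_g (t : Tt M) : s.Phi (s.g t) = t.1 :=
  (s.exists_corner t.1.1 t.1.2 t.2).choose_spec

lemma g_injective : Function.Injective s.g := by
  intro t t' h
  apply Subtype.ext
  rw [← s.Phi_g t, ← s.Phi_g t', h]

lemma g_surjective : Function.Surjective s.g := by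
  classical
  have h1 : Function.Bijective s.g := by
    rw [Nat.bijective_iff_injective_and_card]
    refine ⟨s.g_injective, ?_⟩
    apply le_antisymm (Nat.card_le_card_of_injective _ s.g_injective)
    rw [card_Tt, Nat.card_eq_fintype_card, Fintype.card_sum, Fintype.card_prod, Fintype.card_prod,
      Fintype.card_fin, Fintype.card_bool, ZMod.card]
    have := s.card
    omega
  exact h1.2

lemma Phi_ne (t : (s.ι × Fin 3) ⊕ (Bool × ZMod 2)) : (s.Phi t).2 ≠ 0 := by
  obtain ⟨t', rfl⟩ := s.g_surjective t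
  rw [s.Phi_g]
  exact t'.2

lemma g_Phi (t : (s.ι × Fin 3) ⊕ (Bool × ZMod 2)) : s.g ⟨s.Phi t, s.Phi_ne t⟩ = t := by
  obtain ⟨t', rfl⟩ := s.g_surjective t
  congr 1
  apply Subtype.ext
  exact s.Phi_g t'

/-- What comes after a corner. -/
def outp : (s.ι × Fin 3) ⊕ (Bool × ZMod 2) → ZMod M ⊕ Bool
  | Sum.inl (i, k) => Sum.inl (s.corner i (k + 1))
  | Sum.inr (w, _) => Sum.inr w

open Classical in
/-- The next difference after arriving with difference `δ` from a vertex of class `a`. -/
noncomputable def nxt (a : ZMod 2) (δ : ZMod M) : ZMod M ⊕ Bool :=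
  if h : δ ≠ 0 then s.outp (s.g ⟨(a, δ), h⟩) else Sum.inr false

lemma nxt_Phi (t : (s.ι × Fin 3) ⊕ (Bool × ZMod 2)) : s.nxt (s.Phi t).1 (s.Phi t).2 = s.outp t := by
  unfold nxt
  rw [dif_pos (s.Phi_ne t)]
  congr 1
  exact s.g_Phi t

lemma nxt_corner (i : s.ι) (k : Fin 3) :
    s.nxt (s.cls i k) (s.corner i k) = Sum.inl (s.corner i (k + 1)) :=
  s.nxt_Phi (Sum.inl (i, k))

lemma nxt_d (w : Bool) (a : ZMod 2) : s.nxt a (s.d w a) = Sum.inr w :=
  s.nxt_Phi (Sum.inr (w, a))

lemma corner_ne (i : s.ι) (k : Fin 3) : s.corner i k ≠ 0 := s.Phi_ne (Sum.inl (i, k))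

lemma d_ne (w : Bool) (a : ZMod 2) : s.d w a ≠ 0 := s.Phi_ne (Sum.inr (w, a))

lemma nxt_cases (a : ZMod 2) (δ : ZMod M) (h : δ ≠ 0) :
    (∃ i k, a = s.cls i k ∧ δ = s.corner i k) ∨ ∃ w, δ = s.d w a := by
  obtain ⟨t, ht⟩ := s.exists_corner a δ h
  rcases t with ⟨i, k⟩ | ⟨w, b⟩
  · left
    exact ⟨i, k, (congrArg Prod.fst ht).symm, (congrArg Prod.snd ht).symm⟩
  · right
    have h1 : b = a := congrArg Prod.fst ht
    subst h1
    exact ⟨w, (congrArg Prod.snd ht).symm⟩

/-- The neighbour of `v` following `u` in the rotation at `v`. -/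
noncomputable def next : ZMod M ⊕ Bool → ZMod M ⊕ Bool → ZMod M ⊕ Bool
  | Sum.inl v, Sum.inl u =>
    match s.nxt (s.cl u) (v - u) with
    | Sum.inl δ => Sum.inl (v + δ)
    | Sum.inr w => Sum.inr w
  | Sum.inl v, Sum.inr w => Sum.inl (v + s.d w (s.cl v))
  | Sum.inr w, Sum.inl u => Sum.inl (u - s.d w (s.cl u + 1))
  | Sum.inr w, Sum.inr _ => Sum.inr w

lemma next_corner (u v : ZMod M) (i : s.ι) (k : Fin 3) (h1 : s.cl u = s.cls i k)
    (h2 : v - u = s.corner i k) :
    s.next (Sum.inl v) (Sum.inl u) = Sum.inl (v + s.corner i (k + 1)) := by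
  unfold next
  simp only
  rw [h1, h2, s.nxt_corner]

lemma next_d (u v : ZMod M) (w : Bool) (h2 : v - u = s.d w (s.cl u)) :
    s.next (Sum.inl v) (Sum.inl u) = Sum.inr w := by
  unfold next
  simp only
  rw [h2, s.nxt_d]

lemma cl_add_d (u : ZMod M) (w : Bool) (a : ZMod 2) : s.cl (u + s.d w a) = s.cl u + 1 := by
  rw [map_add, s.cl_d]

lemma cl_sub_d (u : ZMod M) (w : Bool) (a : ZMod 2) : s.cl (u - s.d w a) = s.cl u + 1 := by
  rw [map_sub, s.cl_d]
  generalize s.cl u = b
  fin_cases b <;> rfl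

omit [NeZero M] in
/-- adjacency in the target graph -/
lemma adj_iff (u v : ZMod M ⊕ Bool) :
    (completeMinusEdge (Sum.inr false) (Sum.inr true) : SimpleGraph (ZMod M ⊕ Bool)).Adj u v ↔
      u ≠ v ∧ ¬ ((∃ w, u = Sum.inr w) ∧ ∃ w, v = Sum.inr w) := by
  rw [cme_adj]
  rcases u with u | u <;> rcases v with v | v
  · simp
  · simp
  · simp
  · rcases u with _ | _ <;> rcases v with _ | _ <;> simp

lemma next_adj (u v : ZMod M ⊕ Bool)
    (h : (completeMinusEdge (Sum.inr false) (Sum.inr true) :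
      SimpleGraph (ZMod M ⊕ Bool)).Adj u v) :
    (completeMinusEdge (Sum.inr false) (Sum.inr true) :
      SimpleGraph (ZMod M ⊕ Bool)).Adj v (s.next v u) := by
  rw [adj_iff] at h ⊢
  obtain ⟨h1, h2⟩ := h
  rcases u with u | u <;> rcases v with v | v
  · have hne : v - u ≠ 0 := fun h => h1 (by rw [sub_eq_zero.mp h])
    rcases s.nxt_cases (s.cl u) (v - u) hne with ⟨i, k, h3, h4⟩ | ⟨w, h3⟩
    · rw [s.next_corner u v i k h3 h4]
      refine ⟨?_, by simp⟩
      intro h5
      have h6 := Sum.inl.inj h5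
      exact s.corner_ne i (k + 1) (by
        have : v + s.corner i (k + 1) = v + 0 := by rw [← h6, add_zero]
        exact add_left_cancel this)
    · rw [s.next_d u v w h3]
      simp
  · unfold next
    simp
  · unfold next
    refine ⟨?_, by simp⟩
    intro h5
    have h6 := Sum.inl.inj h5
    exact s.d_ne u (s.cl v) (by
      have : v + s.d u (s.cl v) = v + 0 := by rw [← h6, add_zero]
      exact add_left_cancel this)
  · exact absurd ⟨⟨u, rfl⟩, ⟨v, rfl⟩⟩ h2

lemma next_T (u v : ZMod M ⊕ Bool)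
    (h : (completeMinusEdge (Sum.inr false) (Sum.inr true) :
      SimpleGraph (ZMod M ⊕ Bool)).Adj u v) :
    s.next (s.next v u) v = u := by
  rw [adj_iff] at h
  obtain ⟨h1, h2⟩ := h
  rcases u with u | u <;> rcases v with v | v
  · have hne : v - u ≠ 0 := fun h => h1 (by rw [sub_eq_zero.mp h])
    rcases s.nxt_cases (s.cl u) (v - u) hne with ⟨i, k, h3, h4⟩ | ⟨w, h3⟩
    · rw [s.next_corner u v i k h3 h4]
      have h5 : s.cl v = s.cls i (k + 1) := by
        rw [cls_succ, ← h3, ← h4, ← map_add]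
        congr 1
        ring
      rw [s.next_corner v _ i (k + 1) h5 (by ring)]
      congr 1
      have h6 := s.corner_sum i k
      rw [← h4] at h6
      have : v + s.corner i (k + 1) + s.corner i (k + 1 + 1) =
          u + (v - u + s.corner i (k + 1) + s.corner i (k + 1 + 1)) := by ring
      rw [this, h6, add_zero]
    · rw [s.next_d u v w h3]
      have h4 : s.cl v = s.cl u + 1 := by
        have : v = u + s.d w (s.cl u) := by
          rw [← h3]
          ring
        rw [this, s.cl_add_d]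
      show Sum.inl (v - s.d w (s.cl v + 1)) = Sum.inl u
      rw [h4, add_one_add_one, ← h3]
      congr 1
      ring
  · -- `v = inr v`
    show s.next (Sum.inl (u - s.d v (s.cl u + 1))) (Sum.inr v) = Sum.inl u
    show Sum.inl (u - s.d v (s.cl u + 1) + s.d v (s.cl (u - s.d v (s.cl u + 1)))) = Sum.inl u
    rw [s.cl_sub_d]
    congr 1
    ring
  · show s.next (Sum.inl (v + s.d u (s.cl v))) (Sum.inl v) = Sum.inr u
    exact s.next_d _ _ u (by ring)
  · exact absurd ⟨⟨u, rfl⟩, ⟨v, rfl⟩⟩ h2

/-- translation of labels -/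
def sh (v : ZMod M) : ZMod M ⊕ Bool → ZMod M ⊕ Bool
  | Sum.inl δ => Sum.inl (v + δ)
  | Sum.inr w => Sum.inr w

lemma next_cyc (v : ZMod M ⊕ Bool) (S : ZMod M ⊕ Bool → ZMod M ⊕ Bool → Prop)
    (hS : Equivalence S)
    (hn : ∀ u, (completeMinusEdge (Sum.inr false) (Sum.inr true) :
      SimpleGraph (ZMod M ⊕ Bool)).Adj u v → S u (s.next v u))
    (u u' : ZMod M ⊕ Bool)
    (hu : (completeMinusEdge (Sum.inr false) (Sum.inr true) :
      SimpleGraph (ZMod M ⊕ Bool)).Adj v u)
    (hu' : (completeMinusEdge (Sum.inr false) (Sum.inr true) :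
      SimpleGraph (ZMod M ⊕ Bool)).Adj v u') : S u u' := by
  rcases v with v | w
  · -- finite vertex
    have hn2 : ∀ u : ZMod M, u ≠ v → S (Sum.inl u) (s.next (Sum.inl v) (Sum.inl u)) := by
      intro u hu
      apply hn
      rw [adj_iff]
      exact ⟨fun h => hu (Sum.inl.inj h), by simp⟩
    have hS' : Equivalence (fun l l' => S (sh v l) (sh v l')) :=
      ⟨fun l => hS.refl _, fun h => hS.symm h, fun h h' => hS.trans h h'⟩
    have hk : ∀ i k, s.cls i (k + 1) = s.cl v →
        S (sh v (Sum.inl (-s.corner i k))) (sh v (Sum.inl (s.corner i (k + 1)))) := by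
      intro i k h
      have h1 : s.next (Sum.inl v) (Sum.inl (v + -s.corner i k)) =
          Sum.inl (v + s.corner i (k + 1)) := by
        apply s.next_corner
        · rw [map_add, map_neg, ← h, s.cls_succ]
          ring
        · ring
      have h2 := hn2 (v + -s.corner i k) (by
        intro h3
        apply s.corner_ne i k
        have h4 : v + -s.corner i k = v + 0 := by rw [h3, add_zero]
        exact neg_eq_zero.mp (add_left_cancel h4))
      rw [h1] at h2
      exact h2
    have key := s.conn (s.cl v) (fun l l' => S (sh v l) (sh v l')) hS'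
      (fun i h => hk i 2 h) (fun i h => hk i 0 h) (fun i h => hk i 1 h)
      (by
        intro w
        have h1 : s.next (Sum.inl v) (Sum.inl (v + -s.d w (s.cl v + 1))) = Sum.inr w := by
          apply s.next_d
          rw [← sub_eq_add_neg, s.cl_sub_d]
          ring
        have h2 := hn2 (v + -s.d w (s.cl v + 1)) (by
          intro h3
          apply s.d_ne w (s.cl v + 1)
          have h4 : v + -s.d w (s.cl v + 1) = v + 0 := by rw [h3, add_zero]
          exact neg_eq_zero.mp (add_left_cancel h4))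
        rw [h1] at h2
        exact h2)
      (by
        intro w
        exact hn (Sum.inr w) (by rw [adj_iff]; simp))
    have hall : ∀ u, (completeMinusEdge (Sum.inr false) (Sum.inr true) :
        SimpleGraph (ZMod M ⊕ Bool)).Adj (Sum.inl v) u → S (Sum.inr false) u := by
      intro u hu
      rw [adj_iff] at hu
      rcases u with u | w
      · have h1 := key (Sum.inl (u - v)) (by
          intro h2
          have h3 := Sum.inl.inj h2
          exact hu.1 (by rw [sub_eq_zero.mp h3]))
        have h2 : sh v (Sum.inl (u - v)) = Sum.inl u := by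
          show Sum.inl (v + (u - v)) = Sum.inl u
          congr 1
          ring
        have h3 : S (sh v (Sum.inr false)) (sh v (Sum.inl (u - v))) := h1
        rw [h2] at h3
        exact h3
      · exact key (Sum.inr w) (by simp)
    exact hS.trans (hS.symm (hall u hu)) (hall u' hu')
  · -- the vertices `x`, `y`
    have hn2 : ∀ u : ZMod M, S (Sum.inl u) (Sum.inl (u - s.d w (s.cl u + 1))) := by
      intro u
      exact hn (Sum.inl u) (by rw [adj_iff]; simp)
    have hn3 : ∀ u : ZMod M, S (Sum.inl u) (Sum.inl (u - (s.d w 0 + s.d w 1))) := by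
      intro u
      have h1 := hS.trans (hn2 u) (hn2 (u - s.d w (s.cl u + 1)))
      rw [s.cl_sub_d, add_one_add_one] at h1
      have h2 : u - s.d w (s.cl u + 1) - s.d w (s.cl u) = u - (s.d w 0 + s.d w 1) := by
        generalize s.cl u = b
        fin_cases b
        · show u - s.d w (0 + 1) - s.d w 0 = _
          rw [zero_add]
          ring
        · show u - s.d w (1 + 1) - s.d w 1 = _
          have : (1 + 1 : ZMod 2) = 0 := rfl
          rw [this]
          ring
      rw [h2] at h1
      exact h1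
    have hn4 : ∀ (n : ℕ) (u : ZMod M),
        S (Sum.inl u) (Sum.inl (u - (n : ℤ) • (s.d w 0 + s.d w 1))) := by
      intro n
      induction n with
      | zero =>
        intro u
        simp only [Nat.cast_zero, zero_smul, sub_zero]
        exact hS.refl _
      | succ n ih =>
        intro u
        have h1 := hS.trans (ih u) (hn3 _)
        have h2 : u - (n : ℤ) • (s.d w 0 + s.d w 1) - (s.d w 0 + s.d w 1) =
            u - ((n + 1 : ℕ) : ℤ) • (s.d w 0 + s.d w 1) := by
          push_cast
          rw [add_smul, one_smul]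
          ring
        rw [h2] at h1
        exact h1
    have hn5 : ∀ (n : ℤ) (u : ZMod M), S (Sum.inl u) (Sum.inl (u - n • (s.d w 0 + s.d w 1))) := by
      intro n u
      obtain ⟨m, rfl | rfl⟩ := n.eq_nat_or_neg
      · exact hn4 m u
      · have h1 := hS.symm (hn4 m (u - (-(m : ℤ)) • (s.d w 0 + s.d w 1)))
        have h2 : u - (-(m : ℤ)) • (s.d w 0 + s.d w 1) - (m : ℤ) • (s.d w 0 + s.d w 1) = u := by
          rw [neg_smul]
          ring
        rw [h2] at h1
        exact h1
    have hn6 : ∀ a b : ZMod M, s.cl a = s.cl b → S (Sum.inl a) (Sum.inl b) := by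
      intro a b hab
      obtain ⟨n, hn⟩ := s.gen w (a - b) (by rw [map_sub, hab, sub_self])
      have h1 := hn5 n a
      rw [← hn] at h1
      have h2 : a - (a - b) = b := by ring
      rw [h2] at h1
      exact h1
    have hn7 : ∀ a b : ZMod M, S (Sum.inl a) (Sum.inl b) := by
      intro a b
      by_cases h : s.cl a = s.cl b
      · exact hn6 a b h
      · have h1 := hn2 a
        have h2 : s.cl (a - s.d w (s.cl a + 1)) = s.cl b := by
          rw [s.cl_sub_d]
          generalize s.cl a = a' at h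
          generalize s.cl b = b' at h
          fin_cases a' <;> fin_cases b' <;> first | rfl | exact absurd rfl h
        exact hS.trans h1 (hn6 _ _ h2)
    rw [adj_iff] at hu hu'
    rcases u with u | u
    · rcases u' with u' | u'
      · exact hn7 u u'
      · exact absurd ⟨⟨w, rfl⟩, ⟨u', rfl⟩⟩ hu'.2
    · exact absurd ⟨⟨w, rfl⟩, ⟨u, rfl⟩⟩ hu.2

include s in
/-- A scheme yields a triangular embedding of any complete graph minus an edge of the right
order. -/
theorem exists_rotation {V : Type*} [Fintype V] (hV : Fintype.card V = M + 2) {x y : V}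
    (hxy : x ≠ y) :
    ∃ R : RotationSystem (completeMinusEdge x y),
      ∀ d, R.faceMap (R.faceMap (R.faceMap d)) = d := by
  classical
  -- an equivalence matching `x`, `y`
  obtain ⟨e, hex, hey⟩ : ∃ e : V ≃ ZMod M ⊕ Bool, e x = Sum.inr false ∧ e y = Sum.inr true := by
    have hc : Fintype.card V = Fintype.card (ZMod M ⊕ Bool) := by
      rw [Fintype.card_sum, ZMod.card, Fintype.card_bool, hV]
    let e0 : V ≃ ZMod M ⊕ Bool := Fintype.equivOfCardEq hc
    let e1 : V ≃ ZMod M ⊕ Bool := e0.trans (Equiv.swap (e0 x) (Sum.inr false))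
    have h1 : e1 x = Sum.inr false := by
      simp [e1]
    let e2 : V ≃ ZMod M ⊕ Bool := e1.trans (Equiv.swap (e1 y) (Sum.inr true))
    refine ⟨e2, ?_, ?_⟩
    · show Equiv.swap (e1 y) (Sum.inr true) (e1 x) = Sum.inr false
      rw [h1]
      apply Equiv.swap_apply_of_ne_of_ne
      · rw [← h1]
        exact fun h => hxy (e1.injective h)
      · simp
    · show Equiv.swap (e1 y) (Sum.inr true) (e1 y) = Sum.inr true
      rw [Equiv.swap_apply_left]
  have hadj : ∀ u v, (completeMinusEdge x y).Adj u v ↔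
      (completeMinusEdge (Sum.inr false) (Sum.inr true) :
        SimpleGraph (ZMod M ⊕ Bool)).Adj (e u) (e v) := by
    intro u v
    rw [cme_adj, cme_adj, ← hex, ← hey]
    constructor
    · rintro ⟨h1, h2⟩
      refine ⟨fun h => h1 (e.injective h), fun h => h2 ?_⟩
      rw [Sym2.eq_iff] at h ⊢
      rcases h with ⟨h3, h4⟩ | ⟨h3, h4⟩
      · exact Or.inl ⟨e.injective h3, e.injective h4⟩
      · exact Or.inr ⟨e.injective h3, e.injective h4⟩
    · rintro ⟨h1, h2⟩
      refine ⟨fun h => h1 (by rw [h]), fun h => h2 ?_⟩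
      rw [Sym2.eq_iff] at h ⊢
      rcases h with ⟨h3, h4⟩ | ⟨h3, h4⟩
      · exact Or.inl ⟨by rw [h3], by rw [h4]⟩
      · exact Or.inr ⟨by rw [h3], by rw [h4]⟩
  apply exists_triangular (fun v u => e.symm (s.next (e v) (e u)))
  · intro u v h
    rw [hadj, e.apply_symm_apply]
    exact s.next_adj _ _ ((hadj u v).mp h)
  · intro u v h
    rw [e.apply_symm_apply, s.next_T _ _ ((hadj u v).mp h), e.symm_apply_apply]
  · intro v S hS hn u u' hu hu'
    have h1 := s.next_cyc (e v) (fun a b => S (e.symm a) (e.symm b))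
      ⟨fun a => hS.refl _, fun h => hS.symm h, fun h h' => hS.trans h h'⟩
      (by
        intro a ha
        have h2 := hn (e.symm a) (by rw [hadj, e.apply_symm_apply]; exact ha)
        rw [e.apply_symm_apply] at h2
        exact h2)
      (e u) (e u') ((hadj v u).mp hu) ((hadj v u').mp hu')
    simp only [e.symm_apply_apply] at h1
    exact h1

end Scheme

end Pool.Agent.Helper43.Genus
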