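import Mathlib
import Pool.Agent.Helper43.Scheme

/-!
# The schemes for `n = 24 s + 2`, `s ≥ 2`
-/

set_option autoImplicit false

namespace Pool.Agent.Helper43.Genus.Family

/-- the zigzag of odd currents -/
def c (s i : ℕ) : ℤ := if i % 2 = 0 then (i : ℤ) + 3 else 12 * s - i

/-- the zigzag of even currents -/
def e (s i : ℕ) : ℤ := if i % 2 = 0 then 4 * (s : ℤ) + i else 8 * s - 1 - i

lemma c_even {s i : ℕ} (h : i % 2 = 0) : c s i = (i : ℤ) + 3 := if_pos h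
lemma c_odd {s i : ℕ} (h : i % 2 = 1) : c s i = 12 * (s : ℤ) - i := if_neg (by omega)
lemma e_even {s i : ℕ} (h : i % 2 = 0) : e s i = 4 * (s : ℤ) + i := if_pos h
lemma e_odd {s i : ℕ} (h : i % 2 = 1) : e s i = 8 * (s : ℤ) - 1 - i := if_neg (by omega)

/-- index type -/
abbrev I (s : ℕ) : Type :=
  (Fin (6 * s - 3) ⊕ Fin (6 * s - 3)) ⊕ ((Fin (2 * s - 4) ⊕ Fin (2 * s - 4)) ⊕ Fin 12)

/-- first differences of the twelve exceptional triangles -/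
def fp (s : ℤ) : Fin 12 → ℤ :=
  ![2, -(6 * s) - 1, 1, -(6 * s) + 2, -(6 * s) - 2, 6, 2, 4 * s, -(10 * s), 6 * s - 2, 6 * s, 10 * s]

/-- second differences of the twelve exceptional triangles -/
def fq (s : ℤ) : Fin 12 → ℤ :=
  ![12 * s, 12 * s + 2, -2, -3, -1, 10 * s - 2, 4, 6 * s + 2, -(8 * s), 10 * s + 2,
    -(6 * s) + 4, -(10 * s) + 2]

/-- classes -/
def fA : Fin 12 → ZMod 2 := ![1, 0, 0, 0, 0, 0, 0, 0, 0, 0, 0, 0]
/-- classes -/
def fB : Fin 12 → ZMod 2 := ![1, 1, 1, 0, 0, 0, 0, 0, 0, 0, 0, 0]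
/-- classes -/
def fC : Fin 12 → ZMod 2 := ![1, 1, 1, 1, 1, 0, 0, 0, 0, 0, 0, 0]

/-- first differences -/
def P (s : ℕ) : I s → ℤ
  | Sum.inl (Sum.inl i) => c s (i + 1)
  | Sum.inl (Sum.inr i) => -c s (i + 1)
  | Sum.inr (Sum.inl (Sum.inl i)) => e s (i + 1)
  | Sum.inr (Sum.inl (Sum.inr i)) => 16 * s - e s (i + 1)
  | Sum.inr (Sum.inr i) => fp s i

/-- second differences -/
def Q (s : ℕ) : I s → ℤ
  | Sum.inl (Sum.inl i) => c s i - c s (i + 1)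
  | Sum.inl (Sum.inr i) => c s (i + 1) - c s i
  | Sum.inr (Sum.inl (Sum.inl i)) => e s i - e s (i + 1)
  | Sum.inr (Sum.inl (Sum.inr i)) => e s (i + 1) - e s i
  | Sum.inr (Sum.inr i) => fq s i

/-- classes of the first vertices -/
def A (s : ℕ) : I s → ZMod 2
  | Sum.inl _ => 0
  | Sum.inr (Sum.inl _) => 0
  | Sum.inr (Sum.inr i) => fA i

/-- classes of the second vertices -/
def B (s : ℕ) : I s → ZMod 2
  | Sum.inl _ => 1
  | Sum.inr (Sum.inl _) => 0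
  | Sum.inr (Sum.inr i) => fB i

/-- classes of the third vertices -/
def C (s : ℕ) : I s → ZMod 2
  | Sum.inl _ => 1
  | Sum.inr (Sum.inl _) => 0
  | Sum.inr (Sum.inr i) => fC i

/-- differences of the triangles at `x` (`false`) and `y` (`true`) -/
def D (s : ℕ) (w : Bool) (a : ZMod 2) : ℤ :=
  if w then (if a = 0 then 6 * s + 1 else -(6 * s) - 3) else (if a = 0 then 3 else -1)

lemma cast_odd {n : ℤ} (h : n % 2 = 1) : (n : ZMod 2) = 1 := by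
  have : (n : ZMod 2) = ((n % 2 : ℤ) : ZMod 2) := by
    have h2 := ZMod.intCast_mod n 2
    rw [Nat.cast_ofNat] at h2
    exact h2.symm
  rw [this, h]
  rfl

lemma cast_even {n : ℤ} (h : n % 2 = 0) : (n : ZMod 2) = 0 := by
  have : (n : ZMod 2) = ((n % 2 : ℤ) : ZMod 2) := by
    have h2 := ZMod.intCast_mod n 2
    rw [Nat.cast_ofNat] at h2
    exact h2.symm
  rw [this, h]
  rfl

lemma c_mod (s i : ℕ) : c s i % 2 = 1 := by
  rcases Nat.mod_two_eq_zero_or_one i with h | h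
  · rw [c_even h]; omega
  · rw [c_odd h]; omega

lemma e_mod (s i : ℕ) : e s i % 2 = 0 := by
  rcases Nat.mod_two_eq_zero_or_one i with h | h
  · rw [e_even h]; omega
  · rw [e_odd h]; omega

lemma hB (s : ℕ) (i : I s) : A s i + ((P s i : ℤ) : ZMod 2) = B s i := by
  rcases i with (i | i) | ((i | i) | i)
  · show 0 + ((c s (i + 1) : ℤ) : ZMod 2) = 1
    rw [cast_odd (c_mod _ _), zero_add]
  · show 0 + ((-c s (i + 1) : ℤ) : ZMod 2) = 1
    have := c_mod s (i + 1)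
    rw [cast_odd (by omega), zero_add]
  · show 0 + ((e s (i + 1) : ℤ) : ZMod 2) = 0
    rw [cast_even (e_mod _ _), zero_add]
  · show 0 + ((16 * s - e s (i + 1) : ℤ) : ZMod 2) = 0
    have := e_mod s (i + 1)
    rw [cast_even (by omega), zero_add]
  · show fA i + ((fp s i : ℤ) : ZMod 2) = fB i
    fin_cases i
    · show (1 : ZMod 2) + ((2 : ℤ) : ZMod 2) = 1
      rfl
    · show (0 : ZMod 2) + ((-(6 * s) - 1 : ℤ) : ZMod 2) = 1
      rw [cast_odd (by omega), zero_add]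
    · show (0 : ZMod 2) + ((1 : ℤ) : ZMod 2) = 1
      rfl
    · show (0 : ZMod 2) + ((-(6 * s) + 2 : ℤ) : ZMod 2) = 0
      rw [cast_even (by omega), zero_add]
    · show (0 : ZMod 2) + ((-(6 * s) - 2 : ℤ) : ZMod 2) = 0
      rw [cast_even (by omega), zero_add]
    · show (0 : ZMod 2) + ((6 : ℤ) : ZMod 2) = 0
      rfl
    · show (0 : ZMod 2) + ((2 : ℤ) : ZMod 2) = 0
      rfl
    · show (0 : ZMod 2) + ((4 * s : ℤ) : ZMod 2) = 0
      rw [cast_even (by omega), zero_add]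
    · show (0 : ZMod 2) + ((-(10 * s) : ℤ) : ZMod 2) = 0
      rw [cast_even (by omega), zero_add]
    · show (0 : ZMod 2) + ((6 * s - 2 : ℤ) : ZMod 2) = 0
      rw [cast_even (by omega), zero_add]
    · show (0 : ZMod 2) + ((6 * s : ℤ) : ZMod 2) = 0
      rw [cast_even (by omega), zero_add]
    · show (0 : ZMod 2) + ((10 * s : ℤ) : ZMod 2) = 0
      rw [cast_even (by omega), zero_add]

lemma hC (s : ℕ) (i : I s) : B s i + ((Q s i : ℤ) : ZMod 2) = C s i := by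
  rcases i with (i | i) | ((i | i) | i)
  · show 1 + ((c s i - c s (i + 1) : ℤ) : ZMod 2) = 1
    have h1 := c_mod s (i + 1)
    have h2 := c_mod s i
    rw [cast_even (by omega), add_zero]
  · show 1 + ((c s (i + 1) - c s i : ℤ) : ZMod 2) = 1
    have h1 := c_mod s (i + 1)
    have h2 := c_mod s i
    rw [cast_even (by omega), add_zero]
  · show 0 + ((e s i - e s (i + 1) : ℤ) : ZMod 2) = 0
    have h1 := e_mod s (i + 1)
    have h2 := e_mod s i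
    rw [cast_even (by omega), zero_add]
  · show 0 + ((e s (i + 1) - e s i : ℤ) : ZMod 2) = 0
    have h1 := e_mod s (i + 1)
    have h2 := e_mod s i
    rw [cast_even (by omega), zero_add]
  · show fB i + ((fq s i : ℤ) : ZMod 2) = fC i
    fin_cases i
    · show (1 : ZMod 2) + ((12 * s : ℤ) : ZMod 2) = 1
      rw [cast_even (by omega), add_zero]
    · show (1 : ZMod 2) + ((12 * s + 2 : ℤ) : ZMod 2) = 1
      rw [cast_even (by omega), add_zero]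
    · show (1 : ZMod 2) + ((-2 : ℤ) : ZMod 2) = 1
      rfl
    · show (0 : ZMod 2) + ((-3 : ℤ) : ZMod 2) = 1
      rfl
    · show (0 : ZMod 2) + ((-1 : ℤ) : ZMod 2) = 1
      rfl
    · show (0 : ZMod 2) + ((10 * s - 2 : ℤ) : ZMod 2) = 0
      rw [cast_even (by omega), zero_add]
    · show (0 : ZMod 2) + ((4 : ℤ) : ZMod 2) = 0
      rfl
    · show (0 : ZMod 2) + ((6 * s + 2 : ℤ) : ZMod 2) = 0
      rw [cast_even (by omega), zero_add]
    · show (0 : ZMod 2) + ((-(8 * s) : ℤ) : ZMod 2) = 0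
      rw [cast_even (by omega), zero_add]
    · show (0 : ZMod 2) + ((10 * s + 2 : ℤ) : ZMod 2) = 0
      rw [cast_even (by omega), zero_add]
    · show (0 : ZMod 2) + ((-(6 * s) + 4 : ℤ) : ZMod 2) = 0
      rw [cast_even (by omega), zero_add]
    · show (0 : ZMod 2) + ((-(10 * s) + 2 : ℤ) : ZMod 2) = 0
      rw [cast_even (by omega), zero_add]

/-- Congruence modulo `24 s`. -/
def Cg (s : ℕ) (m n : ℤ) : Prop := m = n ∨ m = n + 24 * s ∨ m = n - 24 * s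

lemma Cg.eq {s : ℕ} {m n : ℤ} (h : Cg s m n) : ((m : ℤ) : ZMod (24 * s)) = (n : ZMod (24 * s)) := by
  have h0 : ((24 * (s : ℤ) : ℤ) : ZMod (24 * s)) = 0 := by
    have := ZMod.natCast_self (24 * s)
    push_cast at this ⊢
    exact this
  rcases h with h | h | h
  · rw [h]
  · rw [h, Int.cast_add, h0, add_zero]
  · rw [h, Int.cast_sub, h0, sub_zero]

/-- covering, in integers -/
def Cov (s : ℕ) (a : ZMod 2) (n : ℤ) : Prop :=
  (∃ i : I s, (A s i = a ∧ Cg s (P s i) n) ∨ (B s i = a ∧ Cg s (Q s i) n) ∨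
    (C s i = a ∧ Cg s (-(P s i + Q s i)) n)) ∨ ∃ w, Cg s (D s w a) n

lemma covP {s : ℕ} {a : ZMod 2} {n : ℤ} (i : I s) (h : A s i = a) (h' : Cg s (P s i) n) :
    Cov s a n := Or.inl ⟨i, Or.inl ⟨h, h'⟩⟩

lemma covQ {s : ℕ} {a : ZMod 2} {n : ℤ} (i : I s) (h : B s i = a) (h' : Cg s (Q s i) n) :
    Cov s a n := Or.inl ⟨i, Or.inr (Or.inl ⟨h, h'⟩)⟩

lemma covR {s : ℕ} {a : ZMod 2} {n : ℤ} (i : I s) (h : C s i = a)
    (h' : Cg s (-(P s i + Q s i)) n) : Cov s a n := Or.inl ⟨i, Or.inr (Or.inr ⟨h, h'⟩)⟩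

/-- index of an exceptional triangle -/
abbrev X (s : ℕ) (k : Fin 12) : I s := Sum.inr (Sum.inr k)

lemma cov_0_odd (s : ℕ) (hs : 2 ≤ s) (n : ℤ) (h1 : -(12 * s) < n) (h2 : n ≤ 12 * s)
    (h3 : n % 2 = 1) : Cov s 0 n := by
  rcases (by omega : n = 1 ∨ n = 3 ∨ n = 6 * s + 1 ∨ (5 ≤ n ∧ n ≤ 6 * s - 1) ∨ (6 * s + 3 ≤ n) ∨
    n = -1 ∨ n = -3 ∨ n = -(6 * s) - 1 ∨ (-(6 * s) + 1 ≤ n ∧ n ≤ -5) ∨ (n ≤ -(6 * s) - 3)) with
    h | h | h | h | h | h | h | h | h | h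
  · exact covP (X s 2) rfl (Or.inl h.symm)
  · exact Or.inr ⟨false, Or.inl h.symm⟩
  · exact Or.inr ⟨true, Or.inl h.symm⟩
  · obtain ⟨k, rfl⟩ : ∃ k : ℕ, n = k + 4 := ⟨(n - 4).toNat, by omega⟩
    refine covP (Sum.inl (Sum.inl ⟨k, by omega⟩)) rfl (Or.inl ?_)
    show c s (k + 1) = _
    rw [c_even (by omega)]
    push_cast
    ring
  · obtain ⟨k, hk⟩ : ∃ k : ℕ, n = 12 * s - 1 - k := ⟨(12 * s - 1 - n).toNat, by omega⟩
    refine covP (Sum.inl (Sum.inl ⟨k, by omega⟩)) rfl (Or.inl ?_)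
    show c s (k + 1) = _
    rw [c_odd (by omega)]
    push_cast
    omega
  · exact covQ (X s 4) rfl (Or.inl h.symm)
  · exact covQ (X s 3) rfl (Or.inl h.symm)
  · exact covP (X s 1) rfl (Or.inl h.symm)
  · obtain ⟨k, hk⟩ : ∃ k : ℕ, n = -(k + 4 : ℤ) := ⟨(-n - 4).toNat, by omega⟩
    refine covP (Sum.inl (Sum.inr ⟨k, by omega⟩)) rfl (Or.inl ?_)
    show -c s (k + 1) = _
    rw [c_even (by omega)]
    push_cast
    omega
  · obtain ⟨k, hk⟩ : ∃ k : ℕ, n = -(12 * s - 1 - k : ℤ) := ⟨(12 * s - 1 + n).toNat, by omega⟩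
    refine covP (Sum.inl (Sum.inr ⟨k, by omega⟩)) rfl (Or.inl ?_)
    show -c s (k + 1) = _
    rw [c_odd (by omega)]
    push_cast
    omega

lemma cov_1_odd (s : ℕ) (hs : 2 ≤ s) (n : ℤ) (h1 : -(12 * s) < n) (h2 : n ≤ 12 * s)
    (h3 : n % 2 = 1) : Cov s 1 n := by
  rcases (by omega : n = 1 ∨ (3 ≤ n ∧ n ≤ 6 * s - 1) ∨ n = 6 * s + 1 ∨ n = 6 * s + 3 ∨
    (6 * s + 5 ≤ n) ∨ n = -1 ∨ (-(6 * s) + 1 ≤ n ∧ n ≤ -3) ∨ n = -(6 * s) - 1 ∨
    n = -(6 * s) - 3 ∨ (n ≤ -(6 * s) - 5)) with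
    h | h | h | h | h | h | h | h | h | h
  · refine covR (X s 2) rfl (Or.inl ?_)
    rw [h]
    rfl
  · obtain ⟨k, hk⟩ : ∃ k : ℕ, n = k + 3 := ⟨(n - 3).toNat, by omega⟩
    refine covR (Sum.inl (Sum.inr ⟨k, by omega⟩)) rfl (Or.inl ?_)
    show -(-c s (k + 1) + (c s (k + 1) - c s k)) = _
    rw [c_even (i := k) (by omega)]
    omega
  · refine covR (X s 3) rfl (Or.inl ?_)
    show -(-(6 * s) + 2 + -3 : ℤ) = n
    omega
  · refine covR (X s 4) rfl (Or.inl ?_)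
    show -(-(6 * s) - 2 + -1 : ℤ) = n
    omega
  · obtain ⟨k, hk⟩ : ∃ k : ℕ, n = 12 * s - k := ⟨(12 * s - n).toNat, by omega⟩
    refine covR (Sum.inl (Sum.inr ⟨k, by omega⟩)) rfl (Or.inl ?_)
    show -(-c s (k + 1) + (c s (k + 1) - c s k)) = _
    rw [c_odd (i := k) (by omega)]
    omega
  · exact Or.inr ⟨false, Or.inl h.symm⟩
  · obtain ⟨k, hk⟩ : ∃ k : ℕ, n = -(k + 3 : ℤ) := ⟨(-n - 3).toNat, by omega⟩
    refine covR (Sum.inl (Sum.inl ⟨k, by omega⟩)) rfl (Or.inl ?_)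
    show -(c s (k + 1) + (c s k - c s (k + 1))) = _
    rw [c_even (i := k) (by omega)]
    omega
  · refine covR (X s 1) rfl (Or.inl ?_)
    show -(-(6 * s) - 1 + (12 * s + 2) : ℤ) = n
    omega
  · exact Or.inr ⟨true, Or.inl h.symm⟩
  · obtain ⟨k, hk⟩ : ∃ k : ℕ, n = -(12 * s - k : ℤ) := ⟨(12 * s + n).toNat, by omega⟩
    refine covR (Sum.inl (Sum.inl ⟨k, by omega⟩)) rfl (Or.inl ?_)
    show -(c s (k + 1) + (c s k - c s (k + 1))) = _
    rw [c_odd (i := k) (by omega)]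
    omega

lemma cov_1_even (s : ℕ) (hs : 2 ≤ s) (n : ℤ) (h1 : -(12 * s) < n) (h2 : n ≤ 12 * s)
    (h3 : n % 2 = 0) (h0 : n ≠ 0) : Cov s 1 n := by
  rcases (by omega : n = 2 ∨ n = -2 ∨ n = 12 * s ∨ n = 12 * s - 2 ∨ n = -(12 * s) + 2 ∨
    (4 ≤ n ∧ n ≤ 12 * s - 4) ∨ (-(12 * s) + 4 ≤ n ∧ n ≤ -4)) with
    h | h | h | h | h | h | h
  · exact covP (X s 0) rfl (Or.inl h.symm)
  · exact covQ (X s 2) rfl (Or.inl h.symm)
  · exact covQ (X s 0) rfl (Or.inl h.symm)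
  · refine covR (X s 0) rfl (Or.inr (Or.inr ?_))
    show -(2 + 12 * s : ℤ) = _
    omega
  · refine covQ (X s 1) rfl (Or.inr (Or.inl ?_))
    show (12 * s + 2 : ℤ) = _
    omega
  · obtain ⟨k, hk⟩ : ∃ k : ℕ, n = 12 * s - 4 - 2 * k := ⟨((12 * s - 4 - n) / 2).toNat, by omega⟩
    rcases Nat.mod_two_eq_zero_or_one k with hk2 | hk2
    · refine covQ (Sum.inl (Sum.inr ⟨k, by omega⟩)) rfl (Or.inl ?_)
      show c s (k + 1) - c s k = n
      rw [c_even (i := k) (by omega), c_odd (i := k + 1) (by omega)]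
      push_cast
      omega
    · refine covQ (Sum.inl (Sum.inl ⟨k, by omega⟩)) rfl (Or.inl ?_)
      show c s k - c s (k + 1) = n
      rw [c_odd (i := k) (by omega), c_even (i := k + 1) (by omega)]
      push_cast
      omega
  · obtain ⟨k, hk⟩ : ∃ k : ℕ, n = -(12 * s - 4 - 2 * k : ℤ) :=
      ⟨((12 * s - 4 + n) / 2).toNat, by omega⟩
    rcases Nat.mod_two_eq_zero_or_one k with hk2 | hk2
    · refine covQ (Sum.inl (Sum.inl ⟨k, by omega⟩)) rfl (Or.inl ?_)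
      show c s k - c s (k + 1) = n
      rw [c_even (i := k) (by omega), c_odd (i := k + 1) (by omega)]
      push_cast
      omega
    · refine covQ (Sum.inl (Sum.inr ⟨k, by omega⟩)) rfl (Or.inl ?_)
      show c s (k + 1) - c s k = n
      rw [c_odd (i := k) (by omega), c_even (i := k + 1) (by omega)]
      push_cast
      omega

lemma cov_0_pos (s : ℕ) (hs : 2 ≤ s) (n : ℤ) (h1 : 0 < n) (h2 : n < 12 * s)
    (h3 : n % 2 = 0) : Cov s 0 n := by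
  rcases (by omega : n = 2 ∨ n = 4 ∨ n = 6 ∨ (8 ≤ n ∧ n ≤ 4 * s - 2) ∨ n = 4 * s ∨
    (4 * s + 2 ≤ n ∧ n ≤ 6 * s - 4) ∨ n = 6 * s - 2 ∨ n = 6 * s ∨ n = 6 * s + 2 ∨
    (6 * s + 4 ≤ n ∧ n ≤ 8 * s - 2) ∨ n = 8 * s ∨ (8 * s + 2 ≤ n ∧ n ≤ 10 * s - 4) ∨
    n = 10 * s - 2 ∨ n = 10 * s ∨ n = 10 * s + 2 ∨ (10 * s + 4 ≤ n ∧ n ≤ 12 * s - 2)) with
    h | h | h | h | h | h | h | h | h | h | h | h | h | h | h | h
  · exact covP (X s 6) rfl (Or.inl h.symm)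
  · exact covQ (X s 6) rfl (Or.inl h.symm)
  · exact covP (X s 5) rfl (Or.inl h.symm)
  · obtain ⟨k, hk⟩ : ∃ k : ℕ, n = 4 * s - 2 - 2 * k := ⟨((4 * s - 2 - n) / 2).toNat, by omega⟩
    rcases Nat.mod_two_eq_zero_or_one k with hk2 | hk2
    · refine covQ (Sum.inr (Sum.inl (Sum.inr ⟨k, by omega⟩))) rfl (Or.inl ?_)
      show e s (k + 1) - e s k = n
      rw [e_even (i := k) (by omega), e_odd (i := k + 1) (by omega)]
      push_cast
      omega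
    · refine covQ (Sum.inr (Sum.inl (Sum.inl ⟨k, by omega⟩))) rfl (Or.inl ?_)
      show e s k - e s (k + 1) = n
      rw [e_odd (i := k) (by omega), e_even (i := k + 1) (by omega)]
      push_cast
      omega
  · exact covP (X s 7) rfl (Or.inl h.symm)
  · obtain ⟨k, hk⟩ : ∃ k : ℕ, n = 4 * s + 1 + k := ⟨(n - 4 * s - 1).toNat, by omega⟩
    refine covP (Sum.inr (Sum.inl (Sum.inl ⟨k, by omega⟩))) rfl (Or.inl ?_)
    show e s (k + 1) = n
    rw [e_even (by omega)]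
    push_cast
    omega
  · exact covP (X s 9) rfl (Or.inl h.symm)
  · exact covP (X s 10) rfl (Or.inl h.symm)
  · exact covQ (X s 7) rfl (Or.inl h.symm)
  · obtain ⟨k, hk⟩ : ∃ k : ℕ, n = 8 * s - 2 - k := ⟨(8 * s - 2 - n).toNat, by omega⟩
    refine covP (Sum.inr (Sum.inl (Sum.inl ⟨k, by omega⟩))) rfl (Or.inl ?_)
    show e s (k + 1) = n
    rw [e_odd (by omega)]
    push_cast
    omega
  · refine covR (X s 9) rfl (Or.inr (Or.inr ?_))
    show -(6 * s - 2 + (10 * s + 2) : ℤ) = _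
    omega
  · obtain ⟨k, hk⟩ : ∃ k : ℕ, n = 8 * s + 2 + k := ⟨(n - 8 * s - 2).toNat, by omega⟩
    refine covP (Sum.inr (Sum.inl (Sum.inr ⟨k, by omega⟩))) rfl (Or.inl ?_)
    show 16 * s - e s (k + 1) = n
    rw [e_odd (by omega)]
    push_cast
    omega
  · exact covQ (X s 5) rfl (Or.inl h.symm)
  · exact covP (X s 11) rfl (Or.inl h.symm)
  · exact covQ (X s 9) rfl (Or.inl h.symm)
  · obtain ⟨k, hk⟩ : ∃ k : ℕ, n = 12 * s - 1 - k := ⟨(12 * s - 1 - n).toNat, by omega⟩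
    refine covP (Sum.inr (Sum.inl (Sum.inr ⟨k, by omega⟩))) rfl (Or.inl ?_)
    show 16 * s - e s (k + 1) = n
    rw [e_even (by omega)]
    push_cast
    omega

lemma cov_0_neg (s : ℕ) (hs : 2 ≤ s) (n : ℤ) (h1 : n < 0) (h2 : -(12 * s) ≤ n)
    (h3 : n % 2 = 0) : Cov s 0 n := by
  rcases (by omega : n = -2 ∨ n = -4 ∨ n = -6 ∨ (-(4 * s) + 2 ≤ n ∧ n ≤ -8) ∨
    (-(6 * s) + 6 ≤ n ∧ n ≤ -(4 * s)) ∨ n = -(6 * s) + 4 ∨ n = -(6 * s) + 2 ∨ n = -(6 * s) ∨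
    n = -(6 * s) - 2 ∨
    (-(8 * s) + 2 ≤ n ∧ n ≤ -(6 * s) - 4) ∨ n = -(8 * s) ∨
    (-(10 * s) + 4 ≤ n ∧ n ≤ -(8 * s) - 2) ∨
    n = -(10 * s) + 2 ∨ n = -(10 * s) ∨ n = -(10 * s) - 2 ∨ n = -(10 * s) - 4 ∨
    (n ≤ -(10 * s) - 6)) with
    h | h | h | h | h | h | h | h | h | h | h | h | h | h | h | h | h
  · refine covR (X s 11) rfl (Or.inl ?_)
    show -(10 * s + (-(10 * s) + 2) : ℤ) = n
    omega
  · refine covR (X s 10) rfl (Or.inl ?_)
    show -(6 * s + (-(6 * s) + 4) : ℤ) = n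
    omega
  · refine covR (X s 6) rfl (Or.inl ?_)
    show -(2 + 4 : ℤ) = n
    omega
  · obtain ⟨k, hk⟩ : ∃ k : ℕ, n = -(4 * s - 2 - 2 * k : ℤ) :=
      ⟨((4 * s - 2 + n) / 2).toNat, by omega⟩
    rcases Nat.mod_two_eq_zero_or_one k with hk2 | hk2
    · refine covQ (Sum.inr (Sum.inl (Sum.inl ⟨k, by omega⟩))) rfl (Or.inl ?_)
      show e s k - e s (k + 1) = n
      rw [e_even (i := k) (by omega), e_odd (i := k + 1) (by omega)]
      push_cast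
      omega
    · refine covQ (Sum.inr (Sum.inl (Sum.inr ⟨k, by omega⟩))) rfl (Or.inl ?_)
      show e s (k + 1) - e s k = n
      rw [e_odd (i := k) (by omega), e_even (i := k + 1) (by omega)]
      push_cast
      omega
  · obtain ⟨k, hk⟩ : ∃ k : ℕ, n = -(4 * s + k : ℤ) := ⟨(-n - 4 * s).toNat, by omega⟩
    refine covR (Sum.inr (Sum.inl (Sum.inl ⟨k, by omega⟩))) rfl (Or.inl ?_)
    show -(e s (k + 1) + (e s k - e s (k + 1))) = n
    rw [e_even (i := k) (by omega)]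
    omega
  · exact covQ (X s 10) rfl (Or.inl h.symm)
  · exact covP (X s 3) rfl (Or.inl h.symm)
  · refine covR (X s 8) rfl (Or.inr (Or.inl ?_))
    show -(-(10 * s) + -(8 * s) : ℤ) = _
    omega
  · exact covP (X s 4) rfl (Or.inl h.symm)
  · obtain ⟨k, hk⟩ : ∃ k : ℕ, n = -(8 * s - 1 - k : ℤ) := ⟨(8 * s - 1 + n).toNat, by omega⟩
    refine covR (Sum.inr (Sum.inl (Sum.inl ⟨k, by omega⟩))) rfl (Or.inl ?_)
    show -(e s (k + 1) + (e s k - e s (k + 1))) = n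
    rw [e_odd (i := k) (by omega)]
    omega
  · exact covQ (X s 8) rfl (Or.inl h.symm)
  · obtain ⟨k, hk⟩ : ∃ k : ℕ, n = -(8 * s + 1 + k : ℤ) := ⟨(-n - 8 * s - 1).toNat, by omega⟩
    refine covR (Sum.inr (Sum.inl (Sum.inr ⟨k, by omega⟩))) rfl (Or.inl ?_)
    show -(16 * s - e s (k + 1) + (e s (k + 1) - e s k)) = n
    rw [e_odd (i := k) (by omega)]
    omega
  · exact covQ (X s 11) rfl (Or.inl h.symm)
  · exact covP (X s 8) rfl (Or.inl h.symm)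
  · refine covR (X s 7) rfl (Or.inl ?_)
    show -(4 * s + (6 * s + 2) : ℤ) = n
    omega
  · refine covR (X s 5) rfl (Or.inl ?_)
    show -(6 + (10 * s - 2) : ℤ) = n
    omega
  · obtain ⟨k, hk⟩ : ∃ k : ℕ, n = -(12 * s - k : ℤ) := ⟨(12 * s + n).toNat, by omega⟩
    refine covR (Sum.inr (Sum.inl (Sum.inr ⟨k, by omega⟩))) rfl (Or.inl ?_)
    show -(16 * s - e s (k + 1) + (e s (k + 1) - e s k)) = n
    rw [e_even (i := k) (by omega)]
    omega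

lemma Cov.congr {s : ℕ} {a : ZMod 2} {n m : ℤ}
    (h : Cov s a n) (hnm : ((n : ℤ) : ZMod (24 * s)) = (m : ZMod (24 * s))) :
    (∃ i : I s, (A s i = a ∧ ((P s i : ℤ) : ZMod (24 * s)) = (m : ZMod (24 * s))) ∨
      (B s i = a ∧ ((Q s i : ℤ) : ZMod (24 * s)) = (m : ZMod (24 * s))) ∨
      (C s i = a ∧ ((-(P s i + Q s i) : ℤ) : ZMod (24 * s)) = (m : ZMod (24 * s)))) ∨
      ∃ w, ((D s w a : ℤ) : ZMod (24 * s)) = (m : ZMod (24 * s)) := by
  rw [← hnm]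
  rcases h with ⟨i, ⟨h1, h2⟩ | ⟨h1, h2⟩ | ⟨h1, h2⟩⟩ | ⟨w, h1⟩
  · exact Or.inl ⟨i, Or.inl ⟨h1, h2.eq⟩⟩
  · exact Or.inl ⟨i, Or.inr (Or.inl ⟨h1, h2.eq⟩)⟩
  · exact Or.inl ⟨i, Or.inr (Or.inr ⟨h1, h2.eq⟩)⟩
  · exact Or.inr ⟨w, h1.eq⟩

theorem cover (s : ℕ) (hs : 2 ≤ s) (a : ZMod 2) (δ : ZMod (24 * s)) (hδ : δ ≠ 0) :
    (∃ i : I s, (A s i = a ∧ ((P s i : ℤ) : ZMod (24 * s)) = δ) ∨
      (B s i = a ∧ ((Q s i : ℤ) : ZMod (24 * s)) = δ) ∨
      (C s i = a ∧ ((-(P s i + Q s i) : ℤ) : ZMod (24 * s)) = δ)) ∨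
      ∃ w, ((D s w a : ℤ) : ZMod (24 * s)) = δ := by
  have hne : NeZero (24 * s) := ⟨by omega⟩
  obtain ⟨n, hn, h1, h2⟩ : ∃ n : ℤ, (n : ZMod (24 * s)) = δ ∧ -(12 * s) < n ∧ n ≤ 12 * s := by
    refine ⟨δ.valMinAbs, ZMod.coe_valMinAbs δ, ?_, ?_⟩
    · have := (ZMod.valMinAbs_mem_Ioc δ).1
      push_cast at this
      linarith
    · have := (ZMod.valMinAbs_mem_Ioc δ).2
      push_cast at this
      linarith
  have h0 : n ≠ 0 := by
    rintro rfl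
    exact hδ (by rw [← hn, Int.cast_zero])
  rw [← hn]
  have ha : a = 0 ∨ a = 1 := by
    fin_cases a
    · exact Or.inl rfl
    · exact Or.inr rfl
  rcases ha with rfl | rfl
  · rcases Int.emod_two_eq_zero_or_one n with h3 | h3
    · rcases (by omega : n = 12 * s ∨ (0 < n ∧ n < 12 * s) ∨ n < 0) with h4 | h4 | h4
      · have h5 : ((-(12 * s) : ℤ) : ZMod (24 * s)) = (n : ZMod (24 * s)) := by
          apply Cg.eq
          refine Or.inr (Or.inr ?_)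
          omega
        exact (cov_0_neg s hs (-(12 * s)) (by omega) le_rfl (by omega)).congr h5
      · exact (cov_0_pos s hs n h4.1 h4.2 h3).congr rfl
      · exact (cov_0_neg s hs n h4 h1.le h3).congr rfl
    · exact (cov_0_odd s hs n h1 h2 h3).congr rfl
  · rcases Int.emod_two_eq_zero_or_one n with h3 | h3
    · exact (cov_1_even s hs n h1 h2 h3 h0).congr rfl
    · exact (cov_1_odd s hs n h1 h2 h3).congr rfl

end Pool.Agent.Helper43.Genus.Family
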