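import Mathlib
import Pool.Agent.Helper43.Family

/-!
# Connectivity of the rows of the family, and the scheme
-/

set_option autoImplicit false

namespace Pool.Agent.Helper43.Genus.Family

/-- label of an integer -/
def L (s : ℕ) (n : ℤ) : ZMod (24 * s) ⊕ Bool := Sum.inl (n : ZMod (24 * s))

lemma go {s : ℕ} {S : ZMod (24 * s) ⊕ Bool → ZMod (24 * s) ⊕ Bool → Prop} (hS : Equivalence S)
    {x : ZMod (24 * s) ⊕ Bool} {n m k : ℤ} (hT : S x (L s n)) (h : S (L s m) (L s k))
    (hc : Cg s m n) : S x (L s k) := by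
  have h1 : L s m = L s n := congrArg Sum.inl hc.eq
  rw [h1] at h
  exact hS.trans hT h

lemma cgr {s : ℕ} {S : ZMod (24 * s) ⊕ Bool → ZMod (24 * s) ⊕ Bool → Prop}
    {x : ZMod (24 * s) ⊕ Bool} {n m : ℤ} (hT : S x (L s n)) (hc : Cg s m n) : S x (L s m) := by
  have h1 : L s m = L s n := congrArg Sum.inl hc.eq
  rw [h1]
  exact hT

lemma c_zero (s : ℕ) : c s 0 = 3 := by rw [c_even rfl]; rfl

lemma e_zero (s : ℕ) : e s 0 = 4 * s := by rw [e_even rfl]; simp

lemma c_last (s : ℕ) (hs : 2 ≤ s) : c s (6 * s - 3) = 6 * s + 3 := by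
  rw [c_odd (by omega)]
  omega

lemma e_last (s : ℕ) (hs : 2 ≤ s) : e s (2 * s - 4) = 6 * s - 4 := by
  rw [e_even (by omega)]
  omega

/-- climbing along a run -/
lemma run {p : ℕ → Prop} {N : ℕ} (h0 : p 0) (h : ∀ i, i < N → p i → p (i + 1)) :
    ∀ i, i ≤ N → p i := by
  intro i
  induction i with
  | zero => intro _; exact h0
  | succ i ih => intro hi; exact h i (by omega) (ih (by omega))

/-- descending along a run -/
lemma run_down {p : ℕ → Prop} {N : ℕ} (h0 : p N) (h : ∀ i, i < N → p (i + 1) → p i) :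
    ∀ i, i ≤ N → p i := by
  intro i hi
  obtain ⟨k, hk⟩ : ∃ k, N = i + k := ⟨N - i, by omega⟩
  induction k generalizing i with
  | zero => rw [hk, add_zero] at h0; exact h0
  | succ k ih => exact h i (by omega) (ih (i + 1) (by omega) (by omega))

/-- The connectivity statement for one row, reduced to corners. -/
lemma conn_of_corners (s : ℕ) (hs : 2 ≤ s) (a : ZMod 2)
    (S : ZMod (24 * s) ⊕ Bool → ZMod (24 * s) ⊕ Bool → Prop) (hS : Equivalence S)
    (kA : ∀ i, A s i = a → S (Sum.inr false) (L s (P s i)))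
    (kB : ∀ i, B s i = a → S (Sum.inr false) (L s (Q s i)))
    (kC : ∀ i, C s i = a → S (Sum.inr false) (L s (-(P s i + Q s i))))
    (kD : ∀ w, S (Sum.inr false) (L s (D s w a)))
    (kY : S (Sum.inr false) (Sum.inr true)) :
    ∀ l, l ≠ Sum.inl 0 → S (Sum.inr false) l := by
  intro l hl
  rcases l with δ | w
  · have hδ : δ ≠ 0 := fun h => hl (by rw [h])
    rcases cover s hs a δ hδ with ⟨i, ⟨h1, h2⟩ | ⟨h1, h2⟩ | ⟨h1, h2⟩⟩ | ⟨w, h1⟩
    · rw [← h2]; exact kA i h1
    · rw [← h2]; exact kB i h1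
    · rw [← h2]; exact kC i h1
    · rw [← h1]; exact kD w
  · cases w
    · exact hS.refl _
    · exact kY

lemma conn_one (s : ℕ) (hs : 2 ≤ s)
    (S : ZMod (24 * s) ⊕ Bool → ZMod (24 * s) ⊕ Bool → Prop) (hS : Equivalence S)
    (h0 : ∀ i, A s i = 1 → S (L s (P s i + Q s i)) (L s (P s i)))
    (h1 : ∀ i, B s i = 1 → S (L s (-P s i)) (L s (Q s i)))
    (h2 : ∀ i, C s i = 1 → S (L s (-Q s i)) (L s (-(P s i + Q s i))))
    (h3 : ∀ w, S (L s (-D s w 0)) (Sum.inr w))
    (h4 : ∀ w, S (Sum.inr w) (L s (D s w 1))) :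
    ∀ l, l ≠ Sum.inl 0 → S (Sum.inr false) l := by
  have t1 : S (Sum.inr false) (L s (-1)) := h4 false
  have t2 : S (Sum.inr false) (L s (-2)) :=
    go hS t1 (show S (L s (-1)) (L s (-2)) from h1 (X s 2) rfl) (Or.inl rfl)
  have t3 : S (Sum.inr false) (L s (12 * s)) :=
    go hS t2 (show S (L s (-2)) (L s (12 * s)) from h1 (X s 0) rfl) (Or.inl rfl)
  have t4 : S (Sum.inr false) (L s (-(2 + 12 * s))) :=
    go hS t3 (show S (L s (-(12 * s))) (L s (-(2 + 12 * s))) from h2 (X s 0) rfl)
      (Or.inr (Or.inr (by ring)))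
  have t5 : S (Sum.inr false) (L s (-(-(6 * s) - 1 + (12 * s + 2)))) :=
    go hS t4 (show S (L s (-(12 * s + 2))) (L s (-(-(6 * s) - 1 + (12 * s + 2)))) from h2 (X s 1) rfl)
      (Or.inl (by ring))
  have t6 : S (Sum.inr false) (Sum.inr true) := by
    have h : S (L s (-(6 * s + 1))) (Sum.inr true) := h3 true
    have h' : S (Sum.inr false) (L s (-(6 * s + 1))) := cgr t5 (Or.inl (by ring))
    exact hS.trans h' h
  have t7 : S (Sum.inr false) (L s (-(6 * s) - 3)) := hS.trans t6 (h4 true)
  -- strand one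
  have hU : ∀ i, i ≤ 6 * s - 3 →
      S (Sum.inr false) (L s (if i % 2 = 1 then -c s i else c s i)) := by
    apply run_down
    · rw [if_pos (by omega), c_last s hs]
      exact cgr t7 (Or.inl (by ring))
    · intro i hi ht
      have e1 : S (L s (-c s (i + 1))) (L s (c s i - c s (i + 1))) :=
        h1 (Sum.inl (Sum.inl ⟨i, hi⟩)) rfl
      have e2 : S (L s (-(c s (i + 1) - c s i))) (L s (-(-c s (i + 1) + (c s (i + 1) - c s i)))) :=
        h2 (Sum.inl (Sum.inr ⟨i, hi⟩)) rfl
      have e3 : S (L s (-(-c s (i + 1)))) (L s (c s (i + 1) - c s i)) :=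
        h1 (Sum.inl (Sum.inr ⟨i, hi⟩)) rfl
      have e4 : S (L s (-(c s i - c s (i + 1)))) (L s (-(c s (i + 1) + (c s i - c s (i + 1))))) :=
        h2 (Sum.inl (Sum.inl ⟨i, hi⟩)) rfl
      rcases Nat.mod_two_eq_zero_or_one i with hp | hp
      · rw [if_neg (by omega)]
        rw [if_pos (by omega)] at ht
        exact cgr (go hS (go hS ht e1 (Or.inl rfl)) e2 (Or.inl (by ring))) (Or.inl (by ring))
      · rw [if_pos hp]
        rw [if_neg (by omega)] at ht
        exact cgr (go hS (go hS ht e3 (Or.inl (by ring))) e4 (Or.inl (by ring))) (Or.inl (by ring))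
  have t8 : S (Sum.inr false) (L s 3) := by
    have h := hU 0 (by omega)
    rw [if_neg (by omega), c_zero] at h
    exact h
  have t9 : S (Sum.inr false) (L s (-(-(6 * s) + 2 + -3))) :=
    go hS t8 (show S (L s (-(-3))) (L s (-(-(6 * s) + 2 + -3))) from h2 (X s 3) rfl) (Or.inl (by ring))
  have t10 : S (Sum.inr false) (L s (12 * s + 2)) :=
    go hS t9 (show S (L s (-(-(6 * s) - 1))) (L s (12 * s + 2)) from h1 (X s 1) rfl) (Or.inl (by ring))
  have t11 : S (Sum.inr false) (L s 2) :=
    go hS t10 (show S (L s (2 + 12 * s)) (L s 2) from h0 (X s 0) rfl) (Or.inl (by ring))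
  have t12 : S (Sum.inr false) (L s (-(1 + -2))) :=
    go hS t11 (show S (L s (-(-2))) (L s (-(1 + -2))) from h2 (X s 2) rfl) (Or.inl (by ring))
  have t13 : S (Sum.inr false) (L s (-(-(6 * s) - 2 + -1))) :=
    go hS t12 (show S (L s (-(-1))) (L s (-(-(6 * s) - 2 + -1))) from h2 (X s 4) rfl) (Or.inl (by ring))
  -- strand two
  have hV : ∀ i, i ≤ 6 * s - 3 →
      S (Sum.inr false) (L s (if i % 2 = 1 then c s i else -c s i)) := by
    apply run_down
    · rw [if_pos (by omega), c_last s hs]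
      exact cgr t13 (Or.inl (by ring))
    · intro i hi ht
      have e1 : S (L s (-c s (i + 1))) (L s (c s i - c s (i + 1))) :=
        h1 (Sum.inl (Sum.inl ⟨i, hi⟩)) rfl
      have e2 : S (L s (-(c s (i + 1) - c s i))) (L s (-(-c s (i + 1) + (c s (i + 1) - c s i)))) :=
        h2 (Sum.inl (Sum.inr ⟨i, hi⟩)) rfl
      have e3 : S (L s (-(-c s (i + 1)))) (L s (c s (i + 1) - c s i)) :=
        h1 (Sum.inl (Sum.inr ⟨i, hi⟩)) rfl
      have e4 : S (L s (-(c s i - c s (i + 1)))) (L s (-(c s (i + 1) + (c s i - c s (i + 1))))) :=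
        h2 (Sum.inl (Sum.inl ⟨i, hi⟩)) rfl
      rcases Nat.mod_two_eq_zero_or_one i with hp | hp
      · rw [if_neg (by omega)]
        rw [if_pos (by omega)] at ht
        exact cgr (go hS (go hS ht e3 (Or.inl (by ring))) e4 (Or.inl (by ring))) (Or.inl (by ring))
      · rw [if_pos hp]
        rw [if_neg (by omega)] at ht
        exact cgr (go hS (go hS ht e1 (Or.inl rfl)) e2 (Or.inl (by ring))) (Or.inl (by ring))
  have hc1 : ∀ i, i ≤ 6 * s - 3 → S (Sum.inr false) (L s (c s i)) := by
    intro i hi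
    rcases Nat.mod_two_eq_zero_or_one i with hp | hp
    · have h := hU i hi
      rw [if_neg (by omega)] at h
      exact h
    · have h := hV i hi
      rw [if_pos hp] at h
      exact h
  have hc2 : ∀ i, i ≤ 6 * s - 3 → S (Sum.inr false) (L s (-c s i)) := by
    intro i hi
    rcases Nat.mod_two_eq_zero_or_one i with hp | hp
    · have h := hV i hi
      rw [if_neg (by omega)] at h
      exact h
    · have h := hU i hi
      rw [if_pos hp] at h
      exact h
  apply conn_of_corners s hs 1 S hS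
  · rintro ((⟨i, hi⟩ | ⟨i, hi⟩) | ((⟨i, hi⟩ | ⟨i, hi⟩) | i)) h
    · exact absurd (show (0 : ZMod 2) = 1 from h) (by decide)
    · exact absurd (show (0 : ZMod 2) = 1 from h) (by decide)
    · exact absurd (show (0 : ZMod 2) = 1 from h) (by decide)
    · exact absurd (show (0 : ZMod 2) = 1 from h) (by decide)
    · fin_cases i
      · exact t11
      all_goals exact absurd (show (0 : ZMod 2) = 1 from h) (by decide)
  · rintro ((⟨i, hi⟩ | ⟨i, hi⟩) | ((⟨i, hi⟩ | ⟨i, hi⟩) | i)) h
    · have e1 : S (L s (-c s (i + 1))) (L s (c s i - c s (i + 1))) :=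
        h1 (Sum.inl (Sum.inl ⟨i, hi⟩)) rfl
      exact hS.trans (hc2 (i + 1) (by omega)) e1
    · have e3 : S (L s (-(-c s (i + 1)))) (L s (c s (i + 1) - c s i)) :=
        h1 (Sum.inl (Sum.inr ⟨i, hi⟩)) rfl
      exact go hS (hc1 (i + 1) (by omega)) e3 (Or.inl (by ring))
    · exact absurd (show (0 : ZMod 2) = 1 from h) (by decide)
    · exact absurd (show (0 : ZMod 2) = 1 from h) (by decide)
    · fin_cases i
      · exact t3
      · exact t10
      · exact t2
      all_goals exact absurd (show (0 : ZMod 2) = 1 from h) (by decide)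
  · rintro ((⟨i, hi⟩ | ⟨i, hi⟩) | ((⟨i, hi⟩ | ⟨i, hi⟩) | i)) h
    · show S (Sum.inr false) (L s (-(c s (i + 1) + (c s i - c s (i + 1)))))
      exact cgr (hc2 i (by omega)) (Or.inl (by ring))
    · show S (Sum.inr false) (L s (-(-c s (i + 1) + (c s (i + 1) - c s i))))
      exact cgr (hc1 i (by omega)) (Or.inl (by ring))
    · exact absurd (show (0 : ZMod 2) = 1 from h) (by decide)
    · exact absurd (show (0 : ZMod 2) = 1 from h) (by decide)
    · fin_cases i
      · exact t4
      · exact t5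
      · exact t12
      · exact t9
      · exact t13
      all_goals exact absurd (show (0 : ZMod 2) = 1 from h) (by decide)
  · intro w
    cases w
    · exact t1
    · exact t7
  · exact t6

lemma conn_zero (s : ℕ) (hs : 2 ≤ s)
    (S : ZMod (24 * s) ⊕ Bool → ZMod (24 * s) ⊕ Bool → Prop) (hS : Equivalence S)
    (h0 : ∀ i, A s i = 0 → S (L s (P s i + Q s i)) (L s (P s i)))
    (h1 : ∀ i, B s i = 0 → S (L s (-P s i)) (L s (Q s i)))
    (h2 : ∀ i, C s i = 0 → S (L s (-Q s i)) (L s (-(P s i + Q s i))))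
    (h3 : ∀ w, S (L s (-D s w 1)) (Sum.inr w))
    (h4 : ∀ w, S (Sum.inr w) (L s (D s w 0))) :
    ∀ l, l ≠ Sum.inl 0 → S (Sum.inr false) l := by
  have t1 : S (Sum.inr false) (L s 3) := h4 false
  have hc1 : ∀ i, i ≤ 6 * s - 3 → S (Sum.inr false) (L s (c s i)) := by
    apply run
    · rw [c_zero]; exact t1
    · intro i hi ht
      have e1 : S (L s (c s (i + 1) + (c s i - c s (i + 1)))) (L s (c s (i + 1))) :=
        h0 (Sum.inl (Sum.inl ⟨i, hi⟩)) rfl
      exact go hS ht e1 (Or.inl (by ring))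
  have t2 : S (Sum.inr false) (Sum.inr true) := by
    have h : S (L s (-(-(6 * s) - 3))) (Sum.inr true) := h3 true
    have h' := hc1 (6 * s - 3) le_rfl
    rw [c_last s hs] at h'
    exact hS.trans (cgr h' (Or.inl (by ring))) h
  have t3 : S (Sum.inr false) (L s (6 * s + 1)) := hS.trans t2 (h4 true)
  have t4 : S (Sum.inr false) (L s (-(6 * s) - 1)) :=
    go hS t3 (show S (L s (-(6 * s) - 1 + (12 * s + 2))) (L s (-(6 * s) - 1)) from h0 (X s 1) rfl)
      (Or.inl (by ring))
  have t5 : S (Sum.inr false) (L s (-(6 * s) + 2)) :=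
    go hS t4 (show S (L s (-(6 * s) + 2 + -3)) (L s (-(6 * s) + 2)) from h0 (X s 3) rfl) (Or.inl (by ring))
  have t6 : S (Sum.inr false) (L s (10 * s + 2)) :=
    go hS t5 (show S (L s (-(6 * s - 2))) (L s (10 * s + 2)) from h1 (X s 9) rfl) (Or.inl (by ring))
  have t7 : S (Sum.inr false) (L s (4 * s)) :=
    go hS t6 (show S (L s (4 * s + (6 * s + 2))) (L s (4 * s)) from h0 (X s 7) rfl) (Or.inl (by ring))
  have he1 : ∀ i, i ≤ 2 * s - 4 → S (Sum.inr false) (L s (e s i)) := by
    apply run
    · rw [e_zero]; exact t7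
    · intro i hi ht
      have e1 : S (L s (e s (i + 1) + (e s i - e s (i + 1)))) (L s (e s (i + 1))) :=
        h0 (Sum.inr (Sum.inl (Sum.inl ⟨i, hi⟩))) rfl
      exact go hS ht e1 (Or.inl (by ring))
  have t8 : S (Sum.inr false) (L s (-(6 * s + (-(6 * s) + 4)))) := by
    have h' := he1 (2 * s - 4) le_rfl
    rw [e_last s hs] at h'
    exact go hS h' (show S (L s (-(-(6 * s) + 4))) (L s (-(6 * s + (-(6 * s) + 4)))) from h2 (X s 10) rfl)
      (Or.inl (by ring))
  have t9 : S (Sum.inr false) (L s (-(2 + 4))) :=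
    go hS t8 (show S (L s (-4)) (L s (-(2 + 4))) from h2 (X s 6) rfl) (Or.inl (by ring))
  have t10 : S (Sum.inr false) (L s (10 * s - 2)) :=
    go hS t9 (show S (L s (-6)) (L s (10 * s - 2)) from h1 (X s 5) rfl) (Or.inl (by ring))
  have t11 : S (Sum.inr false) (L s (-(10 * s + (-(10 * s) + 2)))) :=
    go hS t10 (show S (L s (-(-(10 * s) + 2))) (L s (-(10 * s + (-(10 * s) + 2)))) from h2 (X s 11) rfl)
      (Or.inl (by ring))
  have t12 : S (Sum.inr false) (L s 4) :=
    go hS t11 (show S (L s (-2)) (L s 4) from h1 (X s 6) rfl) (Or.inl (by ring))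
  have t13 : S (Sum.inr false) (L s (6 * s)) :=
    go hS t12 (show S (L s (6 * s + (-(6 * s) + 4))) (L s (6 * s)) from h0 (X s 10) rfl) (Or.inl (by ring))
  have t14 : S (Sum.inr false) (L s (-(10 * s))) :=
    go hS t13 (show S (L s (-(10 * s) + -(8 * s))) (L s (-(10 * s))) from h0 (X s 8) rfl)
      (Or.inr (Or.inr (by ring)))
  have t15 : S (Sum.inr false) (L s (-(10 * s) + 2)) :=
    go hS t14 (show S (L s (-(10 * s))) (L s (-(10 * s) + 2)) from h1 (X s 11) rfl) (Or.inl (by ring))
  have t16 : S (Sum.inr false) (L s (-(6 + (10 * s - 2)))) :=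
    go hS t15 (show S (L s (-(10 * s - 2))) (L s (-(6 + (10 * s - 2)))) from h2 (X s 5) rfl)
      (Or.inl (by ring))
  -- the two strands of the even ladder
  have hdown : ∀ i, i < 2 * s - 4 →
      (S (Sum.inr false) (L s (-(16 * s - e s (i + 1)))) →
        S (Sum.inr false) (L s (e s (i + 1) - e s i)) ∧ S (Sum.inr false) (L s (-e s i))) ∧
      (S (Sum.inr false) (L s (-e s (i + 1))) →
        S (Sum.inr false) (L s (e s i - e s (i + 1))) ∧
          S (Sum.inr false) (L s (-(16 * s - e s i)))) := by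
    intro i hi
    have e1 : S (L s (-(16 * s - e s (i + 1)))) (L s (e s (i + 1) - e s i)) :=
      h1 (Sum.inr (Sum.inl (Sum.inr ⟨i, hi⟩))) rfl
    have e2 : S (L s (-(e s i - e s (i + 1)))) (L s (-(e s (i + 1) + (e s i - e s (i + 1))))) :=
      h2 (Sum.inr (Sum.inl (Sum.inl ⟨i, hi⟩))) rfl
    have e3 : S (L s (-e s (i + 1))) (L s (e s i - e s (i + 1))) :=
      h1 (Sum.inr (Sum.inl (Sum.inl ⟨i, hi⟩))) rfl
    have e4 : S (L s (-(e s (i + 1) - e s i)))
        (L s (-(16 * s - e s (i + 1) + (e s (i + 1) - e s i)))) :=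
      h2 (Sum.inr (Sum.inl (Sum.inr ⟨i, hi⟩))) rfl
    constructor
    · intro ht
      have k1 := hS.trans ht e1
      exact ⟨k1, cgr (go hS k1 e2 (Or.inl (by ring))) (Or.inl (by ring))⟩
    · intro ht
      have k1 := hS.trans ht e3
      exact ⟨k1, cgr (go hS k1 e4 (Or.inl (by ring))) (Or.inl (by ring))⟩
  have hU : ∀ i, i ≤ 2 * s - 4 →
      S (Sum.inr false) (L s (if i % 2 = 0 then -(16 * s - e s i) else -e s i)) := by
    apply run_down
    · rw [if_pos (by omega), e_last s hs]
      exact cgr t16 (Or.inl (by ring))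
    · intro i hi ht
      rcases Nat.mod_two_eq_zero_or_one i with hp | hp
      · rw [if_pos hp]
        rw [if_neg (by omega)] at ht
        exact ((hdown i hi).2 ht).2
      · rw [if_neg (by omega)]
        rw [if_pos (by omega)] at ht
        exact ((hdown i hi).1 ht).2
  have t17 : S (Sum.inr false) (L s (16 * s - e s 0)) := by
    have h := hU 0 (by omega)
    rw [if_pos rfl, e_zero] at h
    rw [e_zero]
    exact cgr h (Or.inr (Or.inl (by ring)))
  have hg1 : ∀ i, i ≤ 2 * s - 4 → S (Sum.inr false) (L s (16 * s - e s i)) := by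
    apply run
    · exact t17
    · intro i hi ht
      have e1 : S (L s (16 * s - e s (i + 1) + (e s (i + 1) - e s i)))
          (L s (16 * s - e s (i + 1))) :=
        h0 (Sum.inr (Sum.inl (Sum.inr ⟨i, hi⟩))) rfl
      exact go hS ht e1 (Or.inl (by ring))
  have t18 : S (Sum.inr false) (L s 6) := by
    have h := hg1 (2 * s - 4) le_rfl
    rw [e_last s hs] at h
    exact go hS h (show S (L s (6 + (10 * s - 2))) (L s 6) from h0 (X s 5) rfl) (Or.inl (by ring))
  have t19 : S (Sum.inr false) (L s 2) :=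
    go hS t18 (show S (L s (2 + 4)) (L s 2) from h0 (X s 6) rfl) (Or.inl (by ring))
  have t20 : S (Sum.inr false) (L s (10 * s)) :=
    go hS t19 (show S (L s (10 * s + (-(10 * s) + 2))) (L s (10 * s)) from h0 (X s 11) rfl)
      (Or.inl (by ring))
  have t21 : S (Sum.inr false) (L s (-(8 * s))) :=
    go hS t20 (show S (L s (-(-(10 * s)))) (L s (-(8 * s))) from h1 (X s 8) rfl) (Or.inl (by ring))
  have t22 : S (Sum.inr false) (L s (6 * s - 2)) :=
    go hS t21 (show S (L s (6 * s - 2 + (10 * s + 2))) (L s (6 * s - 2)) from h0 (X s 9) rfl)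
      (Or.inr (Or.inl (by ring)))
  have t23 : S (Sum.inr false) (L s (-3)) :=
    go hS t22 (show S (L s (-(-(6 * s) + 2))) (L s (-3)) from h1 (X s 3) rfl) (Or.inl (by ring))
  have hf1 : ∀ i, i ≤ 6 * s - 3 → S (Sum.inr false) (L s (-c s i)) := by
    apply run
    · rw [c_zero]; exact t23
    · intro i hi ht
      have e1 : S (L s (-c s (i + 1) + (c s (i + 1) - c s i))) (L s (-c s (i + 1))) :=
        h0 (Sum.inl (Sum.inr ⟨i, hi⟩)) rfl
      exact go hS ht e1 (Or.inl (by ring))
  have t24 : S (Sum.inr false) (L s (-(6 * s) - 2)) := by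
    have h := hf1 (6 * s - 3) le_rfl
    rw [c_last s hs] at h
    exact go hS h (show S (L s (-(6 * s) - 2 + -1)) (L s (-(6 * s) - 2)) from h0 (X s 4) rfl)
      (Or.inl (by ring))
  have t25 : S (Sum.inr false) (L s (-(4 * s + (6 * s + 2)))) :=
    go hS t24 (show S (L s (-(6 * s + 2))) (L s (-(4 * s + (6 * s + 2)))) from h2 (X s 7) rfl)
      (Or.inl (by ring))
  have t26 : S (Sum.inr false) (L s (-(6 * s - 2 + (10 * s + 2)))) :=
    go hS t25 (show S (L s (-(10 * s + 2))) (L s (-(6 * s - 2 + (10 * s + 2)))) from h2 (X s 9) rfl)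
      (Or.inl (by ring))
  have t27 : S (Sum.inr false) (L s (-(-(10 * s) + -(8 * s)))) :=
    go hS t26 (show S (L s (-(-(8 * s)))) (L s (-(-(10 * s) + -(8 * s)))) from h2 (X s 8) rfl)
      (Or.inr (Or.inl (by ring)))
  have t28 : S (Sum.inr false) (L s (-(6 * s) + 4)) :=
    go hS t27 (show S (L s (-(6 * s))) (L s (-(6 * s) + 4)) from h1 (X s 10) rfl)
      (Or.inr (Or.inr (by ring)))
  have hV : ∀ i, i ≤ 2 * s - 4 →
      S (Sum.inr false) (L s (if i % 2 = 0 then -e s i else -(16 * s - e s i))) := by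
    apply run_down
    · rw [if_pos (by omega), e_last s hs]
      exact cgr t28 (Or.inl (by ring))
    · intro i hi ht
      rcases Nat.mod_two_eq_zero_or_one i with hp | hp
      · rw [if_pos hp]
        rw [if_neg (by omega)] at ht
        exact ((hdown i hi).1 ht).2
      · rw [if_neg (by omega)]
        rw [if_pos (by omega)] at ht
        exact ((hdown i hi).2 ht).2
  have hne : ∀ i, i ≤ 2 * s - 4 → S (Sum.inr false) (L s (-e s i)) := by
    intro i hi
    rcases Nat.mod_two_eq_zero_or_one i with hp | hp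
    · have h := hV i hi
      rw [if_pos hp] at h
      exact h
    · have h := hU i hi
      rw [if_neg (by omega)] at h
      exact h
  have hng : ∀ i, i ≤ 2 * s - 4 → S (Sum.inr false) (L s (-(16 * s - e s i))) := by
    intro i hi
    rcases Nat.mod_two_eq_zero_or_one i with hp | hp
    · have h := hU i hi
      rw [if_pos hp] at h
      exact h
    · have h := hV i hi
      rw [if_neg (by omega)] at h
      exact h
  have t29 : S (Sum.inr false) (L s (6 * s + 2)) := by
    have h := hne 0 (by omega)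
    rw [e_zero] at h
    exact go hS h (show S (L s (-(4 * s))) (L s (6 * s + 2)) from h1 (X s 7) rfl) (Or.inl (by ring))
  have t30 : S (Sum.inr false) (L s (-1)) :=
    go hS t29 (show S (L s (-(-(6 * s) - 2))) (L s (-1)) from h1 (X s 4) rfl) (Or.inl (by ring))
  have t31 : S (Sum.inr false) (L s 1) :=
    go hS t30 (show S (L s (1 + -2)) (L s 1) from h0 (X s 2) rfl) (Or.inl (by ring))
  apply conn_of_corners s hs 0 S hS
  · rintro ((⟨i, hi⟩ | ⟨i, hi⟩) | ((⟨i, hi⟩ | ⟨i, hi⟩) | i)) h
    · exact hc1 (i + 1) (by omega)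
    · exact hf1 (i + 1) (by omega)
    · exact he1 (i + 1) (by omega)
    · exact hg1 (i + 1) (by omega)
    · fin_cases i
      · exact absurd (show (1 : ZMod 2) = 0 from h) (by decide)
      · exact t4
      · exact t31
      · exact t5
      · exact t24
      · exact t18
      · exact t19
      · exact t7
      · exact t14
      · exact t22
      · exact t13
      · exact t20
  · rintro ((⟨i, hi⟩ | ⟨i, hi⟩) | ((⟨i, hi⟩ | ⟨i, hi⟩) | i)) h
    · exact absurd (show (1 : ZMod 2) = 0 from h) (by decide)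
    · exact absurd (show (1 : ZMod 2) = 0 from h) (by decide)
    · exact ((hdown i hi).2 (hne (i + 1) (by omega))).1
    · exact ((hdown i hi).1 (hng (i + 1) (by omega))).1
    · fin_cases i
      · exact absurd (show (1 : ZMod 2) = 0 from h) (by decide)
      · exact absurd (show (1 : ZMod 2) = 0 from h) (by decide)
      · exact absurd (show (1 : ZMod 2) = 0 from h) (by decide)
      · exact t23
      · exact t30
      · exact t10
      · exact t12
      · exact t29
      · exact t21
      · exact t6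
      · exact t28
      · exact t15
  · rintro ((⟨i, hi⟩ | ⟨i, hi⟩) | ((⟨i, hi⟩ | ⟨i, hi⟩) | i)) h
    · exact absurd (show (1 : ZMod 2) = 0 from h) (by decide)
    · exact absurd (show (1 : ZMod 2) = 0 from h) (by decide)
    · show S (Sum.inr false) (L s (-(e s (i + 1) + (e s i - e s (i + 1)))))
      exact cgr (hne i (by omega)) (Or.inl (by ring))
    · show S (Sum.inr false) (L s (-(16 * s - e s (i + 1) + (e s (i + 1) - e s i))))
      exact cgr (hng i (by omega)) (Or.inl (by ring))
    · fin_cases i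
      · exact absurd (show (1 : ZMod 2) = 0 from h) (by decide)
      · exact absurd (show (1 : ZMod 2) = 0 from h) (by decide)
      · exact absurd (show (1 : ZMod 2) = 0 from h) (by decide)
      · exact absurd (show (1 : ZMod 2) = 0 from h) (by decide)
      · exact absurd (show (1 : ZMod 2) = 0 from h) (by decide)
      · exact t16
      · exact t9
      · exact t25
      · exact t27
      · exact t26
      · exact t8
      · exact t11
  · intro w
    cases w
    · exact t1
    · exact t3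
  · exact t2

/-- The class homomorphism. -/
noncomputable def clH (s : ℕ) : ZMod (24 * s) →+ ZMod 2 :=
  (ZMod.castHom (Dvd.intro (12 * s) (by ring) : 2 ∣ 24 * s) (ZMod 2)).toAddMonoidHom

lemma clH_int (s : ℕ) (n : ℤ) : clH s ((n : ℤ) : ZMod (24 * s)) = ((n : ℤ) : ZMod 2) := by
  unfold clH
  simp

/-- The scheme for `n = 24 s + 2`. -/
noncomputable def scheme (s : ℕ) (hs : 2 ≤ s) [NeZero (24 * s)] : Scheme (24 * s) where
  cl := clH s
  ι := I s
  fin := inferInstance
  A := A s
  p := fun i => ((P s i : ℤ) : ZMod (24 * s))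
  q := fun i => ((Q s i : ℤ) : ZMod (24 * s))
  r := fun i => ((-(P s i + Q s i) : ℤ) : ZMod (24 * s))
  sum := by
    intro i
    rw [← Int.cast_add, ← Int.cast_add]
    have : P s i + Q s i + -(P s i + Q s i) = 0 := by ring
    rw [this, Int.cast_zero]
  d := fun w a => ((D s w a : ℤ) : ZMod (24 * s))
  cl_d := by
    intro w a
    rw [clH_int]
    apply cast_odd
    unfold D
    split_ifs <;> omega
  card := by
    simp only [I, Fintype.card_sum, Fintype.card_fin]
    omega
  cover := by
    intro a δ hδ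
    rcases cover s hs a δ hδ with ⟨i, h⟩ | h
    · left
      refine ⟨i, ?_⟩
      rw [clH_int, clH_int, hB, hC]
      exact h
    · exact Or.inr h
  gen := by
    intro w z hz
    obtain ⟨n, rfl⟩ : ∃ n : ℤ, (n : ZMod (24 * s)) = z := ZMod.intCast_surjective z
    rw [clH_int] at hz
    have hn : n % 2 = 0 := by
      rcases Int.emod_two_eq_zero_or_one n with h | h
      · exact h
      · rw [cast_odd h] at hz
        exact absurd hz (by decide)
    cases w
    · refine ⟨n / 2, ?_⟩
      show ((n : ℤ) : ZMod (24 * s)) =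
        (n / 2 : ℤ) • (((3 : ℤ) : ZMod (24 * s)) + ((-1 : ℤ) : ZMod (24 * s)))
      rw [zsmul_eq_mul, ← Int.cast_add, ← Int.cast_mul]
      congr 1
      omega
    · refine ⟨-(n / 2), ?_⟩
      show ((n : ℤ) : ZMod (24 * s)) =
        (-(n / 2) : ℤ) • (((6 * s + 1 : ℤ) : ZMod (24 * s)) + ((-(6 * s) - 3 : ℤ) : ZMod (24 * s)))
      rw [zsmul_eq_mul, ← Int.cast_add, ← Int.cast_mul]
      congr 1
      have : (6 * (s : ℤ) + 1 + (-(6 * s) - 3)) = -2 := by ring
      rw [this]
      omega
  conn := by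
    intro a S hS h0 h1 h2 h3 h4
    have k0 : ∀ i, A s i = a → S (L s (P s i + Q s i)) (L s (P s i)) := by
      intro i hi
      have := h0 i hi
      rw [← Int.cast_neg, neg_neg] at this
      exact this
    have k1 : ∀ i, B s i = a → S (L s (-P s i)) (L s (Q s i)) := by
      intro i hi
      have := h1 i (by rw [clH_int, hB]; exact hi)
      rw [← Int.cast_neg] at this
      exact this
    have k2 : ∀ i, C s i = a → S (L s (-Q s i)) (L s (-(P s i + Q s i))) := by
      intro i hi
      have := h2 i (by rw [clH_int, clH_int, hB, hC]; exact hi)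
      rw [← Int.cast_neg] at this
      exact this
    have k3 : ∀ w, S (L s (-D s w (a + 1))) (Sum.inr w) := by
      intro w
      have := h3 w
      rw [← Int.cast_neg] at this
      exact this
    have ha : a = 0 ∨ a = 1 := by
      fin_cases a
      · exact Or.inl rfl
      · exact Or.inr rfl
    rcases ha with rfl | rfl
    · exact conn_zero s hs S hS k0 k1 k2 k3 h4
    · exact conn_one s hs S hS k0 k1 k2 k3 h4

end Pool.Agent.Helper43.Genus.Family
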