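import Pool.Agent.Helper43.IdioIso

/-!
The alignment lemma: in a tiling by congruent copies of a polyiamond, a 60 degree notch is filled by a
copy aligned with the grid.
-/

namespace Pool.Agent.Helper43.Idio

open Complex Set

noncomputable section

/-- lattice points are closed under the linear parts of grid isometries. -/
def isLat (z : ℂ) : Prop := ∃ p q : ℤ, z = pt p q

lemma isLat_zt {z : ℂ} (h : isLat z) : isLat (zt * z) := by
  obtain ⟨p, q, rfl⟩ := h
  refine ⟨-q, p + q, ext_c ?_ ?_⟩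
  · rw [cx_zt_mul]; simp
  · rw [cy_zt_mul]; simp
lemma isLat_zt_pow {z : ℂ} (h : isLat z) (k : ℕ) : isLat (zt ^ k * z) := by
  induction k with
  | zero => simpa using h
  | succ k ih => rw [pow_succ', mul_assoc]; exact isLat_zt ih
lemma isLat_cj {z : ℂ} (h : isLat z) (m : Bool) : isLat (cj m z) := by
  cases m
  · exact h
  · obtain ⟨p, q, rfl⟩ := h
    refine ⟨p + q, -q, ext_c ?_ ?_⟩
    · rw [cj_true, cx_conj]; simp
    · rw [cj_true, cy_conj]; simp
lemma isLat_neg {z : ℂ} (h : isLat z) : isLat (-z) := by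
  obtain ⟨p, q, rfl⟩ := h
  refine ⟨-p, -q, ext_c ?_ ?_⟩
  · rw [cx_neg]; simp
  · rw [cy_neg]; simp

/-- the closed sector spanned by `1` and `ζ`. -/
def sec : Set ℂ := {z | 0 ≤ cx z ∧ 0 ≤ cy z}

lemma isClosed_sec : IsClosed sec :=
  (isClosed_le continuous_const continuous_cx).inter (isClosed_le continuous_const continuous_cy)

lemma one_eq : (1 : ℂ) = pt 1 0 := by simp [pt]
lemma zt_eq : zt = pt 0 1 := by simp [pt]

/-- two unit vectors of the sector at distance one are `1` and `ζ`. -/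
lemma sec_pair {p q : ℂ} (hp : p ∈ sec) (hq : q ∈ sec) (h1 : ‖p‖ = 1) (h2 : ‖q‖ = 1)
    (h3 : ‖p - q‖ = 1) : (p = 1 ∧ q = zt) ∨ (p = zt ∧ q = 1) := by
  have e1 : 1 = cx p ^ 2 + cx p * cy p + cy p ^ 2 := by rw [← norm_sq, h1]; norm_num
  have e2 : 1 = cx q ^ 2 + cx q * cy q + cy q ^ 2 := by rw [← norm_sq, h2]; norm_num
  have e3 : 1 = (cx p - cx q) ^ 2 + (cx p - cx q) * (cy p - cy q) + (cy p - cy q) ^ 2 := by
    rw [← cx_sub, ← cy_sub, ← norm_sq, h3]; norm_num
  obtain ⟨a1, a2⟩ := hp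
  obtain ⟨b1, b2⟩ := hq
  have key0 : (p = 1 ∧ q = zt) ∨ (p = zt ∧ q = 1) ↔
      ((cx p = 1 ∧ cy p = 0) ∧ (cx q = 0 ∧ cy q = 1)) ∨
      ((cx p = 0 ∧ cy p = 1) ∧ (cx q = 1 ∧ cy q = 0)) := by
    have i1 : ∀ w : ℂ, w = 1 ↔ (cx w = 1 ∧ cy w = 0) := fun w =>
      ⟨fun h => by rw [h, one_eq]; simp, fun h => by
        apply ext_c
        · rw [one_eq, cx_pt]; exact h.1
        · rw [one_eq, cy_pt]; exact h.2⟩
    have i2 : ∀ w : ℂ, w = zt ↔ (cx w = 0 ∧ cy w = 1) := fun w =>
      ⟨fun h => by rw [h, zt_eq]; simp, fun h => by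
        apply ext_c
        · rw [zt_eq, cx_pt]; exact h.1
        · rw [zt_eq, cy_pt]; exact h.2⟩
    rw [i1 p, i2 q, i2 p, i1 q]
  rw [key0]
  generalize cx p = x at *
  generalize cy p = y at *
  generalize cx q = x' at *
  generalize cy q = y' at *
  have hxy := mul_nonneg a1 a2
  have hxy' := mul_nonneg b1 b2
  have q1 := sq_nonneg x
  have q2 := sq_nonneg y
  have q3 := sq_nonneg x'
  have q4 := sq_nonneg y'
  have hx1 : x ≤ 1 := (sq_le_one_iff₀ a1).mp (by linarith)
  have hy1 : y ≤ 1 := (sq_le_one_iff₀ a2).mp (by linarith)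
  have hx2 : x' ≤ 1 := (sq_le_one_iff₀ b1).mp (by linarith)
  have hy2 : y' ≤ 1 := (sq_le_one_iff₀ b2).mp (by linarith)
  have hd : 2 * (x * x' + y * y') + (x * y' + x' * y) = 1 := by
    linear_combination (-1 : ℝ) * e1 - e2 + e3
  have e : (2 * (x * x' + y * y') + (x * y' + x' * y)) ^ 2 + 3 * (x * y' - x' * y) ^ 2 =
      4 * ((x ^ 2 + x * y + y ^ 2) * (x' ^ 2 + x' * y' + y' ^ 2)) := by ring
  rw [hd, ← e1, ← e2] at e
  have key : (x * y' - x' * y - 1) * (x * y' - x' * y + 1) = 0 := by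
    linear_combination (1 / 3 : ℝ) * e
  rcases mul_eq_zero.mp key with h | h
  · left
    have p1 : 0 ≤ x' * y := mul_nonneg b1 a2
    have p2 : x * y' ≤ x := mul_le_of_le_one_right a1 hy2
    have p3 : x * y' ≤ y' := mul_le_of_le_one_left b2 hx1
    have hx : x = 1 := by linarith
    have hy' : y' = 1 := by linarith
    subst hx; subst hy'
    refine ⟨⟨rfl, ?_⟩, ?_, rfl⟩
    · linarith
    · linarith
  · right
    have p1 : 0 ≤ x * y' := mul_nonneg a1 b2
    have p2 : x' * y ≤ x' := mul_le_of_le_one_right b1 hy1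
    have p3 : x' * y ≤ y := mul_le_of_le_one_left a2 hx2
    have hx' : x' = 1 := by linarith
    have hy : y = 1 := by linarith
    subst hx'; subst hy
    refine ⟨⟨?_, rfl⟩, rfl, ?_⟩
    · linarith
    · linarith

lemma tri_bounded (c : ℤ × ℤ) : Bornology.IsBounded (tri c) := by
  rw [Metric.isBounded_iff_subset_closedBall (pt (c.1 / 3) (c.2 / 3))]
  refine ⟨2, fun z hz => ?_⟩
  rw [Metric.mem_closedBall, dist_eq_norm]
  obtain ⟨h1, h2, h3⟩ := hz
  have e := norm_sq (z - pt (c.1 / 3) (c.2 / 3))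
  rw [cx_sub, cy_sub, cx_pt, cy_pt] at e
  have hs : sg c = 1 ∨ sg c = -1 := by unfold sg; split_ifs <;> simp
  have hb : ‖z - pt (c.1 / 3) (c.2 / 3)‖ ^ 2 ≤ 4 := by
    rw [e]
    rcases hs with hs | hs <;> rw [hs] at h1 h2 h3 <;> nlinarith
  nlinarith [norm_nonneg (z - pt (c.1 / 3) (c.2 / 3))]

/-- cells whose open triangle comes near `0`. -/
lemma near_zero {c : ℤ × ℤ} (hc : ok c) {z : ℂ} (hz : z ∈ otri c) (hn : ‖z‖ < 1 / 2) :
    c = (1, 1) ∨ c = (-1, 2) ∨ c = (-2, 1) ∨ c = (-1, -1) ∨ c = (1, -2) ∨ c = (2, -1) := by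
  have e := norm_sq z
  have hn2 : cx z ^ 2 + cx z * cy z + cy z ^ 2 < 1 / 4 := by
    rw [← e]; nlinarith [norm_nonneg z]
  have hx1 : cx z < 1 := by nlinarith [sq_nonneg (cx z + 2 * cy z)]
  have hx2 : -1 < cx z := by nlinarith [sq_nonneg (cx z + 2 * cy z)]
  have hy1 : cy z < 1 := by nlinarith [sq_nonneg (2 * cx z + cy z)]
  have hy2 : -1 < cy z := by nlinarith [sq_nonneg (2 * cx z + cy z)]
  have hs1 : cx z + cy z < 1 := by nlinarith [sq_nonneg (cx z - cy z)]
  have hs2 : -1 < cx z + cy z := by nlinarith [sq_nonneg (cx z - cy z)]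
  obtain ⟨a, b⟩ := c
  obtain ⟨u1, u2, u3⟩ := hz
  simp only [ok] at hc
  rcases hc with ⟨hc1, hc2⟩ | ⟨hc1, hc2⟩
  · rw [sg_up (by exact hc1)] at u1 u2 u3
    simp only at u1 u2 u3
    have e1 : a < 4 := by
      have : (a : ℝ) < 4 := by linarith
      exact_mod_cast this
    have e2 : b < 4 := by
      have : (b : ℝ) < 4 := by linarith
      exact_mod_cast this
    have e3 : -4 < a + b := by
      have : (-4 : ℝ) < a + b := by linarith
      exact_mod_cast this
    simp only [Prod.mk.injEq]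
    omega
  · rw [sg_down (by exact hc1)] at u1 u2 u3
    simp only at u1 u2 u3
    have e1 : -4 < a := by
      have : (-4 : ℝ) < a := by linarith
      exact_mod_cast this
    have e2 : -4 < b := by
      have : (-4 : ℝ) < b := by linarith
      exact_mod_cast this
    have e3 : a + b < 4 := by
      have : (a + b : ℝ) < 4 := by linarith
      exact_mod_cast this
    simp only [Prod.mk.injEq]
    omega

lemma convex_tri (c : ℤ × ℤ) : Convex ℝ (tri c) := by
  intro z hz w hw s t hs ht hst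
  obtain ⟨a1, a2, a3⟩ := hz
  obtain ⟨b1, b2, b3⟩ := hw
  have h1 : cx (s • z + t • w) = s * cx z + t * cx w := by
    rw [cx_add, Complex.real_smul, Complex.real_smul, cx_real_mul, cx_real_mul]
  have h2 : cy (s • z + t • w) = s * cy z + t * cy w := by
    rw [cy_add, Complex.real_smul, Complex.real_smul, cy_real_mul, cy_real_mul]
  have hs' : s = 1 - t := by linarith
  subst hs'
  simp only [tri, mem_ofPred_eq, h1, h2]
  refine ⟨?_, ?_, ?_⟩ <;> nlinarith

/-- sixth roots of unity -/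
def isU (z : ℂ) : Prop := ∃ k : ℕ, z = zt ^ k

lemma isU_one : isU 1 := ⟨0, by simp⟩
lemma isU_zt : isU zt := ⟨1, by simp⟩
lemma isU_mul {z w : ℂ} (hz : isU z) (hw : isU w) : isU (z * w) := by
  obtain ⟨k, rfl⟩ := hz
  obtain ⟨l, rfl⟩ := hw
  exact ⟨k + l, by ring⟩
lemma isU_neg {z : ℂ} (hz : isU z) : isU (-z) := by
  obtain ⟨k, rfl⟩ := hz
  exact ⟨k + 3, by rw [pow_add, zt_cube]; ring⟩
lemma isU_real {e : ℝ} (h : e = 1 ∨ e = -1) : isU (e : ℂ) := by
  rcases h with h | h <;> rw [h]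
  · simpa using isU_one
  · have := isU_neg isU_one
    simpa using this
lemma isU_cj_zt (m : Bool) : isU (cj m zt) := by
  cases m
  · exact isU_zt
  · refine ⟨5, ?_⟩
    have h : (starRingEnd ℂ) zt = 1 - zt := by
      apply ext_c
      · rw [cx_conj, cx_sub, zt_eq, one_eq]; simp
      · rw [cy_conj, cy_sub, zt_eq, one_eq]; simp
    rw [cj_true, h]
    have h5 : zt ^ 5 = zt ^ 3 * (zt * zt) := by ring
    rw [h5, zt_cube, zt_sq]; ring
lemma isU_of_mul {z w v : ℂ} (hw : isU w) (hv : isU v) (h : z * w = v) : isU z := by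
  obtain ⟨k, rfl⟩ := hw
  have : z = v * zt ^ (5 * k) := by
    rw [← h]
    have h6 : zt ^ k * zt ^ (5 * k) = 1 := by
      rw [← pow_add, show k + 5 * k = 6 * k by ring, pow_mul, zt_six, one_pow]
    linear_combination (-z) * h6
  rw [this]
  exact isU_mul hv ⟨_, rfl⟩
lemma isU_lt {z : ℂ} (hz : isU z) : ∃ k < 6, z = zt ^ k := by
  obtain ⟨k, rfl⟩ := hz
  refine ⟨k % 6, Nat.mod_lt _ (by norm_num), ?_⟩
  conv_lhs => rw [← Nat.div_add_mod k 6, pow_add, pow_mul, zt_six, one_pow, one_mul]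

/-- A unit triangle containing `0` inside the sector is the sector triangle; the isometry is a grid
isometry. -/
lemma sector_lemma (f : ℂ ≃ᵢ ℂ) {c : ℤ × ℤ} (hc : ok c)
    (h0 : (0 : ℂ) ∈ f '' tri c) (hK : ∀ w ∈ f '' tri c, ‖w‖ < 1 / 2 → w ∈ sec) :
    ∃ k < 6, ∃ m, ∃ p q : ℤ, ∀ z, f z = act k m p q z := by
  obtain ⟨α, hα, m, β, hf⟩ := iso_classify f
  obtain ⟨z0, hz0, hfz0⟩ := h0
  have hβ : β = - (α * cj m z0) := by
    rw [hf] at hfz0; linear_combination hfz0
  have hlin : ∀ z, f z = α * cj m (z - z0) := by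
    intro z; rw [hf, cj_sub, hβ]; ring
  -- the whole triangle is mapped into the sector
  have hK' : ∀ z ∈ tri c, f z ∈ sec := by
    intro z hz
    obtain ⟨t, ht0, ht1, ht⟩ : ∃ t : ℝ, 0 < t ∧ t ≤ 1 ∧ t * ‖f z‖ < 1 / 2 := by
      refine ⟨1 / (2 * (1 + ‖f z‖)), by positivity, ?_, ?_⟩
      · rw [div_le_one (by positivity)]; nlinarith [norm_nonneg (f z)]
      · rw [div_mul_eq_mul_div, div_lt_div_iff₀ (by positivity) (by norm_num)]
        nlinarith [norm_nonneg (f z)]
    have hmem : (1 - t) • z0 + t • z ∈ tri c :=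
      convex_tri c hz0 hz (by linarith) ht0.le (by ring)
    have hft : f ((1 - t) • z0 + t • z) = (t : ℂ) * f z := by
      rw [hlin, hlin]
      have : (1 - t) • z0 + t • z - z0 = (t : ℂ) * (z - z0) := by
        rw [Complex.real_smul, Complex.real_smul]; push_cast; ring
      rw [this, cj_mul, cj_real]; ring
    have := hK _ ⟨_, hmem, rfl⟩ (by rw [hft, norm_mul]; simpa [abs_of_pos ht0] using ht)
    rw [hft] at this
    obtain ⟨g1, g2⟩ := this
    rw [cx_real_mul] at g1
    rw [cy_real_mul] at g2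
    exact ⟨by by_contra hh; push Not at hh; nlinarith, by by_contra hh; push Not at hh; nlinarith⟩
  -- no segment centred at z0
  have hseg : ∀ d : ℂ, ‖d‖ = 1 → ∀ δ : ℝ, 0 < δ → z0 + δ * d ∈ tri c → z0 - δ * d ∈ tri c → False := by
    intro d hd δ hδ h1 h2
    have k1 := hK' _ h1
    have k2 := hK' _ h2
    have f1 : f (z0 + δ * d) = (δ : ℂ) * (α * cj m d) := by
      rw [hlin, show z0 + δ * d - z0 = (δ : ℂ) * d by ring, cj_mul, cj_real]; ring
    have f2 : f (z0 - δ * d) = ((-δ : ℝ) : ℂ) * (α * cj m d) := by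
      rw [hlin, show z0 - δ * d - z0 = ((-δ : ℝ) : ℂ) * d by push_cast; ring, cj_mul, cj_real]; ring
    rw [f1] at k1; rw [f2] at k2
    obtain ⟨p1, p2⟩ := k1
    obtain ⟨q1, q2⟩ := k2
    rw [cx_real_mul] at p1 q1
    rw [cy_real_mul] at p2 q2
    have hx : cx (α * cj m d) = 0 := by nlinarith
    have hy : cy (α * cj m d) = 0 := by nlinarith
    have hn : ‖α * cj m d‖ = 1 := by rw [norm_mul, norm_cj, hα, hd]; norm_num
    have := norm_sq (α * cj m d)
    rw [hn, hx, hy] at this
    norm_num at this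
  set e := sg c with he
  have hee : e = 1 ∨ e = -1 := by rw [he]; unfold sg; split_ifs <;> simp
  have he2 : e * e = 1 := by rcases hee with h | h <;> rw [h] <;> norm_num
  obtain ⟨u1, u2, u3⟩ := hz0
  rw [← he] at u1 u2 u3
  set x := cx z0
  set y := cy z0
  have cx1 : cx (1 : ℂ) = 1 := by rw [one_eq, cx_pt]
  have cy1 : cy (1 : ℂ) = 0 := by rw [one_eq, cy_pt]
  have cxz : cx zt = 0 := by rw [zt_eq, cx_pt]
  have cyz : cy zt = 1 := by rw [zt_eq, cy_pt]
  have n1 : ‖(1 : ℂ)‖ = 1 := by simp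
  have nz : ‖zt‖ = 1 := norm_zt
  have nz1 : ‖zt - 1‖ = 1 := by
    rw [← zt_sq, norm_mul, norm_zt]; norm_num
  obtain ⟨u, hu⟩ : ∃ u, u = e * (3 * x - c.1) := ⟨_, rfl⟩
  obtain ⟨w, hw⟩ : ∃ w, w = e * (3 * y - c.2) := ⟨_, rfl⟩
  have u3' : u + w ≤ 1 := by rw [hu, hw]; linarith
  rw [← hu] at u1; rw [← hw] at u2
  -- membership test
  have hmt : ∀ (δ : ℝ) (d : ℂ), (-1 ≤ u + 3 * e * δ * cx d) →
      (-1 ≤ w + 3 * e * δ * cy d) →
      (u + w + 3 * e * δ * (cx d + cy d) ≤ 1) → z0 + δ * d ∈ tri c := by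
    intro δ d h1 h2 h3
    simp only [tri, mem_ofPred_eq, cx_add, cx_real_mul, cy_add, cy_real_mul, ← he]
    refine ⟨?_, ?_, ?_⟩
    · calc (-1 : ℝ) ≤ _ := h1
        _ = _ := by rw [hu]; ring
    · calc (-1 : ℝ) ≤ _ := h2
        _ = _ := by rw [hw]; ring
    · calc _ = u + w + 3 * e * δ * (cx d + cy d) := by rw [hu, hw]; ring
        _ ≤ 1 := h3
  have hno : ∀ (d : ℂ) (dx dy : ℝ), ‖d‖ = 1 → cx d = dx → cy d = dy → ∀ δ : ℝ, 0 < δ →
      (-1 ≤ u + 3 * δ * dx) → (-1 ≤ w + 3 * δ * dy) → (u + w + 3 * δ * (dx + dy) ≤ 1) →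
      (-1 ≤ u - 3 * δ * dx) → (-1 ≤ w - 3 * δ * dy) → (u + w - 3 * δ * (dx + dy) ≤ 1) → False := by
    intro d dx dy hd hdx hdy δ hδ h1 h2 h3 h4 h5 h6
    subst hdx; subst hdy
    rcases hee with h | h <;> rw [h] at hmt
    · refine hseg d hd δ hδ (hmt δ d (by linarith) (by linarith) (by linarith)) ?_
      have := hmt (-δ) d (by linarith) (by linarith) (by linarith)
      rw [show z0 + ((-δ : ℝ) : ℂ) * d = z0 - δ * d by push_cast; ring] at this
      exact this
    · refine hseg d hd δ hδ (hmt δ d (by linarith) (by linarith) (by linarith)) ?_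
      have := hmt (-δ) d (by linarith) (by linarith) (by linarith)
      rw [show z0 + ((-δ : ℝ) : ℂ) * d = z0 - δ * d by push_cast; ring] at this
      exact this
  have c12 : ¬ (u + w < 1 ∧ -1 < u) := by
    rintro ⟨g1, g2⟩
    have hm : 0 < min (1 - u - w) (u + 1) := lt_min (by linarith) (by linarith)
    have hm1 := min_le_left (1 - u - w) (u + 1)
    have hm2 := min_le_right (1 - u - w) (u + 1)
    exact hno 1 1 0 n1 cx1 cy1 (min (1 - u - w) (u + 1) / 6) (by linarith) (by linarith) (by linarith)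
      (by linarith) (by linarith) (by linarith) (by linarith)
  have c13 : ¬ (u + w < 1 ∧ -1 < w) := by
    rintro ⟨g1, g2⟩
    have hm : 0 < min (1 - u - w) (w + 1) := lt_min (by linarith) (by linarith)
    have hm1 := min_le_left (1 - u - w) (w + 1)
    have hm2 := min_le_right (1 - u - w) (w + 1)
    exact hno zt 0 1 nz cxz cyz (min (1 - u - w) (w + 1) / 6) (by linarith) (by linarith)
      (by linarith) (by linarith) (by linarith) (by linarith) (by linarith)
  have c23 : ¬ (-1 < u ∧ -1 < w) := by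
    rintro ⟨g1, g2⟩
    have hm : 0 < min (u + 1) (w + 1) := lt_min (by linarith) (by linarith)
    have hm1 := min_le_left (u + 1) (w + 1)
    have hm2 := min_le_right (u + 1) (w + 1)
    exact hno (zt - 1) (-1) 1 nz1 (by rw [cx_sub, cxz, cx1]; ring) (by rw [cy_sub, cyz, cy1]; ring)
      (min (u + 1) (w + 1) / 6) (by linarith) (by linarith)
      (by linarith) (by linarith) (by linarith) (by linarith) (by linarith)
  have hU : isU (e : ℂ) := isU_real hee
  -- the linear part is a unit and z0 is a lattice point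
  have main : isU α ∧ isLat z0 := by
    have hlat : ∀ A B : ℤ, 3 * x = 3 * (A : ℝ) → 3 * y = 3 * (B : ℝ) → isLat z0 := by
      intro A B hA hB
      refine ⟨A, B, ext_c ?_ ?_⟩
      · rw [cx_pt]; change x = _; linarith
      · rw [cy_pt]; change y = _; linarith
    have hx3 : 3 * x = c.1 + e * u := by rw [hu]; linear_combination (c.1 - 3 * x) * he2
    have hy3 : 3 * y = c.2 + e * w := by rw [hw]; linear_combination (c.2 - 3 * y) * he2
    -- integrality
    have hint : ∀ n m : ℤ, n % 3 = 2 → m % 3 = 2 → u = n → w = m → isLat z0 := by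
      intro n m hn hm hun hwm
      rw [hun] at hx3; rw [hwm] at hy3
      rcases hc with ⟨k1, k2⟩ | ⟨k1, k2⟩
      · have h1 : e = 1 := by rw [he, sg_up k1]
        rw [h1] at hx3 hy3
        refine hlat ((c.1 + n) / 3) ((c.2 + m) / 3) ?_ ?_
        · rw [hx3]
          have : (c.1 + n) = 3 * ((c.1 + n) / 3) := by omega
          have : ((c.1 + n : ℤ) : ℝ) = ((3 * ((c.1 + n) / 3) : ℤ) : ℝ) := by rw [← this]
          push_cast at this ⊢; linarith
        · rw [hy3]
          have : (c.2 + m) = 3 * ((c.2 + m) / 3) := by omega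
          have : ((c.2 + m : ℤ) : ℝ) = ((3 * ((c.2 + m) / 3) : ℤ) : ℝ) := by rw [← this]
          push_cast at this ⊢; linarith
      · have h1 : e = -1 := by rw [he, sg_down k1]
        rw [h1] at hx3 hy3
        refine hlat ((c.1 - n) / 3) ((c.2 - m) / 3) ?_ ?_
        · rw [hx3]
          have : (c.1 - n) = 3 * ((c.1 - n) / 3) := by omega
          have : ((c.1 - n : ℤ) : ℝ) = ((3 * ((c.1 - n) / 3) : ℤ) : ℝ) := by rw [← this]
          push_cast at this ⊢; linarith
        · rw [hy3]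
          have : (c.2 - m) = 3 * ((c.2 - m) / 3) := by omega
          have : ((c.2 - m : ℤ) : ℝ) = ((3 * ((c.2 - m) / 3) : ℤ) : ℝ) := by rw [← this]
          push_cast at this ⊢; linarith
    -- images of two vertices
    have himg : ∀ d1 d2 : ℂ, ‖d1‖ = 1 → ‖d2‖ = 1 → ‖d1 - d2‖ = 1 → z0 + e * d1 ∈ tri c →
        z0 + e * d2 ∈ tri c → isU (α * cj m d1) := by
      intro d1 d2 n1 n2 n12 m1 m2
      have k1 := hK' _ m1
      have k2 := hK' _ m2
      have ne : ‖(e : ℂ)‖ = 1 := by
        rcases hee with h | h <;> rw [h] <;> simp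
      have f1 : f (z0 + e * d1) = e * (α * cj m d1) := by
        rw [hlin, show z0 + e * d1 - z0 = (e : ℂ) * d1 by ring, cj_mul, cj_real]; ring
      have f2 : f (z0 + e * d2) = e * (α * cj m d2) := by
        rw [hlin, show z0 + e * d2 - z0 = (e : ℂ) * d2 by ring, cj_mul, cj_real]; ring
      rw [f1] at k1; rw [f2] at k2
      have hp := sec_pair k1 k2 (by rw [norm_mul, norm_mul, ne, hα, norm_cj, n1]; norm_num)
        (by rw [norm_mul, norm_mul, ne, hα, norm_cj, n2]; norm_num)
        (by rw [← mul_sub, ← mul_sub, ← cj_sub, norm_mul, norm_mul, ne, hα, norm_cj, n12]; norm_num)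
      rcases hp with ⟨h1, _⟩ | ⟨h1, _⟩
      · exact isU_of_mul hU isU_one (by rw [← h1]; ring)
      · exact isU_of_mul hU isU_zt (by rw [← h1]; ring)
    have e3 : ∀ r : ℝ, 3 * e * e * r = 3 * r := fun r => by
      linear_combination (3 * r) * he2
    by_cases g1 : -1 < u
    · -- then w = -1 and u + w = 1 : vertex v2
      have hw1 : w = -1 := by
        by_contra hne
        exact c23 ⟨g1, lt_of_le_of_ne u2 (Ne.symm hne)⟩
      have hu2 : u = 2 := by
        by_contra hne
        exact c12 ⟨lt_of_le_of_ne u3' (fun h => hne (by linarith)), g1⟩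
      refine ⟨?_, hint 2 (-1) (by norm_num) (by norm_num) (by rw [hu2]; norm_num)
        (by rw [hw1]; norm_num)⟩
      have h := himg (-1) (zt - 1) (by simp) nz1 (by
          rw [show (-1 : ℂ) - (zt - 1) = - zt by ring, norm_neg, norm_zt])
        (hmt e (-1) (by rw [cx_neg, cx1, e3]; linarith) (by rw [cy_neg, cy1, e3]; linarith)
          (by rw [cx_neg, cx1, cy_neg, cy1, e3]; linarith))
        (hmt e (zt - 1) (by rw [cx_sub, cxz, cx1, e3]; linarith)
          (by rw [cy_sub, cyz, cy1, e3]; linarith)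
          (by rw [cx_sub, cxz, cx1, cy_sub, cyz, cy1, e3]; linarith))
      refine isU_of_mul (w := cj m (-1)) ?_ h rfl
      have : cj m (-1) = -1 := by
        have := cj_real m (-1); push_cast at this; exact this
      rw [this]; exact isU_neg isU_one
    · have hu1 : u = -1 := le_antisymm (not_lt.mp g1) u1
      by_cases g2 : -1 < w
      · -- vertex v3
        have hw2 : w = 2 := by
          by_contra hne
          exact c13 ⟨lt_of_le_of_ne u3' (fun h => hne (by linarith)), g2⟩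
        refine ⟨?_, hint (-1) 2 (by norm_num) (by norm_num) (by rw [hu1]; norm_num)
          (by rw [hw2]; norm_num)⟩
        have h := himg (-zt) (1 - zt) (by simp) (by rw [← norm_neg]; simpa using nz1) (by
            rw [show (-zt : ℂ) - (1 - zt) = - 1 by ring, norm_neg, n1])
          (hmt e (-zt) (by rw [cx_neg, cxz, e3]; linarith) (by rw [cy_neg, cyz, e3]; linarith)
            (by rw [cx_neg, cxz, cy_neg, cyz, e3]; linarith))
          (hmt e (1 - zt) (by rw [cx_sub, cxz, cx1, e3]; linarith)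
            (by rw [cy_sub, cyz, cy1, e3]; linarith)
            (by rw [cx_sub, cxz, cx1, cy_sub, cyz, cy1, e3]; linarith))
        refine isU_of_mul (w := cj m (-zt)) ?_ h rfl
        have : cj m (-zt) = - cj m zt := by
          rw [show (-zt : ℂ) = 0 - zt by ring, cj_sub]; simp
        rw [this]; exact isU_neg (isU_cj_zt m)
      · have hw1 : w = -1 := le_antisymm (not_lt.mp g2) u2
        refine ⟨?_, hint (-1) (-1) (by norm_num) (by norm_num) (by rw [hu1]; norm_num)
          (by rw [hw1]; norm_num)⟩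
        have h := himg 1 zt (by simp) nz (by
            rw [← norm_neg]; simpa using nz1)
          (hmt e 1 (by rw [cx1, e3]; linarith) (by rw [cy1, e3]; linarith)
            (by rw [cx1, cy1, e3]; linarith))
          (hmt e zt (by rw [cxz, e3]; linarith)
            (by rw [cyz, e3]; linarith)
            (by rw [cxz, cyz, e3]; linarith))
        refine isU_of_mul (w := cj m 1) ?_ h rfl
        have : cj m 1 = 1 := by
          have := cj_real m 1; push_cast at this; exact this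
        rw [this]; exact isU_one
  obtain ⟨hα', hz0'⟩ := main
  obtain ⟨k, hk, hαk⟩ := isU_lt hα'
  have hβ' : isLat β := by
    rw [hβ, hαk]
    exact isLat_neg (isLat_zt_pow (isLat_cj hz0' m) k)
  obtain ⟨p, q, hpq⟩ := hβ'
  exact ⟨k, hk, m, p, q, fun z => by rw [hf, act_apply, hαk, hpq]⟩

end

end Pool.Agent.Helper43.Idio
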