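import Mathlib

/-!
Definitions for tilings of the Euclidean plane (identified with `ℂ`) by tiles with several components.
-/

namespace Pool.Agent.Helper43.Idio

open Set

/-- A closed topological disk in the plane. -/
def IsClosedDisk (A : Set ℂ) : Prop := Nonempty (A ≃ₜ Metric.closedBall (0 : ℂ) 1)

/-- A tiling of the plane: a countable family of closed sets whose union is the plane and whose
interiors are pairwise disjoint. -/
structure IsTiling (𝒯 : Set (Set ℂ)) : Prop where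
  countable : 𝒯.Countable
  isClosed : ∀ A ∈ 𝒯, IsClosed A
  cover : ⋃₀ 𝒯 = univ
  disjoint : ∀ A ∈ 𝒯, ∀ B ∈ 𝒯, A ≠ B → Disjoint (interior A) (interior B)

/-- `T` is the union of `k` pairwise disjoint closed topological disks. -/
def IsPrototile (k : ℕ) (T : Set ℂ) : Prop :=
  ∃ P : Fin k → Set ℂ, (∀ i, IsClosedDisk (P i)) ∧ (∀ i j, i ≠ j → Disjoint (P i) (P j)) ∧
    T = ⋃ i, P i

/-- A monohedral tiling with prototile `T`: every tile is congruent to `T`. -/
def IsMonohedral (T : Set ℂ) (𝒯 : Set (Set ℂ)) : Prop :=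
  IsTiling 𝒯 ∧ ∀ A ∈ 𝒯, ∃ g : ℂ ≃ᵢ ℂ, g '' T = A

/-- The symmetry group `S(𝒯)`: the isometries mapping the family `𝒯` onto itself. -/
def symGroup (𝒯 : Set (Set ℂ)) : Set (ℂ ≃ᵢ ℂ) := {g | (fun A => g '' A) '' 𝒯 = 𝒯}

/-- The symmetry group acts transitively on the tiles. -/
def IsIsohedral (𝒯 : Set (Set ℂ)) : Prop := ∀ A ∈ 𝒯, ∀ B ∈ 𝒯, ∃ g ∈ symGroup 𝒯, g '' A = B

/-- `C` is a connected component of `A`. -/
def IsComponent (C A : Set ℂ) : Prop := ∃ x ∈ A, C = connectedComponentIn A x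

/-- For every tile, its stabiliser in the symmetry group acts transitively on its components. -/
def CompTransitive (𝒯 : Set (Set ℂ)) : Prop :=
  ∀ A ∈ 𝒯, ∀ C C', IsComponent C A → IsComponent C' A →
    ∃ g ∈ symGroup 𝒯, g '' A = A ∧ g '' C = C'

/-- `𝒯` is an idiomeric tiling with prototile `T`. -/
def IsIdiomeric (T : Set ℂ) (𝒯 : Set (Set ℂ)) : Prop :=
  IsMonohedral T 𝒯 ∧ IsIsohedral 𝒯 ∧ CompTransitive 𝒯

/-- `𝒯` is a pseudo-idiomeric tiling with prototile `T`. -/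
def IsPseudoIdiomeric (T : Set ℂ) (𝒯 : Set (Set ℂ)) : Prop :=
  IsMonohedral T 𝒯 ∧ ¬ IsIsohedral 𝒯 ∧ CompTransitive 𝒯

end Pool.Agent.Helper43.Idio
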