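import Pool.Agent.Helper43.IdioFam

/-!
The tile is a closed topological disk: it is the region between two piecewise linear graphs.
-/

namespace Pool.Agent.Helper43.Idio

open Complex Set Filter Topology

noncomputable section

/-- the region between two graphs that meet at the end points is a closed disk. -/
theorem region_disk (a b : ℝ) (hab : a < b) (L U : ℝ → ℝ) (hL : Continuous L) (hU : Continuous U)
    (hlt : ∀ s, a < s → s < b → L s < U s) (ha : L a = U a) (hb : L b = U b) :
    Nonempty ({p : ℝ × ℝ | a ≤ p.1 ∧ p.1 ≤ b ∧ L p.1 ≤ p.2 ∧ p.2 ≤ U p.1} ≃ₜ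
      Metric.closedBall (0 : ℂ) 1) := by
  -- parameters
  have hba : 0 < b - a := by linarith
  let S : ℝ → ℝ := fun t => a + (b - a) * (t + 1) / 2
  let q : ℂ → ℝ := fun z => z.im / √(1 - z.re ^ 2)
  have hball : ∀ z : ℂ, z ∈ Metric.closedBall (0 : ℂ) 1 → z.re ^ 2 + z.im ^ 2 ≤ 1 := by
    intro z hz
    have h1 : ‖z‖ ≤ 1 := by simpa using hz
    have h2 : ‖z‖ ^ 2 = z.re ^ 2 + z.im ^ 2 := by
      rw [Complex.sq_norm, Complex.normSq_apply]; ring
    nlinarith [norm_nonneg z]
  have hre : ∀ z : ℂ, z ∈ Metric.closedBall (0 : ℂ) 1 → -1 ≤ z.re ∧ z.re ≤ 1 := by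
    intro z hz
    have := hball z hz
    constructor <;> nlinarith [sq_nonneg z.im, sq_nonneg (z.re + 1), sq_nonneg (z.re - 1)]
  have hq : ∀ z : ℂ, z ∈ Metric.closedBall (0 : ℂ) 1 → |q z| ≤ 1 := by
    intro z hz
    have h1 := hball z hz
    simp only [q]
    rw [abs_div, abs_of_nonneg (Real.sqrt_nonneg _)]
    apply div_le_one_of_le₀ _ (Real.sqrt_nonneg _)
    apply Real.abs_le_sqrt
    linarith
  have hS : ∀ t, -1 ≤ t → t ≤ 1 → a ≤ S t ∧ S t ≤ b := by
    intro t h1 h2
    simp only [S]
    constructor <;> nlinarith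
  have hLU : ∀ s, a ≤ s → s ≤ b → L s ≤ U s := by
    intro s h1 h2
    rcases h1.eq_or_lt with h | h
    · rw [← h, ha]
    · rcases h2.eq_or_lt with h' | h'
      · rw [h', hb]
      · exact (hlt s h h').le
  -- the map
  let f : Metric.closedBall (0 : ℂ) 1 →
      {p : ℝ × ℝ | a ≤ p.1 ∧ p.1 ≤ b ∧ L p.1 ≤ p.2 ∧ p.2 ≤ U p.1} := fun z =>
    ⟨(S z.1.re, (L (S z.1.re) + U (S z.1.re)) / 2 + (U (S z.1.re) - L (S z.1.re)) / 2 * q z.1), by
      have h1 := hre z.1 z.2
      have h2 := hS _ h1.1 h1.2
      have h3 := hLU _ h2.1 h2.2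
      have h4 := abs_le.mp (hq z.1 z.2)
      refine ⟨h2.1, h2.2, ?_, ?_⟩ <;> simp only <;> nlinarith⟩
  let g : {p : ℝ × ℝ | a ≤ p.1 ∧ p.1 ≤ b ∧ L p.1 ≤ p.2 ∧ p.2 ≤ U p.1} →
      Metric.closedBall (0 : ℂ) 1 := fun p =>
    ⟨⟨2 * (p.1.1 - a) / (b - a) - 1,
      √(1 - (2 * (p.1.1 - a) / (b - a) - 1) ^ 2) *
        ((2 * p.1.2 - L p.1.1 - U p.1.1) / (U p.1.1 - L p.1.1))⟩, by
      obtain ⟨⟨s, y⟩, h1, h2, h3, h4⟩ := p
      simp only at h1 h2 h3 h4 ⊢
      rw [mem_closedBall_zero_iff]
      have hw : |(2 * y - L s - U s) / (U s - L s)| ≤ 1 := by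
        rw [abs_div, abs_of_nonneg (by linarith : (0 : ℝ) ≤ U s - L s)]
        apply div_le_one_of_le₀ _ (by linarith)
        rw [abs_le]; constructor <;> linarith
      set w := (2 * y - L s - U s) / (U s - L s)
      set t := 2 * (s - a) / (b - a) - 1 with ht
      have ht1 : -1 ≤ t := by
        have : 0 ≤ 2 * (s - a) / (b - a) := by apply div_nonneg <;> linarith
        linarith
      have ht2 : t ≤ 1 := by
        have : 2 * (s - a) / (b - a) ≤ 2 := by rw [div_le_iff₀ hba]; linarith
        linarith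
      have ht3 : 0 ≤ 1 - t ^ 2 := by nlinarith
      have hw2 : w ^ 2 ≤ 1 := by
        rw [← sq_abs]; nlinarith [abs_nonneg w]
      have : ‖(⟨t, √(1 - t ^ 2) * w⟩ : ℂ)‖ ^ 2 ≤ 1 := by
        rw [Complex.sq_norm, Complex.normSq_apply]
        simp only
        have e : √(1 - t ^ 2) * √(1 - t ^ 2) = 1 - t ^ 2 := Real.mul_self_sqrt ht3
        nlinarith
      nlinarith [norm_nonneg (⟨t, √(1 - t ^ 2) * w⟩ : ℂ)]⟩
  have hfg : Function.RightInverse g f := by
    rintro ⟨⟨s, y⟩, h1, h2, h3, h4⟩
    simp only at h1 h2 h3 h4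
    apply Subtype.ext
    have hS' : S (2 * (s - a) / (b - a) - 1) = s := by
      simp only [S]; field_simp; ring
    simp only [f, g, q, hS']
    ext
    · rfl
    · simp only
      rcases h1.eq_or_lt with h | h
      · subst h; rw [ha] at h3 ⊢; linarith
      · rcases h2.eq_or_lt with h' | h'
        · subst h'; rw [hb] at h3 ⊢; linarith
        · have hUL : U s - L s ≠ 0 := by have := hlt s h h'; linarith
          have hpos : 0 < 1 - (2 * (s - a) / (b - a) - 1) ^ 2 := by
            have e1 : 0 < 2 * (s - a) / (b - a) := by apply div_pos <;> linarith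
            have e2 : 2 * (s - a) / (b - a) < 2 := by rw [div_lt_iff₀ hba]; linarith
            nlinarith
          have hsq : √(1 - (2 * (s - a) / (b - a) - 1) ^ 2) ≠ 0 := (Real.sqrt_pos.mpr hpos).ne'
          set X := √(1 - (2 * (s - a) / (b - a) - 1) ^ 2) with hX
          have e : X * ((2 * y - L s - U s) / (U s - L s)) / X = (2 * y - L s - U s) / (U s - L s) := by
            field_simp
          rw [e]
          field_simp
          ring
  have hgf : Function.LeftInverse g f := by
    rintro ⟨z, hz⟩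
    have h1 := hre z hz
    have h2 := hball z hz
    apply Subtype.ext
    have hS' : 2 * (S z.re - a) / (b - a) - 1 = z.re := by
      simp only [S]; field_simp; ring
    simp only [f, g, hS']
    apply Complex.ext
    · rfl
    · simp only
      rcases h1.1.eq_or_lt with h | h
      · have him : z.im = 0 := by
          rw [← h] at h2; nlinarith [sq_nonneg z.im]
        rw [← h, him]; norm_num
      · rcases h1.2.eq_or_lt with h' | h'
        · have him : z.im = 0 := by
            rw [h'] at h2; nlinarith [sq_nonneg z.im]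
          rw [h', him]; norm_num
        · have hS1 : a < S z.re := by simp only [S]; nlinarith
          have hS2 : S z.re < b := by simp only [S]; nlinarith
          have hUL : U (S z.re) - L (S z.re) ≠ 0 := by have := hlt _ hS1 hS2; linarith
          have hpos : 0 < 1 - z.re ^ 2 := by nlinarith
          have hsq : √(1 - z.re ^ 2) ≠ 0 := (Real.sqrt_pos.mpr hpos).ne'
          simp only [q]
          field_simp
          ring
  have hf : Continuous f := by
    refine Continuous.subtype_mk ?_ _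
    have hSc : Continuous (fun z : Metric.closedBall (0 : ℂ) 1 => S z.1.re) := by
      simp only [S]
      have := Complex.continuous_re.comp (continuous_subtype_val (p := (· ∈ Metric.closedBall (0 : ℂ) 1)))
      exact (continuous_const.add ((continuous_const.mul (this.add continuous_const)).div_const _))
    refine hSc.prodMk ?_
    refine ((hL.comp hSc).add (hU.comp hSc)).div_const _ |>.add ?_
    have hw : Continuous (fun z : Metric.closedBall (0 : ℂ) 1 => (U (S z.1.re) - L (S z.1.re)) / 2) :=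
      ((hU.comp hSc).sub (hL.comp hSc)).div_const _
    rw [continuous_iff_continuousAt]
    intro z0
    by_cases h0 : 1 - z0.1.re ^ 2 = 0
    · -- end point: squeeze
      have hz : (U (S z0.1.re) - L (S z0.1.re)) / 2 = 0 := by
        have h1 := hre z0.1 z0.2
        have : z0.1.re = 1 ∨ z0.1.re = -1 := by
          have : (z0.1.re - 1) * (z0.1.re + 1) = 0 := by linarith
          rcases mul_eq_zero.mp this with h | h
          · left; linarith
          · right; linarith
        rcases this with h | h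
        · rw [h]
          have : S 1 = b := by simp only [S]; ring
          rw [this, hb]; ring
        · rw [h]
          have : S (-1) = a := by simp only [S]; ring
          rw [this, ha]; ring
      have hval : (U (S z0.1.re) - L (S z0.1.re)) / 2 * q z0.1 = 0 := by rw [hz]; ring
      unfold ContinuousAt
      simp only []
      rw [hval]
      refine squeeze_zero_norm (a := fun z : Metric.closedBall (0 : ℂ) 1 =>
        |(U (S z.1.re) - L (S z.1.re)) / 2|) ?_ ?_
      · intro z
        rw [norm_mul, Real.norm_eq_abs, Real.norm_eq_abs]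
        exact mul_le_of_le_one_right (abs_nonneg _) (hq z.1 z.2)
      · have := (hw.abs).continuousAt (x := z0)
        unfold ContinuousAt at this
        simp only [] at this
        rw [hz, abs_zero] at this
        exact this
    · have h1 := hre z0.1 z0.2
      have hpos : √(1 - z0.1.re ^ 2) ≠ 0 := by
        have : 0 < 1 - z0.1.re ^ 2 := lt_of_le_of_ne (by nlinarith) (Ne.symm h0)
        exact (Real.sqrt_pos.mpr this).ne'
      refine hw.continuousAt.mul ?_
      simp only [q]
      refine ContinuousAt.div ?_ ?_ hpos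
      · exact (Complex.continuous_im.comp continuous_subtype_val).continuousAt
      · exact (Real.continuous_sqrt.comp (continuous_const.sub
          ((Complex.continuous_re.comp continuous_subtype_val).pow 2))).continuousAt
  exact ⟨(Continuous.homeoOfEquivCompactToT2 (f := ⟨f, g, hgf, hfg⟩) hf).symm⟩

/-- upper boundary -/
def fU (s : ℝ) : ℝ :=
  7 - s / 2 + (|s| - |s - 1| - |s - 3| + |s - 4| - |s - 6| + 2 * |s - 7| - 2 * |s - 9|) / 2
/-- lower boundary -/
def fL (s : ℝ) : ℝ := 3 - fU (9 - s)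

lemma mem_up {c : ℤ × ℤ} (hc : c.1 % 3 = 1) {z : ℂ} (h : z ∈ tri c) :
    (c.1 : ℝ) - 1 ≤ 3 * cx z ∧ (c.2 : ℝ) - 1 ≤ 3 * cy z ∧ 3 * cx z + 3 * cy z ≤ c.1 + c.2 + 1 := by
  obtain ⟨h1, h2, h3⟩ := h
  rw [sg_up hc] at h1 h2 h3
  exact ⟨by linarith, by linarith, by linarith⟩
lemma mem_down {c : ℤ × ℤ} (hc : c.1 % 3 = 2) {z : ℂ} (h : z ∈ tri c) :
    3 * cx z ≤ c.1 + 1 ∧ 3 * cy z ≤ c.2 + 1 ∧ (c.1 : ℝ) + c.2 - 1 ≤ 3 * cx z + 3 * cy z := by
  obtain ⟨h1, h2, h3⟩ := h
  rw [sg_down hc] at h1 h2 h3
  exact ⟨by linarith, by linarith, by linarith⟩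
lemma in_up {c : ℤ × ℤ} (hc : c.1 % 3 = 1) {z : ℂ} (h1 : (c.1 : ℝ) - 1 ≤ 3 * cx z)
    (h2 : (c.2 : ℝ) - 1 ≤ 3 * cy z) (h3 : 3 * cx z + 3 * cy z ≤ c.1 + c.2 + 1) : z ∈ tri c := by
  refine ⟨?_, ?_, ?_⟩ <;> rw [sg_up hc] <;> linarith
lemma in_down {c : ℤ × ℤ} (hc : c.1 % 3 = 2) {z : ℂ} (h1 : 3 * cx z ≤ c.1 + 1)
    (h2 : 3 * cy z ≤ c.2 + 1) (h3 : (c.1 : ℝ) + c.2 - 1 ≤ 3 * cx z + 3 * cy z) : z ∈ tri c := by
  refine ⟨?_, ?_, ?_⟩ <;> rw [sg_down hc] <;> linarith

lemma fU_0 {s : ℝ} (h1 : (-2) ≤ s) (h2 : s ≤ -1) : fU s = (2) := by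
  unfold fU
  rw [abs_of_nonpos (show s ≤ (0 : ℝ) by linarith), abs_of_nonpos (show s - 1 ≤ (0 : ℝ) by linarith), abs_of_nonpos (show s - 3 ≤ (0 : ℝ) by linarith), abs_of_nonpos (show s - 4 ≤ (0 : ℝ) by linarith), abs_of_nonpos (show s - 6 ≤ (0 : ℝ) by linarith), abs_of_nonpos (show s - 7 ≤ (0 : ℝ) by linarith), abs_of_nonpos (show s - 9 ≤ (0 : ℝ) by linarith)]
  ring
lemma fU_1 {s : ℝ} (h1 : (-1) ≤ s) (h2 : s ≤ 0) : fU s = (2) := by
  unfold fU
  rw [abs_of_nonpos (show s ≤ (0 : ℝ) by linarith), abs_of_nonpos (show s - 1 ≤ (0 : ℝ) by linarith), abs_of_nonpos (show s - 3 ≤ (0 : ℝ) by linarith), abs_of_nonpos (show s - 4 ≤ (0 : ℝ) by linarith), abs_of_nonpos (show s - 6 ≤ (0 : ℝ) by linarith), abs_of_nonpos (show s - 7 ≤ (0 : ℝ) by linarith), abs_of_nonpos (show s - 9 ≤ (0 : ℝ) by linarith)]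
  ring
lemma fU_2 {s : ℝ} (h1 : 0 ≤ s) (h2 : s ≤ 1) : fU s = (2 + s) := by
  unfold fU
  rw [abs_of_nonneg (show (0 : ℝ) ≤ s by linarith), abs_of_nonpos (show s - 1 ≤ (0 : ℝ) by linarith), abs_of_nonpos (show s - 3 ≤ (0 : ℝ) by linarith), abs_of_nonpos (show s - 4 ≤ (0 : ℝ) by linarith), abs_of_nonpos (show s - 6 ≤ (0 : ℝ) by linarith), abs_of_nonpos (show s - 7 ≤ (0 : ℝ) by linarith), abs_of_nonpos (show s - 9 ≤ (0 : ℝ) by linarith)]
  ring
lemma fU_3 {s : ℝ} (h1 : 1 ≤ s) (h2 : s ≤ 2) : fU s = (3) := by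
  unfold fU
  rw [abs_of_nonneg (show (0 : ℝ) ≤ s by linarith), abs_of_nonneg (show (0 : ℝ) ≤ s - 1 by linarith), abs_of_nonpos (show s - 3 ≤ (0 : ℝ) by linarith), abs_of_nonpos (show s - 4 ≤ (0 : ℝ) by linarith), abs_of_nonpos (show s - 6 ≤ (0 : ℝ) by linarith), abs_of_nonpos (show s - 7 ≤ (0 : ℝ) by linarith), abs_of_nonpos (show s - 9 ≤ (0 : ℝ) by linarith)]
  ring
lemma fU_4 {s : ℝ} (h1 : 2 ≤ s) (h2 : s ≤ 3) : fU s = (3) := by
  unfold fU
  rw [abs_of_nonneg (show (0 : ℝ) ≤ s by linarith), abs_of_nonneg (show (0 : ℝ) ≤ s - 1 by linarith), abs_of_nonpos (show s - 3 ≤ (0 : ℝ) by linarith), abs_of_nonpos (show s - 4 ≤ (0 : ℝ) by linarith), abs_of_nonpos (show s - 6 ≤ (0 : ℝ) by linarith), abs_of_nonpos (show s - 7 ≤ (0 : ℝ) by linarith), abs_of_nonpos (show s - 9 ≤ (0 : ℝ) by linarith)]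
  ring
lemma fU_5 {s : ℝ} (h1 : 3 ≤ s) (h2 : s ≤ 4) : fU s = (6 - s) := by
  unfold fU
  rw [abs_of_nonneg (show (0 : ℝ) ≤ s by linarith), abs_of_nonneg (show (0 : ℝ) ≤ s - 1 by linarith), abs_of_nonneg (show (0 : ℝ) ≤ s - 3 by linarith), abs_of_nonpos (show s - 4 ≤ (0 : ℝ) by linarith), abs_of_nonpos (show s - 6 ≤ (0 : ℝ) by linarith), abs_of_nonpos (show s - 7 ≤ (0 : ℝ) by linarith), abs_of_nonpos (show s - 9 ≤ (0 : ℝ) by linarith)]
  ring
lemma fU_6 {s : ℝ} (h1 : 4 ≤ s) (h2 : s ≤ 5) : fU s = (2) := by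
  unfold fU
  rw [abs_of_nonneg (show (0 : ℝ) ≤ s by linarith), abs_of_nonneg (show (0 : ℝ) ≤ s - 1 by linarith), abs_of_nonneg (show (0 : ℝ) ≤ s - 3 by linarith), abs_of_nonneg (show (0 : ℝ) ≤ s - 4 by linarith), abs_of_nonpos (show s - 6 ≤ (0 : ℝ) by linarith), abs_of_nonpos (show s - 7 ≤ (0 : ℝ) by linarith), abs_of_nonpos (show s - 9 ≤ (0 : ℝ) by linarith)]
  ring
lemma fU_7 {s : ℝ} (h1 : 5 ≤ s) (h2 : s ≤ 6) : fU s = (2) := by
  unfold fU
  rw [abs_of_nonneg (show (0 : ℝ) ≤ s by linarith), abs_of_nonneg (show (0 : ℝ) ≤ s - 1 by linarith), abs_of_nonneg (show (0 : ℝ) ≤ s - 3 by linarith), abs_of_nonneg (show (0 : ℝ) ≤ s - 4 by linarith), abs_of_nonpos (show s - 6 ≤ (0 : ℝ) by linarith), abs_of_nonpos (show s - 7 ≤ (0 : ℝ) by linarith), abs_of_nonpos (show s - 9 ≤ (0 : ℝ) by linarith)]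
  ring
lemma fU_8 {s : ℝ} (h1 : 6 ≤ s) (h2 : s ≤ 7) : fU s = (8 - s) := by
  unfold fU
  rw [abs_of_nonneg (show (0 : ℝ) ≤ s by linarith), abs_of_nonneg (show (0 : ℝ) ≤ s - 1 by linarith), abs_of_nonneg (show (0 : ℝ) ≤ s - 3 by linarith), abs_of_nonneg (show (0 : ℝ) ≤ s - 4 by linarith), abs_of_nonneg (show (0 : ℝ) ≤ s - 6 by linarith), abs_of_nonpos (show s - 7 ≤ (0 : ℝ) by linarith), abs_of_nonpos (show s - 9 ≤ (0 : ℝ) by linarith)]
  ring
lemma fU_9 {s : ℝ} (h1 : 7 ≤ s) (h2 : s ≤ 8) : fU s = (-6 + s) := by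
  unfold fU
  rw [abs_of_nonneg (show (0 : ℝ) ≤ s by linarith), abs_of_nonneg (show (0 : ℝ) ≤ s - 1 by linarith), abs_of_nonneg (show (0 : ℝ) ≤ s - 3 by linarith), abs_of_nonneg (show (0 : ℝ) ≤ s - 4 by linarith), abs_of_nonneg (show (0 : ℝ) ≤ s - 6 by linarith), abs_of_nonneg (show (0 : ℝ) ≤ s - 7 by linarith), abs_of_nonpos (show s - 9 ≤ (0 : ℝ) by linarith)]
  ring
lemma fU_10 {s : ℝ} (h1 : 8 ≤ s) (h2 : s ≤ 9) : fU s = (-6 + s) := by
  unfold fU
  rw [abs_of_nonneg (show (0 : ℝ) ≤ s by linarith), abs_of_nonneg (show (0 : ℝ) ≤ s - 1 by linarith), abs_of_nonneg (show (0 : ℝ) ≤ s - 3 by linarith), abs_of_nonneg (show (0 : ℝ) ≤ s - 4 by linarith), abs_of_nonneg (show (0 : ℝ) ≤ s - 6 by linarith), abs_of_nonneg (show (0 : ℝ) ≤ s - 7 by linarith), abs_of_nonpos (show s - 9 ≤ (0 : ℝ) by linarith)]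
  ring
lemma fU_11 {s : ℝ} (h1 : 9 ≤ s) (h2 : s ≤ 10) : fU s = (12 - s) := by
  unfold fU
  rw [abs_of_nonneg (show (0 : ℝ) ≤ s by linarith), abs_of_nonneg (show (0 : ℝ) ≤ s - 1 by linarith), abs_of_nonneg (show (0 : ℝ) ≤ s - 3 by linarith), abs_of_nonneg (show (0 : ℝ) ≤ s - 4 by linarith), abs_of_nonneg (show (0 : ℝ) ≤ s - 6 by linarith), abs_of_nonneg (show (0 : ℝ) ≤ s - 7 by linarith), abs_of_nonneg (show (0 : ℝ) ≤ s - 9 by linarith)]
  ring
lemma fU_12 {s : ℝ} (h1 : 10 ≤ s) (h2 : s ≤ 11) : fU s = (12 - s) := by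
  unfold fU
  rw [abs_of_nonneg (show (0 : ℝ) ≤ s by linarith), abs_of_nonneg (show (0 : ℝ) ≤ s - 1 by linarith), abs_of_nonneg (show (0 : ℝ) ≤ s - 3 by linarith), abs_of_nonneg (show (0 : ℝ) ≤ s - 4 by linarith), abs_of_nonneg (show (0 : ℝ) ≤ s - 6 by linarith), abs_of_nonneg (show (0 : ℝ) ≤ s - 7 by linarith), abs_of_nonneg (show (0 : ℝ) ≤ s - 9 by linarith)]
  ring
lemma fL_0 {s : ℝ} (h1 : (-2) ≤ s) (h2 : s ≤ -1) : fL s = (0 - s) := by
  unfold fL
  rw [fU_12 (s := 9 - s) (by linarith) (by linarith)]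
  ring
lemma fL_1 {s : ℝ} (h1 : (-1) ≤ s) (h2 : s ≤ 0) : fL s = (0 - s) := by
  unfold fL
  rw [fU_11 (s := 9 - s) (by linarith) (by linarith)]
  ring
lemma fL_2 {s : ℝ} (h1 : 0 ≤ s) (h2 : s ≤ 1) : fL s = (0 + s) := by
  unfold fL
  rw [fU_10 (s := 9 - s) (by linarith) (by linarith)]
  ring
lemma fL_3 {s : ℝ} (h1 : 1 ≤ s) (h2 : s ≤ 2) : fL s = (0 + s) := by
  unfold fL
  rw [fU_9 (s := 9 - s) (by linarith) (by linarith)]
  ring
lemma fL_4 {s : ℝ} (h1 : 2 ≤ s) (h2 : s ≤ 3) : fL s = (4 - s) := by
  unfold fL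
  rw [fU_8 (s := 9 - s) (by linarith) (by linarith)]
  ring
lemma fL_5 {s : ℝ} (h1 : 3 ≤ s) (h2 : s ≤ 4) : fL s = (1) := by
  unfold fL
  rw [fU_7 (s := 9 - s) (by linarith) (by linarith)]
  ring
lemma fL_6 {s : ℝ} (h1 : 4 ≤ s) (h2 : s ≤ 5) : fL s = (1) := by
  unfold fL
  rw [fU_6 (s := 9 - s) (by linarith) (by linarith)]
  ring
lemma fL_7 {s : ℝ} (h1 : 5 ≤ s) (h2 : s ≤ 6) : fL s = (6 - s) := by
  unfold fL
  rw [fU_5 (s := 9 - s) (by linarith) (by linarith)]
  ring
lemma fL_8 {s : ℝ} (h1 : 6 ≤ s) (h2 : s ≤ 7) : fL s = (0) := by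
  unfold fL
  rw [fU_4 (s := 9 - s) (by linarith) (by linarith)]
  ring
lemma fL_9 {s : ℝ} (h1 : 7 ≤ s) (h2 : s ≤ 8) : fL s = (0) := by
  unfold fL
  rw [fU_3 (s := 9 - s) (by linarith) (by linarith)]
  ring
lemma fL_10 {s : ℝ} (h1 : 8 ≤ s) (h2 : s ≤ 9) : fL s = (-8 + s) := by
  unfold fL
  rw [fU_2 (s := 9 - s) (by linarith) (by linarith)]
  ring
lemma fL_11 {s : ℝ} (h1 : 9 ≤ s) (h2 : s ≤ 10) : fL s = (1) := by
  unfold fL
  rw [fU_1 (s := 9 - s) (by linarith) (by linarith)]
  ring
lemma fL_12 {s : ℝ} (h1 : 10 ≤ s) (h2 : s ≤ 11) : fL s = (1) := by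
  unfold fL
  rw [fU_0 (s := 9 - s) (by linarith) (by linarith)]
  ring
lemma fwd {z : ℂ} (hz : z ∈ PP) : -2 ≤ 2 * cx z + cy z ∧ 2 * cx z + cy z ≤ 11 ∧
    fL (2 * cx z + cy z) ≤ cy z ∧ cy z ≤ fU (2 * cx z + cy z) := by
  obtain ⟨c, hc, hzc⟩ := hz
  change c ∈ Pl at hc
  simp only [Pl, List.mem_cons, List.not_mem_nil, or_false] at hc
  rcases hc with rfl | rfl | rfl | rfl | rfl | rfl | rfl | rfl | rfl | rfl | rfl | rfl | rfl | rfl | rfl | rfl | rfl | rfl
  · obtain ⟨g1, g2, g3⟩ := mem_down (by norm_num) hzc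
    push_cast at g1 g2 g3
    rcases le_total (2 * cx z + cy z) (-1) with hs | hs
    · rw [fU_0 (by linarith) (by linarith), fL_0 (by linarith) (by linarith)]
      exact ⟨by linarith, by linarith, by linarith, by linarith⟩
    · rw [fU_1 (by linarith) (by linarith), fL_1 (by linarith) (by linarith)]
      exact ⟨by linarith, by linarith, by linarith, by linarith⟩
  · obtain ⟨g1, g2, g3⟩ := mem_up (by norm_num) hzc
    push_cast at g1 g2 g3
    rcases le_total (2 * cx z + cy z) (0) with hs | hs
    · rw [fU_1 (by linarith) (by linarith), fL_1 (by linarith) (by linarith)]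
      exact ⟨by linarith, by linarith, by linarith, by linarith⟩
    · rw [fU_2 (by linarith) (by linarith), fL_2 (by linarith) (by linarith)]
      exact ⟨by linarith, by linarith, by linarith, by linarith⟩
  · obtain ⟨g1, g2, g3⟩ := mem_up (by norm_num) hzc
    push_cast at g1 g2 g3
    rcases le_total (2 * cx z + cy z) (1) with hs | hs
    · rw [fU_2 (by linarith) (by linarith), fL_2 (by linarith) (by linarith)]
      exact ⟨by linarith, by linarith, by linarith, by linarith⟩
    · rw [fU_3 (by linarith) (by linarith), fL_3 (by linarith) (by linarith)]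
      exact ⟨by linarith, by linarith, by linarith, by linarith⟩
  · obtain ⟨g1, g2, g3⟩ := mem_down (by norm_num) hzc
    push_cast at g1 g2 g3
    rcases le_total (2 * cx z + cy z) (0) with hs | hs
    · rw [fU_1 (by linarith) (by linarith), fL_1 (by linarith) (by linarith)]
      exact ⟨by linarith, by linarith, by linarith, by linarith⟩
    · rw [fU_2 (by linarith) (by linarith), fL_2 (by linarith) (by linarith)]
      exact ⟨by linarith, by linarith, by linarith, by linarith⟩
  · obtain ⟨g1, g2, g3⟩ := mem_down (by norm_num) hzc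
    push_cast at g1 g2 g3
    rcases le_total (2 * cx z + cy z) (1) with hs | hs
    · rw [fU_2 (by linarith) (by linarith), fL_2 (by linarith) (by linarith)]
      exact ⟨by linarith, by linarith, by linarith, by linarith⟩
    · rw [fU_3 (by linarith) (by linarith), fL_3 (by linarith) (by linarith)]
      exact ⟨by linarith, by linarith, by linarith, by linarith⟩
  · obtain ⟨g1, g2, g3⟩ := mem_down (by norm_num) hzc
    push_cast at g1 g2 g3
    rcases le_total (2 * cx z + cy z) (2) with hs | hs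
    · rw [fU_3 (by linarith) (by linarith), fL_3 (by linarith) (by linarith)]
      exact ⟨by linarith, by linarith, by linarith, by linarith⟩
    · rw [fU_4 (by linarith) (by linarith), fL_4 (by linarith) (by linarith)]
      exact ⟨by linarith, by linarith, by linarith, by linarith⟩
  · obtain ⟨g1, g2, g3⟩ := mem_up (by norm_num) hzc
    push_cast at g1 g2 g3
    rcases le_total (2 * cx z + cy z) (3) with hs | hs
    · rw [fU_4 (by linarith) (by linarith), fL_4 (by linarith) (by linarith)]
      exact ⟨by linarith, by linarith, by linarith, by linarith⟩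
    · rw [fU_5 (by linarith) (by linarith), fL_5 (by linarith) (by linarith)]
      exact ⟨by linarith, by linarith, by linarith, by linarith⟩
  · obtain ⟨g1, g2, g3⟩ := mem_down (by norm_num) hzc
    push_cast at g1 g2 g3
    rcases le_total (2 * cx z + cy z) (3) with hs | hs
    · rw [fU_4 (by linarith) (by linarith), fL_4 (by linarith) (by linarith)]
      exact ⟨by linarith, by linarith, by linarith, by linarith⟩
    · rw [fU_5 (by linarith) (by linarith), fL_5 (by linarith) (by linarith)]
      exact ⟨by linarith, by linarith, by linarith, by linarith⟩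
  · obtain ⟨g1, g2, g3⟩ := mem_up (by norm_num) hzc
    push_cast at g1 g2 g3
    rcases le_total (2 * cx z + cy z) (4) with hs | hs
    · rw [fU_5 (by linarith) (by linarith), fL_5 (by linarith) (by linarith)]
      exact ⟨by linarith, by linarith, by linarith, by linarith⟩
    · rw [fU_6 (by linarith) (by linarith), fL_6 (by linarith) (by linarith)]
      exact ⟨by linarith, by linarith, by linarith, by linarith⟩
  · obtain ⟨g1, g2, g3⟩ := mem_down (by norm_num) hzc
    push_cast at g1 g2 g3
    rcases le_total (2 * cx z + cy z) (5) with hs | hs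
    · rw [fU_6 (by linarith) (by linarith), fL_6 (by linarith) (by linarith)]
      exact ⟨by linarith, by linarith, by linarith, by linarith⟩
    · rw [fU_7 (by linarith) (by linarith), fL_7 (by linarith) (by linarith)]
      exact ⟨by linarith, by linarith, by linarith, by linarith⟩
  · obtain ⟨g1, g2, g3⟩ := mem_up (by norm_num) hzc
    push_cast at g1 g2 g3
    rcases le_total (2 * cx z + cy z) (6) with hs | hs
    · rw [fU_7 (by linarith) (by linarith), fL_7 (by linarith) (by linarith)]
      exact ⟨by linarith, by linarith, by linarith, by linarith⟩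
    · rw [fU_8 (by linarith) (by linarith), fL_8 (by linarith) (by linarith)]
      exact ⟨by linarith, by linarith, by linarith, by linarith⟩
  · obtain ⟨g1, g2, g3⟩ := mem_down (by norm_num) hzc
    push_cast at g1 g2 g3
    rcases le_total (2 * cx z + cy z) (6) with hs | hs
    · rw [fU_7 (by linarith) (by linarith), fL_7 (by linarith) (by linarith)]
      exact ⟨by linarith, by linarith, by linarith, by linarith⟩
    · rw [fU_8 (by linarith) (by linarith), fL_8 (by linarith) (by linarith)]
      exact ⟨by linarith, by linarith, by linarith, by linarith⟩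
  · obtain ⟨g1, g2, g3⟩ := mem_up (by norm_num) hzc
    push_cast at g1 g2 g3
    rcases le_total (2 * cx z + cy z) (7) with hs | hs
    · rw [fU_8 (by linarith) (by linarith), fL_8 (by linarith) (by linarith)]
      exact ⟨by linarith, by linarith, by linarith, by linarith⟩
    · rw [fU_9 (by linarith) (by linarith), fL_9 (by linarith) (by linarith)]
      exact ⟨by linarith, by linarith, by linarith, by linarith⟩
  · obtain ⟨g1, g2, g3⟩ := mem_up (by norm_num) hzc
    push_cast at g1 g2 g3
    rcases le_total (2 * cx z + cy z) (8) with hs | hs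
    · rw [fU_9 (by linarith) (by linarith), fL_9 (by linarith) (by linarith)]
      exact ⟨by linarith, by linarith, by linarith, by linarith⟩
    · rw [fU_10 (by linarith) (by linarith), fL_10 (by linarith) (by linarith)]
      exact ⟨by linarith, by linarith, by linarith, by linarith⟩
  · obtain ⟨g1, g2, g3⟩ := mem_up (by norm_num) hzc
    push_cast at g1 g2 g3
    rcases le_total (2 * cx z + cy z) (9) with hs | hs
    · rw [fU_10 (by linarith) (by linarith), fL_10 (by linarith) (by linarith)]
      exact ⟨by linarith, by linarith, by linarith, by linarith⟩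
    · rw [fU_11 (by linarith) (by linarith), fL_11 (by linarith) (by linarith)]
      exact ⟨by linarith, by linarith, by linarith, by linarith⟩
  · obtain ⟨g1, g2, g3⟩ := mem_down (by norm_num) hzc
    push_cast at g1 g2 g3
    rcases le_total (2 * cx z + cy z) (8) with hs | hs
    · rw [fU_9 (by linarith) (by linarith), fL_9 (by linarith) (by linarith)]
      exact ⟨by linarith, by linarith, by linarith, by linarith⟩
    · rw [fU_10 (by linarith) (by linarith), fL_10 (by linarith) (by linarith)]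
      exact ⟨by linarith, by linarith, by linarith, by linarith⟩
  · obtain ⟨g1, g2, g3⟩ := mem_down (by norm_num) hzc
    push_cast at g1 g2 g3
    rcases le_total (2 * cx z + cy z) (9) with hs | hs
    · rw [fU_10 (by linarith) (by linarith), fL_10 (by linarith) (by linarith)]
      exact ⟨by linarith, by linarith, by linarith, by linarith⟩
    · rw [fU_11 (by linarith) (by linarith), fL_11 (by linarith) (by linarith)]
      exact ⟨by linarith, by linarith, by linarith, by linarith⟩
  · obtain ⟨g1, g2, g3⟩ := mem_up (by norm_num) hzc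
    push_cast at g1 g2 g3
    rcases le_total (2 * cx z + cy z) (10) with hs | hs
    · rw [fU_11 (by linarith) (by linarith), fL_11 (by linarith) (by linarith)]
      exact ⟨by linarith, by linarith, by linarith, by linarith⟩
    · rw [fU_12 (by linarith) (by linarith), fL_12 (by linarith) (by linarith)]
      exact ⟨by linarith, by linarith, by linarith, by linarith⟩
lemma bwd {z : ℂ} (h1 : -2 ≤ 2 * cx z + cy z) (h2 : 2 * cx z + cy z ≤ 11)
    (h3 : fL (2 * cx z + cy z) ≤ cy z) (h4 : cy z ≤ fU (2 * cx z + cy z)) : z ∈ PP := by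
  generalize hs : 2 * cx z + cy z = s at *
  generalize hx : cx z = x at *
  generalize hy : cy z = y at *
  rcases le_total s (-1) with hk0 | hk0
  · rw [fL_0 (by linarith) (by linarith)] at h3
    rw [fU_0 (by linarith) (by linarith)] at h4
    exact ⟨(-4, 5), by change _ ∈ Pl; decide, in_down (by norm_num) (by rw [hx]; push_cast; linarith) (by rw [hy]; push_cast; linarith) (by rw [hx, hy]; push_cast; linarith)⟩
  rcases le_total s 0 with hk1 | hk1
  · rw [fL_1 (by linarith) (by linarith)] at h3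
    rw [fU_1 (by linarith) (by linarith)] at h4
    rcases le_total y (1) with hm0 | hm0
    · exact ⟨(-1, 2), by change _ ∈ Pl; decide, in_down (by norm_num) (by rw [hx]; push_cast; linarith) (by rw [hy]; push_cast; linarith) (by rw [hx, hy]; push_cast; linarith)⟩
    rcases le_total y (2 + s) with hm1 | hm1
    · exact ⟨(-2, 4), by change _ ∈ Pl; decide, in_up (by norm_num) (by rw [hx]; push_cast; linarith) (by rw [hy]; push_cast; linarith) (by rw [hx, hy]; push_cast; linarith)⟩
    exact ⟨(-4, 5), by change _ ∈ Pl; decide, in_down (by norm_num) (by rw [hx]; push_cast; linarith) (by rw [hy]; push_cast; linarith) (by rw [hx, hy]; push_cast; linarith)⟩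
  rcases le_total s 1 with hk2 | hk2
  · rw [fL_2 (by linarith) (by linarith)] at h3
    rw [fU_2 (by linarith) (by linarith)] at h4
    rcases le_total y (1) with hm0 | hm0
    · exact ⟨(-1, 2), by change _ ∈ Pl; decide, in_down (by norm_num) (by rw [hx]; push_cast; linarith) (by rw [hy]; push_cast; linarith) (by rw [hx, hy]; push_cast; linarith)⟩
    rcases le_total y (2 - s) with hm1 | hm1
    · exact ⟨(-2, 4), by change _ ∈ Pl; decide, in_up (by norm_num) (by rw [hx]; push_cast; linarith) (by rw [hy]; push_cast; linarith) (by rw [hx, hy]; push_cast; linarith)⟩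
    rcases le_total y (2) with hm2 | hm2
    · exact ⟨(-1, 5), by change _ ∈ Pl; decide, in_down (by norm_num) (by rw [hx]; push_cast; linarith) (by rw [hy]; push_cast; linarith) (by rw [hx, hy]; push_cast; linarith)⟩
    exact ⟨(-2, 7), by change _ ∈ Pl; decide, in_up (by norm_num) (by rw [hx]; push_cast; linarith) (by rw [hy]; push_cast; linarith) (by rw [hx, hy]; push_cast; linarith)⟩
  rcases le_total s 2 with hk3 | hk3
  · rw [fL_3 (by linarith) (by linarith)] at h3
    rw [fU_3 (by linarith) (by linarith)] at h4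
    rcases le_total y (2) with hm0 | hm0
    · exact ⟨(-1, 5), by change _ ∈ Pl; decide, in_down (by norm_num) (by rw [hx]; push_cast; linarith) (by rw [hy]; push_cast; linarith) (by rw [hx, hy]; push_cast; linarith)⟩
    rcases le_total y (4 - s) with hm1 | hm1
    · exact ⟨(-2, 7), by change _ ∈ Pl; decide, in_up (by norm_num) (by rw [hx]; push_cast; linarith) (by rw [hy]; push_cast; linarith) (by rw [hx, hy]; push_cast; linarith)⟩
    exact ⟨(-1, 8), by change _ ∈ Pl; decide, in_down (by norm_num) (by rw [hx]; push_cast; linarith) (by rw [hy]; push_cast; linarith) (by rw [hx, hy]; push_cast; linarith)⟩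
  rcases le_total s 3 with hk4 | hk4
  · rw [fL_4 (by linarith) (by linarith)] at h3
    rw [fU_4 (by linarith) (by linarith)] at h4
    rcases le_total y (2) with hm0 | hm0
    · exact ⟨(2, 5), by change _ ∈ Pl; decide, in_down (by norm_num) (by rw [hx]; push_cast; linarith) (by rw [hy]; push_cast; linarith) (by rw [hx, hy]; push_cast; linarith)⟩
    rcases le_total y (0 + s) with hm1 | hm1
    · exact ⟨(1, 7), by change _ ∈ Pl; decide, in_up (by norm_num) (by rw [hx]; push_cast; linarith) (by rw [hy]; push_cast; linarith) (by rw [hx, hy]; push_cast; linarith)⟩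
    exact ⟨(-1, 8), by change _ ∈ Pl; decide, in_down (by norm_num) (by rw [hx]; push_cast; linarith) (by rw [hy]; push_cast; linarith) (by rw [hx, hy]; push_cast; linarith)⟩
  rcases le_total s 4 with hk5 | hk5
  · rw [fL_5 (by linarith) (by linarith)] at h3
    rw [fU_5 (by linarith) (by linarith)] at h4
    rcases le_total y (-2 + s) with hm0 | hm0
    · exact ⟨(4, 4), by change _ ∈ Pl; decide, in_up (by norm_num) (by rw [hx]; push_cast; linarith) (by rw [hy]; push_cast; linarith) (by rw [hx, hy]; push_cast; linarith)⟩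
    rcases le_total y (2) with hm1 | hm1
    · exact ⟨(2, 5), by change _ ∈ Pl; decide, in_down (by norm_num) (by rw [hx]; push_cast; linarith) (by rw [hy]; push_cast; linarith) (by rw [hx, hy]; push_cast; linarith)⟩
    exact ⟨(1, 7), by change _ ∈ Pl; decide, in_up (by norm_num) (by rw [hx]; push_cast; linarith) (by rw [hy]; push_cast; linarith) (by rw [hx, hy]; push_cast; linarith)⟩
  rcases le_total s 5 with hk6 | hk6
  · rw [fL_6 (by linarith) (by linarith)] at h3
    rw [fU_6 (by linarith) (by linarith)] at h4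
    rcases le_total y (6 - s) with hm0 | hm0
    · exact ⟨(4, 4), by change _ ∈ Pl; decide, in_up (by norm_num) (by rw [hx]; push_cast; linarith) (by rw [hy]; push_cast; linarith) (by rw [hx, hy]; push_cast; linarith)⟩
    exact ⟨(5, 5), by change _ ∈ Pl; decide, in_down (by norm_num) (by rw [hx]; push_cast; linarith) (by rw [hy]; push_cast; linarith) (by rw [hx, hy]; push_cast; linarith)⟩
  rcases le_total s 6 with hk7 | hk7
  · rw [fL_7 (by linarith) (by linarith)] at h3
    rw [fU_7 (by linarith) (by linarith)] at h4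
    rcases le_total y (1) with hm0 | hm0
    · exact ⟨(8, 2), by change _ ∈ Pl; decide, in_down (by norm_num) (by rw [hx]; push_cast; linarith) (by rw [hy]; push_cast; linarith) (by rw [hx, hy]; push_cast; linarith)⟩
    rcases le_total y (-4 + s) with hm1 | hm1
    · exact ⟨(7, 4), by change _ ∈ Pl; decide, in_up (by norm_num) (by rw [hx]; push_cast; linarith) (by rw [hy]; push_cast; linarith) (by rw [hx, hy]; push_cast; linarith)⟩
    exact ⟨(5, 5), by change _ ∈ Pl; decide, in_down (by norm_num) (by rw [hx]; push_cast; linarith) (by rw [hy]; push_cast; linarith) (by rw [hx, hy]; push_cast; linarith)⟩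
  rcases le_total s 7 with hk8 | hk8
  · rw [fL_8 (by linarith) (by linarith)] at h3
    rw [fU_8 (by linarith) (by linarith)] at h4
    rcases le_total y (-6 + s) with hm0 | hm0
    · exact ⟨(10, 1), by change _ ∈ Pl; decide, in_up (by norm_num) (by rw [hx]; push_cast; linarith) (by rw [hy]; push_cast; linarith) (by rw [hx, hy]; push_cast; linarith)⟩
    rcases le_total y (1) with hm1 | hm1
    · exact ⟨(8, 2), by change _ ∈ Pl; decide, in_down (by norm_num) (by rw [hx]; push_cast; linarith) (by rw [hy]; push_cast; linarith) (by rw [hx, hy]; push_cast; linarith)⟩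
    exact ⟨(7, 4), by change _ ∈ Pl; decide, in_up (by norm_num) (by rw [hx]; push_cast; linarith) (by rw [hy]; push_cast; linarith) (by rw [hx, hy]; push_cast; linarith)⟩
  rcases le_total s 8 with hk9 | hk9
  · rw [fL_9 (by linarith) (by linarith)] at h3
    rw [fU_9 (by linarith) (by linarith)] at h4
    rcases le_total y (8 - s) with hm0 | hm0
    · exact ⟨(10, 1), by change _ ∈ Pl; decide, in_up (by norm_num) (by rw [hx]; push_cast; linarith) (by rw [hy]; push_cast; linarith) (by rw [hx, hy]; push_cast; linarith)⟩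
    rcases le_total y (1) with hm1 | hm1
    · exact ⟨(11, 2), by change _ ∈ Pl; decide, in_down (by norm_num) (by rw [hx]; push_cast; linarith) (by rw [hy]; push_cast; linarith) (by rw [hx, hy]; push_cast; linarith)⟩
    exact ⟨(10, 4), by change _ ∈ Pl; decide, in_up (by norm_num) (by rw [hx]; push_cast; linarith) (by rw [hy]; push_cast; linarith) (by rw [hx, hy]; push_cast; linarith)⟩
  rcases le_total s 9 with hk10 | hk10
  · rw [fL_10 (by linarith) (by linarith)] at h3
    rw [fU_10 (by linarith) (by linarith)] at h4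
    rcases le_total y (1) with hm0 | hm0
    · exact ⟨(11, 2), by change _ ∈ Pl; decide, in_down (by norm_num) (by rw [hx]; push_cast; linarith) (by rw [hy]; push_cast; linarith) (by rw [hx, hy]; push_cast; linarith)⟩
    rcases le_total y (10 - s) with hm1 | hm1
    · exact ⟨(10, 4), by change _ ∈ Pl; decide, in_up (by norm_num) (by rw [hx]; push_cast; linarith) (by rw [hy]; push_cast; linarith) (by rw [hx, hy]; push_cast; linarith)⟩
    rcases le_total y (2) with hm2 | hm2
    · exact ⟨(11, 5), by change _ ∈ Pl; decide, in_down (by norm_num) (by rw [hx]; push_cast; linarith) (by rw [hy]; push_cast; linarith) (by rw [hx, hy]; push_cast; linarith)⟩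
    exact ⟨(10, 7), by change _ ∈ Pl; decide, in_up (by norm_num) (by rw [hx]; push_cast; linarith) (by rw [hy]; push_cast; linarith) (by rw [hx, hy]; push_cast; linarith)⟩
  rcases le_total s 10 with hk11 | hk11
  · rw [fL_11 (by linarith) (by linarith)] at h3
    rw [fU_11 (by linarith) (by linarith)] at h4
    rcases le_total y (-8 + s) with hm0 | hm0
    · exact ⟨(13, 4), by change _ ∈ Pl; decide, in_up (by norm_num) (by rw [hx]; push_cast; linarith) (by rw [hy]; push_cast; linarith) (by rw [hx, hy]; push_cast; linarith)⟩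
    rcases le_total y (2) with hm1 | hm1
    · exact ⟨(11, 5), by change _ ∈ Pl; decide, in_down (by norm_num) (by rw [hx]; push_cast; linarith) (by rw [hy]; push_cast; linarith) (by rw [hx, hy]; push_cast; linarith)⟩
    exact ⟨(10, 7), by change _ ∈ Pl; decide, in_up (by norm_num) (by rw [hx]; push_cast; linarith) (by rw [hy]; push_cast; linarith) (by rw [hx, hy]; push_cast; linarith)⟩
  rw [fL_12 (by linarith) (by linarith)] at h3
  rw [fU_12 (by linarith) (by linarith)] at h4
  exact ⟨(13, 4), by change _ ∈ Pl; decide, in_up (by norm_num) (by rw [hx]; push_cast; linarith) (by rw [hy]; push_cast; linarith) (by rw [hx, hy]; push_cast; linarith)⟩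

lemma mem_PP_iff (z : ℂ) : z ∈ PP ↔ -2 ≤ 2 * cx z + cy z ∧ 2 * cx z + cy z ≤ 11 ∧
    fL (2 * cx z + cy z) ≤ cy z ∧ cy z ≤ fU (2 * cx z + cy z) :=
  ⟨fwd, fun h => bwd h.1 h.2.1 h.2.2.1 h.2.2.2⟩

lemma continuous_fU : Continuous fU := by unfold fU; fun_prop
lemma continuous_fL : Continuous fL := by
  unfold fL; exact continuous_const.sub (continuous_fU.comp (by fun_prop))

lemma fL_lt_fU (s : ℝ) (h1 : -2 < s) (h2 : s < 11) : fL s < fU s := by
  rcases le_total s (-1) with h | h
  · rw [fL_0 (by linarith) (by linarith), fU_0 (by linarith) (by linarith)]; linarith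
  rcases le_total s 0 with h' | h'
  · rw [fL_1 (by linarith) (by linarith), fU_1 (by linarith) (by linarith)]; linarith
  clear h
  rcases le_total s 1 with h | h
  · rw [fL_2 (by linarith) (by linarith), fU_2 (by linarith) (by linarith)]; linarith
  clear h'
  rcases le_total s 2 with h' | h'
  · rw [fL_3 (by linarith) (by linarith), fU_3 (by linarith) (by linarith)]; linarith
  clear h
  rcases le_total s 3 with h | h
  · rw [fL_4 (by linarith) (by linarith), fU_4 (by linarith) (by linarith)]; linarith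
  clear h'
  rcases le_total s 4 with h' | h'
  · rw [fL_5 (by linarith) (by linarith), fU_5 (by linarith) (by linarith)]; linarith
  clear h
  rcases le_total s 5 with h | h
  · rw [fL_6 (by linarith) (by linarith), fU_6 (by linarith) (by linarith)]; linarith
  clear h'
  rcases le_total s 6 with h' | h'
  · rw [fL_7 (by linarith) (by linarith), fU_7 (by linarith) (by linarith)]; linarith
  clear h
  rcases le_total s 7 with h | h
  · rw [fL_8 (by linarith) (by linarith), fU_8 (by linarith) (by linarith)]; linarith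
  clear h'
  rcases le_total s 8 with h' | h'
  · rw [fL_9 (by linarith) (by linarith), fU_9 (by linarith) (by linarith)]; linarith
  clear h
  rcases le_total s 9 with h | h
  · rw [fL_10 (by linarith) (by linarith), fU_10 (by linarith) (by linarith)]; linarith
  clear h'
  rcases le_total s 10 with h' | h'
  · rw [fL_11 (by linarith) (by linarith), fU_11 (by linarith) (by linarith)]; linarith
  rw [fL_12 (by linarith) (by linarith), fU_12 (by linarith) (by linarith)]; linarith

/-- linear coordinates `(2x+y, y)` -/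
def coordH : ℂ ≃ₜ ℝ × ℝ where
  toFun z := (2 * cx z + cy z, cy z)
  invFun p := pt ((p.1 - p.2) / 2) p.2
  left_inv z := by
    apply ext_c <;> simp
  right_inv p := by
    ext
    · simp only [cx_pt, cy_pt]; ring
    · simp only [cy_pt]
  continuous_toFun := by
    have := continuous_cx
    have := continuous_cy
    fun_prop
  continuous_invFun := by unfold pt; fun_prop

/-- the tile is a closed topological disk. -/
theorem PP_disk : Nonempty (PP ≃ₜ Metric.closedBall (0 : ℂ) 1) := by
  obtain ⟨h⟩ := region_disk (-2) 11 (by norm_num) fL fU continuous_fL continuous_fU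
    (fun s h1 h2 => fL_lt_fU s h1 h2)
    (by rw [fL_0 (by norm_num) (by norm_num), fU_0 (by norm_num) (by norm_num)]; norm_num)
    (by rw [fL_12 (by norm_num) (by norm_num), fU_12 (by norm_num) (by norm_num)]; norm_num)
  refine ⟨(coordH.subtype (p := (· ∈ PP)) (q := (· ∈ {p : ℝ × ℝ | (-2 : ℝ) ≤ p.1 ∧ p.1 ≤ 11 ∧
    fL p.1 ≤ p.2 ∧ p.2 ≤ fU p.1})) ?_).trans h⟩
  intro z
  exact mem_PP_iff z

end

end Pool.Agent.Helper43.Idio
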