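import Pool.Agent.Helper43.IdioAlign

/-!
The 18-cell tile, families of congruent copies, local finiteness and the alignment theorem.
-/

namespace Pool.Agent.Helper43.Idio

open Complex Set Filter Topology

noncomputable section

/-- the 18 cells of the tile. -/
def Pl : List (ℤ × ℤ) :=
  [(-4, 5), (-2, 4), (-2, 7), (-1, 2), (-1, 5), (-1, 8), (1, 7), (2, 5), (4, 4), (5, 5), (7, 4),
   (8, 2), (10, 1), (10, 4), (10, 7), (11, 2), (11, 5), (13, 4)]

/-- the 18 cells of the tile, as a set. -/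
def Pc : Set (ℤ × ℤ) := {c | c ∈ Pl}

/-- the tile. -/
def PP : Set ℂ := XX Pc

lemma Pl_ok : ∀ c ∈ Pl, ok c := by decide
lemma Pc_ok : ∀ c ∈ Pc, ok c := Pl_ok
lemma Pc_finite : Pc.Finite := List.finite_toSet Pl

lemma isClosed_PP : IsClosed PP := isClosed_XX Pc_finite

lemma PP_eq : PP = ⋃ c ∈ Pc, tri c := by ext z; simp [PP, XX]

lemma PP_bounded : Bornology.IsBounded PP := by
  rw [PP_eq, Bornology.isBounded_biUnion Pc_finite]
  exact fun c _ => tri_bounded c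

lemma exists_ball : ∃ z0 : ℂ, ∃ ρ > 0, Metric.ball z0 ρ ⊆ PP := by
  obtain ⟨z, hz⟩ := otri_nonempty (-4, 5)
  obtain ⟨ρ, hρ, hb⟩ := Metric.isOpen_iff.mp (isOpen_otri (-4, 5)) z hz
  refine ⟨z, ρ, hρ, fun w hw => ⟨(-4, 5), ?_, otri_subset_tri _ (hb hw)⟩⟩
  change (-4, 5) ∈ Pl; decide

/-- a covering of the plane by interior-disjoint congruent copies of the tile. -/
structure PFam (𝒞 : Set (Set ℂ)) : Prop where
  cover : ∀ z, ∃ C ∈ 𝒞, z ∈ C
  disj : ∀ C ∈ 𝒞, ∀ C' ∈ 𝒞, C ≠ C' → Disjoint (interior C) (interior C')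
  cong : ∀ C ∈ 𝒞, ∃ g : ℂ ≃ᵢ ℂ, g '' PP = C

lemma interior_image (g : ℂ ≃ᵢ ℂ) (A : Set ℂ) : interior (g '' A) = g '' interior A :=
  (g.toHomeomorph.image_interior A).symm

lemma PFam.transport {𝒞 : Set (Set ℂ)} (h : PFam 𝒞) (g : ℂ ≃ᵢ ℂ) : PFam {C | g '' C ∈ 𝒞} := by
  have hgs : ∀ C : Set ℂ, g '' (g.symm '' C) = C := fun C => by
    rw [← image_comp]; simp
  refine ⟨fun z => ?_, fun C hC C' hC' hne => ?_, fun C hC => ?_⟩
  · obtain ⟨C, hC, hz⟩ := h.cover (g z)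
    refine ⟨g.symm '' C, ?_, ⟨g z, hz, by simp⟩⟩
    change g '' _ ∈ 𝒞
    rw [hgs]; exact hC
  · have h1 := h.disj _ hC _ hC' (fun e => hne (g.injective.image_injective e))
    rw [interior_image, interior_image] at h1
    exact (disjoint_image_iff g.injective).mp h1
  · obtain ⟨f, hf⟩ := h.cong _ hC
    refine ⟨f.trans g.symm, ?_⟩
    have : (f.trans g.symm) '' PP = g.symm '' (f '' PP) := by rw [← image_comp]; rfl
    rw [this, hf, ← image_comp]; simp

/-- local finiteness. -/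
lemma PFam.finite_meet {𝒞 : Set (Set ℂ)} (h : PFam 𝒞) :
    {C ∈ 𝒞 | (C ∩ Metric.ball 0 1).Nonempty}.Finite := by
  classical
  obtain ⟨z0, ρ, hρ, hball⟩ := exists_ball
  obtain ⟨D, hD⟩ := (Metric.isBounded_iff_subset_closedBall z0).mp PP_bounded
  choose! g hg using h.cong
  set F := {C ∈ 𝒞 | (C ∩ Metric.ball 0 1).Nonempty}
  -- balls around the centres
  have hb : ∀ C ∈ 𝒞, Metric.ball (g C z0) ρ ⊆ interior C := by
    intro C hC
    refine interior_maximal ?_ Metric.isOpen_ball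
    rw [← IsometryEquiv.image_ball]
    exact (image_mono hball).trans (hg C hC).subset
  have hsep : ∀ C ∈ 𝒞, ∀ C' ∈ 𝒞, C ≠ C' → ρ ≤ dist (g C z0) (g C' z0) := by
    intro C hC C' hC' hne
    by_contra hlt
    push Not at hlt
    refine Set.disjoint_left.mp (h.disj C hC C' hC' hne) (hb C hC (a := g C' z0) ?_)
      (hb C' hC' (Metric.mem_ball_self hρ))
    rw [Metric.mem_ball, dist_comm]; exact hlt
  have hsub : (fun C => g C z0) '' F ⊆ Metric.closedBall 0 (1 + D) := by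
    rintro _ ⟨C, ⟨hC, z, hz, hz1⟩, rfl⟩
    rw [← hg C hC] at hz
    obtain ⟨w, hw, rfl⟩ := hz
    have h1 : dist w z0 ≤ D := hD hw
    have h2 : dist (g C w) 0 < 1 := hz1
    have h3 : dist (g C z0) (g C w) = dist w z0 := by rw [(g C).isometry.dist_eq, dist_comm]
    change dist (g C z0) 0 ≤ 1 + D
    have h4 : dist (g C z0) 0 ≤ dist (g C z0) (g C w) + dist (g C w) 0 := dist_triangle _ _ _
    linarith
  have hinj : InjOn (fun C => g C z0) F := by
    intro C hC C' hC' heq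
    by_contra hne
    have := hsep C hC.1 C' hC'.1 hne
    simp only at heq
    rw [heq, dist_self] at this
    linarith
  refine Set.Finite.of_finite_image ?_ hinj
  by_contra hinf
  obtain ⟨x, -, hx⟩ := Set.Infinite.exists_accPt_of_subset_isCompact hinf
    (isCompact_closedBall 0 (1 + D)) hsub
  rw [accPt_iff_nhds] at hx
  obtain ⟨y, ⟨hy1, ⟨C, hC, rfl⟩⟩, hy2⟩ := hx (Metric.ball x (ρ / 2)) (Metric.ball_mem_nhds _ (by positivity))
  have hd : 0 < dist (g C z0) x := dist_pos.mpr hy2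
  obtain ⟨y', ⟨hy1', ⟨C', hC', rfl⟩⟩, hy2'⟩ := hx (Metric.ball x (dist (g C z0) x))
    (Metric.ball_mem_nhds _ hd)
  have hne : C ≠ C' := by
    rintro rfl
    exact lt_irrefl _ (Metric.mem_ball.mp hy1')
  have h1 := hsep C hC.1 C' hC'.1 hne
  have h2 : dist (g C z0) x < ρ / 2 := hy1
  have h3 : dist (g C' z0) x < dist (g C z0) x := hy1'
  have h4 := dist_triangle (g C z0) x (g C' z0)
  rw [dist_comm x] at h4
  linarith

lemma zero_mem_closure : (0 : ℂ) ∈ closure (otri (1, 1)) := by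
  rw [Metric.mem_closure_iff]
  intro ε hε
  have ht : 0 < min (ε / 4) (1 / 4) := lt_min (by linarith) (by norm_num)
  set t := min (ε / 4) (1 / 4)
  have ht1 : t ≤ ε / 4 := min_le_left _ _
  have ht2 : t ≤ 1 / 4 := min_le_right _ _
  refine ⟨pt t t, ?_, ?_⟩
  · have hs : sg (1, 1) = 1 := sg_up (by decide)
    refine ⟨?_, ?_, ?_⟩ <;> rw [hs] <;> simp only [cx_pt, cy_pt] <;> push_cast <;> linarith
  · rw [dist_comm, dist_eq_norm, sub_zero]
    have e := norm_sq (pt t t)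
    rw [cx_pt, cy_pt] at e
    have : ‖pt t t‖ ^ 2 < ε ^ 2 := by rw [e]; nlinarith
    exact lt_of_pow_lt_pow_left₀ 2 hε.le this

/-- the alignment theorem at the origin. -/
theorem align0 {𝒞 : Set (Set ℂ)} (h : PFam 𝒞)
    (hfive : ∀ c ∈ ([(-1, 2), (-2, 1), (-1, -1), (1, -2), (2, -1)] : List (ℤ × ℤ)),
      ∃ S : Set (ℤ × ℤ), (∀ d ∈ S, ok d) ∧ XX S ∈ 𝒞 ∧ c ∈ S ∧ (1, 1) ∉ S) :
    ∃ C ∈ 𝒞, ∀ f : ℂ ≃ᵢ ℂ, f '' PP = C →
      ∃ k < 6, ∃ m, ∃ p q : ℤ, (∀ z, f z = act k m p q z) ∧ ∃ c ∈ Pl, actC k m p q c = (1, 1) := by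
  have hne : NeBot (𝓝[otri (1, 1)] (0 : ℂ)) := mem_closure_iff_nhdsWithin_neBot.mp zero_mem_closure
  set 𝒱 := Ultrafilter.of (𝓝[otri (1, 1)] (0 : ℂ))
  have hle : (𝒱 : Filter ℂ) ≤ 𝓝[otri (1, 1)] (0 : ℂ) := Ultrafilter.of_le _
  have hV1 : otri (1, 1) ∈ 𝒱 := hle self_mem_nhdsWithin
  have hV2 : (𝒱 : Filter ℂ) ≤ 𝓝 0 := hle.trans nhdsWithin_le_nhds
  have hball : Metric.ball (0 : ℂ) 1 ∈ 𝒱 := hV2 (Metric.ball_mem_nhds _ one_pos)
  have hcov : ⋃₀ {C ∈ 𝒞 | (C ∩ Metric.ball 0 1).Nonempty} ∈ 𝒱 := by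
    refine mem_of_superset hball ?_
    intro z hz
    obtain ⟨C, hC, hzC⟩ := h.cover z
    exact ⟨C, ⟨hC, z, hzC, hz⟩, hzC⟩
  obtain ⟨C, ⟨hC, -⟩, hCV⟩ := (Ultrafilter.finite_sUnion_mem_iff h.finite_meet).mp hcov
  refine ⟨C, hC, fun f hf => ?_⟩
  have hCf : C = ⋃ c ∈ Pc, f '' tri c := by
    rw [← hf, PP_eq, image_iUnion₂]
  rw [hCf] at hCV
  obtain ⟨c, hc, hcV⟩ := (Ultrafilter.finite_biUnion_mem_iff Pc_finite).mp hCV
  have hcok := Pc_ok c hc
  have hclosed : IsClosed (f '' tri c) := f.toHomeomorph.isClosedMap _ (isClosed_tri c)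
  have h0 : (0 : ℂ) ∈ f '' tri c := by
    have : ClusterPt (0 : ℂ) (𝓟 (f '' tri c)) := by
      have hle2 : (𝒱 : Filter ℂ) ≤ 𝓝 0 ⊓ 𝓟 (f '' tri c) := le_inf hV2 (le_principal_iff.mpr hcV)
      exact neBot_of_le hle2
    have := mem_closure_iff_clusterPt.mpr this
    rwa [hclosed.closure_eq] at this
  have hsubC : f '' tri c ⊆ C := by
    rw [← hf]; exact image_mono (fun z hz => ⟨c, hc, hz⟩)
  -- points near 0 are in the sector
  have hK : ∀ w ∈ f '' tri c, ‖w‖ < 1 / 2 → w ∈ sec := by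
    intro w hw hwn
    by_contra hws
    -- w is in the closure of the interior
    have hconv : Convex ℝ (tri c) := convex_tri c
    have hint : (interior (tri c)).Nonempty := by
      obtain ⟨z, hz⟩ := otri_nonempty c
      exact ⟨z, interior_maximal (otri_subset_tri c) (isOpen_otri c) hz⟩
    have hcl : tri c ⊆ closure (interior (tri c)) := by
      rw [hconv.closure_interior_eq_closure_of_nonempty_interior hint]
      exact subset_closure
    have hcl2 : w ∈ closure (interior (f '' tri c)) := by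
      rw [interior_image]
      obtain ⟨z, hz, rfl⟩ := hw
      have : f '' closure (interior (tri c)) = closure (f '' interior (tri c)) :=
        f.toHomeomorph.image_closure _
      rw [← this]
      exact ⟨z, hcl hz, rfl⟩
    have hopen : IsOpen (Metric.ball (0 : ℂ) (1 / 2) ∩ secᶜ) :=
      Metric.isOpen_ball.inter isClosed_sec.isOpen_compl
    have hwmem : w ∈ Metric.ball (0 : ℂ) (1 / 2) ∩ secᶜ := ⟨by simpa using hwn, hws⟩
    obtain ⟨w', hw'1, hw'2⟩ := mem_closure_iff.mp hcl2 _ hopen hwmem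
    obtain ⟨w'', ⟨⟨hb, hs⟩, hi⟩, c', hc', hc'2⟩ :=
      exists_otri (hopen.inter isOpen_interior) ⟨w', hw'1, hw'2⟩
    have hb' : ‖w''‖ < 1 / 2 := by simpa using hb
    have hcase := near_zero hc' hc'2 hb'
    have hne11 : c' ≠ (1, 1) := by
      rintro rfl
      apply hs
      have hsg : sg (1, 1) = 1 := sg_up (by decide)
      obtain ⟨g1, g2, g3⟩ := hc'2
      rw [hsg] at g1 g2
      simp only at g1 g2
      push_cast at g1 g2
      exact ⟨by linarith, by linarith⟩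
    have hlist : c' ∈ ([(-1, 2), (-2, 1), (-1, -1), (1, -2), (2, -1)] : List (ℤ × ℤ)) := by
      rcases hcase with h1 | h1 | h1 | h1 | h1 | h1
      · exact absurd h1 hne11
      all_goals rw [h1]; decide
    obtain ⟨S, hSok, hSC, hcS, h11⟩ := hfive c' hlist
    have hneC : C ≠ XX S := by
      intro heq
      have hC' : C ∈ 𝒱 := mem_of_superset hcV hsubC
      have : C ∩ otri (1, 1) ∈ 𝒱 := inter_mem hC' hV1
      obtain ⟨z, hz1, hz2⟩ := Ultrafilter.nonempty_of_mem this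
      rw [heq] at hz1
      exact h11 ((mem_XX_of_otri hSok (by decide) hz2).mp hz1)
    have hd := h.disj C hC _ hSC hneC
    refine Set.disjoint_left.mp hd (interior_mono hsubC hi) (otri_subset_interior hcS hc'2)
  obtain ⟨k, hk, m, p, q, hact⟩ := sector_lemma f hcok h0 hK
  refine ⟨k, hk, m, p, q, hact, c, hc, ?_⟩
  have himg : f '' tri c = tri (actC k m p q c) := by
    rw [← image_tri_act hcok]
    ext w; simp only [mem_image, hact]
  rw [himg] at hcV
  obtain ⟨z, hz1, hz2⟩ := Ultrafilter.nonempty_of_mem (inter_mem hcV hV1)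
  exact (tri_unique (by decide) (ok_actC hcok k m p q) hz2 hz1).symm

end

end Pool.Agent.Helper43.Idio
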