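import Mathlib

/-!
Triangular grid in the complex plane.  Coordinates `cx, cy` with respect to the basis `1, ζ`.
A cell is a pair `(a, b)` of integers, both `1 mod 3` (upward triangle) or both `2 mod 3` (downward
triangle); it is three times the centroid of a unit triangle of the grid.
-/

namespace Pool.Agent.Helper43.Idio

open Complex Set

noncomputable section

/-- first coordinate in the basis `1, ζ`. -/
def cx (z : ℂ) : ℝ := z.re - z.im / √3
/-- second coordinate in the basis `1, ζ`. -/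
def cy (z : ℂ) : ℝ := 2 * z.im / √3
/-- the sixth root of unity `exp (iπ/3)`. -/
def zt : ℂ := ⟨1 / 2, √3 / 2⟩
/-- the point with coordinates `x, y`. -/
def pt (x y : ℝ) : ℂ := (x : ℂ) + (y : ℂ) * zt

lemma s3 : √3 * √3 = (3 : ℝ) := Real.mul_self_sqrt (by norm_num)
lemma s3pos : 0 < √(3 : ℝ) := Real.sqrt_pos.mpr (by norm_num)
lemma s3ne : √(3 : ℝ) ≠ 0 := s3pos.ne'

lemma cx_add (z w : ℂ) : cx (z + w) = cx z + cx w := by simp [cx]; ring
lemma cy_add (z w : ℂ) : cy (z + w) = cy z + cy w := by simp [cy]; ring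
lemma cx_sub (z w : ℂ) : cx (z - w) = cx z - cx w := by simp [cx]; ring
lemma cy_sub (z w : ℂ) : cy (z - w) = cy z - cy w := by simp [cy]; ring
lemma cx_neg (z : ℂ) : cx (-z) = - cx z := by simp [cx]; ring
lemma cy_neg (z : ℂ) : cy (-z) = - cy z := by simp [cy]; ring
lemma cx_real_mul (r : ℝ) (z : ℂ) : cx (r * z) = r * cx z := by simp [cx]; ring
lemma cy_real_mul (r : ℝ) (z : ℂ) : cy (r * z) = r * cy z := by simp [cy]; ring
@[simp] lemma cx_zero : cx 0 = 0 := by simp [cx]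
@[simp] lemma cy_zero : cy 0 = 0 := by simp [cy]

lemma continuous_cx : Continuous cx := by unfold cx; fun_prop
lemma continuous_cy : Continuous cy := by unfold cy; fun_prop

@[simp] lemma cx_pt (x y : ℝ) : cx (pt x y) = x := by
  have := s3ne
  simp [cx, pt, zt]; field_simp; ring
@[simp] lemma cy_pt (x y : ℝ) : cy (pt x y) = y := by
  have := s3ne
  simp [cy, pt, zt]; field_simp

lemma pt_c (z : ℂ) : pt (cx z) (cy z) = z := by
  have h := s3ne
  apply Complex.ext
  · simp [cx, cy, pt, zt]; field_simp; ring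
  · simp [cx, cy, pt, zt]; field_simp

lemma ext_c {z w : ℂ} (h1 : cx z = cx w) (h2 : cy z = cy w) : z = w := by
  rw [← pt_c z, ← pt_c w, h1, h2]

lemma cx_zt_mul (z : ℂ) : cx (zt * z) = - cy z := by
  have h := s3ne
  have h2 := s3
  simp [cx, cy, zt]; field_simp
  linear_combination (-z.im) * h2
lemma cy_zt_mul (z : ℂ) : cy (zt * z) = cx z + cy z := by
  have h := s3ne
  have h2 := s3
  simp [cx, cy, zt]; field_simp; ring

lemma cx_conj (z : ℂ) : cx ((starRingEnd ℂ) z) = cx z + cy z := by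
  have h := s3ne
  simp [cx, cy]; field_simp; ring
lemma cy_conj (z : ℂ) : cy ((starRingEnd ℂ) z) = - cy z := by
  simp [cy]; ring

lemma norm_sq (z : ℂ) : ‖z‖ ^ 2 = cx z ^ 2 + cx z * cy z + cy z ^ 2 := by
  have h := s3ne
  have h2 := s3
  rw [Complex.sq_norm, Complex.normSq_apply]
  simp only [cx, cy]
  field_simp
  linear_combination (z.im ^ 2) * h2

@[simp] lemma norm_zt : ‖zt‖ = 1 := by
  have h : ‖zt‖ ^ 2 = 1 := by
    have : zt = pt 0 1 := by simp [pt]
    rw [norm_sq, this, cx_pt, cy_pt]; norm_num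
  nlinarith [norm_nonneg zt]

lemma zt_sq : zt * zt = zt - 1 := by
  apply ext_c
  · rw [cx_zt_mul, cx_sub]
    have : zt = pt 0 1 := by simp [pt]
    have h1 : (1 : ℂ) = pt 1 0 := by simp [pt]
    rw [h1, this]; simp
  · rw [cy_zt_mul, cy_sub]
    have : zt = pt 0 1 := by simp [pt]
    have h1 : (1 : ℂ) = pt 1 0 := by simp [pt]
    rw [h1, this]; simp

lemma zt_cube : zt ^ 3 = -1 := by
  have := zt_sq
  linear_combination (zt + 1) * this

lemma zt_six : zt ^ 6 = 1 := by
  calc zt ^ 6 = (zt ^ 3) ^ 2 := by ring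
    _ = 1 := by rw [zt_cube]; ring

/-! ### cells -/

/-- validity of a cell. -/
def ok (c : ℤ × ℤ) : Prop := (c.1 % 3 = 1 ∧ c.2 % 3 = 1) ∨ (c.1 % 3 = 2 ∧ c.2 % 3 = 2)

instance (c : ℤ × ℤ) : Decidable (ok c) := by unfold ok; infer_instance

/-- `1` for upward and `-1` for downward cells. -/
def sg (c : ℤ × ℤ) : ℝ := if c.1 % 3 = 1 then 1 else -1

/-- closed triangle of a cell. -/
def tri (c : ℤ × ℤ) : Set ℂ :=
  {z | -1 ≤ sg c * (3 * cx z - c.1) ∧ -1 ≤ sg c * (3 * cy z - c.2) ∧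
    sg c * ((3 * cx z - c.1) + (3 * cy z - c.2)) ≤ 1}

/-- open triangle of a cell. -/
def otri (c : ℤ × ℤ) : Set ℂ :=
  {z | -1 < sg c * (3 * cx z - c.1) ∧ -1 < sg c * (3 * cy z - c.2) ∧
    sg c * ((3 * cx z - c.1) + (3 * cy z - c.2)) < 1}

/-- union of the closed triangles of a set of cells. -/
def XX (S : Set (ℤ × ℤ)) : Set ℂ := {z | ∃ c ∈ S, z ∈ tri c}

lemma otri_subset_tri (c) : otri c ⊆ tri c := fun _ h => ⟨h.1.le, h.2.1.le, h.2.2.le⟩

lemma isClosed_tri (c) : IsClosed (tri c) := by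
  have h1 := continuous_cx
  have h2 := continuous_cy
  have e : tri c = {z | -1 ≤ sg c * (3 * cx z - c.1)} ∩ ({z | -1 ≤ sg c * (3 * cy z - c.2)} ∩
    {z | sg c * ((3 * cx z - c.1) + (3 * cy z - c.2)) ≤ 1}) := rfl
  rw [e]
  refine IsClosed.inter ?_ (IsClosed.inter ?_ ?_)
  · exact isClosed_le (by fun_prop) (by fun_prop)
  · exact isClosed_le (by fun_prop) (by fun_prop)
  · exact isClosed_le (by fun_prop) (by fun_prop)

lemma isOpen_otri (c) : IsOpen (otri c) := by
  have h1 := continuous_cx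
  have h2 := continuous_cy
  have e : otri c = {z | -1 < sg c * (3 * cx z - c.1)} ∩ ({z | -1 < sg c * (3 * cy z - c.2)} ∩
    {z | sg c * ((3 * cx z - c.1) + (3 * cy z - c.2)) < 1}) := rfl
  rw [e]
  refine IsOpen.inter ?_ (IsOpen.inter ?_ ?_)
  · exact isOpen_lt (by fun_prop) (by fun_prop)
  · exact isOpen_lt (by fun_prop) (by fun_prop)
  · exact isOpen_lt (by fun_prop) (by fun_prop)

lemma isClosed_XX {S : Set (ℤ × ℤ)} (hS : S.Finite) : IsClosed (XX S) := by
  have : XX S = ⋃ c ∈ S, tri c := by ext z; simp [XX]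
  rw [this]
  exact hS.isClosed_biUnion (fun c _ => isClosed_tri c)

lemma sg_up {c : ℤ × ℤ} (h : c.1 % 3 = 1) : sg c = 1 := by simp [sg, h]
lemma sg_down {c : ℤ × ℤ} (h : c.1 % 3 = 2) : sg c = -1 := by simp [sg, h]

/-- every point is in a closed triangle. -/
lemma exists_tri (z : ℂ) : ∃ c, ok c ∧ z ∈ tri c := by
  have h1 := Int.floor_le (cx z)
  have h2 := Int.lt_floor_add_one (cx z)
  have h3 := Int.floor_le (cy z)
  have h4 := Int.lt_floor_add_one (cy z)
  set i := ⌊cx z⌋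
  set j := ⌊cy z⌋
  by_cases h : cx z + cy z ≤ i + j + 1
  · refine ⟨(3 * i + 1, 3 * j + 1), Or.inl ⟨by omega, by omega⟩, ?_⟩
    have hs : sg (3 * i + 1, 3 * j + 1) = 1 := sg_up (by simp only; omega)
    refine ⟨?_, ?_, ?_⟩ <;> rw [hs] <;> push_cast <;> linarith
  · push Not at h
    refine ⟨(3 * i + 2, 3 * j + 2), Or.inr ⟨by omega, by omega⟩, ?_⟩
    have hs : sg (3 * i + 2, 3 * j + 2) = -1 := sg_down (by simp only; omega)
    refine ⟨?_, ?_, ?_⟩ <;> rw [hs] <;> push_cast <;> linarith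

/-- an open triangle meets only its own closed triangle. -/
lemma tri_unique {c d : ℤ × ℤ} (hc : ok c) (hd : ok d) {z : ℂ} (h1 : z ∈ otri c) (h2 : z ∈ tri d) :
    c = d := by
  obtain ⟨a, b⟩ := c
  obtain ⟨a', b'⟩ := d
  obtain ⟨u1, u2, u3⟩ := h1
  obtain ⟨v1, v2, v3⟩ := h2
  simp only [ok] at hc hd
  rcases hc with ⟨hc1, hc2⟩ | ⟨hc1, hc2⟩ <;> rcases hd with ⟨hd1, hd2⟩ | ⟨hd1, hd2⟩
  · rw [sg_up (by exact hc1)] at u1 u2 u3
    rw [sg_up (by exact hd1)] at v1 v2 v3
    simp only at u1 u2 u3 v1 v2 v3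
    have e1 : a' < a + 3 := by
      have : (a' : ℝ) < a + 3 := by linarith
      exact_mod_cast this
    have e2 : a < a' + 3 := by
      have : (a : ℝ) < a' + 3 := by linarith
      exact_mod_cast this
    have e3 : b' < b + 3 := by
      have : (b' : ℝ) < b + 3 := by linarith
      exact_mod_cast this
    have e4 : b < b' + 3 := by
      have : (b : ℝ) < b' + 3 := by linarith
      exact_mod_cast this
    ext <;> simp only <;> omega
  · exfalso
    rw [sg_up (by exact hc1)] at u1 u2 u3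
    rw [sg_down (by exact hd1)] at v1 v2 v3
    simp only at u1 u2 u3 v1 v2 v3
    have e1 : a < a' + 2 := by
      have : (a : ℝ) < a' + 2 := by linarith
      exact_mod_cast this
    have e2 : b < b' + 2 := by
      have : (b : ℝ) < b' + 2 := by linarith
      exact_mod_cast this
    have e3 : a' + b' < a + b + 2 := by
      have : (a' + b' : ℝ) < a + b + 2 := by linarith
      exact_mod_cast this
    omega
  · exfalso
    rw [sg_down (by exact hc1)] at u1 u2 u3
    rw [sg_up (by exact hd1)] at v1 v2 v3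
    simp only at u1 u2 u3 v1 v2 v3
    have e1 : a' < a + 2 := by
      have : (a' : ℝ) < a + 2 := by linarith
      exact_mod_cast this
    have e2 : b' < b + 2 := by
      have : (b' : ℝ) < b + 2 := by linarith
      exact_mod_cast this
    have e3 : a + b < a' + b' + 2 := by
      have : (a + b : ℝ) < a' + b' + 2 := by linarith
      exact_mod_cast this
    omega
  · rw [sg_down (by exact hc1)] at u1 u2 u3
    rw [sg_down (by exact hd1)] at v1 v2 v3
    simp only at u1 u2 u3 v1 v2 v3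
    have e1 : a' < a + 3 := by
      have : (a' : ℝ) < a + 3 := by linarith
      exact_mod_cast this
    have e2 : a < a' + 3 := by
      have : (a : ℝ) < a' + 3 := by linarith
      exact_mod_cast this
    have e3 : b' < b + 3 := by
      have : (b' : ℝ) < b + 3 := by linarith
      exact_mod_cast this
    have e4 : b < b' + 3 := by
      have : (b : ℝ) < b' + 3 := by linarith
      exact_mod_cast this
    ext <;> simp only <;> omega

/-- the open triangles are dense. -/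
lemma exists_otri {U : Set ℂ} (hU : IsOpen U) (hne : U.Nonempty) :
    ∃ z ∈ U, ∃ c, ok c ∧ z ∈ otri c := by
  obtain ⟨z0, hz0⟩ := hne
  -- choose x' near cx z0 non-integer, then y'
  have hcont : Continuous (fun p : ℝ × ℝ => pt p.1 p.2) := by unfold pt; fun_prop
  have hopen : IsOpen ((fun p : ℝ × ℝ => pt p.1 p.2) ⁻¹' U) := hU.preimage hcont
  have hmem : ((cx z0, cy z0) : ℝ × ℝ) ∈ ((fun p : ℝ × ℝ => pt p.1 p.2) ⁻¹' U) := by
    simp only [mem_preimage, pt_c]; exact hz0
  obtain ⟨A, B, hA, hB, hxA, hyB, hAB⟩ := isOpen_prod_iff.mp hopen _ _ hmem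
  have hcount : (range ((↑) : ℤ → ℝ)).Countable := countable_range _
  obtain ⟨x, hxA', hx⟩ := (hcount.dense_compl ℝ).inter_open_nonempty A hA ⟨_, hxA⟩
  have hcount2 : (range ((↑) : ℤ → ℝ) ∪ range (fun n : ℤ => (n : ℝ) - x)).Countable :=
    hcount.union (countable_range _)
  obtain ⟨y, hyB', hy⟩ := (hcount2.dense_compl ℝ).inter_open_nonempty B hB ⟨_, hyB⟩
  refine ⟨pt x y, hAB (mk_mem_prod hxA' hyB'), ?_⟩
  have hx' : ∀ n : ℤ, (n : ℝ) ≠ x := fun n h => hx ⟨n, h⟩
  have hy' : ∀ n : ℤ, (n : ℝ) ≠ y := fun n h => hy (Or.inl ⟨n, h⟩)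
  have hxy' : ∀ n : ℤ, (n : ℝ) ≠ x + y := fun n h => hy (Or.inr ⟨n, by simp only; linarith⟩)
  have h1 := lt_of_le_of_ne (Int.floor_le x) (hx' _)
  have h2 := Int.lt_floor_add_one x
  have h3 := lt_of_le_of_ne (Int.floor_le y) (hy' _)
  have h4 := Int.lt_floor_add_one y
  have h5 := hxy' (⌊x⌋ + ⌊y⌋ + 1)
  push_cast at h5
  set i := ⌊x⌋
  set j := ⌊y⌋
  rcases lt_or_gt_of_ne h5 with h | h
  · refine ⟨(3 * i + 2, 3 * j + 2), Or.inr ⟨by omega, by omega⟩, ?_⟩
    have hs : sg (3 * i + 2, 3 * j + 2) = -1 := sg_down (by simp only; omega)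
    refine ⟨?_, ?_, ?_⟩ <;> rw [hs] <;> simp only [cx_pt, cy_pt] <;> push_cast <;> linarith
  · refine ⟨(3 * i + 1, 3 * j + 1), Or.inl ⟨by omega, by omega⟩, ?_⟩
    have hs : sg (3 * i + 1, 3 * j + 1) = 1 := sg_up (by simp only; omega)
    refine ⟨?_, ?_, ?_⟩ <;> rw [hs] <;> simp only [cx_pt, cy_pt] <;> push_cast <;> linarith

/-- `z` in an open triangle is in `XX S` iff its cell is in `S`. -/
lemma mem_XX_of_otri {S : Set (ℤ × ℤ)} (hS : ∀ c ∈ S, ok c) {c : ℤ × ℤ} (hc : ok c) {z : ℂ}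
    (hz : z ∈ otri c) : z ∈ XX S ↔ c ∈ S := by
  constructor
  · rintro ⟨d, hd, hzd⟩
    rw [tri_unique hc (hS d hd) hz hzd]; exact hd
  · intro h; exact ⟨c, h, otri_subset_tri c hz⟩

lemma otri_nonempty (c : ℤ × ℤ) : (otri c).Nonempty := by
  refine ⟨pt (c.1 / 3) (c.2 / 3), ?_⟩
  refine ⟨?_, ?_, ?_⟩ <;> simp only [cx_pt, cy_pt] <;> ring_nf <;> norm_num

lemma otri_subset_interior {S : Set (ℤ × ℤ)} {c : ℤ × ℤ} (hc : c ∈ S) :
    otri c ⊆ interior (XX S) := by
  refine interior_maximal ?_ (isOpen_otri c)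
  intro z hz
  exact ⟨c, hc, otri_subset_tri c hz⟩

/-- disjoint sets of cells have interior-disjoint unions. -/
lemma disjoint_interior_XX {S T : Set (ℤ × ℤ)} (hS : ∀ c ∈ S, ok c) (hT : ∀ c ∈ T, ok c)
    (hST : Disjoint S T) : Disjoint (interior (XX S)) (interior (XX T)) := by
  rw [Set.disjoint_iff_inter_eq_empty]
  by_contra hne
  have hne' := Set.nonempty_iff_ne_empty.mpr hne
  obtain ⟨z, ⟨hz1, hz2⟩, c, hc, hzc⟩ :=
    exists_otri (isOpen_interior.inter isOpen_interior) hne'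
  have h1 := (mem_XX_of_otri hS hc hzc).mp (interior_subset hz1)
  have h2 := (mem_XX_of_otri hT hc hzc).mp (interior_subset hz2)
  exact Set.disjoint_left.mp hST h1 h2

/-- interior-disjoint unions have disjoint cells. -/
lemma disjoint_cells {S T : Set (ℤ × ℤ)} 
    (h : Disjoint (interior (XX S)) (interior (XX T))) : Disjoint S T := by
  rw [Set.disjoint_left]
  intro c h1 h2
  obtain ⟨z, hz⟩ := otri_nonempty c
  exact Set.disjoint_left.mp h (otri_subset_interior h1 hz) (otri_subset_interior h2 hz)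

lemma XX_injective {S T : Set (ℤ × ℤ)} (hS : ∀ c ∈ S, ok c) (hT : ∀ c ∈ T, ok c)
    (h : XX S = XX T) : S = T := by
  ext c
  constructor
  · intro hc
    obtain ⟨z, hz⟩ := otri_nonempty c
    exact (mem_XX_of_otri hT (hS c hc) hz).mp (h ▸ ⟨c, hc, otri_subset_tri c hz⟩)
  · intro hc
    obtain ⟨z, hz⟩ := otri_nonempty c
    exact (mem_XX_of_otri hS (hT c hc) hz).mp (h ▸ ⟨c, hc, otri_subset_tri c hz⟩)

end

end Pool.Agent.Helper43.Idio
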