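import Pool.Agent.Helper43.IdioGrid

/-!
Isometries of the complex plane and their action on the triangular grid.
-/

namespace Pool.Agent.Helper43.Idio

open Complex Set

noncomputable section

/-- conjugation if `m`, identity otherwise. -/
def cj (m : Bool) (z : ℂ) : ℂ := if m then (starRingEnd ℂ) z else z

@[simp] lemma cj_cj (m : Bool) (z : ℂ) : cj m (cj m z) = z := by
  unfold cj; split_ifs <;> simp
lemma cj_sub (m : Bool) (z w : ℂ) : cj m (z - w) = cj m z - cj m w := by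
  unfold cj; split_ifs <;> simp
lemma cj_add (m : Bool) (z w : ℂ) : cj m (z + w) = cj m z + cj m w := by
  unfold cj; split_ifs <;> simp
lemma cj_mul (m : Bool) (z w : ℂ) : cj m (z * w) = cj m z * cj m w := by
  unfold cj; split_ifs <;> simp
lemma cj_real (m : Bool) (r : ℝ) : cj m (r : ℂ) = r := by
  unfold cj; split_ifs <;> simp
@[simp] lemma cj_zero (m : Bool) : cj m 0 = 0 := by
  unfold cj; split_ifs <;> simp
@[simp] lemma cj_false (z : ℂ) : cj false z = z := rfl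
lemma cj_true (z : ℂ) : cj true z = (starRingEnd ℂ) z := rfl
@[simp] lemma norm_cj (m : Bool) (z : ℂ) : ‖cj m z‖ = ‖z‖ := by
  unfold cj; split_ifs <;> simp

/-- the isometry `z ↦ a * cj m z + b`. -/
def iso (a : ℂ) (ha : ‖a‖ = 1) (m : Bool) (b : ℂ) : ℂ ≃ᵢ ℂ :=
  IsometryEquiv.mk' (fun z => a * cj m z + b) (fun w => cj m ((starRingEnd ℂ) a * (w - b)))
    (fun w => by
      have h : a * (starRingEnd ℂ) a = 1 := by
        rw [Complex.mul_conj, Complex.normSq_eq_norm_sq, ha]; simp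
      simp only [cj_cj]
      linear_combination (w - b) * h)
    (Isometry.of_dist_eq fun z w => by
      rw [dist_eq_norm, dist_eq_norm]
      have : a * cj m z + b - (a * cj m w + b) = a * cj m (z - w) := by rw [cj_sub]; ring
      rw [this, norm_mul, ha, one_mul, norm_cj])

@[simp] lemma iso_apply (a : ℂ) (ha : ‖a‖ = 1) (m : Bool) (b z : ℂ) :
    iso a ha m b z = a * cj m z + b := rfl

theorem iso_classify (g : ℂ ≃ᵢ ℂ) : ∃ a : ℂ, ‖a‖ = 1 ∧ ∃ m b, ∀ z, g z = a * cj m z + b := by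
  have h0 : ∀ z, g z = g.toRealLinearIsometryEquiv z + g 0 := by
    intro z; rw [IsometryEquiv.toRealLinearIsometryEquiv_apply]; ring
  obtain ⟨a, ha | ha⟩ := linear_isometry_complex g.toRealLinearIsometryEquiv
  · refine ⟨a, Circle.norm_coe a, false, g 0, fun z => ?_⟩
    rw [h0, ha]; simp [rotation_apply]
  · refine ⟨a, Circle.norm_coe a, true, g 0, fun z => ?_⟩
    rw [h0, ha]; simp [rotation_apply, cj_true]

/-! ### action on cells -/

/-- rotation by 60 degrees on cells. -/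
def rotC (c : ℤ × ℤ) : ℤ × ℤ := (-c.2, c.1 + c.2)
/-- conjugation on cells. -/
def conjC (c : ℤ × ℤ) : ℤ × ℤ := (c.1 + c.2, -c.2)
/-- linear part of the action. -/
def linC (k : ℕ) (m : Bool) (c : ℤ × ℤ) : ℤ × ℤ := rotC^[k] (if m then conjC c else c)
/-- action of a grid isometry on cells. -/
def actC (k : ℕ) (m : Bool) (p q : ℤ) (c : ℤ × ℤ) : ℤ × ℤ :=
  ((linC k m c).1 + 3 * p, (linC k m c).2 + 3 * q)

lemma norm_zt_pow (k : ℕ) : ‖zt ^ k‖ = 1 := by simp

/-- the grid isometries. -/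
def act (k : ℕ) (m : Bool) (p q : ℤ) : ℂ ≃ᵢ ℂ := iso (zt ^ k) (norm_zt_pow k) m (pt p q)

lemma act_apply (k : ℕ) (m : Bool) (p q : ℤ) (z : ℂ) :
    act k m p q z = zt ^ k * cj m z + pt p q := rfl

lemma ok_rotC {c : ℤ × ℤ} (h : ok c) : ok (rotC c) := by
  rcases h with ⟨h1, h2⟩ | ⟨h1, h2⟩
  · right; simp only [rotC]; omega
  · left; simp only [rotC]; omega
lemma ok_conjC {c : ℤ × ℤ} (h : ok c) : ok (conjC c) := by
  rcases h with ⟨h1, h2⟩ | ⟨h1, h2⟩
  · right; simp only [conjC]; omega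
  · left; simp only [conjC]; omega

lemma sg_rotC {c : ℤ × ℤ} (h : ok c) : sg (rotC c) = - sg c := by
  rcases h with ⟨h1, h2⟩ | ⟨h1, h2⟩
  · rw [sg_up h1, sg_down (by simp only [rotC]; omega)]
  · rw [sg_down h1, sg_up (by simp only [rotC]; omega)]; ring
lemma sg_conjC {c : ℤ × ℤ} (h : ok c) : sg (conjC c) = - sg c := by
  rcases h with ⟨h1, h2⟩ | ⟨h1, h2⟩
  · rw [sg_up h1, sg_down (by simp only [conjC]; omega)]
  · rw [sg_down h1, sg_up (by simp only [conjC]; omega)]; ring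

lemma mem_tri_rot {c : ℤ × ℤ} (h : ok c) (z : ℂ) : zt * z ∈ tri (rotC c) ↔ z ∈ tri c := by
  have hs := sg_rotC h
  simp only [rotC] at hs
  simp only [tri, mem_ofPred_eq, cx_zt_mul, cy_zt_mul, rotC, hs]
  push_cast
  constructor
  · rintro ⟨h1, h2, h3⟩; refine ⟨?_, ?_, ?_⟩ <;> linarith
  · rintro ⟨h1, h2, h3⟩; refine ⟨?_, ?_, ?_⟩ <;> linarith

lemma mem_tri_conj {c : ℤ × ℤ} (h : ok c) (z : ℂ) :
    (starRingEnd ℂ) z ∈ tri (conjC c) ↔ z ∈ tri c := by
  have hs := sg_conjC h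
  simp only [conjC] at hs
  simp only [tri, mem_ofPred_eq, cx_conj, cy_conj, conjC, hs]
  push_cast
  constructor
  · rintro ⟨h1, h2, h3⟩; refine ⟨?_, ?_, ?_⟩ <;> linarith
  · rintro ⟨h1, h2, h3⟩; refine ⟨?_, ?_, ?_⟩ <;> linarith

lemma mem_tri_trans {c : ℤ × ℤ} (p q : ℤ) (z : ℂ) :
    z + pt p q ∈ tri (c.1 + 3 * p, c.2 + 3 * q) ↔ z ∈ tri c := by
  have hs : sg (c.1 + 3 * p, c.2 + 3 * q) = sg c := by
    unfold sg
    have : (c.1 + 3 * p) % 3 = c.1 % 3 := by omega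
    simp only [this]
  simp only [tri, mem_ofPred_eq, hs, cx_add, cy_add, cx_pt, cy_pt]
  push_cast
  constructor
  · rintro ⟨h1, h2, h3⟩; refine ⟨?_, ?_, ?_⟩ <;> linarith
  · rintro ⟨h1, h2, h3⟩; refine ⟨?_, ?_, ?_⟩ <;> linarith

lemma rotC_iter_ok {c : ℤ × ℤ} (h : ok c) (k : ℕ) : ok (rotC^[k] c) := by
  induction k with
  | zero => exact h
  | succ k ih => rw [Function.iterate_succ_apply']; exact ok_rotC ih

lemma mem_tri_rot_iter {c : ℤ × ℤ} (h : ok c) (k : ℕ) (z : ℂ) :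
    zt ^ k * z ∈ tri (rotC^[k] c) ↔ z ∈ tri c := by
  induction k with
  | zero => simp
  | succ k ih =>
    rw [Function.iterate_succ_apply', pow_succ']
    rw [show zt * zt ^ k * z = zt * (zt ^ k * z) by ring, mem_tri_rot (rotC_iter_ok h k), ih]

lemma ok_linC {c : ℤ × ℤ} (h : ok c) (k : ℕ) (m : Bool) : ok (linC k m c) := by
  unfold linC
  split_ifs
  · exact rotC_iter_ok (ok_conjC h) k
  · exact rotC_iter_ok h k

lemma mem_tri_lin {c : ℤ × ℤ} (h : ok c) (k : ℕ) (m : Bool) (z : ℂ) :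
    zt ^ k * cj m z ∈ tri (linC k m c) ↔ z ∈ tri c := by
  unfold linC cj
  split_ifs
  · rw [mem_tri_rot_iter (ok_conjC h), mem_tri_conj h]
  · rw [mem_tri_rot_iter h]

lemma ok_actC {c : ℤ × ℤ} (h : ok c) (k : ℕ) (m : Bool) (p q : ℤ) : ok (actC k m p q c) := by
  have := ok_linC h k m
  unfold ok at this ⊢
  simp only [actC]
  omega

lemma mem_tri_act {c : ℤ × ℤ} (h : ok c) (k : ℕ) (m : Bool) (p q : ℤ) (z : ℂ) :
    act k m p q z ∈ tri (actC k m p q c) ↔ z ∈ tri c := by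
  rw [act_apply, actC, mem_tri_trans, mem_tri_lin h]

lemma image_tri_act {c : ℤ × ℤ} (h : ok c) (k : ℕ) (m : Bool) (p q : ℤ) :
    act k m p q '' tri c = tri (actC k m p q c) := by
  ext w
  constructor
  · rintro ⟨z, hz, rfl⟩; exact (mem_tri_act h k m p q z).mpr hz
  · intro hw
    refine ⟨(act k m p q).symm w, ?_, by simp⟩
    rw [← mem_tri_act h k m p q]; simpa using hw

lemma image_XX_act {S : Set (ℤ × ℤ)} (hS : ∀ c ∈ S, ok c) (k : ℕ) (m : Bool) (p q : ℤ) :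
    act k m p q '' XX S = XX (actC k m p q '' S) := by
  ext w
  constructor
  · rintro ⟨z, ⟨c, hc, hz⟩, rfl⟩
    exact ⟨_, ⟨c, hc, rfl⟩, (mem_tri_act (hS c hc) k m p q z).mpr hz⟩
  · rintro ⟨_, ⟨c, hc, rfl⟩, hw⟩
    refine ⟨(act k m p q).symm w, ⟨c, hc, ?_⟩, by simp⟩
    rw [← mem_tri_act (hS c hc) k m p q]; simpa using hw

end

end Pool.Agent.Helper43.Idio
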