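import Pool.Agent.Helper43.IdioTiling

/-!
The tile `TT` has a pseudo-idiomeric tiling and no idiomeric tiling.
-/

namespace Pool.Agent.Helper43.Idio

open Complex Set Filter Topology

noncomputable section

lemma img_mul (f g : ℂ ≃ᵢ ℂ) (A : Set ℂ) : (f * g) '' A = f '' (g '' A) := by
  rw [IsometryEquiv.coe_mul, image_comp]

lemma img_one (A : Set ℂ) : (1 : ℂ ≃ᵢ ℂ) '' A = A := by
  rw [IsometryEquiv.coe_one, image_id]

lemma img_inv_self (f : ℂ ≃ᵢ ℂ) (A : Set ℂ) : (f⁻¹ : ℂ ≃ᵢ ℂ) '' (f '' A) = A := by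
  rw [← img_mul, inv_mul_cancel, img_one]

lemma img_self_inv (f : ℂ ≃ᵢ ℂ) (A : Set ℂ) : f '' ((f⁻¹ : ℂ ≃ᵢ ℂ) '' A) = A := by
  rw [← img_mul, mul_inv_cancel, img_one]

lemma mem_sym {𝒯 : Set (Set ℂ)} {g : ℂ ≃ᵢ ℂ} (hg : g ∈ symGroup 𝒯) (A : Set ℂ) :
    g '' A ∈ 𝒯 ↔ A ∈ 𝒯 := by
  have hg' : (fun A => g '' A) '' 𝒯 = 𝒯 := hg
  constructor
  · intro h
    rw [← hg'] at h
    obtain ⟨B, hB, hBA⟩ := h
    rwa [← g.injective.image_injective hBA]
  · intro h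
    rw [← hg']; exact ⟨A, h, rfl⟩

lemma sym_of {𝒯 : Set (Set ℂ)} {g : ℂ ≃ᵢ ℂ} (h : ∀ A, g '' A ∈ 𝒯 ↔ A ∈ 𝒯) : g ∈ symGroup 𝒯 := by
  change (fun A => g '' A) '' 𝒯 = 𝒯
  apply subset_antisymm
  · rintro _ ⟨A, hA, rfl⟩
    exact (h A).mpr hA
  · intro A hA
    refine ⟨(g⁻¹ : ℂ ≃ᵢ ℂ) '' A, ?_, img_self_inv g A⟩
    rw [← h, img_self_inv]; exact hA

lemma sym_mul {𝒯 : Set (Set ℂ)} {g h : ℂ ≃ᵢ ℂ} (hg : g ∈ symGroup 𝒯) (hh : h ∈ symGroup 𝒯) :
    g * h ∈ symGroup 𝒯 :=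
  sym_of fun A => by rw [img_mul, mem_sym hg, mem_sym hh]

lemma sym_one (𝒯 : Set (Set ℂ)) : (1 : ℂ ≃ᵢ ℂ) ∈ symGroup 𝒯 :=
  sym_of fun A => by rw [img_one]

/-! ### the pseudo-idiomeric tiling -/

/-- coordinates of `ζ ^ k`, first. -/
def e1 (k : ℕ) : ℤ := if k = 0 then 1 else if k = 1 then 0 else -1
/-- coordinates of `ζ ^ k`, second. -/
def e2 (k : ℕ) : ℤ := if k = 0 then 0 else 1

lemma zt_pow_pt {k : ℕ} (hk : k < 3) (t : ℝ) :
    zt ^ k * pt (3 * t) (3 * t) =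
      pt (3 * t * (e1 k - e2 k)) (3 * t * (e1 k + 2 * e2 k)) := by
  interval_cases k
  · rw [pow_zero, one_mul]; simp [e1, e2]
  · rw [pow_one, zt_mul_pt]; simp only [e1, e2]; push_cast; norm_num; congr 1; ring
  · rw [show zt ^ 2 = zt * zt by ring, mul_assoc, zt_mul_pt, zt_mul_pt]
    simp only [e1, e2]; push_cast; norm_num; congr 1 <;> ring

/-- the half-turn exchanging the components of a tile. -/
def swp (k : ℕ) (m n : ℤ) : ℂ ≃ᵢ ℂ := stdI k m n * HT * (stdI k m n)⁻¹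

lemma swp_apply {k : ℕ} (hk : k < 3) (m n : ℤ) (z : ℂ) :
    swp k m n z = -z + pt (6 * (m - n) + 12 * (e1 k - e2 k))
      (6 * (m + 2 * n) + 12 * (e1 k + 2 * e2 k)) := by
  obtain ⟨w, rfl⟩ := (stdI k m n).surjective z
  have h1 : swp k m n (stdI k m n w) = stdI k m n (HT w) := by
    simp [swp, IsometryEquiv.mul_apply]
  rw [h1, HT_apply, stdI_apply, stdI_apply, mul_add]
  have h2 := zt_pow_pt hk 4
  rw [show (3 : ℝ) * 4 = 12 by norm_num] at h2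
  rw [h2, neg_add, pt_neg]
  have h3 : ∀ a b c d : ℂ, a + b + c = a + (b + c) := fun a b c d => by ring
  have : zt ^ k * -w = -(zt ^ k * w) := by ring
  rw [this]
  rw [add_assoc, add_assoc, pt_add, pt_add]
  congr 2 <;> push_cast <;> ring

lemma swp_std {k k' : ℕ} (hk : k < 3) (hk' : k' < 3) (m n m' n' : ℤ) :
    swp k m n '' (stdI k' m' n' '' TT) =
      stdI k' (-m' + 2 * m + 4 * e1 k - 4 * e1 k') (-n' + 2 * n + 4 * e2 k - 4 * e2 k') '' TT := by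
  conv_rhs => rw [← HT_TT]
  rw [image_comp_iso, image_comp_iso]
  congr 1
  ext z
  have h2 := zt_pow_pt hk' 4
  rw [show (3 : ℝ) * 4 = 12 by norm_num] at h2
  have : zt ^ k' * (-z + pt 12 12) = -(zt ^ k' * z) + zt ^ k' * pt 12 12 := by ring
  rw [swp_apply hk, HT_apply, stdI_apply, stdI_apply, this, h2, neg_add, pt_neg, add_assoc,
    add_assoc, pt_add, pt_add]
  congr 2 <;> push_cast <;> ring

lemma swp_mem {k : ℕ} (hk : k < 3) (m n : ℤ) : swp k m n ∈ symGroup T0 := by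
  have key : ∀ A ∈ T0, swp k m n '' A ∈ T0 := by
    rintro _ ⟨k', hk', m', n', hp, rfl⟩
    refine ⟨k', hk', _, _, ?_, swp_std hk hk' m n m' n'⟩
    unfold par at hp ⊢
    rw [Int.even_iff] at hp ⊢
    split_ifs at hp ⊢ <;> omega
  have hinv : ∀ A : Set ℂ, swp k m n '' (swp k m n '' A) = A := by
    intro A
    rw [image_comp_iso]
    have : (fun z => swp k m n (swp k m n z)) = id := by
      ext z
      rw [swp_apply hk, swp_apply hk, neg_add, neg_neg, pt_neg, add_assoc, pt_add]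
      simp [pt]
    rw [this, image_id]
  refine sym_of fun A => ⟨fun h => ?_, key A⟩
  have := key _ h
  rwa [hinv] at this

lemma swp_comp {k : ℕ} (m n : ℤ) :
    swp k m n '' (stdI k m n '' TT) = stdI k m n '' TT ∧
    swp k m n '' (stdI k m n '' PP) = stdI k m n '' (Sh '' PP) ∧
    swp k m n '' (stdI k m n '' (Sh '' PP)) = stdI k m n '' PP := by
  have h : ∀ A, swp k m n '' (stdI k m n '' A) = stdI k m n '' (HT '' A) := by
    intro A
    unfold swp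
    rw [img_mul, img_mul, img_inv_self]
  refine ⟨?_, ?_, ?_⟩
  · rw [h, HT_TT]
  · rw [h, HT_PP]
  · rw [h, HT_Sh_PP]

lemma T0_compTransitive : CompTransitive T0 := by
  rintro _ ⟨k, hk, m, n, hp, rfl⟩ C C' hC hC'
  rw [TT_comp] at hC hC'
  obtain ⟨h1, h2, h3⟩ := swp_comp (k := k) m n
  rcases hC with rfl | rfl <;> rcases hC' with rfl | rfl
  · exact ⟨1, sym_one _, img_one _, img_one _⟩
  · exact ⟨_, swp_mem hk m n, h1, h2⟩
  · exact ⟨_, swp_mem hk m n, h1, h3⟩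
  · exact ⟨1, sym_one _, img_one _, img_one _⟩

/-! ### no idiomeric tiling -/

/-- the family of components of the tiles. -/
def comps (𝒯 : Set (Set ℂ)) : Set (Set ℂ) := {C | ∃ A ∈ 𝒯, IsComponent C A}

lemma mem_comps {𝒯 : Set (Set ℂ)} (h : IsMonohedral TT 𝒯) {C : Set ℂ} :
    C ∈ comps 𝒯 ↔ ∃ f : ℂ ≃ᵢ ℂ, f '' TT ∈ 𝒯 ∧ C = f '' PP := by
  constructor
  · rintro ⟨A, hA, hC⟩
    obtain ⟨g, rfl⟩ := h.2 A hA
    rw [TT_comp] at hC
    rcases hC with rfl | rfl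
    · exact ⟨g, hA, rfl⟩
    · refine ⟨g * HT, ?_, ?_⟩
      · rw [img_mul, HT_TT]; exact hA
      · rw [img_mul, HT_PP]
  · rintro ⟨f, hf, rfl⟩
    exact ⟨_, hf, (TT_comp f _).mpr (Or.inl rfl)⟩

lemma comps_fam {𝒯 : Set (Set ℂ)} (h : IsMonohedral TT 𝒯) : PFam (comps 𝒯) := by
  refine ⟨fun z => ?_, ?_, ?_⟩
  · have : z ∈ ⋃₀ 𝒯 := by rw [h.1.cover]; trivial
    obtain ⟨A, hA, hz⟩ := this
    obtain ⟨g, rfl⟩ := h.2 A hA
    unfold TT at hz
    rw [image_union] at hz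
    rcases hz with hz | hz
    · exact ⟨_, ⟨_, hA, (TT_comp g _).mpr (Or.inl rfl)⟩, hz⟩
    · exact ⟨_, ⟨_, hA, (TT_comp g _).mpr (Or.inr rfl)⟩, hz⟩
  · rintro C ⟨A, hA, hC⟩ C' ⟨A', hA', hC'⟩ hne
    by_cases hAA : A = A'
    · subst hAA
      obtain ⟨g, rfl⟩ := h.2 A hA
      rw [TT_comp] at hC hC'
      have hd : Disjoint (g '' PP) (g '' (Sh '' PP)) :=
        (disjoint_image_iff g.injective).mpr PP_Sh_disjoint
      rcases hC with rfl | rfl <;> rcases hC' with rfl | rfl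
      · exact absurd rfl hne
      · exact hd.mono interior_subset interior_subset
      · exact hd.symm.mono interior_subset interior_subset
      · exact absurd rfl hne
    · have sub : ∀ {C A : Set ℂ}, IsComponent C A → C ⊆ A := by
        rintro C A ⟨x, -, rfl⟩
        exact connectedComponentIn_subset _ _
      exact (h.1.disjoint A hA A' hA' hAA).mono (interior_mono (sub hC)) (interior_mono (sub hC'))
  · rintro C hC
    obtain ⟨f, -, rfl⟩ := (mem_comps h).mp hC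
    exact ⟨f, rfl⟩

/-- equality of isometries from their values. -/
lemma sym_PP' {g : ℂ ≃ᵢ ℂ} (hg : g '' PP = PP) : g = 1 ∨ g = HH := by
  rcases sym_PP g hg with h | h
  · left; ext z; exact h z
  · right; ext z; exact h z

lemma PP_nonempty : PP.Nonempty := PP_connected.nonempty

lemma interior_PP_nonempty : (interior PP).Nonempty := by
  obtain ⟨z0, ρ, hρ, hb⟩ := exists_ball
  exact ⟨z0, (interior_maximal hb Metric.isOpen_ball) (Metric.mem_ball_self hρ)⟩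

lemma HH_TT_ne : HH '' TT ≠ TT := by
  intro h
  obtain ⟨w, hw⟩ := PP_nonempty
  have h1 : HH (Sh w) ∈ TT := by
    rw [← h]
    exact ⟨Sh w, Or.inr ⟨w, hw, rfl⟩, rfl⟩
  have hw' := (mem_PP_iff _).mp hw
  rcases h1 with h1 | ⟨w', h1, h2⟩
  · have := (mem_PP_iff _).mp h1
    rw [HH_apply, Sh_apply] at this
    have h3 : -(w + pt 9 9) + pt 3 3 = -w + pt (-6) (-6) := by
      rw [neg_add, pt_neg, add_assoc, pt_add]; norm_num
    rw [h3, cx_add, cy_add, cx_neg, cy_neg, cx_pt, cy_pt] at this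
    linarith [this.1, hw'.1]
  · have h4 := (mem_PP_iff _).mp h1
    rw [HH_apply, Sh_apply, Sh_apply] at h2
    have h3 : w' = -w + pt (-15) (-15) := by
      have : w' = -(w + pt 9 9) + pt 3 3 - pt 9 9 := by rw [← h2]; ring
      rw [this, sub_eq_add_neg, neg_add, pt_neg, add_assoc, add_assoc, pt_add, pt_add]; norm_num
    rw [h3, cx_add, cy_add, cx_neg, cy_neg, cx_pt, cy_pt] at h4
    linarith [h4.1, hw'.1]

lemma Sh_TT_ne : Sh '' TT ≠ TT := by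
  intro h
  obtain ⟨w, hw⟩ := PP_nonempty
  have h1 : Sh (Sh w) ∈ TT := by
    rw [← h]
    exact ⟨Sh w, Or.inr ⟨w, hw, rfl⟩, rfl⟩
  have hw' := (mem_PP_iff _).mp hw
  rcases h1 with h1 | ⟨w', h1, h2⟩
  · have := (mem_PP_iff _).mp h1
    rw [Sh_apply, Sh_apply, add_assoc, pt_add] at this
    rw [cx_add, cy_add, cx_pt, cy_pt] at this
    linarith [this.2.1, hw'.1]
  · have h4 := (mem_PP_iff _).mp h1
    have h3 : w' = w + pt 9 9 := by
      have := Sh.injective h2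
      rw [this, Sh_apply]
    rw [h3, cx_add, cy_add, cx_pt, cy_pt] at h4
    linarith [h4.2.1, hw'.1]

/-- two tiles sharing a component are equal. -/
lemma tile_eq {𝒯 : Set (Set ℂ)} (h : IsTiling 𝒯) {f : ℂ ≃ᵢ ℂ} {A B : Set ℂ} (hA : A ∈ 𝒯)
    (hB : B ∈ 𝒯) (h1 : f '' PP ⊆ A) (h2 : f '' PP ⊆ B) : A = B := by
  by_contra hne
  have hd := h.disjoint A hA B hB hne
  obtain ⟨z, hz⟩ := interior_PP_nonempty
  have hz' : f z ∈ interior (f '' PP) := by rw [interior_image]; exact ⟨z, hz, rfl⟩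
  exact Set.disjoint_left.mp hd (interior_mono h1 hz') (interior_mono h2 hz')

lemma PP_sub_TT : PP ⊆ TT := subset_union_left

/-- the half-turn about the centre of a component is not a symmetry. -/
lemma no_half {𝒯 : Set (Set ℂ)} (h : IsMonohedral TT 𝒯) {f : ℂ ≃ᵢ ℂ} (hf : f '' PP ∈ comps 𝒯) :
    f * HH * f⁻¹ ∉ symGroup 𝒯 := by
  intro hs
  obtain ⟨f', hf', he⟩ := (mem_comps h).mp hf
  have h1 : (f⁻¹ * f') '' PP = PP := by rw [img_mul, ← he, img_inv_self]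
  have h2 : f * HH * f⁻¹ = f' * HH * f'⁻¹ := by
    rcases sym_PP' h1 with h3 | h3
    · have : f' = f := by
        have := congrArg (f * ·) h3
        simpa [mul_inv_cancel_left] using this
      rw [this]
    · have : f' = f * HH := by
        have := congrArg (f * ·) h3
        simpa [mul_inv_cancel_left] using this
      rw [this]; group
  rw [h2] at hs
  have h3 := (mem_sym hs _).mpr hf'
  have h4 : (f' * HH * f'⁻¹) '' (f' '' TT) = f' '' (HH '' TT) := by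
    rw [img_mul, img_mul, img_inv_self]
  rw [h4] at h3
  have h5 : f' '' (HH '' TT) = f' '' TT := by
    refine tile_eq h.1 (f := f') h3 hf' ?_ (image_mono PP_sub_TT)
    apply image_mono
    rw [← HH_PP]; exact image_mono PP_sub_TT
  exact HH_TT_ne (f'.injective.image_injective h5)

/-- the swap is a symmetry. -/
lemma swap_mem {𝒯 : Set (Set ℂ)} (hc : CompTransitive 𝒯) {f : ℂ ≃ᵢ ℂ} (hf : f '' TT ∈ 𝒯) :
    f * HT * f⁻¹ ∈ symGroup 𝒯 := by
  obtain ⟨s, hs, h1, h2⟩ := hc _ hf (f '' PP) (f '' (Sh '' PP)) ((TT_comp f _).mpr (Or.inl rfl))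
    ((TT_comp f _).mpr (Or.inr rfl))
  have h3 : (HT⁻¹ * (f⁻¹ * s * f)) '' PP = PP := by
    rw [img_mul, img_mul, img_mul, h2, img_inv_self, ← HT_PP, img_inv_self]
  rcases sym_PP' h3 with h4 | h4
  · have : s = f * HT * f⁻¹ := by
      have h5 : f⁻¹ * s * f = HT := by
        have := congrArg (HT * ·) h4
        simpa [mul_inv_cancel_left] using this
      rw [← h5]; group
    rw [← this]; exact hs
  · exfalso
    have h5 : f⁻¹ * s * f = HT * HH := by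
      have := congrArg (HT * ·) h4
      simpa [mul_inv_cancel_left] using this
    have h6 : HT * HH = Sh := by
      ext z
      rw [IsometryEquiv.mul_apply, HT_apply, HH_apply, Sh_apply, neg_add, neg_neg, pt_neg,
        add_assoc, pt_add]; norm_num
    have h7 : (f⁻¹ * s * f) '' TT = TT := by
      rw [img_mul, img_mul, h1, img_inv_self]
    rw [h5, h6] at h7
    exact Sh_TT_ne h7

/-! ### consequences of the rigidity rule -/

/-- rotation by `-60` degrees. -/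
def Rm : ℂ ≃ᵢ ℂ := act 5 false 0 0

lemma Rm_apply (z : ℂ) : Rm z = zt ^ 5 * z := by
  rw [Rm, act_apply, cj_false]
  simp [pt]

lemma Rm_pow (n : ℕ) (z : ℂ) : (Rm ^ n) z = (zt ^ 5) ^ n * z := by
  induction n generalizing z with
  | zero => simp
  | succ n ih =>
    rw [pow_succ, IsometryEquiv.mul_apply, ih, Rm_apply]; ring

lemma Rm_five (z : ℂ) : (Rm ^ 5) z = zt * z := by
  rw [Rm_pow, ← pow_mul, show 5 * 5 = 6 * 4 + 1 by norm_num, pow_add, pow_mul, zt_six]; ring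

lemma Rm_four (z : ℂ) : (Rm ^ 4) z = zt * (zt * z) := by
  rw [Rm_pow, ← pow_mul, show 5 * 4 = 6 * 3 + 2 by norm_num, pow_add, pow_mul, zt_six]; ring

lemma Rm_three (z : ℂ) : (Rm ^ 3) z = -z := by
  rw [Rm_pow, ← pow_mul, show 5 * 3 = 6 * 2 + 3 by norm_num, pow_add, pow_mul, zt_six, zt_cube]
  ring

section

variable {𝒞 : Set (Set ℂ)}

lemma Q_Rm (h : PFam 𝒞) {g : ℂ ≃ᵢ ℂ} (hg : g '' PP ∈ 𝒞) : (g * Rm) '' PP ∈ 𝒞 := by
  rw [img_mul]
  exact rule (h.transport g) hg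

lemma Q_Rm_pow (h : PFam 𝒞) {g : ℂ ≃ᵢ ℂ} (hg : g '' PP ∈ 𝒞) (n : ℕ) : (g * Rm ^ n) '' PP ∈ 𝒞 := by
  induction n with
  | zero => simpa using hg
  | succ n ih => rw [pow_succ, ← mul_assoc]; exact Q_Rm h ih

lemma Q_HH {g : ℂ ≃ᵢ ℂ} (hg : g '' PP ∈ 𝒞) : (g * HH) '' PP ∈ 𝒞 := by
  rw [img_mul, HH_PP]; exact hg

/-- translation by `V' = 3 + 3ζ`. -/
def tr1 : ℂ ≃ᵢ ℂ := HH * Rm ^ 3
/-- translation by `ζV'`. -/
def tr2 : ℂ ≃ᵢ ℂ := Rm ^ 5 * HH * Rm ^ 3 * Rm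

lemma tr1_apply (z : ℂ) : tr1 z = z + pt 3 3 := by
  rw [tr1, IsometryEquiv.mul_apply, Rm_three, HH_apply, neg_neg]

lemma tr2_apply (z : ℂ) : tr2 z = z + pt (-3) 6 := by
  rw [tr2, IsometryEquiv.mul_apply, IsometryEquiv.mul_apply, IsometryEquiv.mul_apply, Rm_three,
    Rm_five, HH_apply, Rm_apply, mul_add, zt_mul_pt]
  have : zt * -(-(zt ^ 5 * z)) = zt ^ 6 * z := by ring
  rw [this, zt_six, one_mul]; norm_num

lemma Q_tr1 (h : PFam 𝒞) {g : ℂ ≃ᵢ ℂ} (hg : g '' PP ∈ 𝒞) : (g * tr1) '' PP ∈ 𝒞 := by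
  rw [tr1, ← mul_assoc]
  exact Q_Rm_pow h (Q_HH hg) 3

lemma Q_tr2 (h : PFam 𝒞) {g : ℂ ≃ᵢ ℂ} (hg : g '' PP ∈ 𝒞) : (g * tr2) '' PP ∈ 𝒞 := by
  have := Q_Rm h (Q_Rm_pow h (Q_HH (Q_Rm_pow h hg 5)) 3)
  rw [tr2]
  simpa only [mul_assoc] using this

end

/-- transitivity on components. -/
lemma comps_trans {T : Set ℂ} {𝒯 : Set (Set ℂ)} (h : IsIdiomeric T 𝒯) (hT : T = TT) {C C' : Set ℂ}
    (hC : C ∈ comps 𝒯) (hC' : C' ∈ comps 𝒯) : ∃ g ∈ symGroup 𝒯, g '' C = C' := by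
  subst hT
  obtain ⟨f, hf, rfl⟩ := (mem_comps h.1).mp hC
  obtain ⟨f', hf', rfl⟩ := (mem_comps h.1).mp hC'
  obtain ⟨g, hg, hgf⟩ := h.2.1 _ hf _ hf'
  have h1 : IsComponent (g '' (f '' PP)) (f' '' TT) := by
    rw [← hgf, ← img_mul, ← img_mul]
    exact (TT_comp _ _).mpr (Or.inl rfl)
  obtain ⟨k, hk, -, hk2⟩ := h.2.2 _ hf' _ _ h1 ((TT_comp f' _).mpr (Or.inl rfl))
  exact ⟨k * g, sym_mul hk hg, by rw [img_mul]; exact hk2⟩

lemma rel1 : HT * (tr1 * tr1) = tr1 * tr1 * Rm ^ 3 := by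
  ext z
  simp only [IsometryEquiv.mul_apply, HT_apply, tr1_apply, Rm_three, add_assoc, neg_add, pt_neg,
    pt_add]
  norm_num

lemma rel2 : tr2 * Rm ^ 3 * Rm ^ 5 = Rm ^ 5 * HH := by
  ext z
  simp only [IsometryEquiv.mul_apply, HH_apply, tr2_apply, Rm_three, Rm_five, mul_add, zt_mul_pt]
  norm_num

lemma rel3 : tr2 * HH * tr1 * Rm ^ 4 = tr1 * Rm ^ 4 * HH := by
  ext z
  simp only [IsometryEquiv.mul_apply, HH_apply, tr1_apply, tr2_apply, Rm_four, mul_add, zt_mul_pt,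
    neg_add, add_assoc, pt_neg, pt_add]
  norm_num

theorem no_idiomeric (𝒯 : Set (Set ℂ)) : ¬ IsIdiomeric TT 𝒯 := by
  intro h
  have hfam := comps_fam h.1
  obtain ⟨A, hA, -⟩ : ∃ A ∈ 𝒯, (0 : ℂ) ∈ A := by
    have : (0 : ℂ) ∈ ⋃₀ 𝒯 := by rw [h.1.1.cover]; trivial
    simpa using this
  obtain ⟨f, rfl⟩ := h.1.2 A hA
  have hf : f '' PP ∈ comps 𝒯 := ⟨_, hA, (TT_comp f _).mpr (Or.inl rfl)⟩
  have hswap := swap_mem h.2.2 hA
  -- two components
  have hC1 : (f * tr1 * tr1 : ℂ ≃ᵢ ℂ) '' PP ∈ comps 𝒯 := Q_tr1 hfam (Q_tr1 hfam hf)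
  have hC2 : (f * tr1 * tr1 * tr2 : ℂ ≃ᵢ ℂ) '' PP ∈ comps 𝒯 := Q_tr2 hfam hC1
  obtain ⟨g, hg, hg1⟩ := comps_trans h rfl hC1 hC2
  have h1 : ((f * tr1 * tr1 * tr2)⁻¹ * g * (f * tr1 * tr1) : ℂ ≃ᵢ ℂ) '' PP = PP := by
    rw [img_mul, img_mul, hg1, img_inv_self]
  rcases sym_PP' h1 with h2 | h2
  · -- translation
    have hgeq : g = f * tr1 * tr1 * tr2 * (f * tr1 * tr1)⁻¹ := by
      have : (f * tr1 * tr1 * tr2) * ((f * tr1 * tr1 * tr2)⁻¹ * g * (f * tr1 * tr1)) *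
          (f * tr1 * tr1)⁻¹ = (f * tr1 * tr1 * tr2) * 1 * (f * tr1 * tr1)⁻¹ := by rw [h2]
      rw [mul_one] at this
      rw [← this]; group
    have hC3 : (f * tr1 * tr1 * Rm ^ 5 : ℂ ≃ᵢ ℂ) '' PP ∈ comps 𝒯 := Q_Rm_pow hfam hC1 5
    refine no_half h.1 hC3 ?_
    have hprod := sym_mul hg hswap
    have e1 : HT = tr1 * tr1 * Rm ^ 3 * (tr1 * tr1)⁻¹ := by rw [← rel1]; group
    have e2 : tr2 * Rm ^ 3 = Rm ^ 5 * HH * (Rm ^ 5)⁻¹ := by rw [← rel2]; group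
    have : g * (f * HT * f⁻¹) =
        f * tr1 * tr1 * Rm ^ 5 * HH * (f * tr1 * tr1 * Rm ^ 5)⁻¹ := by
      have e3 : g * (f * HT * f⁻¹) = f * tr1 * tr1 * (tr2 * Rm ^ 3) * (f * tr1 * tr1)⁻¹ := by
        rw [hgeq, e1]; group
      rw [e3, e2]; group
    rw [← this]; exact hprod
  · -- half-turn
    have hgeq : g = f * tr1 * tr1 * tr2 * HH * (f * tr1 * tr1)⁻¹ := by
      rw [← h2]; group
    have hC3 : (f * tr1 * tr1 * tr1 * Rm ^ 4 : ℂ ≃ᵢ ℂ) '' PP ∈ comps 𝒯 :=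
      Q_Rm_pow hfam (Q_tr1 hfam hC1) 4
    refine no_half h.1 hC3 ?_
    have e1 : tr2 * HH = tr1 * Rm ^ 4 * HH * (tr1 * Rm ^ 4)⁻¹ := by rw [← rel3]; group
    have : g = f * tr1 * tr1 * tr1 * Rm ^ 4 * HH * (f * tr1 * tr1 * tr1 * Rm ^ 4)⁻¹ := by
      have e3 : g = f * tr1 * tr1 * (tr2 * HH) * (f * tr1 * tr1)⁻¹ := by
        rw [hgeq]; group
      rw [e3, e1]; group
    rw [← this]; exact hg

/-! ### the prototile and the main result -/

lemma disk_image (g : ℂ ≃ᵢ ℂ) {A : Set ℂ} (h : IsClosedDisk A) : IsClosedDisk (g '' A) := by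
  obtain ⟨e⟩ := h
  exact ⟨(g.toHomeomorph.image A).symm.trans e⟩

lemma TT_prototile : IsPrototile 2 TT := by
  refine ⟨![PP, Sh '' PP], ?_, ?_, ?_⟩
  · intro i
    fin_cases i
    · exact PP_disk
    · exact disk_image Sh PP_disk
  · intro i j hij
    fin_cases i <;> fin_cases j
    · exact absurd rfl hij
    · exact PP_Sh_disjoint
    · exact PP_Sh_disjoint.symm
    · exact absurd rfl hij
  · ext z
    simp [TT, Fin.exists_fin_two]

lemma T0_monohedral : IsMonohedral TT T0 :=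
  ⟨T0_tiling, by rintro _ ⟨k, -, m, n, -, rfl⟩; exact ⟨_, rfl⟩⟩

theorem T0_pseudo : IsPseudoIdiomeric TT T0 :=
  ⟨T0_monohedral, fun h => no_idiomeric T0 ⟨T0_monohedral, h, T0_compTransitive⟩,
    T0_compTransitive⟩

theorem main : ∃ T : Set ℂ, IsPrototile 2 T ∧ (∃ 𝒯, IsPseudoIdiomeric T 𝒯) ∧
    ¬ ∃ 𝒯, IsIdiomeric T 𝒯 :=
  ⟨TT, TT_prototile, ⟨T0, T0_pseudo⟩, fun ⟨𝒯, h⟩ => no_idiomeric 𝒯 h⟩

end

end Pool.Agent.Helper43.Idio
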