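import Pool.Agent.Helper43.IdioFam

/-!
The rigidity rule: a copy of the tile forces its rotation by `-60` degrees about the acute vertex.
-/

namespace Pool.Agent.Helper43.Idio

open Complex Set Filter Topology

noncomputable section

/-- union of the cells of a list. -/
def XL (L : List (ℤ × ℤ)) : Set ℂ := XX {c | c ∈ L}

lemma PP_XL : PP = XL Pl := rfl

lemma image_XL {L : List (ℤ × ℤ)} (hL : ∀ c ∈ L, ok c) (k : ℕ) (m : Bool) (p q : ℤ) :
    act k m p q '' XL L = XL (L.map (actC k m p q)) := by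
  unfold XL
  rw [image_XX_act (S := {c | c ∈ L}) hL]
  congr 1
  ext c; simp

lemma XL_congr {L M : List (ℤ × ℤ)} (h1 : ∀ c ∈ L, c ∈ M) (h2 : ∀ c ∈ M, c ∈ L) : XL L = XL M := by
  unfold XL; congr 1; ext c; exact ⟨h1 c, h2 c⟩

/-- one application of the alignment theorem. -/
lemma step {𝒞 : Set (Set ℂ)} (h : PFam 𝒞) (Ls : List (List (ℤ × ℤ)))
    (hall : ∀ L ∈ Ls, (∀ c ∈ L, ok c) ∧ XL L ∈ 𝒞)
    (hfive : ∀ c ∈ ([(-1, 2), (-2, 1), (-1, -1), (1, -2), (2, -1)] : List (ℤ × ℤ)), ∃ L ∈ Ls, c ∈ L)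
    (h11 : ∀ L ∈ Ls, (1, 1) ∉ L) :
    ∃ k < 6, ∃ m, ∃ p q : ℤ, XL (Pl.map (actC k m p q)) ∈ 𝒞 ∧ (∃ c ∈ Pl, actC k m p q c = (1, 1)) ∧
      ∀ L ∈ Ls, ∀ c ∈ Pl.map (actC k m p q), c ∉ L := by
  obtain ⟨C, hC, hf⟩ := align0 h (fun c hc => by
    obtain ⟨L, hL, hcL⟩ := hfive c hc
    exact ⟨{c | c ∈ L}, (hall L hL).1, (hall L hL).2, hcL, h11 L hL⟩)
  obtain ⟨g, hg⟩ := h.cong C hC
  obtain ⟨k, hk, m, p, q, hact, hc⟩ := hf g hg
  have hCeq : C = XL (Pl.map (actC k m p q)) := by
    rw [← image_XL Pl_ok, ← PP_XL, ← hg]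
    ext w; simp only [mem_image, hact]
  rw [hCeq] at hC
  refine ⟨k, hk, m, p, q, hC, hc, ?_⟩
  intro L hL c hcT hcL
  obtain ⟨c0, hc0, hc01⟩ := hc
  have hne : XL (Pl.map (actC k m p q)) ≠ XL L := by
    intro heq
    have hokT : ∀ c ∈ {c | c ∈ Pl.map (actC k m p q)}, ok c := by
      intro c hc
      obtain ⟨c', hc', rfl⟩ := List.mem_map.mp hc
      exact ok_actC (Pl_ok c' hc') k m p q
    have := XX_injective hokT (hall L hL).1 heq
    have h1 : ((1, 1) : ℤ × ℤ) ∈ {c | c ∈ Pl.map (actC k m p q)} :=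
      List.mem_map.mpr ⟨c0, hc0, hc01⟩
    rw [this] at h1
    exact h11 L hL h1
  have := disjoint_cells (h.disj _ hC _ (hall L hL).2 hne)
  exact Set.disjoint_left.mp this hcT hcL

/-- the placement of the tile whose cell `c` is moved to `(1, 1)`. -/
def place (k : ℕ) (m : Bool) (c : ℤ × ℤ) : List (ℤ × ℤ) :=
  Pl.map (fun c' => ((linC k m c').1 + (1 - (linC k m c).1), (linC k m c').2 + (1 - (linC k m c).2)))

lemma place_eq {k : ℕ} {m : Bool} {p q : ℤ} {c : ℤ × ℤ} (h : actC k m p q c = (1, 1)) :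
    Pl.map (actC k m p q) = place k m c := by
  unfold place
  apply List.map_congr_left
  intro c' _
  simp only [actC, Prod.mk.injEq] at h ⊢
  omega

lemma place_int {k : ℕ} {m : Bool} {p q : ℤ} {c : ℤ × ℤ} (h : actC k m p q c = (1, 1)) :
    (1 - (linC k m c).1) % 3 = 0 ∧ (1 - (linC k m c).2) % 3 = 0 := by
  simp only [actC, Prod.mk.injEq] at h
  omega

def S1 : List (ℤ × ℤ) := Pl.map (actC 2 false 2 0)
def R1 : List (ℤ × ℤ) := Pl.map (actC 1 false 2 0)
def W1 : List (ℤ × ℤ) := Pl.map (actC 5 false 0 0)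
def W0 : List (ℤ × ℤ) := Pl.map (actC 3 false 0 2)
def S2 : List (ℤ × ℤ) := Pl.map (actC 1 false 1 (-2))
def W2 : List (ℤ × ℤ) := W0.map (actC 1 false 1 (-2))

/-- first finite check -/
def chk1 : Bool :=
  (List.range 6).all fun k => [false, true].all fun m => Pl.all fun c =>
    !(decide ((1 - (linC k m c).1) % 3 = 0 ∧ (1 - (linC k m c).2) % 3 = 0)) ||
      ((place k m c).any fun d => S1.contains d) ||
      (((place k m c).all fun d => R1.contains d) && (R1.all fun d => (place k m c).contains d)) ||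
      (((place k m c).all fun d => W1.contains d) && (W1.all fun d => (place k m c).contains d))

/-- second finite check -/
def chk2 : Bool :=
  (List.range 6).all fun k => [false, true].all fun m => Pl.all fun c =>
    !(decide ((1 - (linC k m c).1) % 3 = 0 ∧ (1 - (linC k m c).2) % 3 = 0)) ||
      ((place k m c).any fun d => S2.contains d || W2.contains d)

set_option maxRecDepth 100000 in
lemma chk1_true : chk1 = true := by decide +kernel

set_option maxRecDepth 100000 in
lemma chk2_true : chk2 = true := by decide +kernel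


lemma ok_map {L : List (ℤ × ℤ)} (hL : ∀ c ∈ L, ok c) (k : ℕ) (m : Bool) (p q : ℤ) :
    ∀ c ∈ L.map (actC k m p q), ok c := by
  intro c hc
  obtain ⟨c', hc', rfl⟩ := List.mem_map.mp hc
  exact ok_actC (hL c' hc') k m p q

lemma contains_all {L M : List (ℤ × ℤ)} (h : (L.all fun d => M.contains d) = true) :
    ∀ c ∈ L, c ∈ M := by
  intro c hc
  have := List.all_eq_true.mp h c hc
  simpa using this

lemma S1_ok : ∀ c ∈ S1, ok c := ok_map Pl_ok _ _ _ _
lemma R1_ok : ∀ c ∈ R1, ok c := ok_map Pl_ok _ _ _ _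
lemma W1_ok : ∀ c ∈ W1, ok c := ok_map Pl_ok _ _ _ _
lemma W0_ok : ∀ c ∈ W0, ok c := ok_map Pl_ok _ _ _ _
lemma S2_ok : ∀ c ∈ S2, ok c := ok_map Pl_ok _ _ _ _
lemma W2_ok : ∀ c ∈ W2, ok c := ok_map W0_ok _ _ _ _

/-- the rigidity rule. -/
theorem rule {𝒞 : Set (Set ℂ)} (h : PFam 𝒞) (hP : PP ∈ 𝒞) :
    act 5 false 0 0 '' PP ∈ 𝒞 := by
  have h1 : PFam {C | act 4 false 0 2 '' C ∈ 𝒞} := h.transport _
  have hS1 : XL S1 ∈ {C | act 4 false 0 2 '' C ∈ 𝒞} := by
    change act 4 false 0 2 '' XL S1 ∈ 𝒞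
    rw [image_XL S1_ok]
    have : (S1.map (actC 4 false 0 2)) = Pl := by decide
    rw [this]; exact hP
  obtain ⟨k, hk, m, p, q, hT, ⟨c, hc, hc1⟩, hdisj⟩ := step h1 [S1]
    (by intro L hL; rw [List.mem_singleton.mp hL]; exact ⟨S1_ok, hS1⟩)
    (by decide) (by decide)
  have hck := chk1_true
  unfold chk1 at hck
  have hck1 := List.all_eq_true.mp hck k (List.mem_range.mpr hk)
  have hck2 := List.all_eq_true.mp hck1 m (by cases m <;> decide)
  have hck3 := List.all_eq_true.mp hck2 c hc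
  rw [place_eq hc1] at hT
  rw [Bool.or_eq_true, Bool.or_eq_true, Bool.or_eq_true] at hck3
  rcases hck3 with ((h0 | h0) | h0) | h0
  · exfalso
    have hi := place_int hc1
    rw [decide_eq_true hi] at h0
    simp at h0
  · exfalso
    obtain ⟨d, hd, hdS⟩ := List.any_eq_true.mp h0
    rw [← place_eq hc1] at hd
    exact hdisj S1 (by simp) d hd (by simpa using hdS)
  · rw [Bool.and_eq_true] at h0
    rw [XL_congr (contains_all h0.1) (contains_all h0.2)] at hT
    have hT' : act 4 false 0 2 '' XL R1 ∈ 𝒞 := hT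
    rw [image_XL R1_ok] at hT'
    have : (R1.map (actC 4 false 0 2)) = Pl.map (actC 5 false 0 0) := by decide
    rw [this] at hT'
    rw [PP_XL, image_XL Pl_ok]
    exact hT'
  · exfalso
    rw [Bool.and_eq_true] at h0
    rw [XL_congr (contains_all h0.1) (contains_all h0.2)] at hT
    have hT' : act 4 false 0 2 '' XL W1 ∈ 𝒞 := hT
    rw [image_XL W1_ok] at hT'
    have : (W1.map (actC 4 false 0 2)) = W0 := by decide
    rw [this] at hT'
    have h2 : PFam {C | act 5 false 1 1 '' C ∈ 𝒞} := h.transport _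
    have hS2 : XL S2 ∈ {C | act 5 false 1 1 '' C ∈ 𝒞} := by
      change act 5 false 1 1 '' XL S2 ∈ 𝒞
      rw [image_XL S2_ok]
      have : (S2.map (actC 5 false 1 1)) = Pl := by decide
      rw [this]; exact hP
    have hW2 : XL W2 ∈ {C | act 5 false 1 1 '' C ∈ 𝒞} := by
      change act 5 false 1 1 '' XL W2 ∈ 𝒞
      rw [image_XL W2_ok]
      have : (W2.map (actC 5 false 1 1)) = W0 := by decide
      rw [this]; exact hT'
    obtain ⟨k, hk, m, p, q, hT, ⟨c, hc, hc1⟩, hdisj⟩ := step h2 [S2, W2]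
      (by
        intro L hL
        simp only [List.mem_cons, List.not_mem_nil, or_false] at hL
        rcases hL with rfl | rfl
        · exact ⟨S2_ok, hS2⟩
        · exact ⟨W2_ok, hW2⟩)
      (by decide) (by decide)
    have hck := chk2_true
    unfold chk2 at hck
    have hck1 := List.all_eq_true.mp hck k (List.mem_range.mpr hk)
    have hck2 := List.all_eq_true.mp hck1 m (by cases m <;> decide)
    have hck3 := List.all_eq_true.mp hck2 c hc
    rw [Bool.or_eq_true] at hck3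
    rcases hck3 with h0 | h0
    · have hi := place_int hc1
      rw [decide_eq_true hi] at h0
      simp at h0
    · obtain ⟨d, hd, hdS⟩ := List.any_eq_true.mp h0
      rw [← place_eq hc1] at hd
      rw [Bool.or_eq_true] at hdS
      rcases hdS with hdS | hdS
      · exact hdisj S2 (by simp) d hd (by simpa using hdS)
      · exact hdisj W2 (by simp) d hd (by simpa using hdS)

end

end Pool.Agent.Helper43.Idio
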