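import Pool.Agent.Helper43.IdioRule

/-!
The standard family of copies of the tile and the symmetry group of the tile.
-/

namespace Pool.Agent.Helper43.Idio

open Complex Set Filter Topology

noncomputable section

/-- the standard placements. -/
def stdI (k : ℕ) (m n : ℤ) : ℂ ≃ᵢ ℂ := act k false (3 * (m - n)) (3 * (m + 2 * n))

/-- the standard placements on cells. -/
def stdC (k : ℕ) (m n : ℤ) (c : ℤ × ℤ) : ℤ × ℤ := actC k false (3 * (m - n)) (3 * (m + 2 * n)) c

/-- residue table check (covering). -/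
def chkCov : Bool :=
  [0, 1, 2, 3, 4, 5, 6, 7, 8].all fun r1 : ℤ => [0, 1, 2, 3, 4, 5, 6, 7, 8].all fun r2 : ℤ =>
    [0, 1, 2].all fun e : ℤ => !(decide (r1 % 3 = r2 % 3 ∧ r1 % 3 ≠ 0)) ||
      [0, 1, 2].any fun k : ℕ => Pl.any fun d =>
        decide ((linC k false d).1 % 9 = r1 ∧ (linC k false d).2 % 9 = r2 ∧
          ((linC k false d).1 / 9 - (linC k false d).2 / 9) % 3 = e)

set_option maxRecDepth 100000 in
lemma chkCov_true : chkCov = true := by decide +kernel

/-- residue table check (uniqueness). -/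
def chkUni : Bool :=
  [0, 1, 2].all fun k1 : ℕ => [0, 1, 2].all fun k2 : ℕ => Pl.all fun d1 => Pl.all fun d2 =>
    !(decide (((linC k1 false d1).1 - (linC k2 false d2).1) % 9 = 0 ∧
      ((linC k1 false d1).2 - (linC k2 false d2).2) % 9 = 0 ∧
      (((linC k1 false d1).1 - (linC k2 false d2).1) / 9 -
        ((linC k1 false d1).2 - (linC k2 false d2).2) / 9) % 3 = 0)) ||
      decide (k1 = k2 ∧ d1 = d2)

set_option maxRecDepth 100000 in
lemma chkUni_true : chkUni = true := by decide +kernel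

lemma std_cover {c : ℤ × ℤ} (hc : ok c) : ∃ k < 3, ∃ m n : ℤ, ∃ d ∈ Pl, stdC k m n d = c := by
  obtain ⟨a, b⟩ := c
  have h := chkCov_true
  unfold chkCov at h
  have ha : (a % 9) ∈ ([0, 1, 2, 3, 4, 5, 6, 7, 8] : List ℤ) := by
    simp only [List.mem_cons, List.not_mem_nil, or_false]; omega
  have hb : (b % 9) ∈ ([0, 1, 2, 3, 4, 5, 6, 7, 8] : List ℤ) := by
    simp only [List.mem_cons, List.not_mem_nil, or_false]; omega
  have he : ((a / 9 - b / 9) % 3) ∈ ([0, 1, 2] : List ℤ) := by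
    simp only [List.mem_cons, List.not_mem_nil, or_false]; omega
  have h1 := List.all_eq_true.mp h _ ha
  have h2 := List.all_eq_true.mp h1 _ hb
  have h3 := List.all_eq_true.mp h2 _ he
  rw [Bool.or_eq_true] at h3
  rcases h3 with h3 | h3
  · exfalso
    have : (a % 9 % 3 = b % 9 % 3 ∧ a % 9 % 3 ≠ 0) := by
      simp only [ok] at hc; omega
    rw [decide_eq_true this] at h3
    simp at h3
  · obtain ⟨k, hk, hk2⟩ := List.any_eq_true.mp h3
    obtain ⟨d, hd, hd2⟩ := List.any_eq_true.mp hk2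
    obtain ⟨e1, e2, e3⟩ := of_decide_eq_true hd2
    have hk3 : k < 3 := by
      simp only [List.mem_cons, List.not_mem_nil, or_false] at hk; omega
    generalize hu : (linC k false d).1 = u at *
    generalize hv : (linC k false d).2 = v at *
    refine ⟨k, hk3, (a / 9 - u / 9) + ((b / 9 - v / 9) - (a / 9 - u / 9)) / 3,
      ((b / 9 - v / 9) - (a / 9 - u / 9)) / 3, d, hd, ?_⟩
    simp only [stdC, actC, hu, hv, Prod.mk.injEq]
    omega

lemma std_unique {k1 k2 : ℕ} (h1 : k1 < 3) (h2 : k2 < 3) {m1 n1 m2 n2 : ℤ} {d1 d2 : ℤ × ℤ}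
    (hd1 : d1 ∈ Pl) (hd2 : d2 ∈ Pl) (h : stdC k1 m1 n1 d1 = stdC k2 m2 n2 d2) :
    k1 = k2 ∧ d1 = d2 ∧ m1 = m2 ∧ n1 = n2 := by
  have hc := chkUni_true
  unfold chkUni at hc
  have g1 := List.all_eq_true.mp hc k1 (by
    simp only [List.mem_cons, List.not_mem_nil, or_false]; omega)
  have g2 := List.all_eq_true.mp g1 k2 (by
    simp only [List.mem_cons, List.not_mem_nil, or_false]; omega)
  have g3 := List.all_eq_true.mp g2 d1 hd1
  have g4 := List.all_eq_true.mp g3 d2 hd2
  simp only [stdC, actC, Prod.mk.injEq] at h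
  rw [Bool.or_eq_true] at g4
  rcases g4 with g4 | g4
  · exfalso
    rw [decide_eq_true] at g4
    · simp at g4
    · omega
  · obtain ⟨e1, e2⟩ := of_decide_eq_true g4
    subst e1; subst e2
    refine ⟨rfl, rfl, ?_⟩
    omega

/-- the standard family. -/
def P0 : Set (Set ℂ) := {C | ∃ k < 3, ∃ m n : ℤ, C = stdI k m n '' PP}

lemma stdI_image (k : ℕ) (m n : ℤ) : stdI k m n '' PP = XL (Pl.map (stdC k m n)) := by
  unfold stdI
  rw [PP_XL, image_XL Pl_ok]
  rfl

lemma stdC_ok (k : ℕ) (m n : ℤ) {L : List (ℤ × ℤ)} (hL : ∀ c ∈ L, ok c) :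
    ∀ c ∈ L.map (stdC k m n), ok c := by
  intro c hc
  obtain ⟨c', hc', rfl⟩ := List.mem_map.mp hc
  exact ok_actC (hL c' hc') _ _ _ _

theorem P0_fam : PFam P0 := by
  refine ⟨fun z => ?_, ?_, ?_⟩
  · obtain ⟨c, hc, hz⟩ := exists_tri z
    obtain ⟨k, hk, m, n, d, hd, hdc⟩ := std_cover hc
    refine ⟨_, ⟨k, hk, m, n, rfl⟩, ?_⟩
    rw [stdI_image]
    exact ⟨c, List.mem_map.mpr ⟨d, hd, hdc⟩, hz⟩
  · rintro _ ⟨k1, hk1, m1, n1, rfl⟩ _ ⟨k2, hk2, m2, n2, rfl⟩ hne
    rw [stdI_image, stdI_image] at *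
    refine disjoint_interior_XX (stdC_ok _ _ _ Pl_ok) (stdC_ok _ _ _ Pl_ok) ?_
    rw [Set.disjoint_left]
    intro c hc1 hc2
    obtain ⟨d1, hd1, e1⟩ := List.mem_map.mp hc1
    obtain ⟨d2, hd2, e2⟩ := List.mem_map.mp hc2
    obtain ⟨g1, -, g2, g3⟩ := std_unique hk1 hk2 hd1 hd2 (e1.trans e2.symm)
    subst g1; subst g2; subst g3
    exact hne rfl
  · rintro _ ⟨k, hk, m, n, rfl⟩
    exact ⟨stdI k m n, rfl⟩

lemma PP_mem_P0 : PP ∈ P0 := by
  refine ⟨0, by norm_num, 0, 0, ?_⟩
  have : ∀ z, stdI 0 0 0 z = z := fun z => by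
    simp [stdI, act_apply, pt]
  ext z
  simp only [mem_image, this, exists_eq_right]

/-! ### symmetries of the tile -/

lemma cj_pow (m : Bool) (z : ℂ) (k : ℕ) : cj m (z ^ k) = cj m z ^ k := by
  induction k with
  | zero => simp [cj]
  | succ k ih => rw [pow_succ, pow_succ, cj_mul, ih]

lemma isU_pow {z : ℂ} (h : isU z) (k : ℕ) : isU (z ^ k) := by
  induction k with
  | zero => simpa using isU_one
  | succ k ih => rw [pow_succ]; exact isU_mul ih h

lemma isLat_add {z w : ℂ} (hz : isLat z) (hw : isLat w) : isLat (z + w) := by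
  obtain ⟨p, q, rfl⟩ := hz
  obtain ⟨p', q', rfl⟩ := hw
  exact ⟨p + p', q + q', ext_c (by rw [cx_add]; simp) (by rw [cy_add]; simp)⟩

lemma sym_grid (g : ℂ ≃ᵢ ℂ) (hg : g '' PP = PP) :
    ∃ k < 6, ∃ m, ∃ p q : ℤ, ∀ z, g z = act k m p q z := by
  have hgs : g.symm '' PP = PP := by
    conv_lhs => rw [← hg, ← image_comp]
    simp
  have h1 : PFam {C | g.symm '' C ∈ P0} := P0_fam.transport g.symm
  have hP1 : PP ∈ {C | g.symm '' C ∈ P0} := by
    change g.symm '' PP ∈ P0
    rw [hgs]; exact PP_mem_P0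
  have h2 : PFam {C | act 4 false 0 2 '' C ∈ {C | g.symm '' C ∈ P0}} := h1.transport _
  have hS1 : XL S1 ∈ {C | act 4 false 0 2 '' C ∈ {C | g.symm '' C ∈ P0}} := by
    change act 4 false 0 2 '' XL S1 ∈ {C | g.symm '' C ∈ P0}
    rw [image_XL S1_ok]
    have : (S1.map (actC 4 false 0 2)) = Pl := by decide
    rw [this]; exact hP1
  have hfive : ∀ c ∈ ([(-1, 2), (-2, 1), (-1, -1), (1, -2), (2, -1)] : List (ℤ × ℤ)), c ∈ S1 := by
    decide
  obtain ⟨C, hC, hf⟩ := align0 h2 (fun c hc =>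
    ⟨{c | c ∈ S1}, S1_ok, hS1, hfive c hc, by
      change ¬ ((1, 1) ∈ S1); decide⟩)
  obtain ⟨k0, hk0, m0, n0, hC0⟩ := hC
  set A := stdI k0 m0 n0 with hA
  obtain ⟨k, hk, m, p, q, hact, -⟩ := hf ((A.trans g).trans (act 4 false 0 2).symm) (by
    have : ((A.trans g).trans (act 4 false 0 2).symm) '' PP =
      (act 4 false 0 2).symm '' (g '' (A '' PP)) := by
      rw [← image_comp, ← image_comp]; rfl
    rw [this, ← hC0, ← image_comp, ← image_comp, ← image_comp]
    simp)
  have hrel : ∀ z, g (A z) = act 4 false 0 2 (act k m p q z) := by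
    intro z
    rw [← hact z]; simp
  obtain ⟨α, hα, m', β, hgf⟩ := iso_classify g
  have hrel2 : ∀ z, α * cj m' (zt ^ k0 * z + pt (3 * (m0 - n0) : ℤ) (3 * (m0 + 2 * n0) : ℤ)) + β =
      zt ^ 4 * (zt ^ k * cj m z + pt p q) + pt (0 : ℤ) (2 : ℤ) := by
    intro z
    have := hrel z
    rw [hgf, hA, stdI, act_apply, act_apply, act_apply, cj_false, cj_false] at this
    exact this
  have h0 := hrel2 0
  have h1' := hrel2 1
  simp only [mul_zero, zero_add, cj_zero] at h0
  have hone : cj m 1 = 1 := by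
    have := cj_real m 1; push_cast at this; exact this
  rw [cj_add, hone, mul_one, mul_one] at h1'
  have hU : α * cj m' (zt ^ k0) = zt ^ (4 + k) := by
    rw [pow_add]; linear_combination h1' - h0
  have hα' : isU α := by
    refine isU_of_mul ?_ ⟨4 + k, rfl⟩ hU
    rw [cj_pow]; exact isU_pow (isU_cj_zt m') k0
  obtain ⟨K, hK, hαK⟩ := isU_lt hα'
  have hβ : isLat β := by
    have : β = zt ^ 4 * pt p q + pt (0 : ℤ) (2 : ℤ) +
        -(zt ^ K * cj m' (pt (3 * (m0 - n0) : ℤ) (3 * (m0 + 2 * n0) : ℤ))) := by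
      rw [← hαK]; linear_combination h0
    rw [this]
    exact isLat_add (isLat_add (isLat_zt_pow ⟨p, q, rfl⟩ 4) ⟨0, 2, rfl⟩)
      (isLat_neg (isLat_zt_pow (isLat_cj ⟨_, _, rfl⟩ m') K))
  obtain ⟨p', q', hpq⟩ := hβ
  exact ⟨K, hK, m', p', q', fun z => by rw [hgf, act_apply, hαK, hpq]⟩

/-- symmetry check. -/
def chkSym : Bool :=
  (List.range 6).all fun k => [false, true].all fun m => Pl.all fun d =>
    !(decide ((d.1 - (linC k m (-4, 5)).1) % 3 = 0 ∧ (d.2 - (linC k m (-4, 5)).2) % 3 = 0)) ||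
    !(Pl.all fun c => Pl.contains ((linC k m c).1 + (d.1 - (linC k m (-4, 5)).1),
      (linC k m c).2 + (d.2 - (linC k m (-4, 5)).2))) ||
    decide ((k = 0 ∧ m = false ∧ d = (-4, 5)) ∨ (k = 3 ∧ m = false ∧ d = (13, 4)))

set_option maxRecDepth 100000 in
lemma chkSym_true : chkSym = true := by decide +kernel

/-- the symmetry group of the tile has order two. -/
theorem sym_PP (g : ℂ ≃ᵢ ℂ) (hg : g '' PP = PP) :
    (∀ z, g z = z) ∨ (∀ z, g z = act 3 false 3 3 z) := by
  obtain ⟨k, hk, m, p, q, hact⟩ := sym_grid g hg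
  have himg : act k m p q '' PP = PP := by
    conv_rhs => rw [← hg]
    ext w; simp only [mem_image, hact]
  rw [PP_XL, image_XL Pl_ok] at himg
  have hset : {c | c ∈ Pl.map (actC k m p q)} = {c | c ∈ Pl} :=
    XX_injective (S := {c | c ∈ Pl.map (actC k m p q)}) (T := {c | c ∈ Pl})
      (ok_map Pl_ok k m p q) Pl_ok himg
  have hmem : ∀ c ∈ Pl, actC k m p q c ∈ Pl := by
    intro c hc
    have : actC k m p q c ∈ {c | c ∈ Pl.map (actC k m p q)} := List.mem_map.mpr ⟨c, hc, rfl⟩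
    rw [hset] at this
    exact this
  have hck := chkSym_true
  unfold chkSym at hck
  have g1 := List.all_eq_true.mp hck k (List.mem_range.mpr hk)
  have g2 := List.all_eq_true.mp g1 m (by cases m <;> decide)
  have g3 := List.all_eq_true.mp g2 _ (hmem (-4, 5) (by decide))
  rw [Bool.or_eq_true, Bool.or_eq_true] at g3
  rcases g3 with (g3 | g3) | g3
  · exfalso
    rw [decide_eq_true] at g3
    · simp at g3
    · simp only [actC]; omega
  · exfalso
    rw [Bool.not_eq_true', ← Bool.not_eq_true] at g3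
    apply g3
    rw [List.all_eq_true]
    intro c hc
    have := hmem c hc
    rw [List.contains_iff_mem]
    have e : ((linC k m c).1 + ((actC k m p q (-4, 5)).1 - (linC k m (-4, 5)).1),
      (linC k m c).2 + ((actC k m p q (-4, 5)).2 - (linC k m (-4, 5)).2)) = actC k m p q c := by
      simp only [actC, Prod.mk.injEq]; omega
    rw [e]; exact this
  · rcases of_decide_eq_true g3 with ⟨e1, e2, e3⟩ | ⟨e1, e2, e3⟩
    · subst e1; subst e2
      left
      simp only [actC, linC, Prod.mk.injEq, Function.iterate_zero, id] at e3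
      have hp : p = 0 := by simp at e3; omega
      have hq : q = 0 := by simp at e3; omega
      intro z
      rw [hact, act_apply, hp, hq]
      simp [pt]
    · subst e1; subst e2
      right
      have hp : p = 3 := by
        have : linC 3 false (-4, 5) = (4, -5) := by decide
        simp only [actC, this, Prod.mk.injEq] at e3; omega
      have hq : q = 3 := by
        have : linC 3 false (-4, 5) = (4, -5) := by decide
        simp only [actC, this, Prod.mk.injEq] at e3; omega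
      intro z
      rw [hact, hp, hq]

end

end Pool.Agent.Helper43.Idio
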