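import Pool.Agent.Helper43.IdioStd
import Pool.Agent.Helper43.IdioDisk
import Pool.Agent.Helper43.IdioDefs

/-!
The two-component tile and its pseudo-idiomeric tiling.
-/

namespace Pool.Agent.Helper43.Idio

open Complex Set Filter Topology

noncomputable section

/-- the translation by `9 + 9ζ`. -/
def Sh : ℂ ≃ᵢ ℂ := act 0 false 9 9
/-- the half-turn of the tile `PP`. -/
def HH : ℂ ≃ᵢ ℂ := act 3 false 3 3
/-- the half-turn swapping the two components. -/
def HT : ℂ ≃ᵢ ℂ := act 3 false 12 12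

/-- the two-component prototile. -/
def TT : Set ℂ := PP ∪ Sh '' PP

lemma Sh_apply (z : ℂ) : Sh z = z + pt 9 9 := by
  simp [Sh, act_apply]
lemma HH_apply (z : ℂ) : HH z = -z + pt 3 3 := by
  simp only [HH, act_apply, cj_false, zt_cube]; push_cast; ring
lemma HT_apply (z : ℂ) : HT z = -z + pt 12 12 := by
  simp only [HT, act_apply, cj_false, zt_cube]; push_cast; ring

lemma HH_PP : HH '' PP = PP := by
  unfold HH
  rw [PP_XL, image_XL Pl_ok]
  exact XL_congr (by decide) (by decide)

lemma image_comp_iso (f g : ℂ ≃ᵢ ℂ) (A : Set ℂ) : f '' (g '' A) = (fun z => f (g z)) '' A := by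
  rw [← image_comp]; rfl

lemma pt_add (a b c d : ℝ) : pt a b + pt c d = pt (a + c) (b + d) := by
  simp only [pt]; push_cast; ring
lemma pt_neg (a b : ℝ) : - pt a b = pt (-a) (-b) := by
  simp only [pt]; push_cast; ring

lemma HT_PP : HT '' PP = Sh '' PP := by
  conv_rhs => rw [← HH_PP]
  rw [image_comp_iso]
  congr 1
  ext z
  rw [HT_apply, Sh_apply, HH_apply, add_assoc, pt_add]; norm_num

lemma HT_Sh_PP : HT '' (Sh '' PP) = PP := by
  conv_rhs => rw [← HH_PP]
  rw [image_comp_iso]
  congr 1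
  ext z
  rw [HT_apply, Sh_apply, HH_apply, neg_add, pt_neg, add_assoc, pt_add]; norm_num

lemma HT_TT : HT '' TT = TT := by
  unfold TT
  rw [image_union, HT_PP, HT_Sh_PP, union_comm]

lemma PP_connected : IsConnected PP := by
  obtain ⟨h⟩ := PP_disk
  rw [isConnected_iff_connectedSpace]
  have : ConnectedSpace (Metric.closedBall (0 : ℂ) 1) := by
    rw [← isConnected_iff_connectedSpace]
    exact (convex_closedBall 0 1).isConnected ⟨0, by simp⟩
  exact h.symm.surjective.connectedSpace h.symm.continuous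

lemma isClosed_image (g : ℂ ≃ᵢ ℂ) {A : Set ℂ} (hA : IsClosed A) : IsClosed (g '' A) :=
  g.toHomeomorph.isClosedMap _ hA

lemma comp_iff {C1 C2 : Set ℂ} (h1 : IsClosed C1) (h2 : IsClosed C2) (c1 : IsConnected C1)
    (c2 : IsConnected C2) (hd : Disjoint C1 C2) (C : Set ℂ) :
    IsComponent C (C1 ∪ C2) ↔ C = C1 ∨ C = C2 := by
  have key : ∀ D1 D2 : Set ℂ, IsClosed D1 → IsClosed D2 → IsConnected D1 → Disjoint D1 D2 →
      ∀ x ∈ D1, connectedComponentIn (D1 ∪ D2) x = D1 := by
    intro D1 D2 hD1 hD2 hc hd x hx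
    apply subset_antisymm
    · have hpre := isPreconnected_connectedComponentIn (x := x) (F := D1 ∪ D2)
      rcases (isPreconnected_iff_subset_of_disjoint_closed.mp hpre) D1 D2 hD1 hD2
        (connectedComponentIn_subset _ _) (by rw [hd.inter_eq, inter_empty]) with h | h
      · exact h
      · exfalso
        have hx' : x ∈ connectedComponentIn (D1 ∪ D2) x :=
          mem_connectedComponentIn (Or.inl hx)
        exact Set.disjoint_left.mp hd hx (h hx')
    · exact hc.isPreconnected.subset_connectedComponentIn hx subset_union_left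
  constructor
  · rintro ⟨x, hx | hx, rfl⟩
    · left; exact key C1 C2 h1 h2 c1 hd x hx
    · right; rw [union_comm]; exact key C2 C1 h2 h1 c2 hd.symm x hx
  · rintro (rfl | rfl)
    · obtain ⟨x, hx⟩ := c1.nonempty
      exact ⟨x, Or.inl hx, (key C C2 h1 h2 c1 hd x hx).symm⟩
    · obtain ⟨x, hx⟩ := c2.nonempty
      refine ⟨x, Or.inr hx, ?_⟩
      rw [union_comm]; exact (key C C1 h2 h1 c2 hd.symm x hx).symm

lemma PP_Sh_disjoint : Disjoint PP (Sh '' PP) := by
  rw [Set.disjoint_left]
  rintro z hz ⟨w, hw, rfl⟩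
  have h1 := ((mem_PP_iff _).mp hz).2.1
  have h2 := ((mem_PP_iff _).mp hw).1
  rw [Sh_apply, cx_add, cy_add, cx_pt, cy_pt] at h1
  linarith

lemma TT_comp (g : ℂ ≃ᵢ ℂ) (C : Set ℂ) :
    IsComponent C (g '' TT) ↔ C = g '' PP ∨ C = g '' (Sh '' PP) := by
  unfold TT
  rw [image_union]
  refine comp_iff (isClosed_image g isClosed_PP) (isClosed_image g (isClosed_image Sh isClosed_PP))
    (PP_connected.image _ g.continuous.continuousOn)
    ((PP_connected.image _ Sh.continuous.continuousOn).image _ g.continuous.continuousOn) ?_ C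
  exact (disjoint_image_iff g.injective).mpr PP_Sh_disjoint

/-- parity class -/
def par (k : ℕ) (m n : ℤ) : ℤ := if k = 1 then n else m
/-- shift direction, first coordinate -/
def ex (k : ℕ) : ℤ := if k = 0 then 3 else if k = 1 then 0 else -3
/-- shift direction, second coordinate -/
def ey (k : ℕ) : ℤ := if k = 0 then 0 else 3

lemma stdI_apply (k : ℕ) (m n : ℤ) (z : ℂ) :
    stdI k m n z = zt ^ k * z + pt (3 * (m - n) : ℤ) (3 * (m + 2 * n) : ℤ) := rfl

lemma zt_mul_pt (x y : ℝ) : zt * pt x y = pt (-y) (x + y) := by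
  apply ext_c
  · rw [cx_zt_mul]; simp
  · rw [cy_zt_mul]; simp

lemma stdI_Sh {k : ℕ} (hk : k < 3) (m n : ℤ) (z : ℂ) :
    stdI k m n (Sh z) = stdI k (m + ex k) (n + ey k) z := by
  rw [Sh_apply, stdI_apply, stdI_apply, mul_add]
  rw [add_assoc]
  congr 1
  interval_cases k
  · rw [pow_zero, one_mul, pt_add]; simp only [ex, ey]; push_cast; norm_num; congr 1 <;> ring
  · rw [pow_one, zt_mul_pt, pt_add]; simp only [ex, ey]; push_cast; norm_num; congr 1 <;> ring
  · rw [show zt ^ 2 = zt * zt by ring, mul_assoc, zt_mul_pt, zt_mul_pt, pt_add]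
    simp only [ex, ey]; push_cast; norm_num; congr 1 <;> ring

lemma stdI_TT {k : ℕ} (hk : k < 3) (m n : ℤ) :
    stdI k m n '' TT = stdI k m n '' PP ∪ stdI k (m + ex k) (n + ey k) '' PP := by
  unfold TT
  rw [image_union, image_comp_iso]
  congr 1
  ext w; simp only [mem_image, stdI_Sh hk]

lemma par_shift {k : ℕ} (hk : k < 3) (m n : ℤ) :
    par k (m + ex k) (n + ey k) = par k m n + 3 ∨ par k (m + ex k) (n + ey k) = par k m n - 3 := by
  interval_cases k <;> simp [par, ex, ey] <;> omega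

/-- the pseudo-idiomeric tiling. -/
def T0 : Set (Set ℂ) := {A | ∃ k < 3, ∃ m n : ℤ, Even (par k m n) ∧ A = stdI k m n '' TT}

lemma stdI_TT_XL {k : ℕ} (hk : k < 3) (m n : ℤ) :
    stdI k m n '' TT = XL (Pl.map (stdC k m n) ++ Pl.map (stdC k (m + ex k) (n + ey k))) := by
  rw [stdI_TT hk, stdI_image, stdI_image]
  ext z
  simp only [XL, XX, mem_union, mem_ofPred_eq, List.mem_append]
  constructor
  · rintro (⟨c, h1, h2⟩ | ⟨c, h1, h2⟩)
    · exact ⟨c, Or.inl h1, h2⟩
    · exact ⟨c, Or.inr h1, h2⟩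
  · rintro ⟨c, h1 | h1, h2⟩
    · exact Or.inl ⟨c, h1, h2⟩
    · exact Or.inr ⟨c, h1, h2⟩

lemma T0_tiling : IsTiling T0 := by
  refine ⟨?_, ?_, ?_, ?_⟩
  · have : T0 ⊆ range (fun p : ℕ × ℤ × ℤ => stdI p.1 p.2.1 p.2.2 '' TT) := by
      rintro A ⟨k, hk, m, n, -, rfl⟩
      exact ⟨(k, m, n), rfl⟩
    exact (countable_range _).mono this
  · rintro A ⟨k, hk, m, n, -, rfl⟩
    apply isClosed_image
    exact isClosed_PP.union (isClosed_image Sh isClosed_PP)
  · rw [eq_univ_iff_forall]
    intro z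
    obtain ⟨C, ⟨k, hk, m, n, rfl⟩, hz⟩ := P0_fam.cover z
    by_cases hpar : Even (par k m n)
    · refine ⟨stdI k m n '' TT, ⟨k, hk, m, n, hpar, rfl⟩, ?_⟩
      rw [stdI_TT hk]; exact Or.inl hz
    · refine ⟨stdI k (m - ex k) (n - ey k) '' TT, ⟨k, hk, m - ex k, n - ey k, ?_, rfl⟩, ?_⟩
      · have := par_shift hk (m - ex k) (n - ey k)
        rw [sub_add_cancel, sub_add_cancel] at this
        rw [Int.even_iff] at hpar ⊢
        omega
      · rw [stdI_TT hk, sub_add_cancel, sub_add_cancel]; exact Or.inr hz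
  · rintro A ⟨k1, hk1, m1, n1, hp1, rfl⟩ B ⟨k2, hk2, m2, n2, hp2, rfl⟩ hne
    rw [stdI_TT_XL hk1, stdI_TT_XL hk2] at *
    refine disjoint_interior_XX ?_ ?_ ?_
    · intro c hc
      rcases List.mem_append.mp hc with h | h
      · exact stdC_ok _ _ _ Pl_ok c h
      · exact stdC_ok _ _ _ Pl_ok c h
    · intro c hc
      rcases List.mem_append.mp hc with h | h
      · exact stdC_ok _ _ _ Pl_ok c h
      · exact stdC_ok _ _ _ Pl_ok c h
    · rw [Set.disjoint_left]
      intro c hc1 hc2
      apply hne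
      have hshift1 := par_shift hk1 m1 n1
      have hshift2 := par_shift hk2 m2 n2
      rw [Int.even_iff] at hp1 hp2
      rcases List.mem_append.mp hc1 with h | h <;> rcases List.mem_append.mp hc2 with h' | h' <;>
        obtain ⟨d1, hd1, e1⟩ := List.mem_map.mp h <;> obtain ⟨d2, hd2, e2⟩ := List.mem_map.mp h' <;>
        obtain ⟨g1, -, g2, g3⟩ := std_unique hk1 hk2 hd1 hd2 (e1.trans e2.symm)
      · subst g1; subst g2; subst g3; rfl
      · exfalso
        subst g1; subst g2; subst g3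
        omega
      · exfalso
        subst g1; rw [← g2, ← g3] at hp2
        omega
      · subst g1
        have h1 : m1 = m2 := by linarith
        have h2 : n1 = n2 := by linarith
        subst h1; subst h2; rfl

end

end Pool.Agent.Helper43.Idio
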