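import Mathlib

/-!
# MP_dd6e79_al, Q1: negative answer

There are strictly increasing functions `f₁ f₂ : ℕ → ℕ`, both lying between `n ^ 2` and `2 ^ n`
(in the sense of `⪯`), with `f₁ ≁ n ^ 2` and `f₂ ≁ 2 ^ n`, such that for every finitely presented
semigroup `S` and every finite subset `X` of `S`, the growth function of `X` is eventually at least
`f₁`, or is eventually at most `f₂`.
-/

namespace Pool.Agent.Helper43.SemigroupGrowth

open Filter

/-- The set of the elements of the semigroup `S` represented by nonempty words of length at most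
`n` over the finite set `X`. -/
def ball {S : Type*} [Semigroup S] (X : Finset S) (n : ℕ) : Set S :=
  {s | ∃ w : FreeSemigroup X, w.length ≤ n ∧ FreeSemigroup.lift (fun x : X => (x : S)) w = s}

/-- The growth function of the finite set `X` in the semigroup `S`. -/
noncomputable def growth {S : Type*} [Semigroup S] (X : Finset S) (n : ℕ) : ℕ :=
  (ball X n).ncard

/-- `f ⪯ g`: there is a constant `C ≥ 1` with `f n ≤ C * g (C * n)` for all `n`. -/
def Dom (f g : ℕ → ℕ) : Prop := ∃ C : ℕ, 1 ≤ C ∧ ∀ n, f n ≤ C * g (C * n)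

/-- `f ∼ g`. -/
def Equi (f g : ℕ → ℕ) : Prop := Dom f g ∧ Dom g f

/-- A semigroup is finitely presented if it is isomorphic to the quotient of a free semigroup of
finite rank by the congruence generated by a finite set of pairs of words. -/
def FinPres (S : Type*) [Semigroup S] : Prop :=
  ∃ (k : ℕ) (R : Finset (FreeSemigroup (Fin k) × FreeSemigroup (Fin k))),
    Nonempty (S ≃* (conGen fun u v => (u, v) ∈ R).Quotient)

/-! ### Growth functions are monotone and submultiplicative -/

section growth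

variable {S : Type*} [Semigroup S] (X : Finset S)

lemma ball_mono {m n : ℕ} (h : m ≤ n) : ball X m ⊆ ball X n := by
  rintro s ⟨w, hw, rfl⟩
  exact ⟨w, hw.trans h, rfl⟩

lemma ball_zero : ball X 0 = ∅ := by
  ext s
  constructor
  swap
  · intro h; exact h.elim
  rintro ⟨w, hw, -⟩
  simp [FreeSemigroup.length] at hw

/-- An element of `ball X (m + n)` is in `ball X m`, or in `ball X n`, or a product. -/
lemma ball_add (m n : ℕ) :
    ball X (m + n) ⊆ ball X m ∪ ball X n ∪ Set.image2 (· * ·) (ball X m) (ball X n) := by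
  rintro s ⟨w, hw, rfl⟩
  by_cases hm : w.length ≤ m
  · exact Or.inl (Or.inl ⟨w, hm, rfl⟩)
  by_cases hm0 : m = 0
  · subst hm0
    exact Or.inl (Or.inr ⟨w, by simpa using hw, rfl⟩)
  obtain ⟨a, l⟩ := w
  simp only [FreeSemigroup.length, not_le] at hm hw
  -- split the word after `m` letters
  have hl : m - 1 < l.length := by omega
  right
  have hsplit : (⟨a, l⟩ : FreeSemigroup X)
      = ⟨a, l.take (m - 1)⟩ * ⟨l[m-1], l.drop m⟩ := by
    rw [FreeSemigroup.mk_mul_mk]
    congr 1
    have h1 : l[m-1] :: l.drop m = l.drop (m - 1) := by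
      have := List.drop_eq_getElem_cons hl
      rw [this]
      congr 2
      omega
    rw [h1, List.take_append_drop]
  refine ⟨_, ⟨⟨a, l.take (m - 1)⟩, ?_, rfl⟩, _, ⟨⟨l[m-1], l.drop m⟩, ?_, rfl⟩, ?_⟩
  · simp only [FreeSemigroup.length, List.length_take]; omega
  · simp only [FreeSemigroup.length, List.length_drop]; omega
  · simp only []
    rw [← map_mul, ← hsplit]

lemma ball_one : ball X 1 ⊆ X := by
  rintro s ⟨w, hw, rfl⟩
  obtain ⟨a, l⟩ := w
  simp only [FreeSemigroup.length] at hw
  have : l = [] := List.eq_nil_of_length_eq_zero (by omega)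
  subst this
  have : FreeSemigroup.lift (fun x : X => (x : S)) ⟨a, []⟩ = a := rfl
  rw [this]
  exact a.2

lemma ball_finite (n : ℕ) : (ball X n).Finite := by
  induction n with
  | zero => rw [ball_zero]; exact Set.finite_empty
  | succ n ih =>
    have h1 : (ball X 1).Finite := (X.finite_toSet).subset (ball_one X)
    exact ((ih.union h1).union (ih.image2 _ h1)).subset (ball_add X n 1)

lemma growth_mono : Monotone (growth X) := fun _ _ h =>
  Set.ncard_le_ncard (ball_mono X h) (ball_finite X _)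

lemma growth_submul (m n : ℕ) :
    1 + growth X (m + n) ≤ (1 + growth X m) * (1 + growth X n) := by
  have h1 : growth X (m + n) ≤ growth X m + growth X n + growth X m * growth X n := by
    unfold growth
    have hf := (((ball_finite X m).union (ball_finite X n)).union
      ((ball_finite X m).image2 (· * ·) (ball_finite X n)))
    refine (Set.ncard_le_ncard (ball_add X m n) hf).trans ?_
    refine (Set.ncard_union_le _ _).trans ?_
    refine Nat.add_le_add (Set.ncard_union_le _ _) ?_
    rw [← Set.image_prod, ← Set.ncard_prod]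
    exact Set.ncard_image_le ((ball_finite X m).prod (ball_finite X n))
  nlinarith

end growth

/-! ### Growth functions and isomorphisms -/

lemma ball_map {S T : Type*} [Semigroup S] [Semigroup T] [DecidableEq T] (e : S ≃* T)
    (X : Finset S) (n : ℕ) : ball (X.image e) n = e '' ball X n := by
  ext t
  constructor
  · rintro ⟨w, hw, rfl⟩
    -- pull back the word
    have hpb : ∀ y : (X.image e : Finset T), e.symm y ∈ X := by
      rintro ⟨y, hy⟩
      obtain ⟨x, hx, rfl⟩ := Finset.mem_image.1 hy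
      simpa using hx
    let φ : ↥(X.image e) → X := fun y => ⟨e.symm y, hpb y⟩
    refine ⟨FreeSemigroup.lift (fun x : X => (x : S)) (FreeSemigroup.map φ w),
      ⟨FreeSemigroup.map φ w, by rwa [FreeSemigroup.length_map], rfl⟩, ?_⟩
    have : (e : S →ₙ* T).comp ((FreeSemigroup.lift (fun x : X => (x : S))).comp
        (FreeSemigroup.map φ)) = FreeSemigroup.lift (fun x : (X.image e : Finset T) => (x : T)) := by
      apply FreeSemigroup.hom_ext
      funext y
      simp [φ]
    exact DFunLike.congr_fun this w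
  · rintro ⟨s, ⟨w, hw, rfl⟩, rfl⟩
    let φ : X → ↥(X.image e) := fun x => ⟨e x, Finset.mem_image_of_mem e x.2⟩
    refine ⟨FreeSemigroup.map φ w, by rwa [FreeSemigroup.length_map], ?_⟩
    have : (FreeSemigroup.lift (fun x : (X.image e : Finset T) => (x : T))).comp
        (FreeSemigroup.map φ) = (e : S →ₙ* T).comp (FreeSemigroup.lift (fun x : X => (x : S))) := by
      apply FreeSemigroup.hom_ext
      funext y
      simp [φ]
    exact DFunLike.congr_fun this w

lemma growth_map {S T : Type*} [Semigroup S] [Semigroup T] [DecidableEq T] (e : S ≃* T)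
    (X : Finset S) (n : ℕ) : growth (X.image e) n = growth X n := by
  unfold growth
  rw [ball_map, Set.ncard_image_of_injective _ e.injective]

/-! ### The diagonal argument -/

lemma diagonal (Q : ℕ → ℕ → Prop) (h : ∀ j, ∀ᶠ n in atTop, Q j n) :
    ∃ J : ℕ → ℕ, Monotone J ∧ Tendsto J atTop atTop ∧ ∀ᶠ n in atTop, Q (J n) n := by
  choose N hN using fun j => eventually_atTop.1 (h j)
  -- thresholds
  let φ : ℕ → ℕ := fun j => ∑ i ∈ Finset.range (j + 1), (N i + 1)
  have hφN : ∀ j, N j ≤ φ j := fun j =>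
    (Nat.le_succ _).trans (Finset.single_le_sum (f := fun i => N i + 1) (fun _ _ => Nat.zero_le _)
      (Finset.self_mem_range_succ j))
  have hφ : Monotone φ := fun a b hab => Finset.sum_le_sum_of_subset
    (Finset.range_subset_range.2 (by omega))
  refine ⟨fun n => Nat.findGreatest (fun j => φ j ≤ n) n, ?_, ?_, ?_⟩
  · intro a b hab
    exact Nat.findGreatest_mono (fun j hj => le_trans hj hab) hab
  · rw [tendsto_atTop]
    intro b
    filter_upwards [eventually_ge_atTop (max (φ b) b)] with n hn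
    exact Nat.le_findGreatest ((le_max_right _ _).trans hn) ((le_max_left _ _).trans hn)
  · filter_upwards [eventually_ge_atTop (φ 0)] with n hn
    have : φ (Nat.findGreatest (fun j => φ j ≤ n) n) ≤ n :=
      Nat.findGreatest_spec (P := fun j => φ j ≤ n) (Nat.zero_le n) hn
    exact hN _ n ((hφN _).trans this)

/-- `f` has subexponential growth. -/
def SubExp (f : ℕ → ℕ) : Prop := ∀ p : ℕ, ∀ᶠ n in atTop, f n ^ p ≤ 2 ^ n

lemma subExp_pow (k : ℕ) : SubExp (fun n => n ^ k) := by
  intro p
  have h : Tendsto (fun n : ℕ => (n : ℝ) ^ (k * p) / 2 ^ n) atTop (nhds 0) :=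
    tendsto_pow_const_div_const_pow_of_one_lt (k * p) (by norm_num)
  filter_upwards [h.eventually (gt_mem_nhds (zero_lt_one))] with n hn
  rw [div_lt_one (by positivity)] at hn
  have : ((n ^ k) ^ p : ℕ) < 2 ^ n := by
    rw [← pow_mul]
    exact_mod_cast hn
  exact this.le

lemma SubExp.add {f g : ℕ → ℕ} (hf : SubExp f) (hg : SubExp g) : SubExp (fun n => f n + g n) := by
  intro p
  filter_upwards [hf (2 * p), hg (2 * p), eventually_ge_atTop (2 * p)] with n h1 h2 h3
  have h4 : (f n + g n) ^ (2 * p) ≤ (2 ^ n) ^ 2 := by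
    calc (f n + g n) ^ (2 * p) ≤ (2 * max (f n) (g n)) ^ (2 * p) := by
          apply Nat.pow_le_pow_left
          have := le_max_left (f n) (g n)
          have := le_max_right (f n) (g n)
          omega
      _ = 2 ^ (2 * p) * max (f n) (g n) ^ (2 * p) := mul_pow _ _ _
      _ ≤ 2 ^ n * 2 ^ n := by
          apply Nat.mul_le_mul
          · exact Nat.pow_le_pow_right (by norm_num) h3
          · rcases le_total (f n) (g n) with h | h
            · rwa [max_eq_right h]
            · rwa [max_eq_left h]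
      _ = (2 ^ n) ^ 2 := by ring
  rw [mul_comm 2 p, pow_mul] at h4
  exact (Nat.pow_le_pow_iff_left (by norm_num)).1 h4

lemma SubExp.sum {ι : Type*} (s : Finset ι) (f : ι → ℕ → ℕ) (h : ∀ i ∈ s, SubExp (f i)) :
    SubExp (fun n => ∑ i ∈ s, f i n) := by
  classical
  induction s using Finset.induction_on with
  | empty =>
    intro p
    filter_upwards with n
    simp only [Finset.sum_empty]
    calc 0 ^ p ≤ 1 := by rcases p with _ | p <;> simp
      _ ≤ 2 ^ n := Nat.one_le_two_pow
  | insert a s ha ih =>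
    have h1 := h a (Finset.mem_insert_self a s)
    have h2 := ih (fun i hi => h i (Finset.mem_insert_of_mem hi))
    have := h1.add h2
    intro p
    filter_upwards [this p] with n hn
    rwa [Finset.sum_insert ha]

/-- A submultiplicative function which is infinitely often at most quadratic is
subexponential. -/
lemma subExp_of_submul {f : ℕ → ℕ} (hmono : Monotone f)
    (hsub : ∀ m n, 1 + f (m + n) ≤ (1 + f m) * (1 + f n)) (C : ℕ)
    (hC : ∃ᶠ n in atTop, f n < C * n ^ 2) : SubExp f := by
  intro p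
  -- pick a scale `N` with `(1 + f N) ^ (2 p) ≤ 2 ^ N`
  have h1 : SubExp (fun n => C * n ^ 2) := by
    have := SubExp.sum (Finset.range C) (fun _ n => n ^ 2) (fun i _ => subExp_pow 2)
    simpa using this
  obtain ⟨N, hN, hNC, hN1⟩ := (hC.and_eventually ((h1 (2 * p)).and (eventually_ge_atTop 1))).exists
  have hN2 : (1 + f N) ^ (2 * p) ≤ 2 ^ N :=
    (Nat.pow_le_pow_left (show 1 + f N ≤ C * N ^ 2 by omega) _).trans hNC
  -- bound at multiples of `N`
  have h2 : ∀ q, 1 + f (q * N) ≤ (1 + f N) ^ q * (1 + f 0) := by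
    intro q
    induction q with
    | zero => simp
    | succ q ih =>
      calc 1 + f ((q + 1) * N) = 1 + f (N + q * N) := by ring_nf
        _ ≤ (1 + f N) * (1 + f (q * N)) := hsub _ _
        _ ≤ (1 + f N) * ((1 + f N) ^ q * (1 + f 0)) := Nat.mul_le_mul_left _ ih
        _ = (1 + f N) ^ (q + 1) * (1 + f 0) := by ring
  have hconst : ∃ M, (1 + f 0) ^ (2 * p) ≤ 2 ^ M :=
    ⟨(1 + f 0) ^ (2 * p), (Nat.lt_two_pow_self).le⟩
  obtain ⟨M, hM⟩ := hconst
  filter_upwards [eventually_ge_atTop (M + N)] with n hn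
  -- `n ≤ q N` with `q = n / N + 1`
  have h3 : n ≤ (n / N + 1) * N := by
    have := Nat.div_add_mod n N
    have := Nat.mod_lt n (show N > 0 by omega)
    nlinarith
  have h4 : (f n) ^ (2 * p) ≤ (2 ^ n) ^ 2 := by
    calc (f n) ^ (2 * p) ≤ (1 + f ((n / N + 1) * N)) ^ (2 * p) :=
          Nat.pow_le_pow_left (by have := hmono h3; omega) _
      _ ≤ ((1 + f N) ^ (n / N + 1) * (1 + f 0)) ^ (2 * p) := Nat.pow_le_pow_left (h2 _) _
      _ = ((1 + f N) ^ (2 * p)) ^ (n / N + 1) * (1 + f 0) ^ (2 * p) := by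
          rw [mul_pow, ← pow_mul, ← pow_mul, mul_comm (n / N + 1)]
      _ ≤ (2 ^ N) ^ (n / N + 1) * 2 ^ M :=
          Nat.mul_le_mul (Nat.pow_le_pow_left hN2 _) hM
      _ = 2 ^ (N * (n / N) + N + M) := by rw [← pow_mul, ← pow_add]; ring_nf
      _ ≤ 2 ^ (n * 2) := by
          apply Nat.pow_le_pow_right (by norm_num)
          have := Nat.mul_div_le n N
          omega
      _ = (2 ^ n) ^ 2 := by rw [pow_mul]
  rw [mul_comm 2 p, pow_mul] at h4
  exact (Nat.pow_le_pow_iff_left (by norm_num)).1 h4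

lemma dom_of_eventually_le {f g : ℕ → ℕ} (hg : ∀ n, 1 ≤ n → 1 ≤ g n) (hg' : Monotone g)
    (hf : f 0 ≤ g 0) (h : ∀ᶠ n in atTop, f n ≤ g n) : Dom f g := by
  obtain ⟨N, hN⟩ := eventually_atTop.1 h
  refine ⟨1 + ∑ i ∈ Finset.range N, f i, by omega, fun n => ?_⟩
  rcases Nat.eq_zero_or_pos n with rfl | hn
  · simp only [mul_zero]
    exact hf.trans (Nat.le_mul_of_pos_left _ (by omega))
  have h1 : n ≤ (1 + ∑ i ∈ Finset.range N, f i) * n := Nat.le_mul_of_pos_left _ (by omega)
  have h2 : g n ≤ g ((1 + ∑ i ∈ Finset.range N, f i) * n) := hg' h1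
  rcases le_or_gt N n with h3 | h3
  · exact ((hN n h3).trans h2).trans (Nat.le_mul_of_pos_left _ (by omega))
  · have h4 : f n ≤ ∑ i ∈ Finset.range N, f i :=
      Finset.single_le_sum (fun _ _ => Nat.zero_le _) (Finset.mem_range.2 h3)
    have h5 : 1 ≤ g ((1 + ∑ i ∈ Finset.range N, f i) * n) := (hg n hn).trans h2
    calc f n ≤ (1 + ∑ i ∈ Finset.range N, f i) * 1 := by omega
      _ ≤ _ := Nat.mul_le_mul_left _ h5

/-- The abstract statement: for every sequence of monotone submultiplicative functions there are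
`f₁` and `f₂`. -/
lemma abstract_statement (F : ℕ → ℕ → ℕ) (hmono : ∀ i, Monotone (F i))
    (hsub : ∀ i m n, 1 + F i (m + n) ≤ (1 + F i m) * (1 + F i n)) :
    ∃ f₁ f₂ : ℕ → ℕ, StrictMono f₁ ∧ StrictMono f₂ ∧
      Dom (fun n => n ^ 2) f₁ ∧ Dom f₁ (fun n => 2 ^ n) ∧
      Dom (fun n => n ^ 2) f₂ ∧ Dom f₂ (fun n => 2 ^ n) ∧
      ¬ Equi f₁ (fun n => n ^ 2) ∧ ¬ Equi f₂ (fun n => 2 ^ n) ∧
      ∀ i, (∀ᶠ n in atTop, f₁ n ≤ F i n) ∨ (∀ᶠ n in atTop, F i n ≤ f₂ n) := by
  classical
  -- type A: superquadratic functions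
  let A : ℕ → Prop := fun i => ∀ C : ℕ, ∀ᶠ n in atTop, C * n ^ 2 ≤ F i n
  have hB : ∀ i, ¬ A i → SubExp (F i) := by
    intro i hi
    simp only [A, not_forall, Filter.not_eventually, not_le] at hi
    obtain ⟨C, hC⟩ := hi
    exact subExp_of_submul (hmono i) (hsub i) C hC
  -- the first function
  obtain ⟨J, hJm, hJt, hJ⟩ := diagonal
    (fun j n => (∀ i ≤ j, A i → (j + 1) * n ^ 2 ≤ F i n) ∧ (j + 1) * n ^ 2 ≤ 2 ^ n) (by
      intro j
      refine Filter.Eventually.and ?_ ?_
      · have : ∀ i ∈ Finset.range (j + 1), ∀ᶠ n in atTop, A i → (j + 1) * n ^ 2 ≤ F i n := by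
          intro i _
          by_cases hi : A i
          · filter_upwards [hi (j + 1)] with n hn _ using hn
          · filter_upwards with n h using absurd h hi
        filter_upwards [(Filter.eventually_all_finset (Finset.range (j + 1))).2 this] with n hn
        intro i hi
        exact hn i (Finset.mem_range.2 (by omega))
      · have h1 : SubExp (fun n => (j + 1) * n ^ 2) := by
          have := SubExp.sum (Finset.range (j + 1)) (fun _ n => n ^ 2) (fun i _ => subExp_pow 2)
          simpa using this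
        filter_upwards [h1 1] with n hn
        simpa using hn)
  -- the second function
  let H : ℕ → ℕ → ℕ := fun j n => n ^ 2 + ∑ i ∈ Finset.range (j + 1), if A i then 0 else F i n
  have hH : ∀ j, SubExp (H j) := by
    intro j
    refine (subExp_pow 2).add (SubExp.sum _ _ ?_)
    intro i _
    by_cases hi : A i
    · simp only [hi, if_true]
      have := SubExp.sum (∅ : Finset ℕ) (fun _ n => n) (by simp)
      simpa using this
    · simp only [hi, if_false]
      exact hB i hi
  obtain ⟨K, hKm, hKt, hK⟩ := diagonal (fun j n => H j n ^ (j + 1) ≤ 2 ^ n) (fun j => hH j (j + 1))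
  have hHm : ∀ {j j' n n' : ℕ}, j ≤ j' → n ≤ n' → H j n ≤ H j' n' := by
    intro j j' n n' hj hn
    refine Nat.add_le_add (Nat.pow_le_pow_left hn 2) ?_
    refine (Finset.sum_le_sum fun i _ => ?_).trans
      (Finset.sum_le_sum_of_subset (Finset.range_subset_range.2 (by omega)))
    by_cases hi : A i
    · simp [hi]
    · simp only [hi, if_false]
      exact hmono i hn
  have hK1 : ∀ᶠ n in atTop, H (K n) n ≤ 2 ^ n := by
    filter_upwards [hK] with n hn
    exact (Nat.le_self_pow (by omega) _).trans hn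
  refine ⟨fun n => (J n + 1) * n ^ 2, fun n => H (K n) n + n, ?_, ?_, ?_, ?_, ?_, ?_, ?_, ?_, ?_⟩
  · -- strict monotonicity of `f₁`
    apply strictMono_nat_of_lt_succ
    intro n
    have h1 : J n ≤ J (n + 1) := hJm (Nat.le_succ n)
    have h2 : n ^ 2 < (n + 1) ^ 2 := Nat.pow_lt_pow_left (Nat.lt_succ_self n) (by norm_num)
    calc (J n + 1) * n ^ 2 < (J n + 1) * (n + 1) ^ 2 := Nat.mul_lt_mul_of_pos_left h2 (by omega)
      _ ≤ (J (n + 1) + 1) * (n + 1) ^ 2 := Nat.mul_le_mul_right _ (by omega)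
  · -- strict monotonicity of `f₂`
    apply strictMono_nat_of_lt_succ
    intro n
    have h1 : H (K n) n ≤ H (K (n + 1)) (n + 1) := hHm (hKm (Nat.le_succ n)) (Nat.le_succ n)
    show H (K n) n + n < H (K (n + 1)) (n + 1) + (n + 1)
    omega
  · refine ⟨1, le_rfl, fun n => ?_⟩
    simp only [one_mul]
    exact Nat.le_mul_of_pos_left _ (Nat.succ_pos _)
  · apply dom_of_eventually_le
    · intro n _; exact Nat.one_le_two_pow
    · exact fun a b h => Nat.pow_le_pow_right (by norm_num) h
    · simp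
    · filter_upwards [hJ] with n hn using hn.2
  · refine ⟨1, le_rfl, fun n => ?_⟩
    simp only [one_mul, H]
    omega
  · -- `f₂ ⪯ 2 ^ n`
    obtain ⟨N, hN⟩ := eventually_atTop.1 hK1
    refine ⟨2 + ∑ i ∈ Finset.range N, (H (K i) i + i), by omega, fun n => ?_⟩
    have hn2 : n < 2 ^ n := Nat.lt_two_pow_self
    have h2 : 2 ^ n ≤ 2 ^ ((2 + ∑ i ∈ Finset.range N, (H (K i) i + i)) * n) :=
      Nat.pow_le_pow_right (by norm_num) (Nat.le_mul_of_pos_left _ (by omega))
    rcases le_or_gt N n with h3 | h3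
    · have h5 := hN n h3
      calc H (K n) n + n ≤ 2 * 2 ^ n := by omega
        _ ≤ _ := Nat.mul_le_mul (by omega) h2
    · have h4 : H (K n) n + n ≤ ∑ i ∈ Finset.range N, (H (K i) i + i) :=
        Finset.single_le_sum (f := fun i => H (K i) i + i)
          (fun _ _ => Nat.zero_le _) (Finset.mem_range.2 h3)
      have h5 : 1 ≤ 2 ^ n := Nat.one_le_two_pow
      calc H (K n) n + n ≤ (2 + ∑ i ∈ Finset.range N, (H (K i) i + i)) * 1 := by omega
        _ ≤ _ := Nat.mul_le_mul_left _ (h5.trans h2)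
  · -- `f₁ ≁ n ^ 2`
    rintro ⟨⟨C, hC1, hC⟩, -⟩
    obtain ⟨n, hn, hn1⟩ := ((hJt.eventually_ge_atTop (C ^ 3)).and (eventually_ge_atTop 1)).exists
    have h1 := hC n
    have h2 : (J n + 1) * n ^ 2 ≤ C ^ 3 * n ^ 2 := by
      calc (J n + 1) * n ^ 2 ≤ C * (C * n) ^ 2 := h1
        _ = C ^ 3 * n ^ 2 := by ring
    have h3 : J n + 1 ≤ C ^ 3 := Nat.le_of_mul_le_mul_right h2 (by positivity)
    omega
  · -- `f₂ ≁ 2 ^ n`
    rintro ⟨-, ⟨C, hC1, hC⟩⟩
    -- `f₂` is subexponential
    have hsub2 : SubExp (fun n => H (K n) n + n) := by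
      refine SubExp.add (f := fun n => H (K n) n) (g := fun n => n) ?_ (by simpa using subExp_pow 1)
      intro p
      filter_upwards [hK, hKt.eventually_ge_atTop p, eventually_ge_atTop 1] with n h1 h2 h3
      refine (Nat.pow_le_pow_right ?_ (show p ≤ K n + 1 by omega)).trans h1
      have : 1 ≤ n ^ 2 := Nat.one_le_pow _ _ h3
      show 1 ≤ n ^ 2 + _
      omega
    have hev := hsub2 (2 * C)
    obtain ⟨N, hN⟩ := eventually_atTop.1 hev
    -- choose `n` large
    set n := N + C ^ (2 * C) + 1 with hn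
    have h1 := hC n
    have hCn : n ≤ C * n := Nat.le_mul_of_pos_left _ hC1
    have h2 := hN (C * n) (by omega)
    have h3 : (2 ^ n) ^ (2 * C) ≤ C ^ (2 * C) * 2 ^ (C * n) := by
      calc (2 ^ n) ^ (2 * C) ≤ (C * (H (K (C * n)) (C * n) + C * n)) ^ (2 * C) :=
            Nat.pow_le_pow_left h1 _
        _ = C ^ (2 * C) * (H (K (C * n)) (C * n) + C * n) ^ (2 * C) := mul_pow _ _ _
        _ ≤ C ^ (2 * C) * 2 ^ (C * n) := Nat.mul_le_mul_left _ h2
    have h4 : (2 ^ n) ^ (2 * C) = 2 ^ (C * n) * 2 ^ (C * n) := by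
      rw [← pow_mul, ← pow_add]; ring_nf
    rw [h4] at h3
    have h5 : 2 ^ (C * n) ≤ C ^ (2 * C) := Nat.le_of_mul_le_mul_right h3 (by positivity)
    have h6 : 2 ^ n ≤ 2 ^ (C * n) := Nat.pow_le_pow_right (by norm_num) hCn
    have h7 : n < 2 ^ n := Nat.lt_two_pow_self
    omega
  · intro i
    by_cases hi : A i
    · left
      filter_upwards [hJ, hJt.eventually_ge_atTop i] with n h1 h2
      exact h1.1 i h2 hi
    · right
      filter_upwards [hKt.eventually_ge_atTop i] with n h1
      have h2 : F i n ≤ ∑ k ∈ Finset.range (K n + 1), if A k then 0 else F k n := by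
        have := Finset.single_le_sum (f := fun k => if A k then 0 else F k n)
          (fun _ _ => Nat.zero_le _) (Finset.mem_range.2 (show i < K n + 1 by omega))
        simpa [hi] using this
      show F i n ≤ n ^ 2 + _ + n
      omega

/-- The index type of the presentations together with a finite subset. -/
abbrev Pres : Type := Σ (k : ℕ), Σ (R : Finset (FreeSemigroup (Fin k) × FreeSemigroup (Fin k))),
  Finset (conGen fun u v => (u, v) ∈ R).Quotient

/-- The growth function attached to an index. -/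
noncomputable def growthP (p : Pres) : ℕ → ℕ := growth p.2.2

instance (k : ℕ) : Countable (FreeSemigroup (Fin k)) := by
  have : Function.Injective (fun w : FreeSemigroup (Fin k) => (w.head, w.tail)) := by
    rintro ⟨a, l⟩ ⟨b, m⟩ h
    simpa using h
  exact this.countable

instance (k : ℕ) (R : Finset (FreeSemigroup (Fin k) × FreeSemigroup (Fin k))) :
    Countable (conGen fun u v => (u, v) ∈ R).Quotient :=
  Quotient.countable

theorem result : ∃ f₁ f₂ : ℕ → ℕ, StrictMono f₁ ∧ StrictMono f₂ ∧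
    Dom (fun n => n ^ 2) f₁ ∧ Dom f₁ (fun n => 2 ^ n) ∧
    Dom (fun n => n ^ 2) f₂ ∧ Dom f₂ (fun n => 2 ^ n) ∧
    ¬ Equi f₁ (fun n => n ^ 2) ∧ ¬ Equi f₂ (fun n => 2 ^ n) ∧
    ∀ (S : Type*) [Semigroup S], FinPres S → ∀ X : Finset S,
      (∀ᶠ n in atTop, f₁ n ≤ growth X n) ∨ (∀ᶠ n in atTop, growth X n ≤ f₂ n) := by
  classical
  obtain ⟨e, he⟩ := exists_surjective_nat Pres
  obtain ⟨f₁, f₂, h1, h2, h3, h4, h5, h6, h7, h8, h⟩ := abstract_statement
    (fun i => growthP (e i)) (fun i => growth_mono _) (fun i => growth_submul _)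
  refine ⟨f₁, f₂, h1, h2, h3, h4, h5, h6, h7, h8, ?_⟩
  rintro S _ ⟨k, R, ⟨φ⟩⟩ X
  obtain ⟨i, hi⟩ := he ⟨k, R, X.image φ⟩
  have h' := h i
  rw [hi] at h'
  simpa only [growthP, growth_map] using h'

end Pool.Agent.Helper43.SemigroupGrowth
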