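import Mathlib
import Pool.Agent.Helper43.FamilyConn

/-!
# The scheme for `n = 26`
-/

set_option autoImplicit false

namespace Pool.Agent.Helper43.Genus.Small

/-- classes -/
def A : Fin 14 → ZMod 2 := ![0, 0, 0, 0, 0, 0, 0, 0, 0, 0, 0, 1, 1, 1]
/-- first differences -/
def p : Fin 14 → ZMod 24 := ![1, 2, 3, 4, 6, 7, 8, 10, 15, 16, 21, 2, 4, 8]
/-- second differences -/
def q : Fin 14 → ZMod 24 := ![11, 5, 16, 23, 9, 3, 22, 13, 13, 17, 20, 10, 6, 18]
/-- third differences -/
def r : Fin 14 → ZMod 24 := ![12, 17, 5, 21, 9, 14, 18, 1, 20, 15, 7, 12, 14, 22]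
/-- differences at `x`, `y` -/
def d (w : Bool) (a : ZMod 2) : ZMod 24 := if w then 19 else (if a = 0 then 11 else 23)

/-- classes -/
def clf (z : ZMod 24) : ZMod 2 := (z.val : ZMod 2)

/-- the class homomorphism -/
def cl : ZMod 24 →+ ZMod 2 where
  toFun := clf
  map_zero' := by decide
  map_add' := by decide

lemma conn_zero (S : ZMod 24 ⊕ Bool → ZMod 24 ⊕ Bool → Prop) (hS : Equivalence S)
    (h0 : ∀ i, A i = 0 → S (Sum.inl (-r i)) (Sum.inl (p i)))
    (h1 : ∀ i, A i + cl (p i) = 0 → S (Sum.inl (-p i)) (Sum.inl (q i)))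
    (h2 : ∀ i, A i + cl (p i) + cl (q i) = 0 → S (Sum.inl (-q i)) (Sum.inl (r i)))
    (h3 : ∀ w, S (Sum.inl (-d w (0 + 1))) (Sum.inr w))
    (h4 : ∀ w, S (Sum.inr w) (Sum.inl (d w 0))) :
    ∀ l, l ≠ Sum.inl 0 → S (Sum.inr false) l := by
  have t1 : S (Sum.inr false) (Sum.inl 11) := (show S (Sum.inr false) (Sum.inl 11) from h4 false)
  have t2 : S (Sum.inr false) (Sum.inl 20) := hS.trans t1 (show S (Sum.inl 11) (Sum.inl 20) from h2 8 (by decide))
  have t3 : S (Sum.inr false) (Sum.inl 23) := hS.trans t2 (show S (Sum.inl 20) (Sum.inl 23) from h1 3 (by decide))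
  have t4 : S (Sum.inr false) (Sum.inl 10) := hS.trans t3 (show S (Sum.inl 23) (Sum.inl 10) from h0 7 (by decide))
  have t5 : S (Sum.inr false) (Sum.inl 7) := hS.trans t4 (show S (Sum.inl 10) (Sum.inl 7) from h0 5 (by decide))
  have t6 : S (Sum.inr false) (Sum.inl 2) := hS.trans t5 (show S (Sum.inl 7) (Sum.inl 2) from h0 1 (by decide))
  have t7 : S (Sum.inr false) (Sum.inl 18) := hS.trans t6 (show S (Sum.inl 2) (Sum.inl 18) from h2 6 (by decide))
  have t8 : S (Sum.inr false) (Sum.inl 9) := hS.trans t7 (show S (Sum.inl 18) (Sum.inl 9) from h1 4 (by decide))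
  have t9 : S (Sum.inr false) (Sum.inl 16) := hS.trans t8 (show S (Sum.inl 9) (Sum.inl 16) from h0 9 (by decide))
  have t10 : S (Sum.inr false) (Sum.inl 22) := hS.trans t9 (show S (Sum.inl 16) (Sum.inl 22) from h1 6 (by decide))
  have t11 : S (Sum.inr false) (Sum.inl 5) := hS.trans t10 (show S (Sum.inl 22) (Sum.inl 5) from h1 1 (by decide))
  have t12 : S (Sum.inr false) (Sum.inr true) := hS.trans t11 (show S (Sum.inl 5) (Sum.inr true) from h3 true)
  have t13 : S (Sum.inr false) (Sum.inl 19) := hS.trans t12 (show S (Sum.inr true) (Sum.inl 19) from h4 true)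
  have t14 : S (Sum.inr false) (Sum.inl 3) := hS.trans t13 (show S (Sum.inl 19) (Sum.inl 3) from h0 2 (by decide))
  have t15 : S (Sum.inr false) (Sum.inl 4) := hS.trans t14 (show S (Sum.inl 3) (Sum.inl 4) from h0 3 (by decide))
  have t16 : S (Sum.inr false) (Sum.inl 15) := hS.trans t15 (show S (Sum.inl 4) (Sum.inl 15) from h0 8 (by decide))
  have t17 : S (Sum.inr false) (Sum.inl 6) := hS.trans t16 (show S (Sum.inl 15) (Sum.inl 6) from h0 4 (by decide))
  have t18 : S (Sum.inr false) (Sum.inl 8) := hS.trans t17 (show S (Sum.inl 6) (Sum.inl 8) from h0 6 (by decide))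
  have t19 : S (Sum.inr false) (Sum.inl 17) := hS.trans t18 (show S (Sum.inl 8) (Sum.inl 17) from h1 9 (by decide))
  have t20 : S (Sum.inr false) (Sum.inl 21) := hS.trans t19 (show S (Sum.inl 17) (Sum.inl 21) from h0 10 (by decide))
  have t21 : S (Sum.inr false) (Sum.inl 14) := hS.trans t20 (show S (Sum.inl 21) (Sum.inl 14) from h2 5 (by decide))
  have t22 : S (Sum.inr false) (Sum.inl 13) := hS.trans t21 (show S (Sum.inl 14) (Sum.inl 13) from h1 7 (by decide))
  have t23 : S (Sum.inr false) (Sum.inl 12) := hS.trans t22 (show S (Sum.inl 13) (Sum.inl 12) from h2 0 (by decide))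
  have t24 : S (Sum.inr false) (Sum.inl 1) := hS.trans t23 (show S (Sum.inl 12) (Sum.inl 1) from h0 0 (by decide))
  intro l hl
  rcases l with δ | w
  · fin_cases δ
    · exact absurd rfl hl
    · exact t24
    · exact t6
    · exact t14
    · exact t15
    · exact t11
    · exact t17
    · exact t5
    · exact t18
    · exact t8
    · exact t4
    · exact t1
    · exact t23
    · exact t22
    · exact t21
    · exact t16
    · exact t9
    · exact t19
    · exact t7
    · exact t13
    · exact t2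
    · exact t20
    · exact t10
    · exact t3
  · cases w
    · exact hS.refl _
    · exact t12

lemma conn_one (S : ZMod 24 ⊕ Bool → ZMod 24 ⊕ Bool → Prop) (hS : Equivalence S)
    (h0 : ∀ i, A i = 1 → S (Sum.inl (-r i)) (Sum.inl (p i)))
    (h1 : ∀ i, A i + cl (p i) = 1 → S (Sum.inl (-p i)) (Sum.inl (q i)))
    (h2 : ∀ i, A i + cl (p i) + cl (q i) = 1 → S (Sum.inl (-q i)) (Sum.inl (r i)))
    (h3 : ∀ w, S (Sum.inl (-d w (1 + 1))) (Sum.inr w))
    (h4 : ∀ w, S (Sum.inr w) (Sum.inl (d w 1))) :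
    ∀ l, l ≠ Sum.inl 0 → S (Sum.inr false) l := by
  have t1 : S (Sum.inr false) (Sum.inl 23) := (show S (Sum.inr false) (Sum.inl 23) from h4 false)
  have t2 : S (Sum.inr false) (Sum.inl 11) := hS.trans t1 (show S (Sum.inl 23) (Sum.inl 11) from h1 0 (by decide))
  have t3 : S (Sum.inr false) (Sum.inl 1) := hS.trans t2 (show S (Sum.inl 11) (Sum.inl 1) from h2 7 (by decide))
  have t4 : S (Sum.inr false) (Sum.inl 21) := hS.trans t3 (show S (Sum.inl 1) (Sum.inl 21) from h2 3 (by decide))
  have t5 : S (Sum.inr false) (Sum.inl 16) := hS.trans t4 (show S (Sum.inl 21) (Sum.inl 16) from h1 2 (by decide))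
  have t6 : S (Sum.inr false) (Sum.inl 18) := hS.trans t5 (show S (Sum.inl 16) (Sum.inl 18) from h1 13 (by decide))
  have t7 : S (Sum.inr false) (Sum.inl 14) := hS.trans t6 (show S (Sum.inl 18) (Sum.inl 14) from h2 12 (by decide))
  have t8 : S (Sum.inr false) (Sum.inl 12) := hS.trans t7 (show S (Sum.inl 14) (Sum.inl 12) from h2 11 (by decide))
  have t9 : S (Sum.inr false) (Sum.inl 2) := hS.trans t8 (show S (Sum.inl 12) (Sum.inl 2) from h0 11 (by decide))
  have t10 : S (Sum.inr false) (Sum.inl 8) := hS.trans t9 (show S (Sum.inl 2) (Sum.inl 8) from h0 13 (by decide))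
  have t11 : S (Sum.inr false) (Sum.inl 5) := hS.trans t10 (show S (Sum.inl 8) (Sum.inl 5) from h2 2 (by decide))
  have t12 : S (Sum.inr false) (Sum.inr true) := hS.trans t11 (show S (Sum.inl 5) (Sum.inr true) from h3 true)
  have t13 : S (Sum.inr false) (Sum.inl 19) := hS.trans t12 (show S (Sum.inr true) (Sum.inl 19) from h4 true)
  have t14 : S (Sum.inr false) (Sum.inl 17) := hS.trans t13 (show S (Sum.inl 19) (Sum.inl 17) from h2 1 (by decide))
  have t15 : S (Sum.inr false) (Sum.inl 3) := hS.trans t14 (show S (Sum.inl 17) (Sum.inl 3) from h1 5 (by decide))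
  have t16 : S (Sum.inr false) (Sum.inl 20) := hS.trans t15 (show S (Sum.inl 3) (Sum.inl 20) from h1 10 (by decide))
  have t17 : S (Sum.inr false) (Sum.inl 6) := hS.trans t16 (show S (Sum.inl 20) (Sum.inl 6) from h1 12 (by decide))
  have t18 : S (Sum.inr false) (Sum.inl 22) := hS.trans t17 (show S (Sum.inl 6) (Sum.inl 22) from h2 13 (by decide))
  have t19 : S (Sum.inr false) (Sum.inl 10) := hS.trans t18 (show S (Sum.inl 22) (Sum.inl 10) from h1 11 (by decide))
  have t20 : S (Sum.inr false) (Sum.inl 4) := hS.trans t19 (show S (Sum.inl 10) (Sum.inl 4) from h0 12 (by decide))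
  have t21 : S (Sum.inr false) (Sum.inl 7) := hS.trans t20 (show S (Sum.inl 4) (Sum.inl 7) from h2 10 (by decide))
  have t22 : S (Sum.inr false) (Sum.inl 15) := hS.trans t21 (show S (Sum.inl 7) (Sum.inl 15) from h2 9 (by decide))
  have t23 : S (Sum.inr false) (Sum.inl 9) := hS.trans t22 (show S (Sum.inl 15) (Sum.inl 9) from h2 4 (by decide))
  have t24 : S (Sum.inr false) (Sum.inl 13) := hS.trans t23 (show S (Sum.inl 9) (Sum.inl 13) from h1 8 (by decide))
  intro l hl
  rcases l with δ | w
  · fin_cases δ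
    · exact absurd rfl hl
    · exact t3
    · exact t9
    · exact t15
    · exact t20
    · exact t11
    · exact t17
    · exact t21
    · exact t10
    · exact t23
    · exact t19
    · exact t2
    · exact t8
    · exact t24
    · exact t7
    · exact t22
    · exact t5
    · exact t14
    · exact t6
    · exact t13
    · exact t16
    · exact t4
    · exact t18
    · exact t1
  · cases w
    · exact hS.refl _
    · exact t12

/-- The scheme for `n = 26`. -/
def scheme : Scheme 24 where
  cl := cl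
  ι := Fin 14
  fin := inferInstance
  A := A
  p := p
  q := q
  r := r
  sum := by decide
  d := d
  cl_d := by decide
  card := by decide
  cover := by decide
  gen := by
    intro w z hz
    have h : ∀ w : Bool, ∀ z : ZMod 24, cl z = 0 →
        ∃ n : Fin 24, z = ((n : ℕ) : ZMod 24) * (d w 0 + d w 1) := by decide
    obtain ⟨n, hn⟩ := h w z hz
    refine ⟨((n : ℕ) : ℤ), ?_⟩
    rw [zsmul_eq_mul]
    push_cast
    exact hn
  conn := by
    intro a S hS h0 h1 h2 h3 h4
    have ha : a = 0 ∨ a = 1 := by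
      fin_cases a
      · exact Or.inl rfl
      · exact Or.inr rfl
    rcases ha with rfl | rfl
    · exact conn_zero S hS h0 h1 h2 h3 h4
    · exact conn_one S hS h0 h1 h2 h3 h4

end Pool.Agent.Helper43.Genus.Small
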